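import Pool.Agent.TIFS.W6
import Pool.Agent.MP_c1dca2_ag.GT.GR1a
import Pool.Agent.MP_c1dca2_ag.GT.A3b

/-!
# TIF-W7: base change of the class group and of the pairing
-/

set_option autoImplicit false
set_option linter.unusedSectionVars false

namespace Pool.Agent.TIFS

open GT Module
open SUP (len cls clm cls_mul exists_cls cls_span cls_eq_iff cls_eq_one_iff map_ne_bot clm_cls
  map_span_singleton len_mul len_top)

section clj

variable {B B' B'' : Type} [CommRing B] [IsDedekindDomain B] [CommRing B'] [IsDedekindDomain B']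
  [CommRing B''] [IsDedekindDomain B'']

theorem map_ne_bot' (φ : B →+* B') (hφ : Function.Injective φ) {I : Ideal B} (hI : I ≠ ⊥) :
    I.map φ ≠ ⊥ := by
  intro h
  apply hI
  rwa [Ideal.map_eq_bot_iff_of_injective hφ] at h

/-- the map of class groups of an injective homomorphism -/
noncomputable def clj (φ : B →+* B') (hφ : Function.Injective φ) : ClassGroup B →* ClassGroup B' where
  toFun D := cls ((exists_cls D).choose.map φ)
  map_one' := by
    have h := (exists_cls (1 : ClassGroup B)).choose_spec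
    obtain ⟨x, hx⟩ := (cls_eq_one_iff h.1).1 h.2
    rw [cls_eq_one_iff (map_ne_bot' φ hφ h.1)]
    exact ⟨φ x, by rw [hx, Ideal.map_span, Set.image_singleton]⟩
  map_mul' D D' := by
    have h := (exists_cls D).choose_spec
    have h' := (exists_cls D').choose_spec
    have h'' := (exists_cls (D * D')).choose_spec
    rw [← cls_mul (map_ne_bot' φ hφ h.1) (map_ne_bot' φ hφ h'.1), ← Ideal.map_mul,
      cls_eq_iff (map_ne_bot' φ hφ h''.1) (map_ne_bot' φ hφ (mul_ne_zero h.1 h'.1))]
    have h2 : cls (exists_cls (D * D')).choose =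
        cls ((exists_cls D).choose * (exists_cls D').choose) := by
      rw [h''.2, cls_mul h.1 h'.1, h.2, h'.2]
    obtain ⟨x, y, hx, hy, hxy⟩ := (cls_eq_iff h''.1 (mul_ne_zero h.1 h'.1)).1 h2
    refine ⟨φ x, φ y, (map_ne_zero_iff φ hφ).2 hx, (map_ne_zero_iff φ hφ).2 hy, ?_⟩
    have h3 : ∀ z : B, Ideal.span {φ z} = (Ideal.span {z}).map φ := fun z => by
      rw [Ideal.map_span, Set.image_singleton]
    rw [h3, h3, ← Ideal.map_mul, ← Ideal.map_mul, hxy]

theorem clj_cls (φ : B →+* B') (hφ : Function.Injective φ) {I : Ideal B} (hI : I ≠ ⊥) :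
    clj φ hφ (cls I) = cls (I.map φ) := by
  have h := (exists_cls (cls I)).choose_spec
  change cls ((exists_cls (cls I)).choose.map φ) = _
  obtain ⟨x, y, hx, hy, hxy⟩ := (cls_eq_iff h.1 hI).1 h.2
  rw [cls_eq_iff (map_ne_bot' φ hφ h.1) (map_ne_bot' φ hφ hI)]
  refine ⟨φ x, φ y, (map_ne_zero_iff φ hφ).2 hx, (map_ne_zero_iff φ hφ).2 hy, ?_⟩
  have h3 : ∀ z : B, Ideal.span {φ z} = (Ideal.span {z}).map φ := fun z => by
    rw [Ideal.map_span, Set.image_singleton]
  rw [h3, h3, ← Ideal.map_mul, ← Ideal.map_mul, hxy]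

theorem clj_clj (φ : B →+* B') (hφ : Function.Injective φ) (φ' : B' →+* B'')
    (hφ' : Function.Injective φ') (φ'' : B →+* B'') (hφ'' : Function.Injective φ'')
    (h : ∀ b, φ'' b = φ' (φ b)) (D : ClassGroup B) :
    clj φ' hφ' (clj φ hφ D) = clj φ'' hφ'' D := by
  obtain ⟨I, hI, rfl⟩ := exists_cls D
  rw [clj_cls φ hφ hI, clj_cls φ' hφ' (map_ne_bot' φ hφ hI), clj_cls φ'' hφ'' hI, Ideal.map_map]
  have h2 : φ'.comp φ = φ'' := by
    ext b
    exact (h b).symm
  rw [h2]

theorem clj_id (φ : B →+* B) (hφ : Function.Injective φ) (h : ∀ b, φ b = b) (D : ClassGroup B) :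
    clj φ hφ D = D := by
  obtain ⟨I, hI, rfl⟩ := exists_cls D
  rw [clj_cls φ hφ hI]
  have h2 : φ = RingHom.id B := by
    ext b
    exact h b
  rw [h2, Ideal.map_id]

theorem clm_eq_clj (ψ : B ≃+* B') (D : ClassGroup B) :
    clm ψ D = clj (ψ : B →+* B') ψ.injective D := by
  obtain ⟨I, hI, rfl⟩ := exists_cls D
  rw [clm_cls ψ hI, clj_cls _ _ hI]
  rfl

end clj

variable {d : ℕ} [NeZero d] {κ κ' : Type} [Field κ] [Field κ'] {T : Tab κ d} {T' : Tab κ' d}

/-- base change of a point -/
noncomputable def bp (g : κ →+* κ') (h : T.map g = T') (P : Pt T) : Pt T' := (eval_map g h P).choose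

theorem bp_apply (g : κ →+* κ') (h : T.map g = T') (P : Pt T) (b : WB T) :
    bp g h P (bmap g h b) = g (P b) := (eval_map g h P).choose_spec.1 b

theorem ker_bp (g : κ →+* κ') (h : T.map g = T') (P : Pt T) :
    (RingHom.ker P).map (bmap g h) = RingHom.ker (bp g h P) := (eval_map g h P).choose_spec.2

theorem bp_inj (g : κ →+* κ') (h : T.map g = T') : Function.Injective (bp (T := T) g h) := by
  intro P P' hPP'
  ext b
  have h1 := bp_apply g h P b
  rw [hPP', bp_apply] at h1
  exact (g.injective h1).symm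

theorem iX_map (g : κ →+* κ') (h : T.map g = T') (X : Multiset (Pt T)) :
    iX (X.map (bp g h)) = (iX X).map (bmap g h) := by
  induction X using Multiset.induction_on with
  | empty => rw [Multiset.map_zero, iX_zero, iX_zero, Ideal.map_top]
  | cons P X ih => rw [Multiset.map_cons, iX_cons, iX_cons, Ideal.map_mul, ih, ker_bp]

theorem ev_map (g : κ →+* κ') (h : T.map g = T') (u : WB T) (X : Multiset (Pt T)) :
    ev (bmap g h u) (X.map (bp g h)) = g (ev u X) := by
  induction X using Multiset.induction_on with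
  | empty => rw [Multiset.map_zero, ev_zero, ev_zero, map_one]
  | cons P X ih => rw [Multiset.map_cons, ev_cons, ev_cons, map_mul, ih, bp_apply]

variable [IsDedekindDomain (WB T)] [IsDedekindDomain (WB T')]

/-- base change of the class group -/
noncomputable def bcl (g : κ →+* κ') (h : T.map g = T') : ClassGroup (WB T) →* ClassGroup (WB T') :=
  clj (bmap g h) (bmap_inj g h g.injective)

theorem bcl_cls (g : κ →+* κ') (h : T.map g = T') {I : Ideal (WB T)} (hI : I ≠ ⊥) :
    bcl g h (cls I) = cls (I.map (bmap g h)) := clj_cls _ _ hI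

theorem bcl_iX (g : κ →+* κ') (h : T.map g = T') (X : Multiset (Pt T)) :
    bcl g h (cls (iX X)) = cls (iX (X.map (bp g h))) := by
  rw [bcl_cls g h (iX_ne X), iX_map]

theorem clm_bE (g : κ ≃+* κ) (h : T.map (g : κ →+* κ) = T) (D : ClassGroup (WB T)) :
    clm (bE g h) D = bcl (g : κ →+* κ) h D := by
  rw [clm_eq_clj, bcl]
  congr 1

/-- base change of the data -/
theorem Dat.map (g : κ →+* κ') (h : T.map g = T') {N : ℕ} {D D' : ClassGroup (WB T)}
    {X Y : Multiset (Pt T)} {f f' : WB T} (k : Dat N D D' X Y f f') :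
    Dat N (bcl g h D) (bcl g h D') (X.map (bp g h)) (Y.map (bp g h)) (bmap g h f) (bmap g h f') where
  cX := by rw [← bcl_iX, k.cX]
  cY := by rw [← bcl_iX, k.cY]
  lf := by rw [lc_bmap g h g.injective, k.lf, map_one]
  lg := by rw [lc_bmap g h g.injective, k.lg, map_one]
  hf := by rw [← Multiset.map_nsmul, iX_map, k.hf, Ideal.map_span, Set.image_singleton]
  hg := by rw [← Multiset.map_nsmul, iX_map, k.hg, Ideal.map_span, Set.image_singleton]
  dis := by
    intro P hP hP'
    rw [Multiset.mem_map] at hP hP'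
    obtain ⟨Q, hQ, rfl⟩ := hP
    obtain ⟨Q', hQ', h1⟩ := hP'
    rw [bp_inj g h h1] at hQ'
    exact k.dis Q hQ hQ'

/-- **Equivariance of the pairing.** -/
theorem e_map [IsAlgClosed κ] [IsAlgClosed κ'] (g : κ →+* κ') (h : T.map g = T') {N : ℕ}
    {D D' : ClassGroup (WB T)} (hD : D ^ N = 1) (hD' : D' ^ N = 1) :
    e N (bcl g h D) (bcl g h D') = g (e N D D') := by
  obtain ⟨X, Y, f, f', k, -⟩ := Dat.exists hD hD' 0
  rw [e_eq' k, e_eq' (k.map g h), val, val, ev_map, ev_map, Multiset.card_map, Multiset.card_map,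
    map_div₀, map_mul, map_pow, map_neg, map_one]

theorem e_clm [IsAlgClosed κ] (g : κ ≃+* κ) (h : T.map (g : κ →+* κ) = T) {N : ℕ}
    {D D' : ClassGroup (WB T)} (hD : D ^ N = 1) (hD' : D' ^ N = 1) :
    e N (clm (bE g h) D) (clm (bE g h) D') = g (e N D D') := by
  rw [clm_bE, clm_bE]
  exact e_map (g : κ →+* κ) h hD hD'

end Pool.Agent.TIFS
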