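import Pool.Agent.TIFS.W8

/-!
# TIF-W9: the Kummer pairing and automorphisms; nondegeneracy of the Weil pairing
-/

set_option autoImplicit false
set_option linter.unusedSectionVars false

namespace Pool.Agent.TIFS

open GT Module
open SUP (len cls clm cls_mul exists_cls cls_span cls_eq_iff cls_eq_one_iff map_ne_bot clm_cls
  map_span_singleton len_mul len_top)

variable {d : ℕ} [NeZero d] {κ F : Type} [Field κ] [Field F] {T : Tab κ d} {T' : Tab F d}

/-- points over a bigger field from homomorphisms -/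
theorem exists_pt (g : κ →+* F) (h : T.map g = T') (φ : WB T →+* F)
    (hφ : ∀ r, φ (algebraMap κ (WB T) r) = g r) : ∃ P : Pt T', ∀ b, P (bmap g h b) = φ b := by
  have h1 : Sol T g (φ (WB.x T)) (fun j => φ (WB.f T j)) := sol_of φ hφ
  have h3 : Sol T' (RingHom.id F) (φ (WB.x T)) (fun j => φ (WB.f T j)) :=
    h1.change h (by rw [RingHom.id_comp])
  let P : WB T' →ₐ[F] F := { lift h3 with commutes' := fun r => lift_algebraMap' h3 r }
  have hx : P (WB.x T') = φ (WB.x T) := lift_x h3
  have hf : ∀ j, P (WB.f T' j) = φ (WB.f T j) := fun j => lift_f h3 j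
  refine ⟨P, fun b => ?_⟩
  refine gr1a_ext g ((P : WB T' →+* F).comp (bmap g h)) φ (fun r => ?_) hφ ?_ (fun j => ?_) b
  · show P (bmap g h (algebraMap κ (WB T) r)) = g r
    rw [bmap_algebraMap', P.commutes]
    rfl
  · show P (bmap g h (WB.x T)) = φ (WB.x T)
    rw [bmap_x, hx]
  · show P (bmap g h (WB.f T j)) = φ (WB.f T j)
    rw [bmap_f, hf]

/-- a point is determined by its values on the functions over the small field -/
theorem pt_ext (g : κ →+* F) (h : T.map g = T') {P P' : Pt T'}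
    (hPP' : ∀ b : WB T, P (bmap g h b) = P' (bmap g h b)) : P = P' := by
  ext b
  refine gr1a_ext (RingHom.id F) (P : WB T' →+* F) (P' : WB T' →+* F) (fun r => ?_) (fun r => ?_) ?_
    (fun j => ?_) b
  · exact P.commutes r
  · exact P'.commutes r
  · have := hPP' (WB.x T)
    rw [bmap_x] at this
    exact this
  · have := hPP' (WB.f T j)
    rw [bmap_f] at this
    exact this

theorem bmap_fix (g : κ →+* F) (h : T.map g = T') (σ : F →+* F) (hσ : T'.map σ = T')
    (hg : ∀ x, σ (g x) = g x) (b : WB T) : bmap σ hσ (bmap g h b) = bmap g h b := by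
  refine WB.ext (funext fun j => ?_)
  rw [bmap_co, bmap_co, Polynomial.map_map]
  congr 1
  ext x
  exact hg x

/-- a point fixed by `σ` -/
theorem bp_fix (g : κ →+* F) (h : T.map g = T') (σ : F →+* F) (hσ : T'.map σ = T')
    (hg : ∀ x, σ (g x) = g x) {Q : Pt T'} (hQ : ∀ b : WB T, σ (Q (bmap g h b)) = Q (bmap g h b)) :
    bp σ hσ Q = Q := by
  apply pt_ext g h
  intro b
  rw [← hQ b, ← bp_apply σ hσ Q, bmap_fix g h σ hσ hg]

theorem map_bp_fix (g : κ →+* F) (h : T.map g = T') (σ : F →+* F) (hσ : T'.map σ = T')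
    (hg : ∀ x, σ (g x) = g x) (X : Multiset (Pt T)) :
    (X.map (bp g h)).map (bp σ hσ) = X.map (bp g h) := by
  rw [Multiset.map_map]
  refine Multiset.map_congr rfl fun Q _ => ?_
  apply bp_fix g h σ hσ hg
  intro b
  rw [bp_apply, hg]

theorem tab_fix (g : κ →+* F) (h : T.map g = T') (σ : F →+* F) (hg : ∀ x, σ (g x) = g x) :
    T'.map σ = T' := by
  rw [← h, Tab.map_map]
  congr 1
  ext x
  exact hg x

variable [IsDedekindDomain (WB T)] [IsDedekindDomain (WB T')] [IsAlgClosed F]

/-- **The Kummer pairing is the Weil pairing** (with automorphisms). `f` is the monic generator of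
`I ^ N`, `Q` is a point over `F`, and `z ^ N` is the class of `Q`. -/
theorem kw (g : κ →+* F) (h : T.map g = T') {N : ℕ} {X : Multiset (Pt T)} {f : WB T} (lf : lc f = 1)
    (hf : iX (N • X) = Ideal.span {f}) (Q : Pt T') {z : ClassGroup (WB T')}
    (hz : z ^ N = cls (RingHom.ker Q)) :
    ∃ w : F, w ^ N = Q (bmap g h f) ∧ ∀ (σ : F →+* F) (hσ : T'.map σ = T'), (∀ x, σ (g x) = g x) →
      (∀ b : WB T, σ (Q (bmap g h b)) = Q (bmap g h b)) →
        σ w = e N (bcl g h (cls (iX X))) (bcl σ hσ z / z) * w := by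
  have lf' : lc (bmap g h f) = 1 := by rw [lc_bmap g h g.injective, lf, map_one]
  have hf' : iX (N • X.map (bp g h)) = Ideal.span {bmap g h f} := by
    rw [← Multiset.map_nsmul, iX_map, hf, Ideal.map_span, Set.image_singleton]
  obtain ⟨Y, Z, u, v, k⟩ := KD.exists lf' hf' Q hz
  refine ⟨kv N (X.map (bp g h)) (bmap g h f) Y u v, k.pow, fun σ hσ hg hQ => ?_⟩
  have k2 := k.map σ hσ
  rw [map_bp_fix g h σ hσ hg, bmap_fix g h σ hσ hg, bp_fix g h σ hσ hg hQ] at k2
  have h1 := k.ratio k2 (t := bcl σ hσ z / z) (by rw [div_mul_cancel]) (by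
    rw [div_pow, ← map_pow, hz, bcl_cls σ hσ (ker_ne_bot' Q), ker_bp, bp_fix g h σ hσ hg hQ, div_self'])
  rw [bcl_iX, ← h1]
  have h2 := kv_map σ hσ N (X.map (bp g h)) (bmap g h f) Y u v
  rw [map_bp_fix g h σ hσ hg, bmap_fix g h σ hσ hg] at h2
  exact h2.symm

end Pool.Agent.TIFS
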