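import Pool.Agent.TIFS.D2
import Pool.Agent.MP_c1dca2_ag.GT.P8a
import Pool.Agent.MP_c1dca2_ag.GT.N1
import Pool.Agent.MP_c1dca2_ag.GT.A3
import Pool.Agent.MP_c1dca2_ag.GT.V1b

/-!
# TIF-D3: divisibility: the valuation at infinity of the fraction field
-/

set_option autoImplicit false
set_option linter.unusedSectionVars false

open Polynomial

namespace Pool.Agent.TIFS

open GT
open Pool.Agent.TIFS.DD (Mo cl_div)

variable {C : Type} [Field C] {d : ℕ} [NeZero d] {T : Tab C d}

theorem pord_add_le (a b : WB T) : pord (a + b) ≤ max (pord a) (pord b) := by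
  rw [← mem_Ble_iff]
  exact add_mem ((mem_Ble_iff _ _).2 (le_max_left _ _)) ((mem_Ble_iff _ _).2 (le_max_right _ _))

open scoped Classical in
/-- the valuation at infinity -/
noncomputable def vB (T : Tab C d) : Valuation (WB T) (WithZero (Multiplicative ℤ)) where
  toFun b := if b = 0 then 0 else WithZero.exp (pord b : ℤ)
  map_zero' := if_pos rfl
  map_one' := by
    rw [if_neg one_ne_zero, pord_one]
    rfl
  map_mul' a b := by
    by_cases ha : a = 0
    · rw [ha, zero_mul, if_pos rfl, zero_mul]
    · by_cases hb : b = 0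
      · rw [hb, mul_zero, if_pos rfl, mul_zero]
      · rw [if_neg (mul_ne ha hb), if_neg ha, if_neg hb, pord_mul ha hb, ← WithZero.exp_add]
        push_cast
        rfl
  map_add_le_max' a b := by
    by_cases ha : a = 0
    · rw [ha, zero_add]
      exact le_max_right _ _
    · by_cases hb : b = 0
      · rw [hb, add_zero]
        exact le_max_left _ _
      · by_cases hab : a + b = 0
        · rw [if_pos hab]
          exact zero_le
        · rw [if_neg hab, if_neg ha, if_neg hb]
          rcases le_max_iff.1 (pord_add_le a b) with h | h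
          · exact le_max_of_le_left (WithZero.exp_le_exp.2 (by exact_mod_cast h))
          · exact le_max_of_le_right (WithZero.exp_le_exp.2 (by exact_mod_cast h))

theorem vB_apply {b : WB T} (hb : b ≠ 0) : vB T b = WithZero.exp (pord b : ℤ) := by
  classical
  exact if_neg hb

theorem vB_ne {b : WB T} (hb : b ≠ 0) : vB T b ≠ 0 := by
  rw [vB_apply hb]
  exact WithZero.exp_ne_zero

/-- the valuation of the fraction field -/
noncomputable def vL (T : Tab C d) : Valuation (FractionRing (WB T)) (WithZero (Multiplicative ℤ)) :=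
  (vB T).extendToLocalization (S := nonZeroDivisors (WB T)) (by
    intro s hs h
    exact vB_ne (nonZeroDivisors.ne_zero hs) h) (FractionRing (WB T))

theorem vL_map (b : WB T) : vL T (algebraMap (WB T) (FractionRing (WB T)) b) = vB T b :=
  Valuation.extendToLocalization_apply_map_apply _ _ _ _

theorem log_vL {b : WB T} (hb : b ≠ 0) :
    WithZero.log (vL T (algebraMap (WB T) (FractionRing (WB T)) b)) = pord b := by
  rw [vL_map, vB_apply hb, WithZero.log_exp]

/-- the order at infinity -/
noncomputable def oL (T : Tab C d) (f : FractionRing (WB T)) : ℤ := - WithZero.log (vL T f)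

theorem isOrd (T : Tab C d) : IsOrd C (vL T).valuationSubring (oL T) := by
  have hne : ∀ f : FractionRing (WB T), f ≠ 0 → vL T f ≠ 0 := fun f hf => (Valuation.ne_zero_iff _).2 hf
  have hinj := IsFractionRing.injective (WB T) (FractionRing (WB T))
  have hfr : ∀ f : FractionRing (WB T), f ≠ 0 → ∃ a b : WB T, a ≠ 0 ∧ b ≠ 0 ∧
      f = algebraMap _ _ a / algebraMap _ _ b := by
    intro f hf
    obtain ⟨a, b, hb, rfl⟩ := IsFractionRing.div_surjective (A := WB T) f
    refine ⟨a, b, ?_, nonZeroDivisors.ne_zero hb, rfl⟩
    rintro rfl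
    rw [map_zero, zero_div] at hf
    exact hf rfl
  have hval : ∀ a b : WB T, a ≠ 0 → b ≠ 0 →
      oL T (algebraMap _ (FractionRing (WB T)) a / algebraMap _ _ b) = pord b - pord a := by
    intro a b ha hb
    rw [oL, map_div₀, WithZero.log_div (by rw [vL_map]; exact vB_ne ha) (by rw [vL_map]; exact vB_ne hb),
      log_vL ha, log_vL hb]
    ring
  refine ⟨?_, ?_, ?_, ?_⟩
  · intro a b ha hb
    rw [oL, oL, oL, map_mul, WithZero.log_mul (hne a ha) (hne b hb)]
    ring
  · intro a ha
    rw [Valuation.mem_valuationSubring_iff, oL, ← WithZero.log_le_log (hne a ha) one_ne_zero, WithZero.log_one]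
    omega
  · obtain ⟨n₀, hn₀⟩ := GT.exists_pord T
    obtain ⟨r, hr, hr1⟩ := hn₀ n₀ le_rfl
    obtain ⟨s, hs, hs1⟩ := hn₀ (n₀ + 1) (by omega)
    refine ⟨algebraMap _ _ r / algebraMap _ _ s, ?_, ?_⟩
    · exact div_ne_zero ((map_ne_zero_iff _ hinj).2 hr) ((map_ne_zero_iff _ hinj).2 hs)
    · rw [hval r s hr hs, hr1, hs1]
      push_cast
      ring
  · intro a haO
    by_cases ha : a = 0
    · exact ⟨0, Or.inl (by rw [ha, map_zero, sub_zero])⟩
    · obtain ⟨r, s, hr, hs, rfl⟩ := hfr a ha
      have h1 : pord r ≤ pord s := by
        have h2 : 0 ≤ oL T (algebraMap _ (FractionRing (WB T)) r / algebraMap _ _ s) := by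
          rw [Valuation.mem_valuationSubring_iff,
            ← WithZero.log_le_log (hne _ ha) one_ne_zero, WithZero.log_one] at haO
          rw [oL]
          omega
        rw [hval r s hr hs] at h2
        omega
      rcases h1.lt_or_eq with h1 | h1
      · refine ⟨0, Or.inr ?_⟩
        rw [map_zero, sub_zero, hval r s hr hs]
        omega
      · have hl := lc_ne hs
        have hlr := lc_ne hr
        set c := lc r / lc s with hc
        have hc0 : c ≠ 0 := div_ne_zero hlr hl
        refine ⟨c, ?_⟩
        have hs' : algebraMap (WB T) (FractionRing (WB T)) s ≠ 0 := (map_ne_zero_iff _ hinj).2 hs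
        have h2 : algebraMap (WB T) (FractionRing (WB T)) r / algebraMap _ _ s - algebraMap C _ c =
            algebraMap _ _ (r - c • s) / algebraMap _ _ s := by
          rw [map_sub, Algebra.smul_def, map_mul, sub_div, mul_div_assoc, div_self hs', mul_one,
            ← IsScalarTower.algebraMap_apply]
        rw [h2]
        by_cases h3 : r = c • s
        · left
          rw [← h3, sub_self, map_zero, zero_div]
        · right
          have h4 : pord (c • s) = pord s := pord_smul hc0 s
          have h5 : pord (r - c • s) < pord r := by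
            refine pord_sub_lt (by rw [h4, h1]) ?_ h3
            rw [lc_smul, hc, div_mul_cancel₀ _ hl]
          rw [hval _ s (sub_ne_zero.2 h3) hs]
          omega

theorem isPl (T : Tab C d) : IsPl C (vL T).valuationSubring := by
  constructor
  · intro c
    rw [Valuation.mem_valuationSubring_iff, IsScalarTower.algebraMap_apply C (WB T), vL_map]
    by_cases hc : algebraMap C (WB T) c = 0
    · rw [hc, map_zero]
      exact zero_le_one
    · rw [vB_apply hc]
      have h1 : pord (algebraMap C (WB T) c) = 0 := by
        have h := pord_smul_le c (1 : WB T)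
        rw [Algebra.smul_def, mul_one, pord_one] at h
        omega
      rw [h1]
      exact le_rfl
  · intro h
    obtain ⟨a, ha, ha1⟩ := (isOrd T).surj
    have h1 : a⁻¹ ∈ (vL T).valuationSubring := by
      rw [h]
      trivial
    rw [(isOrd T).mem _ (inv_ne_zero ha), ord_inv (isOrd T) ha, ha1] at h1
    omega

theorem isMo (T : Tab C d) : Mo (vL T).valuationSubring T (algebraMap (WB T) (FractionRing (WB T))) where
  alg c := (IsScalarTower.algebraMap_apply C (WB T) (FractionRing (WB T)) c).symm
  inj := IsFractionRing.injective (WB T) (FractionRing (WB T))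
  ordo o ho b hb := by
    have hb' : algebraMap (WB T) (FractionRing (WB T)) b ≠ 0 :=
      (map_ne_zero_iff _ (IsFractionRing.injective (WB T) (FractionRing (WB T)))).2 hb
    rw [ord_unique ho (isOrd T) hb', oL, log_vL hb]

/-- **Divisibility of the class group.** -/
theorem cl_div' [IsAlgClosed C] [IsDedekindDomain (WB T)] {N : ℕ} (hN : (N : C) ≠ 0)
    (hext : ∀ (Ω : Type) [Field Ω] [IsAlgClosed Ω] (g : C →+* Ω), IsDedekindDomain (WB (T.map g)))
    (D : ClassGroup (WB T)) : ∃ E : ClassGroup (WB T), E ^ N = D := by
  have hN0 : 0 < N := by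
    rcases Nat.eq_zero_or_pos N with h | h
    · rw [h] at hN
      simp at hN
    · exact h
  exact cl_div (isPl T) (isMo T) (isOrd T) N hN0 hN hext (fun Ω _ T' => inferInstance)
    (fun Ω _ T' a b ha hb => pord_mul ha hb) (fun Ω _ T' => not_isField T') D

end Pool.Agent.TIFS
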