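import Mathlib
import Pool.Agent.MP_c1dca2_ag.GT.X1a

/-!
# TIF-L9: the number of `ℓ`-torsion elements from the growth of the number of the fixed elements
-/

set_option autoImplicit false
set_option linter.unusedSectionVars false

namespace Pool.Agent.TIFS

section abs

variable {A : Type} [CommGroup A]

/-- the norm `∏_{i < ℓ} τ ^ i` -/
noncomputable def nu (τ : MulAut A) (ℓ : ℕ) : A →* A where
  toFun a := ∏ i ∈ Finset.range ℓ, (τ ^ i) a
  map_one' := by simp
  map_mul' a b := by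
    rw [← Finset.prod_mul_distrib]
    refine Finset.prod_congr rfl fun i _ => ?_
    rw [map_mul]

theorem nu_apply (τ : MulAut A) (ℓ : ℕ) (a : A) : nu τ ℓ a = ∏ i ∈ Finset.range ℓ, (τ ^ i) a := rfl

theorem map_nu (τ : MulAut A) (ℓ : ℕ) (a : A) : τ (nu τ ℓ a) = nu τ ℓ (τ a) := by
  rw [nu_apply, nu_apply, map_prod]
  refine Finset.prod_congr rfl fun i _ => ?_
  rw [← MulAut.mul_apply, ← MulAut.mul_apply, ← pow_succ', ← pow_succ]

theorem nu_div (τ : MulAut A) (ℓ : ℕ) (a : A) : nu τ ℓ (τ a / a) = (τ ^ ℓ) a / a := by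
  rw [map_div, nu_apply, nu_apply]
  have h1 : ∀ i, (τ ^ i) (τ a) = (τ ^ (i + 1)) a := fun i => by
    rw [← MulAut.mul_apply, ← pow_succ]
  simp only [h1]
  have h2 := Finset.prod_range_succ' (fun i => (τ ^ i) a) ℓ
  have h3 := Finset.prod_range_succ (fun i => (τ ^ i) a) ℓ
  rw [h2] at h3
  rw [pow_zero, MulAut.one_apply] at h3
  rw [div_eq_div_iff_mul_eq_mul, h3, mul_comm]

theorem nu_fix (τ : MulAut A) (ℓ : ℕ) {a : A} (h : τ a = a) : nu τ ℓ a = a ^ ℓ := by
  rw [nu_apply]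
  have h1 : ∀ i, (τ ^ i) a = a := by
    intro i
    induction i with
    | zero => rfl
    | succ i ih => rw [pow_succ, MulAut.mul_apply, h, ih]
  simp only [h1, Finset.prod_const, Finset.card_range]

theorem fix_nu_iff (τ : MulAut A) (ℓ : ℕ) (a : A) : τ (nu τ ℓ a) = nu τ ℓ a ↔ (τ ^ ℓ) a = a := by
  rw [map_nu, ← div_eq_one, ← map_div, nu_div, div_eq_one]

/-- `#ker (τ ^ ℓ - 1) = #ker ν * #ker (τ - 1)` if `ν` is surjective -/
theorem card_nu (τ : MulAut A) (ℓ : ℕ) (hs : Function.Surjective (nu τ ℓ)) :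
    Nat.card {a : A // (τ ^ ℓ) a = a} =
      Nat.card {a : A // nu τ ℓ a = 1} * Nat.card {a : A // τ a = a} := by
  choose s hs using hs
  let e : {a : A // (τ ^ ℓ) a = a} ≃ {a : A // nu τ ℓ a = 1} × {a : A // τ a = a} :=
    { toFun := fun a => ⟨⟨a.1 / s (nu τ ℓ a.1), by rw [map_div, hs, div_self']⟩,
        ⟨nu τ ℓ a.1, (fix_nu_iff τ ℓ a.1).2 a.2⟩⟩
      invFun := fun x => ⟨x.1.1 * s x.2.1, by
        rw [← fix_nu_iff, map_mul, hs, x.1.2, one_mul, x.2.2]⟩
      left_inv := fun a => Subtype.ext (by simp)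
      right_inv := by
        rintro ⟨⟨a, ha⟩, ⟨b, hb⟩⟩
        have h1 : nu τ ℓ (a * s b) = b := by rw [map_mul, hs, ha, one_mul]
        refine Prod.ext (Subtype.ext ?_) (Subtype.ext ?_)
        · show a * s b / s (nu τ ℓ (a * s b)) = a
          rw [h1, mul_div_cancel_right]
        · exact h1 }
  rw [Nat.card_congr e, Nat.card_prod]

variable (σ : MulAut A) (ℓ : ℕ) [hℓ : Fact ℓ.Prime]

theorem nu_surj (htor : ∀ a : A, ∃ n : ℕ, a ^ ℓ ^ n = 1) (hdiv : ∀ a : A, ∃ b : A, b ^ ℓ = a)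
    (horb : ∀ a : A, ∃ m : ℕ, 0 < m ∧ (σ ^ m) a = a)
    (hfin : ∀ n : ℕ, 0 < n → Finite {a : A // (σ ^ n) a = a}) {N : ℕ} (hN : 0 < N) :
    Function.Surjective (nu (σ ^ N) ℓ) := by
  intro a
  have hNl : 0 < N * ℓ := Nat.mul_pos hN hℓ.out.pos
  obtain ⟨b, hb⟩ := GT.surj_of_orbits ((σ ^ N) ^ ℓ : MulAut A) ℓ hℓ.out htor hdiv (by
    intro a
    obtain ⟨m, hm, hma⟩ := horb a
    refine ⟨m, hm, ?_⟩
    have h1 : ∀ j : ℕ, (σ ^ (m * j)) a = a := by
      intro j
      induction j with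
      | zero => rfl
      | succ j ih => rw [mul_add, mul_one, pow_add, MulAut.mul_apply, hma, ih]
    have h2 : (⇑((σ ^ N) ^ ℓ : MulAut A))^[m] a = (((σ ^ N) ^ ℓ) ^ m : MulAut A) a := by
      clear hma h1
      induction m generalizing a with
      | zero => rfl
      | succ j ih =>
        rw [Function.iterate_succ_apply]
        rcases Nat.eq_zero_or_pos j with rfl | hj
        · rw [zero_add, pow_one]; rfl
        · rw [ih _ hj, pow_succ, MulAut.mul_apply]
    rw [h2, ← pow_mul, ← pow_mul, show N * (ℓ * m) = m * (N * ℓ) by ring, h1]) (by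
    have := hfin (N * ℓ) hNl
    have h3 : {a : A | ((σ ^ N) ^ ℓ : MulAut A) a = a} = {a : A | (σ ^ (N * ℓ)) a = a} := by
      rw [pow_mul]
    show {a : A | ((σ ^ N) ^ ℓ : MulAut A) a = a}.Finite
    rw [h3]
    exact this) a
  refine ⟨(σ ^ N) b / b, ?_⟩
  rw [nu_div]
  exact hb

/-- The number of the `ℓ`-torsion elements. -/
theorem card_A (htor : ∀ a : A, ∃ n : ℕ, a ^ ℓ ^ n = 1) (hdiv : ∀ a : A, ∃ b : A, b ^ ℓ = a)
    (horb : ∀ a : A, ∃ m : ℕ, 0 < m ∧ (σ ^ m) a = a)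
    (hfin : ∀ n : ℕ, 0 < n → Finite {a : A // (σ ^ n) a = a}) (w N₀ : ℕ) (hN₀ : 0 < N₀)
    (hgr : ∀ N : ℕ, 0 < N → N₀ ∣ N → Nat.card {a : A // (σ ^ (N * ℓ)) a = a} =
      ℓ ^ w * Nat.card {a : A // (σ ^ N) a = a}) : Nat.card {a : A // a ^ ℓ = 1} = ℓ ^ w := by
  classical
  have hw : 0 < ℓ ^ w := pow_pos hℓ.out.pos w
  -- the kernel of the norm
  have hker : ∀ N : ℕ, 0 < N → N₀ ∣ N → Nat.card {a : A // nu (σ ^ N) ℓ a = 1} = ℓ ^ w := by
    intro N hN hd
    have h1 := card_nu (σ ^ N) ℓ (nu_surj σ ℓ htor hdiv horb hfin hN)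
    rw [← pow_mul, hgr N hN hd] at h1
    have := hfin N hN
    have h2 : 0 < Nat.card {a : A // (σ ^ N) a = a} := by
      rw [Nat.card_pos_iff]
      exact ⟨⟨⟨1, map_one _⟩⟩, this⟩
    exact (Nat.eq_of_mul_eq_mul_right h2 h1).symm
  -- a common period of a finite set
  have hper : ∀ s : Finset A, ∃ N : ℕ, 0 < N ∧ N₀ ∣ N ∧ ∀ a ∈ s, (σ ^ N) a = a := by
    intro s
    induction s using Finset.induction_on with
    | empty => exact ⟨N₀, hN₀, dvd_rfl, fun a ha => absurd ha (Finset.notMem_empty a)⟩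
    | insert b s hb ih =>
      obtain ⟨N, hN, hd, hs⟩ := ih
      obtain ⟨m, hm, hma⟩ := horb b
      have hmul : ∀ (a : A) (m : ℕ), (σ ^ m) a = a → ∀ j : ℕ, (σ ^ (m * j)) a = a := by
        intro a m hma j
        induction j with
        | zero => rfl
        | succ j ih => rw [mul_add, mul_one, pow_add, MulAut.mul_apply, hma, ih]
      refine ⟨N * m, Nat.mul_pos hN hm, Dvd.dvd.mul_right hd m, fun a ha => ?_⟩
      rcases Finset.mem_insert.1 ha with rfl | ha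
      · rw [mul_comm]
        exact hmul a m hma N
      · exact hmul a N (hs a ha) m
  -- finiteness of the `ℓ`-torsion
  have hbound : ∀ s : Finset A, (∀ a ∈ s, a ^ ℓ = 1) → s.card ≤ ℓ ^ w := by
    intro s hs
    obtain ⟨N, hN, hd, hfix⟩ := hper s
    have h1 := hker N hN hd
    have hfinK : Finite {a : A // nu (σ ^ N) ℓ a = 1} := Nat.finite_of_card_ne_zero (by rw [h1]; exact hw.ne')
    have h2 : Nat.card s ≤ Nat.card {a : A // nu (σ ^ N) ℓ a = 1} := by
      refine Nat.card_le_card_of_injective (fun a : s => ⟨a.1, ?_⟩) ?_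
      · rw [nu_fix _ _ (hfix a.1 a.2), hs a.1 a.2]
      · intro a b hab
        exact Subtype.ext (congrArg (fun x : {a : A // nu (σ ^ N) ℓ a = 1} => x.1) hab)
    rw [h1, Nat.card_eq_fintype_card, Fintype.card_coe] at h2
    exact h2
  have hf1 : {a : A | a ^ ℓ = 1}.Finite := by
    by_contra hinf
    obtain ⟨s, hs, hcard⟩ := Set.Infinite.exists_subset_card_eq hinf (ℓ ^ w + 1)
    have := hbound s (fun a ha => hs ha)
    omega
  have hf2 : {a : A | a ^ ℓ ^ 2 = 1}.Finite := by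
    have h1 : {a : A | a ^ ℓ ^ 2 = 1} ⊆ ⋃ b ∈ {a : A | a ^ ℓ = 1}, {a : A | a ^ ℓ = b} := by
      intro a ha
      rw [Set.mem_iUnion₂]
      refine ⟨a ^ ℓ, ?_, rfl⟩
      show (a ^ ℓ) ^ ℓ = 1
      rw [← pow_mul, ← sq]
      exact ha
    refine (hf1.biUnion ?_).subset h1
    intro b _
    obtain ⟨c, hc⟩ := hdiv b
    have h2 : {a : A | a ^ ℓ = b} ⊆ (fun x => x * c) '' {a : A | a ^ ℓ = 1} := by
      intro a ha
      refine ⟨a / c, ?_, div_mul_cancel a c⟩
      show (a / c) ^ ℓ = 1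
      rw [div_pow, hc]
      have : a ^ ℓ = b := ha
      rw [this, div_self']
    exact (hf1.image _).subset h2
  -- a period of the `ℓ ^ 2`-torsion
  obtain ⟨N, hN, hd, hfix⟩ := hper hf2.toFinset
  have hfix' : ∀ a : A, a ^ ℓ ^ 2 = 1 → (σ ^ N) a = a := fun a ha => hfix a (hf2.mem_toFinset.2 ha)
  rw [← hker N hN hd]
  refine Nat.card_congr (Equiv.subtypeEquivRight fun a => ?_)
  have hone : ∀ a : A, a ^ ℓ = 1 → a ^ ℓ ^ 2 = 1 := fun a ha => by rw [sq, pow_mul, ha, one_pow]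
  constructor
  · intro ha
    rw [nu_fix _ _ (hfix' a (hone a ha)), ha]
  · intro ha
    obtain ⟨n, hn⟩ := htor a
    -- descend to order `ℓ`
    have key : ∀ n : ℕ, a ^ ℓ ^ (n + 1) = 1 → a ^ ℓ = 1 := by
      intro n
      induction n with
      | zero =>
        intro h
        rwa [zero_add, pow_one] at h
      | succ n ih =>
        intro h
        apply ih
        have h3 : (a ^ ℓ ^ n) ^ ℓ ^ 2 = 1 := by
          rw [← pow_mul, ← pow_add]
          exact h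
        have h4 : nu (σ ^ N) ℓ (a ^ ℓ ^ n) = 1 := by rw [map_pow, ha, one_pow]
        rw [nu_fix _ _ (hfix' _ h3), ← pow_mul, ← pow_succ] at h4
        exact h4
    apply key n
    rw [pow_succ, pow_mul, hn, one_pow]

end abs

end Pool.Agent.TIFS
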