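import Pool.Agent.TIFS.L8
import Pool.Agent.TIFS.L9

/-!
# TIF-L10: the number of `ℓ`-torsion classes
-/

set_option autoImplicit false
set_option linter.unusedSectionVars false

namespace Pool.Agent.TIFS

open GT
open SUP (len cls clm clm_clm clm_id)

/-- the `ℓ`-part of a finite commutative group -/
theorem card_primary {G : Type} [CommGroup G] [Finite G] (ℓ : ℕ) [hℓ : Fact ℓ.Prime] :
    Nat.card {g : G // ∃ n : ℕ, g ^ ℓ ^ n = 1} = ℓ ^ padicValNat ℓ (Nat.card G) := by
  obtain ⟨P⟩ : Nonempty (Sylow ℓ G) := inferInstance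
  have h1 := P.card_eq_multiplicity
  rw [Nat.factorization_def _ hℓ.out] at h1
  rw [← h1]
  have huniq := Sylow.unique_of_normal P inferInstance
  refine Nat.card_congr (Equiv.subtypeEquivRight fun g => ?_)
  constructor
  · rintro ⟨n, hn⟩
    have h2 : IsPGroup ℓ (Subgroup.zpowers g) := by
      rintro ⟨x, hx⟩
      obtain ⟨m, rfl⟩ := Subgroup.mem_zpowers_iff.1 hx
      refine ⟨n, Subtype.ext ?_⟩
      show (g ^ m) ^ ℓ ^ n = 1
      rw [← zpow_natCast, ← zpow_mul, mul_comm, zpow_mul, zpow_natCast, hn, one_zpow]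
    obtain ⟨S, hS⟩ := h2.exists_le_sylow
    have h3 : S = P := by
      rw [huniq.eq_default S, huniq.eq_default P]
    rw [← h3]
    exact hS (Subgroup.mem_zpowers g)
  · intro hg
    obtain ⟨n, hn⟩ := P.2 ⟨g, hg⟩
    exact ⟨n, congrArg Subtype.val hn⟩

section dedekind

variable {B : Type} [CommRing B] [IsDedekindDomain B]

/-- the action on the classes -/
noncomputable def cE : RingAut B →* MulAut (ClassGroup B) where
  toFun σ :=
    { clm (σ : B ≃+* B) with
      invFun := clm ((σ⁻¹ : RingAut B) : B ≃+* B)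
      left_inv := fun D => by
        show clm ((σ⁻¹ : RingAut B) : B ≃+* B) (clm (σ : B ≃+* B) D) = D
        rw [clm_clm (σ : B ≃+* B) ((σ⁻¹ : RingAut B) : B ≃+* B) (1 : RingAut B)
          (fun b => (RingEquiv.symm_apply_apply σ b).symm), clm_id _ (fun _ => rfl)]
      right_inv := fun D => by
        show clm (σ : B ≃+* B) (clm ((σ⁻¹ : RingAut B) : B ≃+* B) D) = D
        rw [clm_clm ((σ⁻¹ : RingAut B) : B ≃+* B) (σ : B ≃+* B) (1 : RingAut B)
          (fun b => (RingEquiv.apply_symm_apply σ b).symm), clm_id _ (fun _ => rfl)] }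
  map_one' := MulEquiv.ext fun D => clm_id _ (fun _ => rfl) D
  map_mul' σ τ := MulEquiv.ext fun D => (clm_clm τ σ (σ * τ : RingAut B) (fun _ => rfl) D).symm

theorem cE_apply (σ : RingAut B) (D : ClassGroup B) : cE σ D = clm (σ : B ≃+* B) D := rfl

end dedekind

/-- the elements of `ℓ`-power order -/
def prim (J : Type) [CommGroup J] (ℓ : ℕ) : Subgroup J where
  carrier := {a | ∃ n : ℕ, a ^ ℓ ^ n = 1}
  one_mem' := ⟨0, one_pow _⟩
  mul_mem' := by
    rintro a b ⟨m, hm⟩ ⟨n, hn⟩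
    refine ⟨m + n, ?_⟩
    rw [mul_pow, pow_add, pow_mul, hm, one_pow, mul_comm (ℓ ^ m), pow_mul, hn, one_pow, one_mul]
  inv_mem' := by
    rintro a ⟨n, hn⟩
    exact ⟨n, by rw [inv_pow, hn, inv_one]⟩

theorem mem_prim {J : Type} [CommGroup J] {ℓ : ℕ} {a : J} : a ∈ prim J ℓ ↔ ∃ n : ℕ, a ^ ℓ ^ n = 1 := Iff.rfl

/-- restriction of an automorphism -/
def primE (J : Type) [CommGroup J] (ℓ : ℕ) : MulAut J →* MulAut (prim J ℓ) where
  toFun σ :=
    { toFun := fun a => ⟨σ a.1, by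
        obtain ⟨n, hn⟩ := a.2
        exact ⟨n, by rw [← map_pow, hn, map_one]⟩⟩
      invFun := fun a => ⟨σ⁻¹ a.1, by
        obtain ⟨n, hn⟩ := a.2
        exact ⟨n, by rw [← map_pow, hn, map_one]⟩⟩
      left_inv := fun a => Subtype.ext (MulAut.inv_apply_self J σ a.1)
      right_inv := fun a => Subtype.ext (MulAut.apply_inv_self J σ a.1)
      map_mul' := fun a b => Subtype.ext (map_mul σ a.1 b.1) }
  map_one' := rfl
  map_mul' σ τ := rfl

theorem primE_apply {J : Type} [CommGroup J] {ℓ : ℕ} (σ : MulAut J) (a : prim J ℓ) :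
    ((primE J ℓ σ a : prim J ℓ) : J) = σ a.1 := rfl

/-- The number of `ℓ`-torsion elements. -/
theorem card_tors {J : Type} [CommGroup J] (σ : MulAut J) (ℓ : ℕ) [hℓ : Fact ℓ.Prime]
    (hdiv : ∀ a : J, ∃ b : J, b ^ ℓ = a)
    (horb : ∀ a : J, (∃ n : ℕ, a ^ ℓ ^ n = 1) → ∃ m : ℕ, 0 < m ∧ (σ ^ m) a = a)
    (hfin : ∀ n : ℕ, 0 < n → Finite {a : J // (σ ^ n) a = a}) (w N₀ : ℕ) (hN₀ : 0 < N₀)
    (hgr : ∀ N : ℕ, 0 < N → N₀ ∣ N → padicValNat ℓ (Nat.card {a : J // (σ ^ (N * ℓ)) a = a}) =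
      w + padicValNat ℓ (Nat.card {a : J // (σ ^ N) a = a})) :
    Nat.card {a : J // a ^ ℓ = 1} = ℓ ^ w := by
  -- the number of fixed elements of `ℓ`-power order
  have hcard : ∀ n : ℕ, 0 < n → Nat.card {a : prim J ℓ // (primE J ℓ σ ^ n) a = a} =
      ℓ ^ padicValNat ℓ (Nat.card {a : J // (σ ^ n) a = a}) := by
    intro n hn
    let G : Subgroup J :=
      { carrier := {a | (σ ^ n) a = a}
        one_mem' := map_one _
        mul_mem' := by
          intro a b ha hb
          show (σ ^ n) (a * b) = a * b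
          rw [map_mul, show (σ ^ n) a = a from ha, show (σ ^ n) b = b from hb]
        inv_mem' := by
          intro a ha
          show (σ ^ n) a⁻¹ = a⁻¹
          rw [map_inv, show (σ ^ n) a = a from ha] }
    have hG : Finite G := hfin n hn
    have h1 := card_primary (G := G) ℓ
    have h2 : Nat.card G = Nat.card {a : J // (σ ^ n) a = a} := rfl
    rw [← h2, ← h1]
    refine Nat.card_congr
      { toFun := fun a => ⟨⟨a.1.1, by
          have h5 : ((primE J ℓ (σ ^ n) a.1 : prim J ℓ) : J) = a.1.1 := by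
            rw [map_pow]
            exact congrArg Subtype.val a.2
          exact h5⟩, by
          obtain ⟨m, hm⟩ := a.1.2
          exact ⟨m, Subtype.ext hm⟩⟩
        invFun := fun g => ⟨⟨g.1.1, by
          obtain ⟨m, hm⟩ := g.2
          exact ⟨m, congrArg Subtype.val hm⟩⟩, by
          apply Subtype.ext
          rw [← map_pow, primE_apply]
          exact g.1.2⟩
        left_inv := fun a => rfl
        right_inv := fun g => rfl }
  have hmain := card_A (A := prim J ℓ) (primE J ℓ σ) ℓ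
    (by
      rintro ⟨a, n, hn⟩
      exact ⟨n, Subtype.ext hn⟩)
    (by
      rintro ⟨a, n, hn⟩
      obtain ⟨b, hb⟩ := hdiv a
      refine ⟨⟨b, n + 1, ?_⟩, Subtype.ext hb⟩
      rw [pow_succ', pow_mul, hb, hn])
    (by
      rintro ⟨a, ha⟩
      obtain ⟨m, hm, hma⟩ := horb a ha
      refine ⟨m, hm, Subtype.ext ?_⟩
      rw [← map_pow, primE_apply]
      exact hma)
    (by
      intro n hn
      have h1 := hcard n hn
      exact Nat.finite_of_card_ne_zero (by rw [h1]; exact (pow_pos hℓ.out.pos _).ne'))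
    w N₀ hN₀ (by
      intro N hN hd
      rw [hcard N hN, hcard (N * ℓ) (Nat.mul_pos hN hℓ.out.pos), hgr N hN hd, pow_add])
  rw [← hmain]
  refine Nat.card_congr
    { toFun := fun a => ⟨⟨a.1, 1, by rw [pow_one]; exact a.2⟩, Subtype.ext a.2⟩
      invFun := fun a => ⟨a.1.1, congrArg Subtype.val a.2⟩
      left_inv := fun a => rfl
      right_inv := fun a => rfl }

variable {d : ℕ} [NeZero d] {κ : Type} [Field κ]
variable [IsAlgClosed κ] {T : Tab κ d} [IsDedekindDomain (WB T)] {φ : κ ≃+* κ} {Q : ℕ}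

/-- The number of `ℓ`-torsion classes is `ℓ ^ (2 g)`. -/
theorem Frob.card_ltors (h : Frob T φ Q) (ℓ : ℕ) [hℓ : Fact ℓ.Prime] (hQ : ¬ ℓ ∣ Q)
    (hdiv : ∀ D : ClassGroup (WB T), ∃ D', D' ^ ℓ = D)
    (horb : ∀ D : ClassGroup (WB T), (∃ n : ℕ, D ^ ℓ ^ n = 1) →
      ∃ m : ℕ, 0 < m ∧ (cE (h.E : RingAut (WB T)) ^ m) D = D) :
    Nat.card {D : ClassGroup (WB T) // D ^ ℓ = 1} = ℓ ^ (2 * gp T) := by
  have hc : ∀ (n : ℕ) (hn : 0 < n) (D : ClassGroup (WB T)),
      (cE (h.E : RingAut (WB T)) ^ n) D = clm (h.npow hn).E D := by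
    intro n hn D
    rw [← map_pow, cE_apply]
    congr 2
    exact RingEquiv.ext fun b => (h.E_npow hn b).symm
  obtain ⟨N₀, hN₀, hgr⟩ := h.val_growth ℓ hQ
  refine card_tors (cE (h.E : RingAut (WB T))) ℓ hdiv horb ?_ _ N₀ hN₀ ?_
  · intro n hn
    simp only [hc n hn]
    exact (h.npow hn).finite_classes
  · intro N hN hd
    have h1 := hgr N hN hd
    have h2 : ∀ (n : ℕ) (hn : 0 < n),
        Nat.card {a : ClassGroup (WB T) // (cE (h.E : RingAut (WB T)) ^ n) a = a} = (h.npow hn).hh := by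
      intro n hn
      simp only [hc n hn]
      rfl
    rw [h2 _ (Nat.mul_pos hN hℓ.out.pos), h2 _ hN, ← h1]
    congr 1
    have h3 : ∀ (a b : ℕ) (ha : 0 < a) (hb : 0 < b), a = b → (h.npow ha).hh = (h.npow hb).hh := by
      rintro a b ha hb rfl
      rfl
    exact h3 _ _ (Nat.mul_pos hN hℓ.out.pos) (Nat.mul_pos hℓ.out.pos hN) (mul_comm N ℓ)

end Pool.Agent.TIFS
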