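import Pool.Agent.TIFS.W9
import Mathlib.FieldTheory.Minpoly.IsConjRoot

/-!
# TIF-W10: nondegeneracy of the Weil pairing
-/

set_option autoImplicit false
set_option linter.unusedSectionVars false

namespace Pool.Agent.TIFS

open GT Module
open SUP (len cls clm cls_mul exists_cls cls_span cls_eq_iff cls_eq_one_iff map_ne_bot clm_cls
  map_span_singleton len_mul len_top)

/-- A radical fixed by all automorphisms is rational. -/
theorem rad_fixed {K F : Type} [Field K] [Field F] [Algebra K F] [IsAlgClosure K F] {N : ℕ}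
    (hN : (N : K) ≠ 0) {a : K} {w : F} (hw : w ^ N = algebraMap K F a)
    (hσ : ∀ σ : F ≃ₐ[K] F, σ w = w) : ∃ b : K, algebraMap K F b = w := by
  have hac : IsAlgClosed F := IsAlgClosure.isAlgClosed K
  have halg : Algebra.IsAlgebraic K F := IsAlgClosure.isAlgebraic
  by_cases ha : a = 0
  · refine ⟨0, ?_⟩
    rw [ha, map_zero] at hw
    have hN0 : N ≠ 0 := by
      rintro rfl
      simp at hN
    rw [map_zero, (pow_eq_zero_iff hN0).1 hw]
  · have hnorm : Normal K F := normal_iff.2 fun x => ⟨halg.isIntegral.isIntegral x, IsAlgClosed.splits _⟩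
    have hint : IsIntegral K w := halg.isIntegral.isIntegral w
    have hsep : (minpoly K w).Separable := by
      have h1 : (Polynomial.X ^ N - Polynomial.C a : Polynomial K).Separable :=
        Polynomial.separable_X_pow_sub_C a hN ha
      refine h1.of_dvd (minpoly.dvd K w ?_)
      rw [map_sub, map_pow, Polynomial.aeval_X, Polynomial.aeval_C, hw, sub_self]
    have hcard := Polynomial.card_rootSet_eq_natDegree (K := F) hsep (IsAlgClosed.splits _)
    have hsub : ∀ x ∈ (minpoly K w).rootSet F, x = w := by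
      intro x hx
      have h1 : IsConjRoot K w x := by
        rw [isConjRoot_iff_mem_minpoly_rootSet hint]
        exact hx
      obtain ⟨σ, hσx⟩ := isConjRoot_iff_exists_algEquiv.1 h1.symm
      rw [← hσx, hσ]
    have hle : (minpoly K w).natDegree ≤ 1 := by
      rw [← hcard, Fintype.card_le_one_iff]
      intro x y
      exact Subtype.ext ((hsub x.1 x.2).trans (hsub y.1 y.2).symm)
    have h1 : (minpoly K w).natDegree = 1 := le_antisymm hle (minpoly.natDegree_pos hint)
    rw [minpoly.natDegree_eq_one_iff] at h1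
    exact h1

variable {d : ℕ} [NeZero d] {κ : Type} [Field κ] {T : Tab κ d}

theorem nsmul_inj {α : Type} {N : ℕ} (hN : N ≠ 0) {X Y : Multiset α} (h : N • X = N • Y) : X = Y := by
  classical
  ext a
  have h1 := congrArg (Multiset.count a) h
  rw [Multiset.count_nsmul, Multiset.count_nsmul] at h1
  exact Nat.eq_of_mul_eq_mul_left (Nat.pos_of_ne_zero hN) h1

/-- **Nondegeneracy of the Weil pairing**, from the divisibility of the class of the generic point
and the descent of the torsion from the closure of the function field. -/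
theorem nondeg_of [IsDedekindDomain (WB T)] [IsAlgClosed κ] {N : ℕ} (hN : (N : κ) ≠ 0)
    {F : Type} [Field F] [Algebra (FractionRing (WB T)) F] [IsAlgClosure (FractionRing (WB T)) F]
    {T' : Tab F d} [IsDedekindDomain (WB T')] (g : κ →+* F) (h : T.map g = T')
    (hg : ∀ r, g r = algebraMap (FractionRing (WB T)) F (algebraMap (WB T) _ (algebraMap κ (WB T) r)))
    (hdiv : ∀ D : ClassGroup (WB T'), ∃ E, E ^ N = D)
    (htor : ∀ t : ClassGroup (WB T'), t ^ N = 1 → ∃ t₀ : ClassGroup (WB T), t₀ ^ N = 1 ∧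
      bcl g h t₀ = t)
    {D : ClassGroup (WB T)} (hD : D ^ N = 1) (he : ∀ D' : ClassGroup (WB T), D' ^ N = 1 → e N D D' = 1) :
    D = 1 := by
  set K := FractionRing (WB T) with hK
  have hac : IsAlgClosed F := IsAlgClosure.isAlgClosed K
  have hN0 : N ≠ 0 := by
    rintro rfl
    simp at hN
  obtain ⟨X, rfl⟩ := exists_rep D
  obtain ⟨f, lf, hf⟩ := exists_gen (iX_ne (N • X)) (by rw [cls_iX_nsmul, hD])
  obtain ⟨P, hP⟩ := exists_pt g h ((algebraMap K F).comp (algebraMap (WB T) K)) (fun r => (hg r).symm)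
  obtain ⟨z, hz⟩ := hdiv (cls (RingHom.ker P))
  obtain ⟨w, hw, hσ⟩ := kw g h lf hf P hz
  have hNK : (N : K) ≠ 0 := by
    intro h0
    apply hN
    have h1 : Function.Injective ((algebraMap (WB T) K).comp (algebraMap κ (WB T))) :=
      RingHom.injective _
    apply h1
    rw [map_natCast, h0, map_zero]
  have hfix : ∀ σ : F ≃ₐ[K] F, σ w = w := by
    intro σ
    have h1 : ∀ x, ((σ : F ≃+* F) : F →+* F) (g x) = g x := by
      intro x
      rw [hg]
      exact σ.commutes _
    have hT := tab_fix g h ((σ : F ≃+* F) : F →+* F) h1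
    have h2 := hσ ((σ : F ≃+* F) : F →+* F) hT h1 (by
      intro b
      rw [hP]
      exact σ.commutes _)
    have h3 : (bcl ((σ : F ≃+* F) : F →+* F) hT z / z) ^ N = 1 := by
      rw [div_pow, ← map_pow, hz, bcl_cls _ hT (ker_ne_bot' P), ker_bp, bp_fix g h _ hT h1 (by
        intro b
        rw [hP]
        exact σ.commutes _), div_self']
    obtain ⟨t₀, ht₀, ht⟩ := htor _ h3
    rw [← ht, e_map g h hD ht₀, he t₀ ht₀, map_one, one_mul] at h2
    exact h2
  rw [hP] at hw
  obtain ⟨w₀, hw₀⟩ := rad_fixed (K := K) hNK (a := algebraMap (WB T) K f) hw hfix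
  have h4 : w₀ ^ N = algebraMap (WB T) K f := by
    apply (algebraMap K F).injective
    rw [map_pow, hw₀, hw]
    rfl
  have h5 : IsIntegral (WB T) w₀ := by
    refine IsIntegral.of_pow (Nat.pos_of_ne_zero hN0) ?_
    rw [h4]
    exact isIntegral_algebraMap
  obtain ⟨b, hb⟩ := IsIntegrallyClosed.isIntegral_iff.1 h5
  have h6 : b ^ N = f := by
    apply IsFractionRing.injective (WB T) K
    rw [map_pow, hb, h4]
  have hb0 : b ≠ 0 := by
    rintro rfl
    rw [zero_pow hN0] at h6
    exact ne_of_lc lf h6.symm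
  obtain ⟨B, hB⟩ := exists_dv hb0
  have h7 : N • X = N • B := by
    apply iX_inj
    rw [hf, ← h6, iX_nsmul, hB, Ideal.span_singleton_pow]
  rw [nsmul_inj hN0 h7, hB, cls_span hb0]

end Pool.Agent.TIFS
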