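import Pool.Agent.TIFS.D7
import Pool.Agent.TIFS.D3
import Pool.Agent.TIFS.W10
import Pool.Agent.TIFS.L10
import Pool.Agent.MP_c1dca2_ag.GT.F3a
import Pool.Agent.TIFB.Tors

/-!
# TIF-D8: the block TORS
-/

set_option autoImplicit false
set_option linter.unusedSectionVars false

namespace Pool.Agent.TIFS

open GT Module TIF
open SUP (cls clm exists_cls clm_cls)

section general

variable {d : ℕ} [NeZero d] {κ : Type} [Field κ] [IsAlgClosed κ] {T : Tab κ d} [IsDedekindDomain (WB T)]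

/-- **The class group is divisible.** -/
theorem cl_dvd {N : ℕ} (hN : (N : κ) ≠ 0) (D : ClassGroup (WB T)) : ∃ E : ClassGroup (WB T), E ^ N = D :=
  cl_div' hN (fun _ _ _ g => TIFCRV.ded_up T g) D

/-- **Nondegeneracy of the Weil pairing.** -/
theorem e_nondeg {N : ℕ} (hN : (N : κ) ≠ 0) {D : ClassGroup (WB T)} (hD : D ^ N = 1)
    (he : ∀ D' : ClassGroup (WB T), D' ^ N = 1 → e N D D' = 1) : D = 1 := by
  let K : Type := FractionRing (WB T)
  let F : Type := AlgebraicClosure K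
  let g : κ →+* F := ((algebraMap K F).comp (algebraMap (WB T) K)).comp (algebraMap κ (WB T))
  have hd : IsDedekindDomain (WB (T.map g)) := TIFCRV.ded_up T g
  have hNF : (N : F) ≠ 0 := by
    intro h0
    apply hN
    apply g.injective
    rw [map_natCast, h0, map_zero]
  exact nondeg_of hN (F := F) g rfl (fun r => rfl) (cl_dvd hNF)
    (fun t ht => rig g d T (T.map g) rfl N hN t ht) hD he

theorem e_nondeg' {N : ℕ} (hN : (N : κ) ≠ 0) {D : ClassGroup (WB T)} (hD : D ^ N = 1)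
    (he : ∀ D' : ClassGroup (WB T), D' ^ N = 1 → e N D' D = 1) : D = 1 := by
  refine e_nondeg hN hD fun D' hD' => ?_
  have h1 := e_anti hD' hD
  rw [he D' hD', one_mul] at h1
  exact h1

/-- the pairings on `J[ℓ ^ n]` -/
theorem lpair {ℓ : ℕ} (hℓ : (ℓ : κ) ≠ 0) : TIFB.LPair ℓ (fun N (D D' : ClassGroup (WB T)) => e N D D') where
  pow n D D' hD hD' := e_pow hD hD'
  mul_left n D₁ D₂ D' h₁ h₂ hD' := e_mul_left h₁ h₂ hD'
  mul_right n D D₁ D₂ hD h₁ h₂ := e_mul_right hD h₁ h₂
  anti n D D' hD hD' := e_anti hD hD'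
  compat n D D' hD hD' := by
    rw [pow_succ]
    refine e_compat hD ?_
    rw [← pow_succ]
    exact hD'
  nondeg n D hD he := e_nondeg (by rw [Nat.cast_pow]; exact pow_ne_zero n hℓ) hD he

end general

section

variable {k Ω : Type} [Field k] [Field Ω] [Algebra k Ω] [IsAlgClosed Ω] {d : ℕ} [NeZero d]
  {T : Tab Ω d} [IsDedekindDomain (WB T)]

/-- the table over the algebraic closure -/
theorem exists_tabA (hT : Tk k T) : ∃ TA : Tab (algebraicClosure k Ω) d,
    TA.map (algebraMap (algebraicClosure k Ω) Ω) = T ∧ Tk k TA := by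
  obtain ⟨T₀, rfl⟩ := hT
  refine ⟨T₀.map (algebraMap k (algebraicClosure k Ω)), ?_, T₀, rfl⟩
  rw [Tab.map_map]
  congr 1

theorem bot_eq_kb : (((⊥ : IntermediateField (algebraicClosure k Ω) Ω)) : Set Ω) = kb k Ω := by
  ext x
  constructor
  · intro hx
    obtain ⟨a, ha⟩ := IntermediateField.mem_bot.1 hx
    rw [← ha]
    exact mem_algebraicClosure_iff.1 a.2
  · intro hx
    exact IntermediateField.mem_bot.2 ⟨⟨x, mem_algebraicClosure_iff.2 hx⟩, rfl⟩

/-- the torsion classes come from the algebraic closure of `k` -/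
theorem tors_bcl {TA : Tab (algebraicClosure k Ω) d} [IsDedekindDomain (WB TA)]
    (h : TA.map (algebraMap (algebraicClosure k Ω) Ω) = T) {N : ℕ} (hN : (N : k) ≠ 0)
    {D : ClassGroup (WB T)} (hD : D ^ N = 1) : ∃ D₀ : ClassGroup (WB TA), D₀ ^ N = 1 ∧
      bcl (algebraMap (algebraicClosure k Ω) Ω) h D₀ = D := by
  have hac : IsAlgClosed (algebraicClosure k Ω) := IsAlgClosure.isAlgClosed k
  have hNA : (N : algebraicClosure k Ω) ≠ 0 := by
    intro h0
    apply hN
    apply (algebraMap k (algebraicClosure k Ω)).injective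
    rw [map_natCast, h0, map_zero]
  exact rig (algebraMap (algebraicClosure k Ω) Ω) d TA T h N hNA D hD

/-- **The torsion classes are defined over the algebraic closure of `k`.** -/
theorem tors_JK (hT : Tk k T) {N : ℕ} (hN : (N : k) ≠ 0) {D : ClassGroup (WB T)} (hD : D ^ N = 1) :
    D ∈ JK (T := T) (kb k Ω) := by
  obtain ⟨TA, hTA, -⟩ := exists_tabA hT
  have hd1 : IsDedekindDomain (WB (TA.map (algebraMap (algebraicClosure k Ω) Ω))) := by
    rw [hTA]
    infer_instance
  have hd2 : IsDedekindDomain (WB TA) := TIFCRV.ded_down _ (algebraMap (algebraicClosure k Ω) Ω)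
  obtain ⟨D₀, -, hD₀⟩ := tors_bcl hTA hN hD
  have h1 := (TIFP.mem_range_bcl hTA D).2 ⟨D₀, hD₀⟩
  rwa [bot_eq_kb] at h1

/-- the Frobenius automorphism of `Ω` -/
theorem exists_Frob [Finite k] (hT : Tk k T) : ∃ φ : Ω ≃+* Ω, Frob T φ (Nat.card k) := by
  obtain ⟨p, hp⟩ := CharP.exists k
  have hpp : p.Prime := by
    rcases CharP.char_is_prime_or_zero k p with h | h
    · exact h
    · exfalso
      rw [h] at hp
      have : CharZero k := CharP.charP_to_charZero k
      exact not_finite k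
  have := Fact.mk hpp
  let _ := Fintype.ofFinite k
  obtain ⟨n, hn⟩ := FiniteField.card k p
  have hpΩ : CharP Ω p := charP_of_injective_algebraMap (algebraMap k Ω).injective p
  have hcard : Nat.card k = p ^ (n : ℕ) := by rw [Nat.card_eq_fintype_card, hn.2]
  refine ⟨iterateFrobeniusEquiv Ω p n, ⟨p, n, hpp, n.2, hpΩ, hcard⟩, ?_, ?_⟩
  · intro z
    rw [hcard]
    rfl
  · obtain ⟨T₀, rfl⟩ := hT
    rw [Tab.map_map]
    congr 1
    ext c
    show (algebraMap k Ω c) ^ p ^ (n : ℕ) = algebraMap k Ω c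
    rw [← map_pow]
    congr 1
    have h1 := FiniteField.pow_card c
    rwa [hn.2] at h1

theorem cE_pow_cls {B : Type} [CommRing B] [IsDedekindDomain B] (σ : RingAut B) (m : ℕ) {I : Ideal B}
    (hI : I ≠ ⊥) : (cE σ ^ m) (cls I) = cls ((fun I : Ideal B => I.map (σ : B ≃+* B))^[m] I) ∧
      (fun I : Ideal B => I.map (σ : B ≃+* B))^[m] I ≠ ⊥ := by
  induction m with
  | zero => exact ⟨by rw [pow_zero]; rfl, hI⟩
  | succ m ih =>
    rw [Function.iterate_succ_apply']
    refine ⟨?_, SUP.map_ne_bot _ ih.2⟩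
    rw [pow_succ', MulAut.mul_apply, ih.1, cE_apply, clm_cls _ ih.2]

theorem Frob.E_eq {φ : Ω ≃+* Ω} {Q : ℕ} (h : Frob T φ Q) : h.E = bE φ h.tab := rfl

/-- a torsion class has a finite orbit under the Frobenius -/
theorem orbit [Finite k] (hT : Tk k T) {φ : Ω ≃+* Ω} (h : Frob T φ (Nat.card k)) {N : ℕ}
    (hN : (N : k) ≠ 0) {D : ClassGroup (WB T)} (hD : D ^ N = 1) :
    ∃ m : ℕ, 0 < m ∧ (cE (h.E : RingAut (WB T)) ^ m) D = D := by
  classical
  obtain ⟨TA, hTA, hTkA⟩ := exists_tabA hT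
  have hd1 : IsDedekindDomain (WB (TA.map (algebraMap (algebraicClosure k Ω) Ω))) := by
    rw [hTA]
    infer_instance
  have hd2 : IsDedekindDomain (WB TA) := TIFCRV.ded_down _ (algebraMap (algebraicClosure k Ω) Ω)
  have hac : IsAlgClosed (algebraicClosure k Ω) := IsAlgClosure.isAlgClosed k
  obtain ⟨D₀, -, hD₀⟩ := tors_bcl hTA hN hD
  obtain ⟨φA, hA⟩ := exists_Frob (k := k) hTkA
  obtain ⟨I₀, hI₀, hI₀D⟩ := exists_cls D₀
  -- the elements of the closure have finite orbits
  have hfin : ∀ x : algebraicClosure k Ω, ∃ m : ℕ, 0 < m ∧ φA^[m] x = x := by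
    intro x
    let _ := Fintype.ofFinite k
    have hx : IsAlgebraic k x := Algebra.IsAlgebraic.isAlgebraic x
    let L := IntermediateField.adjoin k {x}
    have hfd : FiniteDimensional k L := IntermediateField.adjoin.finiteDimensional hx.isIntegral
    have hfL : Finite L := Module.finite_of_finite k
    let _ := Fintype.ofFinite L
    have hcardL : Fintype.card L = Fintype.card k ^ Module.finrank k L := Module.card_eq_pow_finrank
    refine ⟨Module.finrank k L, Module.finrank_pos, ?_⟩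
    have h1 : ∀ m : ℕ, φA^[m] x = x ^ (Nat.card k) ^ m := by
      intro m
      induction m with
      | zero => rw [pow_zero, pow_one]; rfl
      | succ m ih => rw [Function.iterate_succ_apply', ih, hA.pow, ← pow_mul, ← pow_succ]
    rw [h1, Nat.card_eq_fintype_card, ← hcardL]
    have h2 := FiniteField.pow_card (⟨x, IntermediateField.mem_adjoin_simple_self k x⟩ : L)
    exact congrArg Subtype.val h2
  obtain ⟨s, hs⟩ : I₀.FG := IsNoetherian.noetherian I₀
  -- the images of the generators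
  have hbm : ∀ (m : ℕ) (b : WB TA), (bE φ h.tab)^[m] (bmap (algebraMap (algebraicClosure k Ω) Ω) hTA b) =
      bmap (algebraMap (algebraicClosure k Ω) Ω) hTA ((bE φA hA.tab)^[m] b) := by
    intro m b
    refine WB.ext (funext fun j => Polynomial.ext fun i => ?_)
    rw [F3a_iter, bmap_co, bmap_co, Polynomial.coeff_map, Polynomial.coeff_map, F3a_iter]
    generalize (b.co j).coeff i = z
    induction m with
    | zero => rfl
    | succ m ih =>
      rw [Function.iterate_succ_apply', Function.iterate_succ_apply', ih, h.pow, hA.pow, map_pow]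
  obtain ⟨m, hm, hms⟩ := F3a_common (bE φ h.tab)
    (s.image (bmap (algebraMap (algebraicClosure k Ω) Ω) hTA)) (by
      intro b hb
      obtain ⟨b₀, -, rfl⟩ := Finset.mem_image.1 hb
      obtain ⟨m, hm, h1⟩ := F3a_pt φA hA.tab hfin b₀
      exact ⟨m, hm, by rw [hbm, h1]⟩)
  refine ⟨m, hm, ?_⟩
  have hI : I₀.map (bmap (algebraMap (algebraicClosure k Ω) Ω) hTA) ≠ ⊥ :=
    map_ne_bot' _ (bmap_inj _ _ (algebraMap (algebraicClosure k Ω) Ω).injective) hI₀
  have hDI : D = cls (I₀.map (bmap (algebraMap (algebraicClosure k Ω) Ω) hTA)) := by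
    rw [← hD₀, ← hI₀D, bcl_cls _ hTA hI₀]
  have h5 := (cE_pow_cls (h.E : RingAut (WB T)) m hI).1
  rw [hDI, h5]
  congr 1
  have h6 : I₀.map (bmap (algebraMap (algebraicClosure k Ω) Ω) hTA) =
      Ideal.span ((s.image (bmap (algebraMap (algebraicClosure k Ω) Ω) hTA) : Finset (WB T)) : Set (WB T)) := by
    rw [← hs]
    show (Ideal.span (s : Set (WB TA))).map _ = _
    rw [Ideal.map_span, Finset.coe_image]
  rw [h6]
  have h7 := F3a_span (bE φ h.tab) ((s.image (bmap (algebraMap (algebraicClosure k Ω) Ω) hTA) :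
    Finset (WB T)) : Set (WB T)) m
  refine h7.trans ?_
  congr 1
  have h8 : (bE φ h.tab)^[m] '' ((s.image (bmap (algebraMap (algebraicClosure k Ω) Ω) hTA) :
      Finset (WB T)) : Set (WB T)) = id '' ((s.image (bmap (algebraMap (algebraicClosure k Ω) Ω) hTA) :
      Finset (WB T)) : Set (WB T)) := Set.image_congr fun x hx => hms x hx
  rw [h8, Set.image_id]

/-- **The number of the `ℓ`-torsion classes.** -/
theorem card_tors_eq [Finite k] (hT : Tk k T) (ℓ : ℕ) [Fact ℓ.Prime] (hℓ : (ℓ : k) ≠ 0) :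
    Nat.card {D : ClassGroup (WB T) // D ^ ℓ = 1} = ℓ ^ (2 * gp T) := by
  obtain ⟨φ, h⟩ := exists_Frob (k := k) hT
  have hℓΩ : (ℓ : Ω) ≠ 0 := by
    rw [← map_natCast (algebraMap k Ω)]
    exact (map_ne_zero _).2 hℓ
  refine h.card_ltors ℓ ?_ (cl_dvd hℓΩ) ?_
  · intro hdvd
    obtain ⟨p, e, hp, he, hc, hQ⟩ := h.pp
    rw [hQ] at hdvd
    have h1 := (Nat.Prime.dvd_of_dvd_pow (Fact.out : ℓ.Prime) hdvd)
    have h2 := (Nat.prime_dvd_prime_iff_eq (Fact.out : ℓ.Prime) hp).1 h1
    apply hℓΩ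
    rw [h2]
    exact CharP.cast_eq_zero Ω p
  · rintro D ⟨n, hn⟩
    exact orbit hT h (by rw [Nat.cast_pow]; exact pow_ne_zero n hℓ) hn

/-- **Output of the block TORS.** -/
theorem torsOut [Finite k] (hT : Tk k T) (ℓ : ℕ) [Fact ℓ.Prime] (hℓ : (ℓ : k) ≠ 0) :
    TorsOut k hT ℓ (fun N (D D' : ClassGroup (WB T)) => e N D D') := by
  have hℓΩ : (ℓ : Ω) ≠ 0 := by
    rw [← map_natCast (algebraMap k Ω)]
    exact (map_ne_zero _).2 hℓ
  refine torsOut_of hT ℓ hℓ _ (cl_dvd hℓΩ) (card_tors_eq hT ℓ hℓ) (fun n D hD => ?_) (lpair hℓΩ) ?_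
  · exact tors_JK hT (by rw [Nat.cast_pow]; exact pow_ne_zero n hℓ) hD
  · intro σ n D D' hD hD'
    exact e_clm (σ : Ω ≃+* Ω) (hT.map σ) hD hD'

end

end Pool.Agent.TIFS
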