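import Pool.Agent.TIFS.W1
import Pool.Agent.MP_c1dca2_ag.GT.A10
import Pool.Agent.MP_c1dca2_ag.GT.V4d
import Pool.Agent.MP_c1dca2_ag.GT.V1b

/-!
# TIF-W2: points, ideals of multisets of points, values on multisets of points
-/

set_option autoImplicit false
set_option linter.unusedSectionVars false

namespace Pool.Agent.TIFS

open GT Module
open SUP (len cls clm cls_mul exists_cls cls_span cls_eq_one_iff map_ne_bot clm_cls map_span_singleton
  len_mul len_top)
open UniqueFactorizationMonoid

section

variable {κ B : Type} [Field κ] [CommRing B] [Algebra κ B]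

theorem alg_ext {P P' : B →ₐ[κ] κ} (h : RingHom.ker P = RingHom.ker P') : P = P' := by
  ext b
  have h1 : b - algebraMap κ B (P b) ∈ RingHom.ker P := by
    rw [RingHom.mem_ker, map_sub, AlgHom.commutes]
    simp
  rw [h, RingHom.mem_ker, map_sub, AlgHom.commutes] at h1
  simp only [Algebra.algebraMap_self, RingHom.id_apply] at h1
  exact (sub_eq_zero.1 h1).symm

end

variable {d : ℕ} [NeZero d] {κ : Type} [Field κ]

/-- the affine points of the curve -/
abbrev Pt (T : Tab κ d) : Type := WB T →ₐ[κ] κ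

/-- the ideal of a multiset of points -/
noncomputable def iX {T : Tab κ d} (X : Multiset (Pt T)) : Ideal (WB T) :=
  (X.map fun P => RingHom.ker P).prod

/-- the value of a function on a multiset of points -/
noncomputable def ev {T : Tab κ d} (u : WB T) (X : Multiset (Pt T)) : κ := (X.map fun P => P u).prod

section

variable {T : Tab κ d}

theorem iX_zero : iX (0 : Multiset (Pt T)) = ⊤ := by simp [iX]

theorem iX_add (X Y : Multiset (Pt T)) : iX (X + Y) = iX X * iX Y := by
  rw [iX, iX, iX, Multiset.map_add, Multiset.prod_add]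

theorem iX_cons (P : Pt T) (X : Multiset (Pt T)) : iX (P ::ₘ X) = RingHom.ker P * iX X := by
  rw [iX, iX, Multiset.map_cons, Multiset.prod_cons]

theorem iX_nsmul (n : ℕ) (X : Multiset (Pt T)) : iX (n • X) = iX X ^ n := by
  rw [iX, iX, Multiset.map_nsmul, Multiset.prod_nsmul]

theorem ev_zero (u : WB T) : ev u 0 = 1 := by simp [ev]

theorem ev_add (u : WB T) (X Y : Multiset (Pt T)) : ev u (X + Y) = ev u X * ev u Y := by
  rw [ev, ev, ev, Multiset.map_add, Multiset.prod_add]

theorem ev_nsmul (u : WB T) (n : ℕ) (X : Multiset (Pt T)) : ev u (n • X) = ev u X ^ n := by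
  rw [ev, ev, Multiset.map_nsmul, Multiset.prod_nsmul]

theorem ev_cons (u : WB T) (P : Pt T) (X : Multiset (Pt T)) : ev u (P ::ₘ X) = P u * ev u X := by
  rw [ev, ev, Multiset.map_cons, Multiset.prod_cons]

theorem ev_mul (u v : WB T) (X : Multiset (Pt T)) : ev (u * v) X = ev u X * ev v X := by
  rw [ev, ev, ev, ← Multiset.prod_map_mul]
  congr 1
  exact Multiset.map_congr rfl fun P _ => map_mul P u v

theorem ev_one (X : Multiset (Pt T)) : ev (1 : WB T) X = 1 := by
  rw [ev]
  have : (X.map fun P : Pt T => P 1) = X.map fun _ => (1 : κ) := Multiset.map_congr rfl fun P _ => map_one P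
  rw [this]
  simp

theorem ev_pow (u : WB T) (n : ℕ) (X : Multiset (Pt T)) : ev (u ^ n) X = ev u X ^ n := by
  induction n with
  | zero => rw [pow_zero, pow_zero, ev_one]
  | succ n ih => rw [pow_succ, pow_succ, ev_mul, ih]

theorem ev_const (c : κ) (X : Multiset (Pt T)) : ev (algebraMap κ (WB T) c) X = c ^ X.card := by
  rw [ev]
  have : (X.map fun P : Pt T => P (algebraMap κ (WB T) c)) = X.map fun _ => c :=
    Multiset.map_congr rfl fun P _ => by rw [AlgHom.commutes]; rfl
  rw [this]
  simp

theorem ev_eq_zero {u : WB T} {X : Multiset (Pt T)} : ev u X = 0 ↔ ∃ P ∈ X, P u = 0 := by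
  rw [ev, Multiset.prod_eq_zero_iff, Multiset.mem_map]

/-- two functions with the same values at the points of `X` -/
theorem ev_congr {u v : WB T} {X : Multiset (Pt T)} (h : ∀ P ∈ X, P u = P v) : ev u X = ev v X := by
  rw [ev, ev]
  exact congrArg Multiset.prod (Multiset.map_congr rfl h)

end

section

variable {T : Tab κ d} [IsDedekindDomain (WB T)]

/-- the kernel of a point is not zero -/
theorem ker_ne_bot' (P : Pt T) : RingHom.ker P ≠ ⊥ := by
  intro h
  have h1 : (WB.x T) - algebraMap κ (WB T) (P (WB.x T)) ∈ RingHom.ker P := by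
    rw [RingHom.mem_ker, map_sub, AlgHom.commutes]
    simp
  rw [h, Ideal.mem_bot, sub_eq_zero] at h1
  have h2 : (WB.x T).co 0 = (algebraMap κ (WB T) (P (WB.x T))).co 0 := by rw [← h1]
  have h3 : (WB.x T).co 0 = Polynomial.X := by
    have : WB.x T = algebraMap (Polynomial κ) (WB T) Polynomial.X := rfl
    rw [this, WB.algebraMap_co, if_pos rfl]
  rw [h3, WB.algebraMap_co', if_pos rfl] at h2
  exact Polynomial.X_ne_C _ h2

theorem ker_maximal' (P : Pt T) : (RingHom.ker P).IsMaximal := GT.ker_maximal P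

theorem iX_ne (X : Multiset (Pt T)) : iX X ≠ ⊥ := by
  rw [iX]
  intro h
  have h1 : (0 : Ideal (WB T)) ∈ X.map fun P => RingHom.ker P := Multiset.prod_eq_zero_iff.1 h
  rw [Multiset.mem_map] at h1
  obtain ⟨P, -, hP⟩ := h1
  exact ker_ne_bot' P hP

theorem nf_iX (X : Multiset (Pt T)) : normalizedFactors (iX X) = X.map fun P => RingHom.ker P := by
  rw [iX]
  apply normalizedFactors_prod_of_prime
  intro Q hQ
  rw [Multiset.mem_map] at hQ
  obtain ⟨P, -, rfl⟩ := hQ
  exact Ideal.prime_of_isPrime (ker_ne_bot' P) (ker_maximal' P).isPrime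

theorem iX_inj : Function.Injective (iX (T := T)) := by
  intro X Y h
  have h1 := congrArg normalizedFactors h
  rw [nf_iX, nf_iX] at h1
  exact Multiset.map_injective (fun P P' h => alg_ext h) h1

theorem len_iX (X : Multiset (Pt T)) : len (iX X) = X.card := by
  rw [len]
  have h := nf_iX X
  rw [h, Multiset.card_map]

theorem le_ker_iff {X : Multiset (Pt T)} {P : Pt T} : iX X ≤ RingHom.ker P ↔ P ∈ X := by
  constructor
  · intro h
    rw [iX] at h
    have := (ker_maximal' P).isPrime
    obtain ⟨J, hJ, hle⟩ := (Ideal.IsPrime.multiset_prod_map_le (fun P : Pt T => RingHom.ker P) this).1 h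
    have h2 : RingHom.ker J = RingHom.ker P := (ker_maximal' J).eq_of_le (ker_maximal' P).ne_top hle
    rwa [← alg_ext h2]
  · intro h
    obtain ⟨Y, rfl⟩ := Multiset.exists_cons_of_mem h
    rw [iX_cons]
    exact Ideal.mul_le_left (I := RingHom.ker P) (J := iX Y)

variable [IsAlgClosed κ]

theorem iX_surj {I : Ideal (WB T)} (hI : I ≠ ⊥) : ∃ X : Multiset (Pt T), iX X = I := by
  have h1 : ∀ Q ∈ normalizedFactors I, ∃ P : Pt T, RingHom.ker P = Q := by
    intro Q hQ
    have h2 := prime_of_normalized_factor Q hQ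
    have h3 := Ideal.isPrime_of_prime h2
    exact exists_eval Q (h3.isMaximal h2.ne_zero)
  obtain ⟨X, hX⟩ : ∃ X : Multiset (Pt T), X.map (fun P => RingHom.ker P) = normalizedFactors I := by
    choose f hf using h1
    refine ⟨(normalizedFactors I).pmap f (fun _ h => h), ?_⟩
    rw [Multiset.map_pmap]
    have h2 : Multiset.pmap (fun Q h => RingHom.ker (f Q h)) (normalizedFactors I) (fun _ h => h) =
        Multiset.pmap (fun Q _ => Q) (normalizedFactors I) (fun _ h => h) :=
      Multiset.pmap_congr _ fun Q _ h _ => hf Q h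
    rw [h2, Multiset.pmap_eq_map, Multiset.map_id']
  refine ⟨X, ?_⟩
  rw [iX, hX]
  have h3 := prod_normalizedFactors_eq (a := I) hI
  rw [h3]
  simp

/-- the divisor of zeros of a function -/
theorem exists_dv {u : WB T} (hu : u ≠ 0) : ∃ X : Multiset (Pt T), iX X = Ideal.span {u} :=
  iX_surj (by rwa [Ne, Ideal.span_singleton_eq_bot])

theorem card_dv {u : WB T} (hu : u ≠ 0) {X : Multiset (Pt T)} (hX : iX X = Ideal.span {u}) :
    X.card = pord u := by
  rw [← len_iX, hX, len_span hu]

theorem mem_dv {u : WB T} {X : Multiset (Pt T)} (hX : iX X = Ideal.span {u}) {P : Pt T} :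
    P ∈ X ↔ P u = 0 := by
  rw [← le_ker_iff, hX, Ideal.span_singleton_le_iff_mem, RingHom.mem_ker]

omit [IsAlgClosed κ] in
/-- the values as determinants -/
theorem det_ev (u : WB T) (X : Multiset (Pt T)) : Module.Finite κ (WB T ⧸ iX X) ∧
    LinearMap.det (LinearMap.mulLeft κ (Ideal.Quotient.mk (iX X) u)) = ev u X := by
  have h := W.filt (Ω := κ) (S := WB T) (fun P : Pt T => RingHom.ker P) (fun P => P) ker_ne_bot' X
    (fun _ _ => rfl)
  exact ⟨h.1, h.2.2 u⟩

end

end Pool.Agent.TIFS
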