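import Pool.Agent.TIFS.W4

/-!
# TIF-W5: Weil reciprocity
-/

set_option autoImplicit false
set_option linter.unusedSectionVars false

namespace Pool.Agent.TIFS

open GT Module

variable {d : ℕ} [NeZero d] {κ : Type} [Field κ] {T : Tab κ d}

theorem ne_of_lc {u : WB T} (hu : lc u = 1) : u ≠ 0 := by
  rintro rfl
  rw [(lc_eq_zero_iff _).2 rfl] at hu
  exact zero_ne_one hu

theorem swp_b1 {c₀ a b : ℕ} {e : ℕ → WB T} {u v : WB T} (i : Ix T c₀ a b) :
    b1 T c₀ b a e v u (swp T c₀ a b i) = b2 T c₀ a b e u v i := by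
  rcases i with s | s | s
  · rfl
  · rfl
  · show v * u * e s.1 = u * v * e s.1
    rw [mul_comm v u]

theorem swp_b3 {c₀ a b : ℕ} {e : ℕ → WB T} {u v : WB T} (i : Ix T c₀ a b) :
    b3 T c₀ b a e v u (swp T c₀ a b i) = b3 T c₀ a b e u v i := by
  rcases i with s | s | s
  · rfl
  · rfl
  · show v * u * e s.1 = u * v * e s.1
    rw [mul_comm v u]

variable [IsDedekindDomain (WB T)]

theorem det_first' {c₀ a b M : ℕ} (hM : M = a + b + c₀) (hc₀ : ∀ s, c₀ ≤ s → s ∈ SO T) {e : ℕ → WB T}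
    (he : ∀ s ∈ SO T, pord (e s) = s ∧ lc (e s) = 1) {u v : WB T} (hu : pord u = a) (hv : pord v = b)
    (hu1 : lc u = 1) (hv1 : lc v = 1) (B : Basis (Ix T c₀ a b) κ (Ble T M))
    (hB : ∀ i, (B i : WB T) = b1 T c₀ a b e u v i) (F : Ix T c₀ a b → Ble T M)
    (hF : ∀ i, (F i : WB T) = b3 T c₀ a b e u v i) {Y : Multiset (Pt T)} (hY : iX Y = Ideal.span {v}) :
    B.det F = ev u Y := by
  subst hM
  have h1 := det_ev u Y
  rw [hY] at h1
  have := h1.1
  rw [det_first hc₀ he hu hv hu1 hv1 B hB F hF]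
  exact h1.2

/-- Reciprocity up to a sign which depends only on the orders. -/
theorem recip_sign (T : Tab κ d) [IsDedekindDomain (WB T)] (a b : ℕ) : ∃ s : κ, s * s = 1 ∧
    ∀ u v : WB T, pord u = a → pord v = b → lc u = 1 → lc v = 1 → ∀ X Y : Multiset (Pt T),
      iX X = Ideal.span {u} → iX Y = Ideal.span {v} → ev u Y = s * ev v X := by
  classical
  by_cases hex : ∃ u v : WB T, pord u = a ∧ pord v = b ∧ lc u = 1 ∧ lc v = 1
  · obtain ⟨c₀, hc₀⟩ := exists_c₀ T
    obtain ⟨e, he⟩ := exists_e T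
    obtain ⟨u₀, v₀, hu₀, hv₀, hu₁, hv₁⟩ := hex
    obtain ⟨π, hπ⟩ := (mon1 hc₀ he hu₀ hv₀ hu₁ hv₁).exists_perm (mon2 hc₀ he hu₀ hv₀ hu₁ hv₁)
    refine ⟨((Equiv.Perm.sign π : ℤ) : κ), ?_, ?_⟩
    · rcases Int.units_eq_one_or (Equiv.Perm.sign π) with h | h <;> simp [h]
    · intro u v hu hv hu1 hv1 X Y hX hY
      have m1 := mon1 hc₀ he hu hv hu1 hv1
      have m2 := mon2 hc₀ he hu hv hu1 hv1
      obtain ⟨B₁, hB₁⟩ := m1.exists_basis
      obtain ⟨B₂, hB₂⟩ := m2.exists_basis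
      have hmem : ∀ i, b3 T c₀ a b e u v i ∈ Ble T (a + b + c₀) := by
        rintro (s | s | s)
        · exact m2.mem (Sum.inl s)
        · exact m1.mem (Sum.inr (Sum.inl s))
        · exact m1.mem (Sum.inr (Sum.inr s))
      have h1 := det_first' rfl hc₀ he hu hv hu1 hv1 B₁ hB₁ (fun i => ⟨b3 T c₀ a b e u v i, hmem i⟩)
        (fun i => rfl) hY
      have h2 := det_first' (a := b) (b := a) (M := a + b + c₀) (by ring) hc₀ he hv hu hv1 hu1
        (B₂.reindex (swp T c₀ a b)) (fun i => by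
          rw [Basis.reindex_apply, hB₂]
          rw [← swp_b1, Equiv.apply_symm_apply])
        (fun i => ⟨b3 T c₀ a b e u v ((swp T c₀ a b).symm i), hmem _⟩) (fun i => by
          show b3 T c₀ a b e u v ((swp T c₀ a b).symm i) = _
          rw [← swp_b3, Equiv.apply_symm_apply]) hX
      rw [Basis.det_reindex] at h2
      have h3 : (fun i => (⟨b3 T c₀ a b e u v ((swp T c₀ a b).symm i), hmem _⟩ : Ble T (a + b + c₀))) ∘
          (swp T c₀ a b) = fun i => ⟨b3 T c₀ a b e u v i, hmem i⟩ := by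
        funext i
        apply Subtype.ext
        show b3 T c₀ a b e u v ((swp T c₀ a b).symm (swp T c₀ a b i)) = _
        rw [Equiv.symm_apply_apply]
      rw [h3] at h2
      have h4 := m1.det m2 B₁ B₂ hB₁ hB₂ π hπ
      have h5 := AlternatingMap.eq_smul_basis_det B₂ B₁.det
      rw [← h1, h5, AlternatingMap.smul_apply, h2, h4, smul_eq_mul]
  · refine ⟨1, one_mul 1, fun u v hu hv hu1 hv1 => ?_⟩
    exact absurd ⟨u, v, hu, hv, hu1, hv1⟩ hex

theorem SO_iff {a : ℕ} : a ∈ SO T ↔ ∃ u : WB T, pord u = a ∧ lc u = 1 := by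
  obtain ⟨e, he⟩ := exists_e T
  constructor
  · intro ha
    exact ⟨e a, he a ha⟩
  · rintro ⟨u, rfl, hu⟩
    exact ⟨u, ne_of_lc hu, rfl⟩

/-- adding a constant -/
theorem add_const {u : WB T} (hu : lc u = 1) (h0 : 1 ≤ pord u) (c : κ) :
    pord (u + algebraMap κ (WB T) c) = pord u ∧ lc (u + algebraMap κ (WB T) c) = 1 := by
  have h1 : pord (algebraMap κ (WB T) c) = 0 := by
    have h0 : pord (algebraMap κ (WB T) c) ≤ 0 := by
      have h := pord_smul_le c (1 : WB T)
      rwa [Algebra.smul_def, mul_one, pord_one] at h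
    omega
  have h2 : u + algebraMap κ (WB T) c ∈ Ble T (pord u) := by
    refine add_mem ((mem_Ble_iff _ _).2 le_rfl) ((mem_Ble_iff _ _).2 ?_)
    rw [h1]; omega
  have h3 : lcf T (pord u) (algebraMap κ (WB T) c) = 0 := by
    by_contra hne
    have := pord_eq_of (m := pord u) (b := algebraMap κ (WB T) c)
      ((mem_Ble_iff _ _).2 (by rw [h1]; omega)) hne
    omega
  have h4 : lcf T (pord u) (u + algebraMap κ (WB T) c) = 1 := by
    rw [map_add, h3, add_zero]
    exact hu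
  have h5 : pord (u + algebraMap κ (WB T) c) = pord u := pord_eq_of h2 (by rw [h4]; exact one_ne_zero)
  refine ⟨h5, ?_⟩
  unfold GT.lc
  rw [h5, h4]

variable [IsAlgClosed κ]

/-- a function of given order without zeros on a given multiset -/
theorem exists_avoid {b : ℕ} (hb : b ∈ SO T) (hb1 : 1 ≤ b) (X : Multiset (Pt T)) :
    ∃ v : WB T, pord v = b ∧ lc v = 1 ∧ ev v X ≠ 0 := by
  classical
  obtain ⟨v₀, hv₀, hl⟩ := SO_iff.1 hb
  have hinf : Infinite κ := IsAlgClosed.instInfinite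
  obtain ⟨c, hc⟩ := Infinite.exists_notMem_finset (X.map fun P : Pt T => - P v₀).toFinset
  obtain ⟨h1, h2⟩ := add_const hl (by omega) c
  refine ⟨v₀ + algebraMap κ (WB T) c, by rw [h1, hv₀], h2, ?_⟩
  intro h3
  obtain ⟨P, hP, h4⟩ := ev_eq_zero.1 h3
  apply hc
  rw [Multiset.mem_toFinset, Multiset.mem_map]
  refine ⟨P, hP, ?_⟩
  rw [map_add, AlgHom.commutes] at h4
  have h5 : P v₀ + c = 0 := h4
  linear_combination -h5

theorem ev_eq_of_pord_zero {u : WB T} (hu : lc u = 1) (h0 : pord u = 0) : u = 1 := by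
  by_contra hne
  have h1 : lc u = lc (1 : WB T) := by rw [hu, lc_one]
  have h3 : pord u = pord (1 : WB T) := by rw [h0, pord_one]
  have h2 := pord_sub_lt h3 h1 hne
  omega

/-- Weil reciprocity. -/
theorem weil {u v : WB T} (hu : lc u = 1) (hv : lc v = 1) {X Y : Multiset (Pt T)}
    (hX : iX X = Ideal.span {u}) (hY : iX Y = Ideal.span {v}) :
    ev u Y = (-1) ^ (pord u * pord v) * ev v X := by
  classical
  choose s hs2 hs using recip_sign T
  -- bimultiplicativity
  have hadd : ∀ a a' b, a ∈ SO T → a' ∈ SO T → b ∈ SO T → 1 ≤ b → s (a + a') b = s a b * s a' b := by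
    intro a a' b ha ha' hb hb1
    obtain ⟨u, hua, hul⟩ := SO_iff.1 ha
    obtain ⟨u', hua', hul'⟩ := SO_iff.1 ha'
    obtain ⟨X, hX⟩ := exists_dv (ne_of_lc hul)
    obtain ⟨X', hX'⟩ := exists_dv (ne_of_lc hul')
    obtain ⟨v, hvb, hvl, hv0⟩ := exists_avoid hb hb1 (X + X')
    obtain ⟨Y, hY⟩ := exists_dv (ne_of_lc hvl)
    have h1 := hs a b u v hua hvb hul hvl X Y hX hY
    have h2 := hs a' b u' v hua' hvb hul' hvl X' Y hX' hY
    have h3 := hs (a + a') b (u * u') v (by rw [pord_mul (ne_of_lc hul) (ne_of_lc hul'), hua, hua']) hvb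
      (by rw [lc_mul, hul, hul', one_mul]) hvl (X + X') Y
      (by rw [iX_add, hX, hX', Ideal.span_singleton_mul_span_singleton]) hY
    rw [ev_mul, h1, h2, ev_add] at h3
    rw [ev_add] at hv0
    have h4 : (s (a + a') b - s a b * s a' b) * (ev v X * ev v X') = 0 := by linear_combination -h3
    rcases mul_eq_zero.1 h4 with h5 | h5
    · exact sub_eq_zero.1 h5
    · exact absurd h5 hv0
  have hsymm : ∀ a b, a ∈ SO T → b ∈ SO T → 1 ≤ b → s a b = s b a := by
    intro a b ha hb hb1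
    obtain ⟨u, hua, hul⟩ := SO_iff.1 ha
    obtain ⟨X, hX⟩ := exists_dv (ne_of_lc hul)
    obtain ⟨v, hvb, hvl, hv0⟩ := exists_avoid hb hb1 X
    obtain ⟨Y, hY⟩ := exists_dv (ne_of_lc hvl)
    have h1 := hs a b u v hua hvb hul hvl X Y hX hY
    have h2 := hs b a v u hvb hua hvl hul Y X hY hX
    rw [h1] at h2
    have h3 : (1 - s b a * s a b) * ev v X = 0 := by linear_combination h2
    rcases mul_eq_zero.1 h3 with h4 | h4
    · have h5 : s b a * s a b = 1 := (sub_eq_zero.1 h4).symm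
      calc s a b = (s b a * s b a) * s a b := by rw [hs2, one_mul]
        _ = s b a * (s b a * s a b) := by ring
        _ = s b a := by rw [h5, mul_one]
    · exact absurd h4 hv0
  have hmul : ∀ n a b, a ∈ SO T → b ∈ SO T → 1 ≤ b → s ((n + 1) * a) b = s a b ^ (n + 1) ∧
      (n + 1) * a ∈ SO T := by
    intro n a b ha hb hb1
    induction n with
    | zero => exact ⟨by rw [zero_add, one_mul, pow_one], by rwa [zero_add, one_mul]⟩
    | succ n ih =>
      have h1 : (n + 1 + 1) * a = (n + 1) * a + a := by ring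
      rw [h1, hadd _ _ _ ih.2 ha hb hb1, ih.1]
      exact ⟨(pow_succ _ _).symm, SO_add ih.2 ha⟩
  have hself : ∀ b, b ∈ SO T → 1 ≤ b → s b b = (-1) ^ b := by
    intro b hb hb1
    obtain ⟨v, hvb, hvl⟩ := SO_iff.1 hb
    obtain ⟨Y, hY⟩ := exists_dv (ne_of_lc hvl)
    obtain ⟨h1, h2⟩ := add_const hvl (by omega) (1 : κ)
    rw [hvb] at h1
    obtain ⟨X, hX⟩ := exists_dv (ne_of_lc h2)
    have h3 := hs b b (v + algebraMap κ (WB T) 1) v h1 hvb h2 hvl X Y hX hY
    have h4 : ev (v + algebraMap κ (WB T) 1) Y = 1 := by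
      have h5 : ev (v + algebraMap κ (WB T) 1) Y = ev (1 : WB T) Y := by
        apply ev_congr
        intro P hP
        rw [mem_dv hY] at hP
        rw [map_add, hP, zero_add, map_one, map_one]
      rw [h5, ev_one]
    have h6 : ev v X = (-1) ^ b := by
      have h7 : ev v X = ev (algebraMap κ (WB T) (-1)) X := by
        apply ev_congr
        intro P hP
        rw [mem_dv hX, map_add, map_one, map_one] at hP
        rw [AlgHom.commutes]
        show P v = -1
        linear_combination hP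
      rw [h7, ev_const, card_dv (ne_of_lc h2) hX, h1]
    rw [h4, h6] at h3
    have h8 : ((-1 : κ) ^ b) * ((-1) ^ b) = 1 := by rw [← mul_pow]; simp
    calc s b b = s b b * (((-1 : κ) ^ b) * ((-1) ^ b)) := by rw [h8, mul_one]
      _ = (s b b * (-1) ^ b) * (-1) ^ b := by ring
      _ = (-1) ^ b := by rw [← h3, one_mul]
  obtain ⟨c₀, hc₀⟩ := exists_c₀ T
  have hm : 2 * c₀ + 1 ∈ SO T := hc₀ _ (by omega)
  have hodd : ∀ a b, s a b ^ (2 * c₀ + 1) = s a b := by
    intro a b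
    rw [pow_add, pow_mul, pow_two, hs2, one_pow, pow_one, one_mul]
  -- the sign
  have hleft : ∀ a b, a ∈ SO T → 1 ≤ a → b ∈ SO T → 1 ≤ b → s a b = s (2 * c₀ + 1) b ^ a := by
    intro a b ha ha1 hb hb1
    have h1 := (hmul (2 * c₀) a b ha hb hb1).1
    rw [hodd] at h1
    have h2 := (hmul (a - 1) (2 * c₀ + 1) b hm hb hb1).1
    rw [Nat.sub_add_cancel ha1] at h2
    rw [← h1, ← h2, mul_comm]
  have hfin : ∀ a b, a ∈ SO T → 1 ≤ a → b ∈ SO T → 1 ≤ b → s a b = (-1) ^ (a * b) := by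
    intro a b ha ha1 hb hb1
    rw [hleft a b ha ha1 hb hb1, hsymm _ b hm hb hb1, hleft b _ hb hb1 hm (by omega),
      hself _ hm (by omega), ← pow_mul, ← pow_mul]
    have h1 : (2 * c₀ + 1) * (b * a) = 2 * (c₀ * b * a) + a * b := by ring
    rw [h1, pow_add, pow_mul]
    simp
  have hu0 := ne_of_lc hu
  have hv0 := ne_of_lc hv
  by_cases ha : pord u = 0
  · have h1 := ev_eq_of_pord_zero hu ha
    have h2 : X = 0 := by
      rw [← Multiset.card_eq_zero, card_dv hu0 hX, ha]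
    rw [ha, h1, h2, ev_one, ev_zero, zero_mul, pow_zero, one_mul]
  · by_cases hb : pord v = 0
    · have h1 := ev_eq_of_pord_zero hv hb
      have h2 : Y = 0 := by
        rw [← Multiset.card_eq_zero, card_dv hv0 hY, hb]
      rw [hb, h1, h2, ev_one, ev_zero, mul_zero, pow_zero, one_mul]
    · rw [hs (pord u) (pord v) u v rfl rfl hu hv X Y hX hY,
        hfin _ _ ⟨u, hu0, rfl⟩ (by omega) ⟨v, hv0, rfl⟩ (by omega)]

end Pool.Agent.TIFS
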