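import Pool.Agent.TIFS.W5
import Mathlib.GroupTheory.CosetCover

/-!
# TIF-W6: the pairing
-/

set_option autoImplicit false
set_option linter.unusedSectionVars false

namespace Pool.Agent.TIFS

open GT Module
open SUP (len cls clm cls_mul exists_cls cls_span cls_eq_one_iff map_ne_bot clm_cls map_span_singleton
  len_mul len_top)

variable {d : ℕ} [NeZero d] {κ : Type} [Field κ] {T : Tab κ d}

section

variable [IsDedekindDomain (WB T)]

theorem cls_iX_add (X Y : Multiset (Pt T)) : cls (iX (X + Y)) = cls (iX X) * cls (iX Y) := by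
  rw [iX_add, cls_mul (iX_ne X) (iX_ne Y)]

theorem cls_pow' {I : Ideal (WB T)} (hI : I ≠ ⊥) (n : ℕ) : cls (I ^ n) = cls I ^ n := by
  induction n with
  | zero =>
    rw [pow_zero, pow_zero, Ideal.one_eq_top, ← Ideal.span_singleton_one, cls_span one_ne_zero]
  | succ n ih =>
    have h0 : I ^ n ≠ ⊥ := pow_ne_zero n hI
    rw [pow_succ, cls_mul h0 hI, ih, pow_succ]

theorem cls_iX_nsmul (n : ℕ) (X : Multiset (Pt T)) : cls (iX (n • X)) = cls (iX X) ^ n := by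
  rw [iX_nsmul, cls_pow' (iX_ne X)]

theorem monic_gen {u : WB T} (hu : u ≠ 0) : ∃ v : WB T, lc v = 1 ∧ Ideal.span {v} = Ideal.span {u} := by
  have hl := lc_ne hu
  refine ⟨(lc u)⁻¹ • u, by rw [lc_smul, inv_mul_cancel₀ hl], ?_⟩
  exact (span_eq_iff.2 ⟨(lc u)⁻¹, inv_ne_zero hl, rfl⟩).symm

theorem exists_gen {I : Ideal (WB T)} (hI : I ≠ ⊥) (h : cls I = 1) :
    ∃ f : WB T, lc f = 1 ∧ I = Ideal.span {f} := by
  obtain ⟨x, hx⟩ := (cls_eq_one_iff hI).1 h
  have hx0 : x ≠ 0 := by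
    rintro rfl
    apply hI
    rw [hx, Ideal.span_singleton_eq_bot]
  obtain ⟨v, hv, hvx⟩ := monic_gen hx0
  exact ⟨v, hv, by rw [hx, hvx]⟩

variable [IsAlgClosed κ]

theorem exists_rep (D : ClassGroup (WB T)) : ∃ X : Multiset (Pt T), cls (iX X) = D := by
  obtain ⟨I, hI, rfl⟩ := exists_cls D
  obtain ⟨X, rfl⟩ := iX_surj hI
  exact ⟨X, rfl⟩

/-- The moving lemma. -/
theorem avoid {K : Ideal (WB T)} (hK : K ≠ ⊥) (Y : Multiset (Pt T)) :
    ∃ (Z : Multiset (Pt T)) (a : WB T), lc a = 1 ∧ K * iX Z = Ideal.span {a} ∧ ∀ P ∈ Z, P ∉ Y := by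
  classical
  have hinf : Infinite κ := IsAlgClosed.instInfinite
  let K' : Submodule κ (WB T) := K.restrictScalars κ
  let sub : Pt T → Submodule κ K' := fun P => ((RingHom.ker P * K).restrictScalars κ).comap K'.subtype
  let s : Finset (Submodule κ K') := insert ⊥ (Y.toFinset.image sub)
  have hs : ⊤ ∉ s := by
    intro h
    rw [Finset.mem_insert, Finset.mem_image] at h
    rcases h with h | ⟨P, -, hP⟩
    · obtain ⟨x, hx, hx0⟩ := Submodule.exists_mem_ne_zero_of_ne_bot hK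
      have h1 : (⟨x, hx⟩ : K') ∈ (⊤ : Submodule κ K') := trivial
      rw [h, Submodule.mem_bot] at h1
      exact hx0 (congrArg Subtype.val h1)
    · obtain ⟨x, hx, hx'⟩ := SetLike.exists_of_lt (mul_lt (ker_maximal' P) (ker_ne_bot' P) hK)
      have h1 : (⟨x, hx⟩ : K') ∈ (⊤ : Submodule κ K') := trivial
      rw [← hP] at h1
      exact hx' h1
  have h1 := Subspace.biUnion_ne_univ_of_top_notMem hs
  rw [Ne, Set.eq_univ_iff_forall] at h1
  push Not at h1
  obtain ⟨⟨x, hx⟩, hxs⟩ := h1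
  rw [Set.mem_iUnion₂] at hxs
  push Not at hxs
  have hx0 : x ≠ 0 := by
    intro h0
    apply hxs ⊥ (Finset.mem_insert_self _ _)
    rw [SetLike.mem_coe, Submodule.mem_bot]
    exact Subtype.ext h0
  have hxP : ∀ P ∈ Y, x ∉ RingHom.ker P * K := by
    intro P hP h0
    apply hxs (sub P) (Finset.mem_insert_of_mem (Finset.mem_image.2 ⟨P, Multiset.mem_toFinset.2 hP, rfl⟩))
    exact h0
  have hdvd : K ∣ Ideal.span {x} := by
    rw [Ideal.dvd_iff_le, Ideal.span_singleton_le_iff_mem]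
    exact hx
  obtain ⟨J, hJ⟩ := hdvd
  have hJ0 : J ≠ ⊥ := by
    rintro rfl
    rw [Ideal.mul_bot, Ideal.span_singleton_eq_bot] at hJ
    exact hx0 hJ
  obtain ⟨Z, hZ⟩ := iX_surj hJ0
  obtain ⟨a, ha, hax⟩ := monic_gen hx0
  refine ⟨Z, a, ha, by rw [hZ, hax, hJ], ?_⟩
  intro P hP hPY
  apply hxP P hPY
  have h2 : Ideal.span {x} ≤ RingHom.ker P * K := by
    rw [hJ, mul_comm (RingHom.ker P)]
    apply Ideal.mul_mono le_rfl
    rw [← hZ]
    exact le_ker_iff.2 hP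
  exact h2 (Ideal.mem_span_singleton_self x)

/-- a representative away from a given multiset -/
theorem exists_rep' (D : ClassGroup (WB T)) (Y : Multiset (Pt T)) :
    ∃ X : Multiset (Pt T), cls (iX X) = D ∧ ∀ P ∈ X, P ∉ Y := by
  obtain ⟨K, hK, hKD⟩ := exists_cls D⁻¹
  obtain ⟨Z, a, ha, hKZ, hZ⟩ := avoid hK Y
  refine ⟨Z, ?_, hZ⟩
  have h1 := congrArg cls hKZ
  rw [cls_mul hK (iX_ne Z), cls_span (ne_of_lc ha), hKD] at h1
  exact (inv_mul_eq_one.1 h1).symm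

end

/-- The data for the pairing. -/
structure Dat [IsDedekindDomain (WB T)] (N : ℕ) (D D' : ClassGroup (WB T)) (X Y : Multiset (Pt T))
    (f g : WB T) : Prop where
  cX : cls (iX X) = D
  cY : cls (iX Y) = D'
  lf : lc f = 1
  lg : lc g = 1
  hf : iX (N • X) = Ideal.span {f}
  hg : iX (N • Y) = Ideal.span {g}
  dis : ∀ P ∈ X, P ∉ Y

/-- the value of the pairing -/
noncomputable def val (N : ℕ) (X Y : Multiset (Pt T)) (f g : WB T) : κ :=
  (-1) ^ (N * X.card * Y.card) * ev f Y / ev g X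

section

variable [IsDedekindDomain (WB T)] [IsAlgClosed κ] {N : ℕ} {D D' : ClassGroup (WB T)}

theorem Dat.symm {X Y : Multiset (Pt T)} {f g : WB T} (h : Dat N D D' X Y f g) :
    Dat N D' D Y X g f := ⟨h.cY, h.cX, h.lg, h.lf, h.hg, h.hf, fun P hY hX => h.dis P hX hY⟩

theorem ev_ne_of {X Y : Multiset (Pt T)} {f : WB T} {N : ℕ} (hf : iX (N • X) = Ideal.span {f})
    (hdis : ∀ P ∈ X, P ∉ Y) : ev f Y ≠ 0 := by
  intro h
  obtain ⟨P, hP, h0⟩ := ev_eq_zero.1 h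
  rw [← mem_dv hf] at h0
  exact hdis P (Multiset.mem_of_mem_nsmul h0) hP

theorem Dat.ne1 {X Y : Multiset (Pt T)} {f g : WB T} (h : Dat N D D' X Y f g) : ev f Y ≠ 0 :=
  ev_ne_of h.hf h.dis

theorem Dat.ne2 {X Y : Multiset (Pt T)} {f g : WB T} (h : Dat N D D' X Y f g) : ev g X ≠ 0 :=
  h.symm.ne1

theorem neg_one_pow_mul_self' (n : ℕ) : ((-1 : κ) ^ n) * (-1) ^ n = 1 := by
  rw [← mul_pow]
  simp

theorem Dat.val_symm {X Y : Multiset (Pt T)} {f g : WB T} (h : Dat N D D' X Y f g) :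
    val N X Y f g * val N Y X g f = 1 := by
  have h1 := h.ne1
  have h2 := h.ne2
  rw [val, val]
  have h3 : N * Y.card * X.card = N * X.card * Y.card := by ring
  have h4 := neg_one_pow_mul_self' (κ := κ) (N * X.card * Y.card)
  rw [h3]
  field_simp
  linear_combination h4

theorem Dat.exists (hD : D ^ N = 1) (hD' : D' ^ N = 1) (W : Multiset (Pt T)) :
    ∃ (X Y : Multiset (Pt T)) (f g : WB T), Dat N D D' X Y f g ∧ ∀ P ∈ Y, P ∉ W := by
  obtain ⟨X, hX⟩ := exists_rep D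
  obtain ⟨Y, hY, hXY⟩ := exists_rep' D' (X + W)
  obtain ⟨f, hf, hf'⟩ := exists_gen (iX_ne (N • X)) (by rw [cls_iX_nsmul, hX, hD])
  obtain ⟨g, hg, hg'⟩ := exists_gen (iX_ne (N • Y)) (by rw [cls_iX_nsmul, hY, hD'])
  refine ⟨X, Y, f, g, ⟨hX, hY, hf, hg, hf', hg', fun P hP hP' => ?_⟩, fun P hP hP' => ?_⟩
  · exact hXY P hP' (Multiset.mem_add.2 (Or.inl hP))
  · exact hXY P hP (Multiset.mem_add.2 (Or.inr hP'))

/-- The first representative can be changed. -/
theorem Dat.change {X X' Y : Multiset (Pt T)} {f f' g : WB T} (h : Dat N D D' X Y f g)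
    (h' : Dat N D D' X' Y f' g) : val N X Y f g = val N X' Y f' g := by
  obtain ⟨Z, a, ha, hXZ, hZ⟩ := avoid (iX_ne X) Y
  rw [← iX_add] at hXZ
  have h1 : cls (iX (X' + Z)) = 1 := by
    rw [cls_iX_add, h'.cX, ← h.cX, ← cls_iX_add, hXZ, cls_span (ne_of_lc ha)]
  obtain ⟨b, hb, hXb⟩ := exists_gen (iX_ne (X' + Z)) h1
  have ha0 := ne_of_lc ha
  have hb0 := ne_of_lc hb
  -- `a ^ N * f' = b ^ N * f`
  have h2 : b ^ N * f = a ^ N * f' := by
    apply eq_of_span_eq (mul_ne (pow_ne_zero N hb0) (ne_of_lc h.lf))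
    · rw [← Ideal.span_singleton_mul_span_singleton, ← Ideal.span_singleton_mul_span_singleton,
        ← Ideal.span_singleton_pow, ← Ideal.span_singleton_pow, ← hXb, ← hXZ, ← h.hf, ← h'.hf,
        ← iX_nsmul, ← iX_nsmul, ← iX_add, ← iX_add]
      congr 1
      rw [nsmul_add, nsmul_add]
      abel
    · rw [lc_mul, lc_mul, lc_pow, lc_pow, ha, hb, h.lf, h'.lf]
  have h3 := congrArg (fun w => ev w Y) h2
  simp only [ev_mul, ev_pow] at h3
  -- reciprocity
  have w1 := weil ha h.lg hXZ h.hg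
  have w2 := weil hb h.lg hXb h.hg
  rw [ev_nsmul, ev_add] at w1 w2
  have hpa : pord a = X.card + Z.card := by rw [← card_dv ha0 hXZ, Multiset.card_add]
  have hpb : pord b = X'.card + Z.card := by rw [← card_dv hb0 hXb, Multiset.card_add]
  have hpg : pord g = N * Y.card := by
    rw [← card_dv (ne_of_lc h.lg) h.hg, Multiset.card_nsmul]
  rw [hpa, hpg] at w1
  rw [hpb, hpg] at w2
  have n1 := h.ne2
  have n2 := h'.ne2
  have n3 : ev g Z ≠ 0 := ev_ne_of h.hg (fun P hP hP' => hZ P hP' hP)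
  have n4 : ev a Y ≠ 0 := by
    intro h0
    obtain ⟨P, hP, h0⟩ := ev_eq_zero.1 h0
    rw [← mem_dv hXZ, Multiset.mem_add] at h0
    rcases h0 with h0 | h0
    · exact h.dis P h0 hP
    · exact hZ P h0 hP
  have n5 : ev b Y ≠ 0 := by
    intro h0
    obtain ⟨P, hP, h0⟩ := ev_eq_zero.1 h0
    rw [← mem_dv hXb, Multiset.mem_add] at h0
    rcases h0 with h0 | h0
    · exact h'.dis P h0 hP
    · exact hZ P h0 hP
  rw [w1, w2] at h3
  have hs1 : ((-1 : κ)) ^ ((X.card + Z.card) * (N * Y.card)) =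
      (-1) ^ (N * X.card * Y.card) * (-1) ^ (N * Z.card * Y.card) := by
    rw [← pow_add]
    congr 1
    ring
  have hs2 : ((-1 : κ)) ^ ((X'.card + Z.card) * (N * Y.card)) =
      (-1) ^ (N * X'.card * Y.card) * (-1) ^ (N * Z.card * Y.card) := by
    rw [← pow_add]
    congr 1
    ring
  rw [hs1, hs2] at h3
  have q1 := neg_one_pow_mul_self' (κ := κ) (N * X.card * Y.card)
  have q2 := neg_one_pow_mul_self' (κ := κ) (N * X'.card * Y.card)
  have q3 := neg_one_pow_mul_self' (κ := κ) (N * Z.card * Y.card)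
  rw [val, val, div_eq_div_iff n1 n2]
  set s := (-1 : κ) ^ (N * X.card * Y.card) with hs
  set s' := (-1 : κ) ^ (N * X'.card * Y.card) with hs'
  set z := (-1 : κ) ^ (N * Z.card * Y.card) with hz
  -- h3 : s' * z * (ev g X' * ev g Z) * ev f Y = s * z * (ev g X * ev g Z) * ev f' Y
  have h4 : z * ev g Z * (s' * ev g X' * ev f Y - s * ev g X * ev f' Y) = 0 := by
    linear_combination h3
  have hz0 : z ≠ 0 := fun h0 => by rw [h0, zero_mul] at q3; exact zero_ne_one q3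
  have h5 : s' * ev g X' * ev f Y = s * ev g X * ev f' Y := by
    rcases mul_eq_zero.1 h4 with h5 | h5
    · exact absurd h5 (mul_ne_zero hz0 n3)
    · exact sub_eq_zero.1 h5
  calc s * ev f Y * ev g X' = s * (s' * s') * (ev f Y * ev g X') := by rw [q2]; ring
    _ = s * s' * (s' * ev g X' * ev f Y) := by ring
    _ = s * s' * (s * ev g X * ev f' Y) := by rw [h5]
    _ = s' * (s * s) * (ev f' Y * ev g X) := by ring
    _ = s' * ev f' Y * ev g X := by rw [q1]; ring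

theorem Dat.change' {X Y Y' : Multiset (Pt T)} {f g g' : WB T} (h : Dat N D D' X Y f g)
    (h' : Dat N D D' X Y' f g') : val N X Y f g = val N X Y' f g' := by
  have h1 := h.symm.change h'.symm
  have h2 := h.val_symm
  have h3 := h'.val_symm
  rw [h1] at h2
  have hne : val N Y' X g' f ≠ 0 := fun h0 => by rw [h0, mul_zero] at h3; exact zero_ne_one h3
  exact mul_right_cancel₀ hne (h2.trans h3.symm)

theorem Dat.unique {X Y X' Y' : Multiset (Pt T)} {f g f' g' : WB T} (h : Dat N D D' X Y f g)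
    (h' : Dat N D D' X' Y' f' g') : val N X Y f g = val N X' Y' f' g' := by
  obtain ⟨X'', hX'', hdis⟩ := exists_rep' D (Y + Y')
  have hD : D ^ N = 1 := by
    rw [← h.cX, ← cls_iX_nsmul, h.hf, cls_span (ne_of_lc h.lf)]
  obtain ⟨f'', hf'', hf3⟩ := exists_gen (iX_ne (N • X'')) (by rw [cls_iX_nsmul, hX'', hD])
  have k1 : Dat N D D' X'' Y f'' g := ⟨hX'', h.cY, hf'', h.lg, hf3, h.hg,
    fun P hP hP' => hdis P hP (Multiset.mem_add.2 (Or.inl hP'))⟩
  have k2 : Dat N D D' X'' Y' f'' g' := ⟨hX'', h'.cY, hf'', h'.lg, hf3, h'.hg,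
    fun P hP hP' => hdis P hP (Multiset.mem_add.2 (Or.inr hP'))⟩
  rw [h.change k1, k1.change' k2, k2.change h']

open scoped Classical in
/-- **The pairing on `J[N]`.** -/
noncomputable def e (N : ℕ) (D D' : ClassGroup (WB T)) : κ :=
  if h : ∃ (v : κ) (X Y : Multiset (Pt T)) (f g : WB T), Dat N D D' X Y f g ∧ v = val N X Y f g then
    h.choose else 1

theorem e_eq' {X Y : Multiset (Pt T)} {f g : WB T} (h : Dat N D D' X Y f g) :
    e N D D' = val N X Y f g := by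
  have hex : ∃ (v : κ) (X Y : Multiset (Pt T)) (f g : WB T), Dat N D D' X Y f g ∧
      v = val N X Y f g := ⟨_, X, Y, f, g, h, rfl⟩
  rw [e, dif_pos hex]
  obtain ⟨X', Y', f', g', h1, h2⟩ := hex.choose_spec
  rw [h2]
  exact h1.unique h

/-- The formula for the pairing. -/
theorem e_eq {X Y : Multiset (Pt T)} {f g : WB T} (hf : lc f = 1) (hg : lc g = 1)
    (hX : iX (N • X) = Ideal.span {f}) (hY : iX (N • Y) = Ideal.span {g}) (hdis : ∀ P ∈ X, P ∉ Y) :
    e N (cls (iX X)) (cls (iX Y)) = (-1) ^ (N * X.card * Y.card) * ev f Y / ev g X :=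
  e_eq' ⟨rfl, rfl, hf, hg, hX, hY, hdis⟩

theorem e_one_left (hD' : D' ^ N = 1) : e N 1 D' = 1 := by
  obtain ⟨X, Y, f, g, h, -⟩ := Dat.exists (D := (1 : ClassGroup (WB T))) (one_pow N) hD' 0
  have h0 : Dat N 1 D' 0 Y 1 g := ⟨by rw [iX_zero, ← Ideal.span_singleton_one, cls_span one_ne_zero],
    h.cY, lc_one, h.lg, by rw [nsmul_zero, iX_zero, Ideal.span_singleton_one], h.hg, by simp⟩
  rw [e_eq' h0, val]
  simp [ev_one, ev_zero]

theorem e_pow (hD : D ^ N = 1) (hD' : D' ^ N = 1) : e N D D' ^ N = 1 := by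
  obtain ⟨X, Y, f, g, h, -⟩ := Dat.exists hD hD' 0
  rw [e_eq' h, val, div_pow, mul_pow, ← ev_nsmul, ← ev_nsmul, weil h.lf h.lg h.hf h.hg]
  have h1 : pord f = N * X.card := by rw [← card_dv (ne_of_lc h.lf) h.hf, Multiset.card_nsmul]
  have h2 : pord g = N * Y.card := by rw [← card_dv (ne_of_lc h.lg) h.hg, Multiset.card_nsmul]
  rw [h1, h2, ← pow_mul, ← mul_assoc]
  have h3 : N * X.card * Y.card * N = N * X.card * (N * Y.card) := by ring
  rw [h3, neg_one_pow_mul_self', one_mul]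
  apply div_self
  rw [ev_nsmul]
  exact pow_ne_zero _ h.ne2

theorem e_ne (hD : D ^ N = 1) (hD' : D' ^ N = 1) : e N D D' ≠ 0 := by
  obtain ⟨X, Y, f, g, h, -⟩ := Dat.exists hD hD' 0
  intro h0
  have h1 := h.val_symm
  rw [← e_eq' h, h0, zero_mul] at h1
  exact zero_ne_one h1

theorem e_anti (hD : D ^ N = 1) (hD' : D' ^ N = 1) : e N D D' * e N D' D = 1 := by
  obtain ⟨X, Y, f, g, h, -⟩ := Dat.exists hD hD' 0
  rw [e_eq' h, e_eq' h.symm]
  exact h.val_symm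

theorem e_mul_left {D₁ D₂ : ClassGroup (WB T)} (h₁ : D₁ ^ N = 1) (h₂ : D₂ ^ N = 1)
    (hD' : D' ^ N = 1) : e N (D₁ * D₂) D' = e N D₁ D' * e N D₂ D' := by
  obtain ⟨X₁, hX₁⟩ := exists_rep D₁
  obtain ⟨X₂, hX₂⟩ := exists_rep D₂
  obtain ⟨Y, hY, hdis⟩ := exists_rep' D' (X₁ + X₂)
  obtain ⟨f₁, hf₁, hf₁'⟩ := exists_gen (iX_ne (N • X₁)) (by rw [cls_iX_nsmul, hX₁, h₁])
  obtain ⟨f₂, hf₂, hf₂'⟩ := exists_gen (iX_ne (N • X₂)) (by rw [cls_iX_nsmul, hX₂, h₂])
  obtain ⟨g, hg, hg'⟩ := exists_gen (iX_ne (N • Y)) (by rw [cls_iX_nsmul, hY, hD'])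
  have k1 : Dat N D₁ D' X₁ Y f₁ g := ⟨hX₁, hY, hf₁, hg, hf₁', hg',
    fun P hP hP' => hdis P hP' (Multiset.mem_add.2 (Or.inl hP))⟩
  have k2 : Dat N D₂ D' X₂ Y f₂ g := ⟨hX₂, hY, hf₂, hg, hf₂', hg',
    fun P hP hP' => hdis P hP' (Multiset.mem_add.2 (Or.inr hP))⟩
  have k3 : Dat N (D₁ * D₂) D' (X₁ + X₂) Y (f₁ * f₂) g := ⟨by rw [cls_iX_add, hX₁, hX₂], hY,
    by rw [lc_mul, hf₁, hf₂, one_mul], hg,
    by rw [nsmul_add, iX_add, hf₁', hf₂', Ideal.span_singleton_mul_span_singleton], hg',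
    fun P hP hP' => hdis P hP' hP⟩
  rw [e_eq' k1, e_eq' k2, e_eq' k3, val, val, val, ev_mul, ev_add, Multiset.card_add]
  have hs : (-1 : κ) ^ (N * (X₁.card + X₂.card) * Y.card) =
      (-1) ^ (N * X₁.card * Y.card) * (-1) ^ (N * X₂.card * Y.card) := by
    rw [← pow_add]
    congr 1
    ring
  rw [hs, div_mul_div_comm]
  congr 1
  ring

theorem e_mul_right {D₁ D₂ : ClassGroup (WB T)} (hD : D ^ N = 1) (h₁ : D₁ ^ N = 1)
    (h₂ : D₂ ^ N = 1) : e N D (D₁ * D₂) = e N D D₁ * e N D D₂ := by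
  have h12 : (D₁ * D₂) ^ N = 1 := by rw [mul_pow, h₁, h₂, one_mul]
  have a1 := e_anti hD h₁
  have a2 := e_anti hD h₂
  have a3 := e_anti hD h12
  rw [e_mul_left h₁ h₂ hD] at a3
  have n1 := e_ne h₁ hD
  have n2 := e_ne h₂ hD
  apply mul_right_cancel₀ (mul_ne_zero n1 n2)
  rw [a3]
  linear_combination (-1 : κ) * a1 - e N D D₁ * e N D₁ D * a2

theorem e_one_right (hD : D ^ N = 1) : e N D 1 = 1 := by
  have h := e_anti hD (one_pow N)
  rw [e_one_left hD, mul_one] at h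
  exact h

theorem e_pow_left (hD : D ^ N = 1) (hD' : D' ^ N = 1) (n : ℕ) : e N (D ^ n) D' = e N D D' ^ n := by
  induction n with
  | zero => rw [pow_zero, pow_zero, e_one_left hD']
  | succ n ih =>
    rw [pow_succ, e_mul_left (by rw [← pow_mul, mul_comm, pow_mul, hD, one_pow]) hD hD', ih, pow_succ]

theorem e_pow_right (hD : D ^ N = 1) (hD' : D' ^ N = 1) (n : ℕ) :
    e N D (D' ^ n) = e N D D' ^ n := by
  induction n with
  | zero => rw [pow_zero, pow_zero, e_one_right hD]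
  | succ n ih =>
    rw [pow_succ, e_mul_right hD (by rw [← pow_mul, mul_comm, pow_mul, hD', one_pow]) hD', ih, pow_succ]

/-- the compatibility of the pairings -/
theorem e_compat {M : ℕ} (hD : D ^ N = 1) (hD' : D' ^ (N * M) = 1) :
    e (N * M) D D' = e N D (D' ^ M) := by
  obtain ⟨X, hX⟩ := exists_rep D
  obtain ⟨Y, hY, hdis⟩ := exists_rep' D' X
  obtain ⟨f, hf, hf'⟩ := exists_gen (iX_ne (N • X)) (by rw [cls_iX_nsmul, hX, hD])
  obtain ⟨g, hg, hg'⟩ := exists_gen (iX_ne ((N * M) • Y)) (by rw [cls_iX_nsmul, hY, hD'])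
  have k1 : Dat (N * M) D D' X Y (f ^ M) g := ⟨hX, hY, by rw [lc_pow, hf, one_pow], hg,
    by rw [mul_comm N M, mul_nsmul', iX_nsmul, hf', Ideal.span_singleton_pow], hg',
    fun P hP hP' => hdis P hP' hP⟩
  have k2 : Dat N D (D' ^ M) X (M • Y) f g := ⟨hX, by rw [cls_iX_nsmul, hY], hf, hg, hf',
    by rw [← mul_nsmul', hg'], fun P hP hP' => hdis P (Multiset.mem_of_mem_nsmul hP') hP⟩
  rw [e_eq' k1, e_eq' k2, val, val, ev_pow, ev_nsmul, Multiset.card_nsmul]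
  congr 2
  ring

end

end Pool.Agent.TIFS
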