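import Mathlib

/-!
# TIF-D1: roots of power series
-/

set_option autoImplicit false

namespace Pool.Agent.TIFS

open PowerSeries

variable {L : Type} [Field L]

/-- the approximations of the root -/
noncomputable def rtB (s : PowerSeries L) (ℓ : ℕ) : ℕ → PowerSeries L
  | 0 => 1
  | n + 1 => rtB s ℓ n + C ((coeff (n + 1) (s - rtB s ℓ n ^ ℓ)) / ℓ) * X ^ (n + 1)

theorem rtB_succ (s : PowerSeries L) (ℓ n : ℕ) :
    rtB s ℓ (n + 1) = rtB s ℓ n + C ((coeff (n + 1) (s - rtB s ℓ n ^ ℓ)) / ℓ) * X ^ (n + 1) := rfl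

theorem rtB_const (s : PowerSeries L) (ℓ n : ℕ) : constantCoeff (rtB s ℓ n) = 1 := by
  induction n with
  | zero => simp [rtB]
  | succ n ih =>
    rw [rtB_succ, map_add, ih, map_mul, map_pow, constantCoeff_X, zero_pow (by omega), mul_zero,
      add_zero]

theorem rtB_dvd (s : PowerSeries L) (ℓ n m : ℕ) : (X : PowerSeries L) ^ (n + 1) ∣ rtB s ℓ (n + m) - rtB s ℓ n := by
  induction m with
  | zero => simp
  | succ m ih =>
    have h1 : rtB s ℓ (n + (m + 1)) - rtB s ℓ n = (rtB s ℓ (n + m) - rtB s ℓ n) +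
        C ((coeff (n + m + 1) (s - rtB s ℓ (n + m) ^ ℓ)) / ℓ) * X ^ (n + m + 1) := by
      have h2 : n + (m + 1) = n + m + 1 := by ring
      rw [h2, rtB_succ]
      ring
    rw [h1]
    exact dvd_add ih (Dvd.dvd.mul_left (pow_dvd_pow _ (by omega)) _)

theorem rtB_pow {s : PowerSeries L} (hs : constantCoeff s = 1) {ℓ : ℕ} (hℓ : (ℓ : L) ≠ 0) (n : ℕ) :
    (X : PowerSeries L) ^ (n + 1) ∣ s - rtB s ℓ n ^ ℓ := by
  induction n with
  | zero =>
    rw [zero_add, pow_one, X_dvd_iff]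
    simp [rtB, hs]
  | succ n ih =>
    obtain ⟨r, hr⟩ := ih
    set c := (coeff (n + 1) (s - rtB s ℓ n ^ ℓ)) / (ℓ : L) with hc
    have hr0 : constantCoeff r = coeff (n + 1) (s - rtB s ℓ n ^ ℓ) := by
      rw [hr]
      have h1 : coeff (n + 1) (X ^ (n + 1) * r) = coeff 0 r := by
        have := coeff_X_pow_mul r (n + 1) 0
        rwa [zero_add] at this
      rw [h1, coeff_zero_eq_constantCoeff_apply]
    obtain ⟨l, rfl⟩ : ∃ l, ℓ = l + 1 := by
      cases ℓ with
      | zero => simp at hℓ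
      | succ l => exact ⟨l, rfl⟩
    -- the binomial theorem modulo the square
    obtain ⟨q, hq⟩ : ∃ q : PowerSeries L, (rtB s (l + 1) n + C c * X ^ (n + 1)) ^ (l + 1) =
        rtB s (l + 1) n ^ (l + 1) + ((l + 1 : ℕ) : PowerSeries L) * rtB s (l + 1) n ^ l * (C c * X ^ (n + 1)) +
          q * (C c * X ^ (n + 1)) ^ 2 := by
      have h1 := (Polynomial.powAddExpansion (rtB s (l + 1) n) (C c * X ^ (n + 1)) (l + 1))
      exact ⟨h1.1, h1.2⟩
    rw [rtB_succ, ← hc, hq]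
    have h2 : s - (rtB s (l + 1) n ^ (l + 1) + ((l + 1 : ℕ) : PowerSeries L) * rtB s (l + 1) n ^ l * (C c * X ^ (n + 1)) +
        q * (C c * X ^ (n + 1)) ^ 2) = X ^ (n + 1) * (r - ((l + 1 : ℕ) : PowerSeries L) * rtB s (l + 1) n ^ l * C c -
          q * C c ^ 2 * X ^ (n + 1)) := by
      linear_combination hr
    rw [h2, pow_succ (X : PowerSeries L) (n + 1)]
    refine mul_dvd_mul_left _ ?_
    rw [X_dvd_iff, map_sub, map_sub, hr0, map_mul, map_mul, map_mul, map_mul, map_pow, map_pow, map_pow,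
      rtB_const, one_pow, mul_one, constantCoeff_X, zero_pow (by omega : n + 1 ≠ 0), mul_zero, sub_zero,
      map_natCast, constantCoeff_C, hc]
    field_simp
    ring

/-- An `ℓ`-th root of a power series with constant coefficient `1`. -/
theorem exists_root {s : PowerSeries L} (hs : constantCoeff s = 1) {ℓ : ℕ} (hℓ : (ℓ : L) ≠ 0) :
    ∃ b : PowerSeries L, constantCoeff b = 1 ∧ b ^ ℓ = s := by
  set b : PowerSeries L := PowerSeries.mk fun n => coeff n (rtB s ℓ n) with hb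
  have hdvd : ∀ n, (X : PowerSeries L) ^ (n + 1) ∣ b - rtB s ℓ n := by
    intro n
    rw [X_pow_dvd_iff]
    intro m hm
    rw [map_sub, hb, coeff_mk]
    obtain ⟨k, rfl⟩ : ∃ k, n = m + k := ⟨n - m, by omega⟩
    have h1 := X_pow_dvd_iff.1 (rtB_dvd s ℓ m k) m (by omega)
    rw [map_sub] at h1
    linear_combination -h1
  refine ⟨b, ?_, ?_⟩
  · rw [← coeff_zero_eq_constantCoeff_apply, hb, coeff_mk, coeff_zero_eq_constantCoeff_apply]
    exact rtB_const s ℓ 0
  · ext n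
    have h1 : (X : PowerSeries L) ^ (n + 1) ∣ b ^ ℓ - rtB s ℓ n ^ ℓ :=
      (hdvd n).trans (sub_dvd_pow_sub_pow _ _ _)
    have h2 := dvd_sub (rtB_pow hs hℓ n) h1
    have h3 := X_pow_dvd_iff.1 (rtB_pow hs hℓ n) n (by omega)
    have h4 := X_pow_dvd_iff.1 h1 n (by omega)
    rw [map_sub] at h3 h4
    linear_combination h4 - h3

theorem exists_root_series' {ℓ : ℕ} (hℓ : (ℓ : L) ≠ 0) (a : L) :
    ∃ b : PowerSeries L, constantCoeff b = 1 ∧ b ^ ℓ * (1 - C a * X) = 1 := by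
  have h1 : constantCoeff ((1 - C a * X : PowerSeries L)⁻¹) = 1 := by
    rw [constantCoeff_inv]
    simp
  obtain ⟨b, hb0, hb⟩ := exists_root h1 hℓ
  refine ⟨b, hb0, ?_⟩
  rw [hb]
  exact PowerSeries.inv_mul_cancel _ (by simp)

end Pool.Agent.TIFS
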