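import Pool.Agent.MP_c1dca2_ag.GT.V6b
import Pool.Agent.MP_c1dca2_ag.GT.V7
import Pool.Agent.MP_c1dca2_ag.GT.X3b
import Pool.Agent.MP_c1dca2_ag.SUP.L1
import Pool.Agent.TIFS.D1

/-!
# TIF-D2: divisibility, port of GT/V1b..V8 to every characteristic
-/

set_option autoImplicit false
set_option linter.unusedSectionVars false

open Polynomial

namespace Pool.Agent.TIFS.DD

open GT
open SUP (len)

/-- `WB T` as a ring of functions in `L`, with the pole orders at `O₁`. -/
structure Mo {C L : Type} [Field C] [Field L] [Algebra C L] (O₁ : ValuationSubring L) {d : ℕ} [NeZero d]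
    (T : Tab C d) (E : WB T →+* L) : Prop where
  alg : ∀ c : C, E (algebraMap C (WB T) c) = algebraMap C L c
  inj : Function.Injective E
  ordo : ∀ o : L → ℤ, IsOrd C O₁ o → ∀ b : WB T, b ≠ 0 → o (E b) = -(pord b : ℤ)

variable {C L : Type} [Field C] [Field L] [Algebra C L] {O₁ : ValuationSubring L} {d : ℕ} [NeZero d] {T : Tab C d}
  {E : WB T →+* L}

/-- Functions with a given polar part at `O₁`.

Proof. Induction on `- o f`: if `f ≠ 0`, `- o f = m > n ≥ n₀`, choose `r` with `pord r = m` (`hn`), `o (E r) = -m` (`h.ordo`), `ord_res` gives `c` with `f - c E r` zero or of larger order; `c E r = E (c • r)`. -/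
theorem exists_polar (hO : IsPl C O₁) (h : Mo O₁ T E) {o : L → ℤ} (ho : IsOrd C O₁ o) {n : ℕ}
    (hn : ∀ m : ℕ, n ≤ m → ∃ r : WB T, r ≠ 0 ∧ pord r = m) (f : L) :
    ∃ r : WB T, f - E r = 0 ∨ -(n : ℤ) ≤ o (f - E r) := by
  have key : ∀ (k : ℕ) (f : L), f ≠ 0 → -(o f) ≤ (n : ℤ) + k → ∃ r : WB T, f - E r = 0 ∨ -(n : ℤ) ≤ o (f - E r) := by
    intro k
    induction k with
    | zero =>
      intro f hf hk
      refine ⟨0, Or.inr ?_⟩
      rw [map_zero, sub_zero]
      push_cast at hk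
      omega
    | succ k ih =>
      intro f hf hk
      by_cases hlt : -(o f) ≤ (n : ℤ) + k
      · exact ih f hf hlt
      · push_cast at hk
        have hm : -(o f) = ((n + k + 1 : ℕ) : ℤ) := by push_cast; omega
        obtain ⟨r, hr0, hr⟩ := hn (n + k + 1) (by omega)
        have hE0 : E r ≠ 0 := fun h0 => hr0 (h.inj (by rw [h0, map_zero]))
        have hor : o (E r) = o f := by
          rw [h.ordo o ho r hr0, hr]
          omega
        obtain ⟨c, hc0, hc⟩ := ord_res hO ho hf hE0 hor.symm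
        have hcE : c • E r = E (algebraMap C (WB T) c * r) := by
          rw [map_mul, h.alg, Algebra.smul_def]
        rw [hcE] at hc
        by_cases hz : f - E (algebraMap C (WB T) c * r) = 0
        · exact ⟨_, Or.inl hz⟩
        · rcases hc with hc | hc
          · exact absurd (sub_eq_zero.mpr hc) hz
          · obtain ⟨r', hr'⟩ := ih _ hz (by omega)
            refine ⟨algebraMap C (WB T) c * r + r', ?_⟩
            rw [map_add, ← sub_sub]
            exact hr'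
  by_cases hf : f = 0
  · exact ⟨0, Or.inl (by rw [hf, map_zero, sub_zero])⟩
  · exact key (-(o f) - n).toNat f hf (by omega)

/-- The series `φ`.

Proof. `φ_0` := an element of pole order `n`. Recursively (strong recursion on `j`, `Nat.strongRec` or `Classical.choose`) `φ_j := - r` where `r` is given by `exists_polar` for `f = ∑_{i<j} E(φ_i) b_{j-i}`; the coefficient of `X ^ j` in
`(map E φ) * b` is `E (φ_j) + f = f - E r` (`b_0 = 1`, `PowerSeries.coeff_mul`, antidiagonal). For `j = 0` it is `E φ_0`, of order `-n`. -/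
theorem exists_phi (hO : IsPl C O₁) (h : Mo O₁ T E) {o : L → ℤ} (ho : IsOrd C O₁ o) {n : ℕ}
    (hn : ∀ m : ℕ, n ≤ m → ∃ r : WB T, r ≠ 0 ∧ pord r = m) (b : PowerSeries L) (hb : PowerSeries.constantCoeff b = 1) :
    ∃ φ : PowerSeries (WB T), PowerSeries.constantCoeff φ ≠ 0 ∧ pord (PowerSeries.constantCoeff φ) = n ∧
      ∀ j : ℕ, PowerSeries.coeff j (PowerSeries.map E φ * b) = 0 ∨
        -(n : ℤ) ≤ o (PowerSeries.coeff j (PowerSeries.map E φ * b)) := by
  classical
  obtain ⟨r₀, hr₀, hpr₀⟩ := hn n le_rfl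
  choose R hR using exists_polar hO h ho hn
  set F : (j : ℕ) → (Fin j → WB T) → WB T := fun j ih =>
    if j = 0 then r₀ else -R (∑ i : Fin j, E (ih i) * PowerSeries.coeff (j - i.1) b) with hF
  set φ : ℕ → WB T := v1c_rec F with hφ
  have h0 : φ 0 = r₀ := by
    rw [hφ, v1c_rec_eq, hF]
    simp
  have hs : ∀ j : ℕ, j ≠ 0 → φ j = -R (∑ i ∈ Finset.range j, E (φ i) * PowerSeries.coeff (j - i) b) := by
    intro j hj
    have h1 := v1c_rec_eq F j
    rw [← hφ] at h1
    rw [h1, hF]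
    simp only [if_neg hj]
    rw [← Finset.sum_range (fun i => E (φ i) * PowerSeries.coeff (j - i) b)]
  have hcoef : ∀ j : ℕ, PowerSeries.coeff j (PowerSeries.map E (PowerSeries.mk φ) * b) =
      (∑ i ∈ Finset.range j, E (φ i) * PowerSeries.coeff (j - i) b) + E (φ j) := by
    intro j
    rw [PowerSeries.coeff_mul, Finset.Nat.sum_antidiagonal_eq_sum_range_succ_mk, Finset.sum_range_succ]
    simp only [PowerSeries.coeff_map, PowerSeries.coeff_mk, Nat.sub_self]
    rw [PowerSeries.coeff_zero_eq_constantCoeff_apply, hb, mul_one]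
  refine ⟨PowerSeries.mk φ, ?_, ?_, ?_⟩
  · rw [← PowerSeries.coeff_zero_eq_constantCoeff_apply, PowerSeries.coeff_mk, h0]
    exact hr₀
  · rw [← PowerSeries.coeff_zero_eq_constantCoeff_apply, PowerSeries.coeff_mk, h0]
    exact hpr₀
  · intro j
    rw [hcoef]
    by_cases hj : j = 0
    · right
      subst hj
      rw [Finset.range_zero, Finset.sum_empty, zero_add, h0, h.ordo o ho r₀ hr₀, hpr₀]
    · have h2 := hR (∑ i ∈ Finset.range j, E (φ i) * PowerSeries.coeff (j - i) b)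
      rw [hs j hj, map_neg, ← sub_eq_add_neg]
      exact h2

/-- Consequence for `φ ^ ℓ`: the coefficients have pole order at most `ℓ n + 1`, and the coefficient of `X` has the pole order `ℓ n + 1`; moreover
`φ ^ ℓ = G (1 - z⁻¹ X)` with the order of the coefficients of `G` at least `- ℓ n`.

Proof. `G := (map E φ * b) ^ ℓ`: its coefficients are zero or of order `≥ - ℓ n` (induction over the exponent, `ord_add`, `mul`). `map E (φ ^ ℓ) = G * (1 - z⁻¹ X)` because `b ^ ℓ (1 - z⁻¹ X) = 1`. So `E (coeff_j φ ^ ℓ) = G_j - z⁻¹ G_(j-1)`,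
of order `≥ - ℓ n - 1`, so `pord ≤ ℓ n + 1` (`h.ordo`). `G_0 = E (φ_0) ^ ℓ` has order exactly `- ℓ n`, so `G_1 - z⁻¹ G_0` has order exactly `- ℓ n - 1` (`ord_add_eq`). -/
theorem phi_pow (hO : IsPl C O₁) (h : Mo O₁ T E) {o : L → ℤ} (ho : IsOrd C O₁ o) {n ℓ : ℕ} (hℓ : 0 < ℓ) {z : L} (hz0 : z ≠ 0)
    (hz : o z = 1) (b : PowerSeries L) (hb : b ^ ℓ * (1 - PowerSeries.C z⁻¹ * PowerSeries.X) = 1)
    (hb0 : PowerSeries.constantCoeff b = 1) (φ : PowerSeries (WB T))
    (h0 : PowerSeries.constantCoeff φ ≠ 0) (hn : pord (PowerSeries.constantCoeff φ) = n)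
    (hφ : ∀ j : ℕ, PowerSeries.coeff j (PowerSeries.map E φ * b) = 0 ∨
        -(n : ℤ) ≤ o (PowerSeries.coeff j (PowerSeries.map E φ * b))) :
    (∀ j : ℕ, PowerSeries.coeff j (φ ^ ℓ) ∈ Ble T (ℓ * n + 1)) ∧
      PowerSeries.coeff 1 (φ ^ ℓ) ∉ Ble T (ℓ * n) ∧
      ∃ G : PowerSeries L, PowerSeries.map E (φ ^ ℓ) = G * (1 - PowerSeries.C z⁻¹ * PowerSeries.X) ∧
        ∀ j : ℕ, PowerSeries.coeff j G = 0 ∨ -((ℓ * n : ℕ) : ℤ) ≤ o (PowerSeries.coeff j G) := by
  set A : PowerSeries L := PowerSeries.map E φ * b with hA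
  set G : PowerSeries L := A ^ ℓ with hG
  have hGj : ∀ j : ℕ, PowerSeries.coeff j G = 0 ∨ -((ℓ * n : ℕ) : ℤ) ≤ o (PowerSeries.coeff j G) :=
    fun j => v1d_coeff_pow hO ho hφ ℓ j
  have hmap : PowerSeries.map E (φ ^ ℓ) = G * (1 - PowerSeries.C z⁻¹ * PowerSeries.X) := by
    rw [hG, hA, mul_pow, mul_assoc, hb, mul_one, map_pow]
  have hzinv : o z⁻¹ = -1 := by rw [ord_inv ho hz0, hz]
  have hEinj : ∀ r : WB T, r ≠ 0 → E r ≠ 0 := fun r hr h0 => hr (h.inj (by rw [h0, map_zero]))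
  have hcoef : ∀ j : ℕ, E (PowerSeries.coeff (j + 1) (φ ^ ℓ)) =
      PowerSeries.coeff (j + 1) G + -(z⁻¹ * PowerSeries.coeff j G) := by
    intro j
    rw [← PowerSeries.coeff_map, hmap, mul_sub, mul_one, map_sub, ← mul_assoc, PowerSeries.coeff_succ_mul_X,
      mul_comm G, PowerSeries.coeff_C_mul, sub_eq_add_neg]
  have hcoef0 : E (PowerSeries.coeff 0 (φ ^ ℓ)) = PowerSeries.coeff 0 G := by
    rw [← PowerSeries.coeff_map, hmap, PowerSeries.coeff_zero_eq_constantCoeff_apply,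
      PowerSeries.coeff_zero_eq_constantCoeff_apply, map_mul, map_sub, map_mul, PowerSeries.constantCoeff_X,
      mul_zero, map_one, sub_zero, mul_one]
  have hneg : ∀ (m : ℤ) (a : L), (a = 0 ∨ m ≤ o a) → (-a = 0 ∨ m ≤ o (-a)) := by
    intro m a ha
    by_cases ha0 : a = 0
    · left
      rw [ha0, neg_zero]
    · right
      rw [ord_neg ho ha0]
      exact ha.resolve_left ha0
  have hweak : ∀ (m k : ℤ) (a : L), m ≤ k → (a = 0 ∨ k ≤ o a) → (a = 0 ∨ m ≤ o a) := by
    intro m k a hmk ha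
    rcases ha with ha | ha
    · exact Or.inl ha
    · exact Or.inr (le_trans hmk ha)
  have hall : ∀ j : ℕ, E (PowerSeries.coeff j (φ ^ ℓ)) = 0 ∨
      -((ℓ * n + 1 : ℕ) : ℤ) ≤ o (E (PowerSeries.coeff j (φ ^ ℓ))) := by
    intro j
    cases j with
    | zero =>
      rw [hcoef0]
      exact hweak _ _ _ (by push_cast; omega) (hGj 0)
    | succ j =>
      rw [hcoef]
      refine v1d_add ho (hweak _ _ _ (by push_cast; omega) (hGj (j + 1))) (hneg _ _ ?_)
      have h1 : z⁻¹ = 0 ∨ (-1 : ℤ) ≤ o z⁻¹ := Or.inr (by rw [hzinv])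
      have h2 := v1d_mul ho h1 (hGj j)
      exact hweak _ _ _ (by push_cast; omega) h2
  refine ⟨fun j => ?_, ?_, G, hmap, hGj⟩
  · apply v1d_mem_of_pord_le
    by_cases h1 : PowerSeries.coeff j (φ ^ ℓ) = 0
    · exact Or.inl h1
    · right
      have h2 := (hall j).resolve_left (hEinj _ h1)
      rw [h.ordo o ho _ h1] at h2
      omega
  · intro hmem
    have hG0 : PowerSeries.coeff 0 G = (E (PowerSeries.constantCoeff φ)) ^ ℓ := by
      rw [hG, hA, PowerSeries.coeff_zero_eq_constantCoeff_apply, map_pow, map_mul, hb0, mul_one,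
        ← PowerSeries.coeff_zero_eq_constantCoeff_apply, PowerSeries.coeff_map,
        PowerSeries.coeff_zero_eq_constantCoeff_apply]
    have hEφ : E (PowerSeries.constantCoeff φ) ≠ 0 := hEinj _ h0
    have hG0ne : PowerSeries.coeff 0 G ≠ 0 := by
      rw [hG0]
      exact pow_ne_zero _ hEφ
    have hoG0 : o (PowerSeries.coeff 0 G) = -((ℓ * n : ℕ) : ℤ) := by
      rw [hG0, ord_pow ho hEφ, h.ordo o ho _ h0, hn]
      push_cast
      ring
    have hz1 : z⁻¹ * PowerSeries.coeff 0 G ≠ 0 := mul_ne_zero (inv_ne_zero hz0) hG0ne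
    have hoz : o (-(z⁻¹ * PowerSeries.coeff 0 G)) = -((ℓ * n : ℕ) : ℤ) - 1 := by
      rw [ord_neg ho hz1, ho.mul _ _ (inv_ne_zero hz0) hG0ne, hzinv, hoG0]
      ring
    have hfin : E (PowerSeries.coeff 1 (φ ^ ℓ)) ≠ 0 ∧
        o (E (PowerSeries.coeff 1 (φ ^ ℓ))) = -((ℓ * n : ℕ) : ℤ) - 1 := by
      have h1 := hcoef 0
      rw [zero_add] at h1
      rw [h1]
      rcases hGj 1 with h2 | h2
      · rw [h2, zero_add]
        exact ⟨neg_ne_zero.mpr hz1, hoz⟩
      · by_cases h3 : PowerSeries.coeff 1 G = 0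
        · rw [h3, zero_add]
          exact ⟨neg_ne_zero.mpr hz1, hoz⟩
        · have h4 := ord_add_eq ho (neg_ne_zero.mpr hz1) h3 (by rw [hoz]; omega)
          rw [add_comm]
          exact ⟨h4.1, by rw [h4.2, hoz]⟩
    have hne : PowerSeries.coeff 1 (φ ^ ℓ) ≠ 0 := by
      intro h1
      exact hfin.1 (by rw [h1, map_zero])
    have h5 := v1d_pord_le hne hmem
    have h6 := hfin.2
    rw [h.ordo o ho _ hne] at h6
    omega

/-- The evaluation: `X` (the variable of the power series) goes to the uniformizer, a function to its expansion.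

Proof. `sol_of (ε.comp E)` (with `g = HahnSeries.C`, `hε`, `h.alg`), `Sol.change` (the composition of `HahnSeries.ofPowerSeries ℤ C` with `PowerSeries.C` is `HahnSeries.C`), `lift`. The second statement: both sides are homomorphisms
`WB T → C((X))` that agree on constants, `x` and `f j`. -/
theorem exists_ev (h : Mo O₁ T E) (ε : L →+* LaurentSeries C) (hε : ∀ c : C, ε (algebraMap C L c) = HahnSeries.C c) :
    ∃ ev : WB (T.map (PowerSeries.C (R := C))) →+* LaurentSeries C,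
      (∀ a : PowerSeries C, ev (algebraMap (PowerSeries C) _ a) = HahnSeries.ofPowerSeries ℤ C a) ∧
      ∀ b : WB T, ev (bmap (PowerSeries.C (R := C)) rfl b) = ε (E b) := by
  have h1 : ∀ r : C, (ε.comp E) (algebraMap C (WB T) r) = (HahnSeries.C : C →+* LaurentSeries C) r := by
    intro r
    rw [RingHom.comp_apply, h.alg, hε]
  have h2 : (HahnSeries.ofPowerSeries ℤ C).comp (PowerSeries.C (R := C)) =
      (HahnSeries.C : C →+* LaurentSeries C) := by
    ext1 r
    rw [RingHom.comp_apply, HahnSeries.ofPowerSeries_C]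
  refine ⟨lift (Sol.change rfl h2 (sol_of (ε.comp E) h1)), fun a => lift_algebraMap' _ _, ?_⟩
  intro b
  have h3 := lift_unique (ε.comp E) h1 b
  rw [RingHom.comp_apply] at h3
  rw [h3, lift_apply, lift_apply]
  refine Finset.sum_congr rfl fun j _ => ?_
  rw [bmap_co, eval₂_map, h2]

/-- Lower bound for the order of the values.

Proof. `ev b = ∑ (coefficient) * ε (E (monomial))`, the coefficients are power series (order `≥ 0`), the monomials `x ^ n f_i` of weight `≤ m` have `(ε (E _)).order = o (E _) = - weight ≥ -m` (`h.ordo`, `hεo`, `pord`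
of a monomial by `pord_spec`). `HahnSeries.order` of a sum: use `HahnSeries.coeff k = 0` for `k < -m` (additive), which is the form of the statement. -/
theorem ev_order (h : Mo O₁ T E) {o : L → ℤ} (ho : IsOrd C O₁ o) (ε : L →+* LaurentSeries C)
    (hε : ∀ c : C, ε (algebraMap C L c) = HahnSeries.C c) (hεo : ∀ f : L, f ≠ 0 → (ε f).order = o f)
    (ev : WB (T.map (PowerSeries.C (R := C))) →+* LaurentSeries C)
    (hev : ∀ a : PowerSeries C, ev (algebraMap (PowerSeries C) _ a) = HahnSeries.ofPowerSeries ℤ C a)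
    (hev' : ∀ b : WB T, ev (bmap (PowerSeries.C (R := C)) rfl b) = ε (E b)) (m : ℕ)
    (b : WB (T.map (PowerSeries.C (R := C)))) (hb : b ∈ Ble _ m) (k : ℤ) (hk : k < -(m : ℤ)) :
    (ev b).coeff k = 0 := by
  classical
  have h1 : ∀ (n : ℕ) (j : ZMod d) (a : PowerSeries C), d * n + T.w j ≤ m →
      (HahnSeries.ofPowerSeries ℤ C a * ε (E (WB.x T ^ n * WB.f T j))).coeff k = 0 := by
    intro n j a hn
    by_contra hc
    have h2 : E (WB.x T ^ n * WB.f T j) ≠ 0 := by
      intro h3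
      exact v3b_pow_ne T n j (h.inj (h3.trans (map_zero E).symm))
    have h3 : (ε (E (WB.x T ^ n * WB.f T j))).order = -((d * n + T.w j : ℕ) : ℤ) := by
      rw [hεo _ h2, h.ordo o ho _ (v3b_pow_ne T n j), v3b_pord]
    have h4 := HahnSeries.order_le_of_coeff_ne_zero hc
    have h5 : HahnSeries.ofPowerSeries ℤ C a ≠ 0 := by
      intro h6
      rw [h6, zero_mul, HahnSeries.coeff_zero] at hc
      exact hc rfl
    have h6 : 0 ≤ (HahnSeries.ofPowerSeries ℤ C a).order := by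
      by_contra h7
      have h8 := fun h9 => h5 (HahnSeries.coeff_order_eq_zero.1 h9)
      rw [PowerSeries.coeff_coe, if_pos (not_le.1 h7)] at h8
      exact h8 rfl
    rw [HahnSeries.order_mul h5 ((_root_.map_ne_zero ε).2 h2), h3] at h4
    have h7 : ((d * n + T.w j : ℕ) : ℤ) ≤ m := by exact_mod_cast hn
    omega
  have h2 : ev b = ∑ j, ∑ n ∈ (b.co j).support, HahnSeries.ofPowerSeries ℤ C ((b.co j).coeff n) *
      ε (E (WB.x T ^ n * WB.f T j)) := by
    conv_lhs => rw [v3b_sum (PowerSeries.C (R := C)) b]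
    rw [map_sum]
    refine Finset.sum_congr rfl fun j _ => ?_
    rw [map_sum]
    refine Finset.sum_congr rfl fun n _ => ?_
    rw [map_mul, hev, hev']
  rw [h2, HahnSeries.coeff_sum]
  refine Finset.sum_eq_zero fun j _ => ?_
  rw [HahnSeries.coeff_sum]
  refine Finset.sum_eq_zero fun n hn => h1 n j _ ?_
  by_contra hc
  exact (mem_support_iff.1 hn) (hb j n (not_le.1 hc))

/-- The vanishing at the generic point of the arc.

Proof. Let `s := single 1 1 = ε z`, `ε z⁻¹ = s⁻¹`. For `N ≥ 1` `io_split` gives `ev F = ∑_{j<N} s ^ j ε(E F_j) + s ^ N ev(F')`, `F_j` the coefficient of `io T F`, `E F_j = G_j - z⁻¹ G_(j-1)` (`G_(-1) = 0`), so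
`s ^ j ε(E F_j) = s ^ j ε(G_j) - s ^ (j-1) ε(G_(j-1))` and the sum telescopes to `s ^ (N-1) ε(G_(N-1))`, whose coefficients at `k < N - 1 - N₀` vanish (`hG'`, `hεo`); the coefficients of `s ^ N ev(F')` at `k < N - m` vanish (`ev_order`). `N` is arbitrary. -/
theorem ev_eq_zero (h : Mo O₁ T E) {o : L → ℤ} (ho : IsOrd C O₁ o) {z : L} (hz0 : z ≠ 0) (ε : L →+* LaurentSeries C)
    (hεz : ε z = HahnSeries.single 1 1)
    (hε : ∀ c : C, ε (algebraMap C L c) = HahnSeries.C c) (hεo : ∀ f : L, f ≠ 0 → (ε f).order = o f)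
    (ev : WB (T.map (PowerSeries.C (R := C))) →+* LaurentSeries C)
    (hev : ∀ a : PowerSeries C, ev (algebraMap (PowerSeries C) _ a) = HahnSeries.ofPowerSeries ℤ C a)
    (hev' : ∀ b : WB T, ev (bmap (PowerSeries.C (R := C)) rfl b) = ε (E b)) (m N₀ : ℕ)
    (F : WB (T.map (PowerSeries.C (R := C)))) (hF : F ∈ Ble _ m) (G : PowerSeries L)
    (hG : PowerSeries.map E (io T F) = G * (1 - PowerSeries.C z⁻¹ * PowerSeries.X))
    (hG' : ∀ j : ℕ, PowerSeries.coeff j G = 0 ∨ -(N₀ : ℤ) ≤ o (PowerSeries.coeff j G)) :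
    ev F = 0 := by
  classical
  have hX : ∀ j : ℕ, HahnSeries.ofPowerSeries ℤ C (PowerSeries.X ^ j) = ε z ^ j := by
    intro j
    rw [map_pow, HahnSeries.ofPowerSeries_X, hεz]
  have hzz : ε z * ε z⁻¹ = 1 := by rw [← map_mul, mul_inv_cancel₀ hz0, map_one]
  have hs : ∀ (j : ℕ) (y : LaurentSeries C) (k : ℤ), (ε z ^ j * y).coeff k = y.coeff (k - j) := by
    intro j y k
    rw [hεz, HahnSeries.single_pow, one_pow, HahnSeries.coeff_single_mul, one_mul, nsmul_eq_mul, mul_one]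
  -- the coefficients
  have hc0 : E (PowerSeries.coeff 0 (io T F)) = PowerSeries.coeff 0 G := by
    rw [← PowerSeries.coeff_map, hG, PowerSeries.coeff_zero_eq_constantCoeff_apply,
      PowerSeries.coeff_zero_eq_constantCoeff_apply, map_mul, map_sub, map_one, map_mul,
      PowerSeries.constantCoeff_X, mul_zero, sub_zero, mul_one]
  have hc1 : ∀ j : ℕ, E (PowerSeries.coeff (j + 1) (io T F)) =
      PowerSeries.coeff (j + 1) G - z⁻¹ * PowerSeries.coeff j G := by
    intro j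
    have e : G * (1 - PowerSeries.C z⁻¹ * PowerSeries.X) = G - PowerSeries.C z⁻¹ * (G * PowerSeries.X) := by ring
    rw [← PowerSeries.coeff_map, hG, e, map_sub, PowerSeries.coeff_C_mul, PowerSeries.coeff_succ_mul_X]
  have htel : ∀ N : ℕ, ∑ j ∈ Finset.range (N + 1), ε z ^ j * ε (E (PowerSeries.coeff j (io T F))) =
      ε z ^ N * ε (PowerSeries.coeff N G) := by
    intro N
    induction N with
    | zero => rw [Finset.sum_range_one, hc0]
    | succ N ih =>
      rw [Finset.sum_range_succ, ih, hc1, map_sub, map_mul]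
      have e : ε z ^ N * ε (PowerSeries.coeff N G) + ε z ^ (N + 1) * (ε (PowerSeries.coeff (N + 1) G) -
          ε z⁻¹ * ε (PowerSeries.coeff N G)) = ε z ^ (N + 1) * ε (PowerSeries.coeff (N + 1) G) +
          ε z ^ N * ε (PowerSeries.coeff N G) * (1 - ε z * ε z⁻¹) := by ring
      rw [e, hzz, sub_self, mul_zero, add_zero]
  refine HahnSeries.ext ?_
  funext k
  rw [HahnSeries.coeff_zero]
  obtain ⟨N, hN1, hN2⟩ : ∃ N : ℕ, k - N < -(N₀ : ℤ) ∧ k - ((N + 1 : ℕ) : ℤ) < -(m : ℤ) := by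
    refine ⟨(k.toNat + N₀ + m + 1), ?_, ?_⟩ <;> push_cast <;> omega
  obtain ⟨F', hF', e⟩ := io_split T m F hF (N + 1)
  have h1 : ev F = ε z ^ N * ε (PowerSeries.coeff N G) + ε z ^ (N + 1) * ev F' := by
    conv_lhs => rw [e]
    rw [map_add, map_sum, map_mul, hev, hX, ← htel]
    congr 1
    refine Finset.sum_congr rfl fun j _ => ?_
    rw [map_mul, hev, hX, hev']
  rw [h1, HahnSeries.coeff_add, hs, hs, ev_order h ho ε hε hεo ev hev hev' m F' hF' _ hN2, add_zero]
  rcases hG' N with h2 | h2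
  · rw [h2, map_zero, HahnSeries.coeff_zero]
  · by_cases h3 : PowerSeries.coeff N G = 0
    · rw [h3, map_zero, HahnSeries.coeff_zero]
    · by_contra h4
      have h5 := HahnSeries.order_le_of_coeff_ne_zero h4
      rw [hεo _ h3] at h5
      omega

/-- Proof. `K := {x : ψ ∣ io T x}` is an ideal of `W := WB (T.map C)` (the comap of the ideal `(ψ)`), the kernel of `ρ`, so `W ⧸ K` embeds into the finite free module `C⟦X⟧ ^ m` over the Noetherian ring `C⟦X⟧` and is a finite `C⟦X⟧`-module. So `WB.x` is integral modulo `K`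
(`IsIntegral.of_finite`): there is a monic `p ∈ C⟦X⟧[Y]` with `p(x) ∈ K`. `ev (p(x)) = ∑ a_i s_x ^ i` with `s_x := ε (E (WB.x T))` of order `-d < 0` (`h.ordo`, `pord (WB.x T) = d`, `hεo`), `a_i` power series (order `≥ 0`), `a_N = 1`: the coefficient at `- d N` of the term
`s_x ^ N` is not zero and those of the other terms vanish, so `ev (p(x)) ≠ 0`. -/
theorem exists_not_ev (h : Mo O₁ T E) {o : L → ℤ} (ho : IsOrd C O₁ o) (ε : L →+* LaurentSeries C)
    (hε : ∀ c : C, ε (algebraMap C L c) = HahnSeries.C c) (hεo : ∀ f : L, f ≠ 0 → (ε f).order = o f)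
    (ev : WB (T.map (PowerSeries.C (R := C))) →+* LaurentSeries C)
    (hev : ∀ a : PowerSeries C, ev (algebraMap (PowerSeries C) _ a) = HahnSeries.ofPowerSeries ℤ C a)
    (hev' : ∀ b : WB T, ev (bmap (PowerSeries.C (R := C)) rfl b) = ε (E b)) (ψ : PowerSeries (WB T)) (m : ℕ)
    (ρ : WB (T.map (PowerSeries.C (R := C))) →ₗ[PowerSeries C] (Fin m → PowerSeries C)) (hρ : ∀ x, ρ x = 0 ↔ ψ ∣ io T x) :
    ∃ x : WB (T.map (PowerSeries.C (R := C))), ψ ∣ io T x ∧ ev x ≠ 0 := by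
  obtain ⟨x, hx⟩ : ∃ x : WB (T.map (PowerSeries.C (R := C))), x = WB.x _ := ⟨_, rfl⟩
  obtain ⟨f, hf⟩ : ∃ f : ℕ →o Submodule (PowerSeries C) (Fin m → PowerSeries C),
      ∀ n, f n = Submodule.span (PowerSeries C) ((fun i : ℕ => ρ (x ^ i)) '' Set.Iio n) :=
    ⟨⟨fun n => Submodule.span (PowerSeries C) ((fun i : ℕ => ρ (x ^ i)) '' Set.Iio n),
      fun a b hab => Submodule.span_mono (Set.image_mono (Set.Iio_subset_Iio hab))⟩, fun _ => rfl⟩
  obtain ⟨N, hN⟩ := monotone_stabilizes_iff_noetherian.mpr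
    (inferInstance : IsNoetherian (PowerSeries C) (Fin m → PowerSeries C)) f
  have h1 : ρ (x ^ N) ∈ f N := by
    rw [hN (N + 1) (Nat.le_succ N), hf]
    exact Submodule.subset_span ⟨N, Nat.lt_succ_self N, rfl⟩
  rw [hf] at h1
  have h2 : (fun i : ℕ => ρ (x ^ i)) '' Set.Iio N = Set.range (fun i : Fin N => ρ (x ^ (i : ℕ))) := by
    ext y
    constructor
    · rintro ⟨i, hi, rfl⟩
      exact ⟨⟨i, hi⟩, rfl⟩
    · rintro ⟨i, rfl⟩
      exact ⟨i, i.2, rfl⟩
  rw [h2, Submodule.mem_span_range_iff_exists_fun] at h1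
  obtain ⟨c, hc⟩ := h1
  refine ⟨x ^ N - ∑ i, c i • x ^ (i : ℕ), ?_, ?_⟩
  · rw [← hρ, map_sub, map_sum, ← hc, sub_eq_zero]
    exact Finset.sum_congr rfl fun i _ => by rw [map_smul]
  · have hevx : ev x = ε (E (WB.x T)) := by
      rw [hx, ← hev', bmap_x]
    have hEx : E (WB.x T) ≠ 0 := fun h0 => v5_x_ne (h.inj (by rw [h0, map_zero]))
    have hs : ev x ≠ 0 := by
      rw [hevx]
      exact (map_ne_zero ε).mpr hEx
    have hord : (ev x).order < 0 := by
      rw [hevx, hεo _ hEx, h.ordo o ho _ v5_x_ne, v5_pord_x]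
      have := NeZero.pos d
      omega
    have h3 : ev (x ^ N - ∑ i, c i • x ^ (i : ℕ)) =
        ev x ^ N - ∑ i, HahnSeries.ofPowerSeries ℤ C (c i) * ev x ^ (i : ℕ) := by
      rw [map_sub, map_pow, map_sum]
      congr 1
      exact Finset.sum_congr rfl fun i _ => by rw [Algebra.smul_def, map_mul, hev, map_pow]
    rw [h3]
    exact v5_combo _ hs hord N c

/-- THE GENERIC POINT.

Proof. `o` from `exists_ord`, `z` with `o z = 1`, `ε` from `exists_eps`, `n := n₀` from `exists_pord`, `b` from `exists_root_series` (`a = z⁻¹`), `φ` from `exists_phi`, `phi_pow`: `coeff_j (φ ^ ℓ) ∈ Ble T (ℓ n + 1)`, `coeff_1 (φ ^ ℓ) ∉ Ble T (ℓ n)`, `G`. `io_surj`: `F ∈ Ble _ (ℓ n + 1)` with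
`io T F = φ ^ ℓ`. `ev` from `exists_ev`, `ev F = 0` by `ev_eq_zero` (`N₀ = ℓ n`). `Ω := AlgebraicClosure (LaurentSeries C)`, `u : C⟦X⟧ → Ω` injective, `g := u.comp PowerSeries.C`, `hg : (T.map PowerSeries.C).map u = T.map g` (`Tab.map_map`). `WB (T.map g)` is Dedekind (`good_ext`) and not a field.
`η : WB (T.map g) →ₐ[Ω] Ω` with `η (bmap u hg y) = ev y` (as an element of `Ω`): `sol_of ev`, `Sol.map`, `Sol.change`, `lift`. `F₁ := bmap u hg F`: `pord F₁ = ℓ n + 1` (some coefficient of a monomial of weight `ℓ n + 1` is not zero: `io_coeff`, `coeff_1`), `F₁ ≠ 0`, `η F₁ = 0`.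
For `ψ = φ` and `ψ = φ ^ ℓ` (constant coefficient `φ_0 ^ ℓ`, of pole order `ℓ n`) let `J_ψ := (Ideal.span {ψ}).comap (io T)`; `weier` and `finrank_descent` (for `A = C⟦X⟧`): `J_ψ.map (bmap u hg)` has finite codimension `n`, `ℓ n`, which is `len` by `finrank_quot` (the ideals are `≠ ⊥`: they contain `F₁`). `J := (J_φ).map _`,
`J' := (J_(φ^ℓ)).map _`. `J ^ ℓ ≤ J'`: `J_φ ^ ℓ ≤ J_(φ^ℓ)` (products of `ℓ` elements), `Ideal.map_pow`. `F₁ ∈ J'`. `J' ≰ ker η`: `exists_not_ev` for `ψ = φ ^ ℓ`. `len (F₁) = pord F₁ = ℓ n + 1` (`finrank_span`, `finrank_quot`). `factor_of_len`. Injectivity: `η (bmap g rfl b) = ε (E b)` in `Ω`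
(`bmap_comp`). -/
theorem exists_factor [IsAlgClosed C] (hO : IsPl C O₁) (h : Mo O₁ T E) {o : L → ℤ} (ho : IsOrd C O₁ o) [IsDedekindDomain (WB T)]
    (ℓ : ℕ) (hℓ : 0 < ℓ) (hℓC : (ℓ : C) ≠ 0)
    (hext : ∀ (Ω : Type) [Field Ω] [IsAlgClosed Ω] (g : C →+* Ω), IsDedekindDomain (WB (T.map g)))
    (hdom : ∀ (Ω : Type) [Field Ω] (T' : Tab Ω d), IsDomain (WB T'))
    (hmul : ∀ (Ω : Type) [Field Ω] (T' : Tab Ω d) (a b : WB T'), a ≠ 0 → b ≠ 0 → pord (a * b) = pord a + pord b)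
    (hnf : ∀ (Ω : Type) [Field Ω] (T' : Tab Ω d), ¬ IsField (WB T')) :
    ∃ (Ω : Type) (_ : Field Ω) (g : C →+* Ω) (η : WB (T.map g) →ₐ[Ω] Ω) (J : Ideal (WB (T.map g))) (F : WB (T.map g)),
      Function.Injective (fun b : WB T => η (bmap g rfl b)) ∧ F ≠ 0 ∧ Ideal.span {F} = RingHom.ker η * J ^ ℓ := by
  have hℓL : (ℓ : L) ≠ 0 := by
    intro h0
    apply hℓC
    apply (algebraMap C L).injective
    rw [map_natCast, h0, map_zero]
  obtain ⟨z, hz0, hz⟩ := ho.surj
  obtain ⟨ε, hεz, hε, hεo⟩ := exists_eps hO ho hz0 hz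
  obtain ⟨n, hn⟩ := exists_pord T
  obtain ⟨b, hb0, hb⟩ := exists_root_series' hℓL z⁻¹
  obtain ⟨φ, hφ0, hφn, hφ⟩ := exists_phi hO h ho hn b hb0
  obtain ⟨hc, hc1, G, hG, hG'⟩ := phi_pow hO h ho hℓ hz0 hz b hb hb0 φ hφ0 hφn hφ
  obtain ⟨F, hFB, hFio⟩ := io_surj T (ℓ * n + 1) (φ ^ ℓ) hc
  obtain ⟨ev, hev, hev'⟩ := exists_ev h ε hε
  have hevF : ev F = 0 := ev_eq_zero h ho hz0 ε hεz hε hεo ev hev hev' (ℓ * n + 1) (ℓ * n) F hFB G
    (by rw [hFio]; exact hG) hG'
  -- the field `Ω`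
  let Ω : Type := AlgebraicClosure (LaurentSeries C)
  let v : LaurentSeries C →+* Ω := algebraMap (LaurentSeries C) Ω
  have hv : Function.Injective v := (algebraMap (LaurentSeries C) Ω).injective
  let u : PowerSeries C →+* Ω := v.comp (HahnSeries.ofPowerSeries ℤ C)
  have hu : Function.Injective u := hv.comp HahnSeries.ofPowerSeries_injective
  let g : C →+* Ω := u.comp (PowerSeries.C (R := C))
  have hT : (T.map (PowerSeries.C (R := C))).map u = T.map g := Tab.map_map T _ _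
  have hd : IsDomain (WB (T.map g)) := hdom Ω (T.map g)
  have hded : IsDedekindDomain (WB (T.map g)) := hext Ω g
  have hdC : IsDomain (WB T) := hdom C T
  obtain ⟨η, hη⟩ := v6b_ext u hT (v.comp ev) (fun a => by rw [RingHom.comp_apply, hev]; rfl)
  -- the element `F₁`
  obtain ⟨F₁, hF₁⟩ : ∃ F₁, F₁ = bmap u hT F := ⟨_, rfl⟩
  have hco : ∀ i m, ((F₁.co i).coeff m) = u ((F.co i).coeff m) := by
    intro i m
    rw [hF₁, bmap_co, coeff_map]
  obtain ⟨j, m, hjm, hne⟩ : ∃ (j : ZMod d) (m : ℕ), ℓ * n < d * m + T.w j ∧ (F₁.co j).coeff m ≠ 0 := by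
    by_contra hno
    push Not at hno
    apply hc1
    rw [mem_Ble]
    intro j m hjm
    have h1 := hno j m hjm
    rw [hco] at h1
    have h2 : (F.co j).coeff m = 0 := hu (by rw [h1, map_zero])
    rw [← hFio, io_coeff, h2, map_zero]
  have hF0 : F₁ ≠ 0 := by
    intro h0
    apply hne
    rw [h0, WB.co_zero]
    simp
  have hpord : pord F₁ = ℓ * n + 1 := by
    obtain ⟨i, m', h1, h2, h3⟩ := pord_spec F₁ hF0
    have h4 := h3 j m hne
    rw [← h2] at h4
    have h5 : ¬ ℓ * n + 1 < d * m' + T.w i := by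
      intro h6
      apply h1
      rw [hco, (mem_Ble.1 hFB) i m' h6, map_zero]
    have h6 : d * m' + T.w i = pord F₁ := h2.symm
    have h7 : d * m + T.w j ≤ pord F₁ := h4
    omega
  have hFη : η F₁ = 0 := by
    rw [hF₁, hη, RingHom.comp_apply, hevF, map_zero]
  -- the ideals
  have hF₁J : ∀ ψ : PowerSeries (WB T), ψ ∣ φ ^ ℓ → F₁ ∈ ((Ideal.span {ψ}).comap (io T)).map (bmap u hT) := by
    intro ψ hψ
    rw [hF₁]
    apply Ideal.mem_map_of_mem
    rw [Ideal.mem_comap, Ideal.mem_span_singleton, hFio]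
    exact hψ
  have hbot : ∀ ψ : PowerSeries (WB T), ψ ∣ φ ^ ℓ → ((Ideal.span {ψ}).comap (io T)).map (bmap u hT) ≠ ⊥ := by
    intro ψ hψ h0
    have h1 := hF₁J ψ hψ
    rw [h0, Ideal.mem_bot] at h1
    exact hF0 h1
  have hφd : φ ∣ φ ^ ℓ := dvd_pow_self φ hℓ.ne'
  have h0' : PowerSeries.constantCoeff (φ ^ ℓ) ≠ 0 := by
    rw [map_pow]
    exact pow_ne_zero _ hφ0
  obtain ⟨hl1, -⟩ := v6b_len T hdC (hmul C T) u hT (hnf Ω (T.map g)) φ hφ0 (hbot φ hφd)
  obtain ⟨hl2, ρ, hρ⟩ := v6b_len T hdC (hmul C T) u hT (hnf Ω (T.map g)) (φ ^ ℓ) h0' (hbot _ dvd_rfl)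
  have hp2 : pord (PowerSeries.constantCoeff (φ ^ ℓ)) = ℓ * n := by
    rw [map_pow, v6b_pow T hdC (hmul C T) hφ0 ℓ hℓ, hφn]
  obtain ⟨x, hx1, hx2⟩ := exists_not_ev h ho ε hε hεo ev hev hev' (φ ^ ℓ) _ ρ hρ
  refine ⟨Ω, inferInstance, g, η, ((Ideal.span {φ}).comap (io T)).map (bmap u hT), F₁, ?_, hF0, ?_⟩
  · have h1 : ∀ b : WB T, η (bmap g rfl b) = v (ε (E b)) := by
      intro b
      have h2 : bmap g rfl b = bmap u hT (bmap (PowerSeries.C (R := C)) rfl b) :=
        (bmap_comp (PowerSeries.C (R := C)) rfl u hT rfl b).symm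
      rw [h2, hη, RingHom.comp_apply, hev']
    intro b c hbc
    have h2 : v (ε (E b)) = v (ε (E c)) := by
      rw [← h1, ← h1]
      exact hbc
    exact h.inj (ε.injective (hv h2))
  · have hFP : F₁ ∈ RingHom.ker η := hFη
    refine factor_of_len ℓ (J' := ((Ideal.span {φ ^ ℓ}).comap (io T)).map (bmap u hT)) (ker_maximal η) ?_
      (hbot φ hφd) ?_ ?_ hF0 hFP (hF₁J _ dvd_rfl) ?_ ?_
    · intro h0
      rw [h0, Ideal.mem_bot] at hFP
      exact hF0 hFP
    · rw [← Ideal.map_pow]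
      apply Ideal.map_mono
      refine (Ideal.le_comap_pow (io T) ℓ).trans ?_
      rw [Ideal.span_singleton_pow]
    · rw [hl2, hl1, hp2, hφn]
    · intro hle
      have h1 : bmap u hT x ∈ RingHom.ker η := by
        apply hle
        apply Ideal.mem_map_of_mem
        rw [Ideal.mem_comap, Ideal.mem_span_singleton]
        exact hx1
      have h2 : η (bmap u hT x) = 0 := h1
      rw [hη, RingHom.comp_apply] at h2
      exact hx2 (hv (by rw [h2, map_zero]))
    · have h1 := finrank_span (T.map g) hd (hmul Ω (T.map g)) F₁ hF0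
      have h2 : (Ideal.span {F₁} : Ideal (WB (T.map g))) ≠ ⊥ := by
        rwa [Ne, Ideal.span_singleton_eq_bot]
      have h3 := finrank_quot (T.map g) (hnf Ω (T.map g)) _ h2
      rw [← h3.2, h1.2, hpord, hl2, hp2]

/-- DIVISIBILITY.

Proof. `exists_factor`, `special`: there is `r ≠ 0` such that for every evaluation `ψ` with `ψ r ≠ 0` the class of `ker ψ` is in the subgroup `H` of `ℓ`-th powers (`1 = [ker ψ] [J'] ^ ℓ`, `cls_mul`). The maximal ideals containing `r` are finitely many (`SUP.finite_ge` for `(r)`); every other maximal ideal is `ker ψ` with `ψ r ≠ 0` (`exists_eval`).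
`top_of_almost_all` for `H := (powMonoidHom ℓ).range`. -/
theorem cl_div [IsAlgClosed C] (hO : IsPl C O₁) (h : Mo O₁ T E) {o : L → ℤ} (ho : IsOrd C O₁ o) [IsDedekindDomain (WB T)]
    (ℓ : ℕ) (hℓ : 0 < ℓ) (hℓC : (ℓ : C) ≠ 0)
    (hext : ∀ (Ω : Type) [Field Ω] [IsAlgClosed Ω] (g : C →+* Ω), IsDedekindDomain (WB (T.map g)))
    (hdom : ∀ (Ω : Type) [Field Ω] (T' : Tab Ω d), IsDomain (WB T'))
    (hmul : ∀ (Ω : Type) [Field Ω] (T' : Tab Ω d) (a b : WB T'), a ≠ 0 → b ≠ 0 → pord (a * b) = pord a + pord b)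
    (hnf : ∀ (Ω : Type) [Field Ω] (T' : Tab Ω d), ¬ IsField (WB T')) (D : ClassGroup (WB T)) :
    ∃ D' : ClassGroup (WB T), D' ^ ℓ = D := by
  obtain ⟨Ω, iΩ, g, η, J, F, hinj, hF0, hsp⟩ := exists_factor hO h ho ℓ hℓ hℓC hext hdom hmul hnf
  obtain ⟨r, hr0, hr⟩ := special T (hdom C T) ℓ Ω g η hinj J F hF0 hsp
  have hr0' : Ideal.span {r} ≠ ⊥ := by
    rwa [Ne, Ideal.span_singleton_eq_bot]
  have hfin : {I : Ideal (WB T) | Ideal.span {r} ≤ I}.Finite := SUP.finite_ge hr0'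
  have htop := top_of_almost_all (hnf C T) (powMonoidHom ℓ : ClassGroup (WB T) →* ClassGroup (WB T)).range
    {I : Ideal (WB T) | Ideal.span {r} ≤ I} hfin (by
      intro P hP hPB hPn
      obtain ⟨ψ, hψ⟩ := exists_eval P hP
      have hψr : ψ r ≠ 0 := by
        intro h0
        apply hPB
        show Ideal.span {r} ≤ P
        rw [Ideal.span_singleton_le_iff_mem, ← hψ]
        exact h0
      obtain ⟨J', F', hF', hJ'⟩ := hr ψ hψr
      rw [hψ] at hJ'
      have hJ0 : J' ≠ ⊥ := by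
        rintro rfl
        rw [Ideal.bot_pow hℓ.ne', Ideal.mul_bot, Ideal.span_singleton_eq_bot] at hJ'
        exact hF' hJ'
      have hJn : J' ∈ nonZeroDivisors (Ideal (WB T)) := mem_nonZeroDivisors_iff_ne_zero.2 hJ0
      have h1 : ClassGroup.mk0 (⟨P, hPn⟩ * (⟨J', hJn⟩ : nonZeroDivisors (Ideal (WB T))) ^ ℓ) = 1 := by
        rw [ClassGroup.mk0_eq_one_iff]
        refine ⟨⟨F', ?_⟩⟩
        show P * J' ^ ℓ = Ideal.span {F'}
        exact hJ'.symm
      rw [map_mul, map_pow] at h1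
      refine ⟨(ClassGroup.mk0 (⟨J', hJn⟩ : nonZeroDivisors (Ideal (WB T))))⁻¹, ?_⟩
      rw [powMonoidHom_apply, inv_pow]
      exact (eq_inv_of_mul_eq_one_left h1).symm)
  have hD : D ∈ (powMonoidHom ℓ : ClassGroup (WB T) →* ClassGroup (WB T)).range := by
    rw [htop]
    exact Subgroup.mem_top D
  obtain ⟨D', hD'⟩ := hD
  exact ⟨D', hD'⟩

end Pool.Agent.TIFS.DD
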