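import Pool.Agent.TIFS.W7
import Pool.Agent.MP_c1dca2_ag.GT.T6
import Pool.Agent.MP_c1dca2_ag.GT.P8a

/-!
# TIF-D4: rigidity of torsion, the step
-/

set_option autoImplicit false
set_option linter.unusedSectionVars false

namespace Pool.Agent.TIFS

open GT Module IsLocalRing
open SUP (len cls clm cls_mul exists_cls cls_span cls_eq_iff cls_eq_one_iff map_ne_bot clm_cls
  map_span_singleton len_mul len_top clm_clm clm_id eq_of_pow_eq)

variable {d : ℕ} [NeZero d]

theorem bmap_cg {R S : Type} [CommRing R] [CommRing S] {T : Tab R d} {T' : Tab S d} {g g' : R →+* S}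
    (h : T.map g = T') (h' : T.map g' = T') (hg : ∀ x, g x = g' x) (b : WB T) :
    bmap g h b = bmap g' h' b := by
  obtain rfl : g = g' := RingHom.ext hg
  rfl

/-- **Rigidity of torsion, the step.** -/
theorem step_red {k₀ F : Type} [Field k₀] [IsAlgClosed k₀] [Field F] [IsAlgClosed F]
    {V : ValuationSubring F} (hR : Rk1 V) (g : k₀ →+* V)
    (hres : Function.Surjective ((residue V).comp g)) {T : Tab k₀ d} [IsDedekindDomain (WB T)]
    [IsDedekindDomain (WB ((T.map g).map V.subtype))] {N : ℕ} (hN : (N : k₀) ≠ 0)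
    (t : ClassGroup (WB ((T.map g).map V.subtype))) (ht : t ^ N = 1) :
    ∃ t₀ : ClassGroup (WB T), t₀ ^ N = 1 ∧
      bcl (V.subtype.comp g) (Tab.map_map T g V.subtype).symm t₀ = t := by
  have hN0 : 0 < N := by
    rcases Nat.eq_zero_or_pos N with h | h
    · rw [h] at hN
      simp at hN
    · exact h
  have hu : IsUnit (N : V) := by
    have h1 : IsUnit (g (N : k₀)) := (IsUnit.mk0 _ hN).map g
    rwa [map_natCast] at h1
  set ρ : k₀ →+* ResidueField V := (residue V).comp g with hρ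
  have hρT : T.map ρ = (T.map g).map (residue V) := (Tab.map_map T g (residue V)).symm
  let e : WB T ≃+* WB ((T.map g).map (residue V)) :=
    RingEquiv.ofBijective (bmap ρ hρT) ⟨bmap_inj _ _ ρ.injective, bmap_surj _ _ hres⟩
  have he : ∀ b, e b = bmap ρ hρT b := fun b => rfl
  have hG' : IsDedekindDomain (WB ((T.map g).map (residue V))) := p8a_ded e.symm inferInstance
  set i : k₀ →+* F := V.subtype.comp g with hi
  have hiT : T.map i = (T.map g).map V.subtype := (Tab.map_map T g V.subtype).symm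
  -- the class over `k₀`
  set t₀ : ClassGroup (WB T) := clm e.symm (rcl t) with ht₀
  have hrt : rcl t ^ N = 1 := by
    have key : ∀ n : ℕ, rcl (t ^ n) = rcl t ^ n := by
      intro n
      induction n with
      | zero => rw [pow_zero, pow_zero, rcl_one]
      | succ n ih =>
        rw [pow_succ, rcl_mul hN0 (by rw [← pow_mul, mul_comm, pow_mul, ht, one_pow]) ht, ih, pow_succ]
    rw [← key, ht, rcl_one]
  have ht₀N : t₀ ^ N = 1 := by rw [ht₀, ← map_pow, hrt, map_one]
  have het₀ : clm e t₀ = rcl t := by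
    rw [ht₀, clm_clm e.symm e (RingEquiv.refl _) (fun b => (e.apply_symm_apply b).symm),
      clm_id _ (fun b => rfl)]
  refine ⟨t₀, ht₀N, ?_⟩
  -- the reduction of the constant class
  have hkey : rcl (bcl i hiT t₀) = rcl t := by
    obtain ⟨I₀, hI₀, hI₀t⟩ := exists_cls t₀
    obtain ⟨f₀, hf₀, hf₀'⟩ := exists_gen (pow_ne_zero N hI₀ : I₀ ^ N ≠ ⊥) (by
      rw [cls_pow' hI₀, hI₀t, ht₀N])
    have hJ : I₀.map (bmap i hiT) ≠ ⊥ := map_ne_bot' _ (bmap_inj _ _ i.injective) hI₀
    have h1 : bmap i hiT f₀ = inc (T.map g) (bmap g rfl f₀) := by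
      rw [inc, bmap_comp g rfl V.subtype rfl hiT]
    have h2 : bmap ρ hρT f₀ = rd (T.map g) (bmap g rfl f₀) := by
      rw [rd, bmap_comp g rfl (residue V) rfl hρT]
    have hf00 : f₀ ≠ 0 := ne_of_lc hf₀
    have h3 : rd (T.map g) (bmap g rfl f₀) ≠ 0 := by
      rw [← h2]
      exact (map_ne_zero_iff _ (bmap_inj _ _ ρ.injective)).2 hf00
    have h4 : (I₀.map (bmap i hiT)) ^ N = Ideal.span {inc (T.map g) (bmap g rfl f₀)} := by
      rw [← Ideal.map_pow, hf₀', Ideal.map_span, Set.image_singleton, h1]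
    have h5 := rI_pow hJ hN0 _ h3 h4
    have h6 : rI (I₀.map (bmap i hiT)) = I₀.map (bmap ρ hρT) := by
      refine eq_of_pow_eq (rI_ne_bot hJ) (map_ne_bot' _ (bmap_inj _ _ ρ.injective) hI₀) hN0 ?_
      rw [h5, ← Ideal.map_pow, hf₀', Ideal.map_span, Set.image_singleton, h2]
    have h7 : cls (I₀.map (bmap i hiT)) ^ N = 1 := by
      rw [← bcl_cls i hiT hI₀, ← map_pow, hI₀t, ht₀N, map_one]
    rw [← hI₀t, bcl_cls i hiT hI₀, ← cls_rI hJ hN0 h7, h6, ← het₀, ← hI₀t, clm_eq_clj,
      clj_cls _ _ hI₀]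
    rfl
  have hbt : (bcl i hiT t₀) ^ N = 1 := by rw [← map_pow, ht₀N, map_one]
  have h8 : rcl (bcl i hiT t₀ / t) = 1 := by
    rw [rcl_div hN0 hbt ht, hkey, div_self']
  have h9 := rcl_inj_aux hR N hN0 hu (bcl i hiT t₀ / t) (by rw [div_pow, hbt, ht, div_one]) h8
  exact div_eq_one.1 h9

end Pool.Agent.TIFS
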