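import Pool.Agent.TIFS.D4
import Pool.Agent.MP_c1dca2_ag.GT.Kd

/-!
# TIF-D5: a valuation ring of the closure of the Laurent series
-/

set_option autoImplicit false
set_option linter.unusedSectionVars false

namespace Pool.Agent.TIFS

open GT Module IsLocalRing SC2

/-- the power series as a valuation ring -/
noncomputable def AL (k : Type) [Field k] : ValuationSubring (LaurentSeries k) :=
  { (HahnSeries.ofPowerSeries ℤ k).range with
    mem_or_inv_mem' := by
      intro x
      rcases ValuationRing.isInteger_or_isInteger (PowerSeries k) x with h | h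
      · left
        obtain ⟨a, ha⟩ := h
        exact ⟨a, ha⟩
      · right
        obtain ⟨a, ha⟩ := h
        exact ⟨a, ha⟩ }

theorem mem_AL {k : Type} [Field k] {x : LaurentSeries k} :
    x ∈ AL k ↔ ∃ a : PowerSeries k, HahnSeries.ofPowerSeries ℤ k a = x := Iff.rfl

/-- the isomorphism -/
noncomputable def eAL (k : Type) [Field k] : PowerSeries k ≃+* AL k :=
  RingEquiv.ofBijective ((HahnSeries.ofPowerSeries ℤ k).rangeRestrict : PowerSeries k →+* (HahnSeries.ofPowerSeries ℤ k).range)
    ⟨fun a b h => HahnSeries.ofPowerSeries_injective (congrArg Subtype.val h),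
      fun ⟨x, hx⟩ => by
        obtain ⟨a, ha⟩ := hx
        exact ⟨a, Subtype.ext ha⟩⟩

theorem eAL_coe (k : Type) [Field k] (a : PowerSeries k) :
    ((eAL k a : AL k) : LaurentSeries k) = HahnSeries.ofPowerSeries ℤ k a := rfl

instance instDVR (k : Type) [Field k] : IsDiscreteValuationRing (AL k) :=
  IsDiscreteValuationRing.RingEquivClass.isDiscreteValuationRing (eAL k)

/-- the constants -/
noncomputable def cAL (k : Type) [Field k] : k →+* AL k := ((eAL k : PowerSeries k →+* AL k)).comp PowerSeries.C

theorem cAL_surj (k : Type) [Field k] : Function.Surjective ((residue (AL k)).comp (cAL k)) := by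
  intro w
  obtain ⟨x, rfl⟩ := residue_surjective w
  obtain ⟨a, rfl⟩ := (eAL k).surjective x
  refine ⟨PowerSeries.constantCoeff a, ?_⟩
  have h1 : residue (AL k) (eAL k a) = residue (AL k) (eAL k (PowerSeries.C (PowerSeries.constantCoeff a))) := by
    rw [← sub_eq_zero, ← map_sub, residue_eq_zero_iff, mem_maximalIdeal, mem_nonunits_iff, ← map_sub]
    intro hu
    have h2 : IsUnit (a - PowerSeries.C (PowerSeries.constantCoeff a)) := by
      have := hu.map ((eAL k).symm : AL k →+* PowerSeries k)
      simpa using this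
    rw [PowerSeries.isUnit_iff_constantCoeff] at h2
    simp at h2
  rw [h1]
  rfl

/-- The valuation ring. -/
theorem exists_V (k : Type) [Field k] [IsAlgClosed k] :
    ∃ (V : ValuationSubring (AlgebraicClosure (LaurentSeries k))) (g : k →+* V), Rk1 V ∧
      Function.Surjective ((residue V).comp g) ∧
      ∀ c, ((g c : V) : AlgebraicClosure (LaurentSeries k)) =
        algebraMap (LaurentSeries k) _ (HahnSeries.C c) := by
  obtain ⟨V, h⟩ := exists_above (C := AlgebraicClosure (LaurentSeries k)) (AL k)
  have hRk := rk1_of h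
  refine ⟨V, (a4f h).comp (cAL k), hRk, ?_, ?_⟩
  · -- the residue field of `AL k` is algebraically closed
    have hbij : Function.Bijective ((residue (AL k)).comp (cAL k)) :=
      ⟨RingHom.injective _, cAL_surj k⟩
    have hac : IsAlgClosed (ResidueField (AL k)) :=
      IsAlgClosed.of_ringEquiv k (ResidueField (AL k)) (RingEquiv.ofBijective _ hbij)
    let _ := (a4k h).toAlgebra
    have halg : Algebra.IsIntegral (ResidueField (AL k)) (ResidueField V) := by
      refine ⟨fun w => ?_⟩
      obtain ⟨⟨x, hx⟩, rfl⟩ := residue_surjective w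
      obtain ⟨y, z, hy, hz, hyv, hxy⟩ := val_frac h x hx
      have hyV : y ∈ V := (V.valuation_le_one_iff y).1 hyv.le
      have hzV : z ∈ V := by
        rw [← hxy]
        exact V.mul_mem _ _ hx hyV
      have h1 : IsIntegral (ResidueField (AL k)) (residue V ⟨y, hyV⟩) := a4_integral h y hyV hy
      have h2 : IsIntegral (ResidueField (AL k)) (residue V ⟨z, hzV⟩) := a4_integral h z hzV hz
      have h3 : residue V ⟨x, hx⟩ * residue V ⟨y, hyV⟩ = residue V ⟨z, hzV⟩ := by
        rw [← map_mul]
        congr 1
        exact Subtype.ext hxy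
      have h4 : residue V ⟨y, hyV⟩ ≠ 0 := by
        rw [Ne, residue_eq_zero_iff]
        intro h5
        have h6 := (ValuationSubring.mem_nonunits_iff_exists_mem_maximalIdeal (A := V)).2 ⟨hyV, h5⟩
        rw [ValuationSubring.mem_nonunits_iff, hyv] at h6
        exact lt_irrefl _ h6
      have h5 : residue V ⟨x, hx⟩ = residue V ⟨z, hzV⟩ * (residue V ⟨y, hyV⟩)⁻¹ := by
        rw [← h3, mul_assoc, mul_inv_cancel₀ h4, mul_one]
      rw [h5]
      exact h2.mul h1.inv
    have h1 := IsAlgClosed.algebraMap_bijective_of_isIntegral (k := ResidueField (AL k))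
      (K := ResidueField V)
    intro w
    obtain ⟨w₁, rfl⟩ := h1.2 w
    obtain ⟨c, rfl⟩ := cAL_surj k w₁
    exact ⟨c, rfl⟩
  · intro c
    show algebraMap (LaurentSeries k) _ ((cAL k c : AL k) : LaurentSeries k) = _
    congr 1
    show HahnSeries.ofPowerSeries ℤ k (PowerSeries.C c) = _
    exact HahnSeries.ofPowerSeries_C c

end Pool.Agent.TIFS
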