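import Pool.Agent.TIFS.D5
import Pool.Agent.TIFP.Bcl
import Pool.Agent.TIFCRV.Ded

/-!
# TIF-D6: rigidity of torsion: extensions of transcendence degree one
-/

set_option autoImplicit false
set_option linter.unusedSectionVars false

namespace Pool.Agent.TIFS

open GT Module IsLocalRing

/-- The torsion classes over `F` come from `k`. -/
def Rig {k F : Type} [Field k] [Field F] (g : k →+* F) : Prop :=
  ∀ (d : ℕ) [NeZero d] (T : Tab k d) (T' : Tab F d) (h : T.map g = T') [IsDedekindDomain (WB T)]
    [IsDedekindDomain (WB T')] (N : ℕ), (N : k) ≠ 0 → ∀ t : ClassGroup (WB T'), t ^ N = 1 →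
      ∃ t₀ : ClassGroup (WB T), t₀ ^ N = 1 ∧ bcl g h t₀ = t

theorem bcl_cg {k F : Type} [Field k] [Field F] {d : ℕ} [NeZero d] {T : Tab k d} {T' : Tab F d}
    [IsDedekindDomain (WB T)] [IsDedekindDomain (WB T')] {g g' : k →+* F} (hg : g = g')
    (h : T.map g = T') (h' : T.map g' = T') (D : ClassGroup (WB T)) : bcl g h D = bcl g' h' D := by
  subst hg
  rfl

theorem bcl_bcl {k E F : Type} [Field k] [Field E] [Field F] {d : ℕ} [NeZero d] {T : Tab k d}
    {T' : Tab E d} {T'' : Tab F d} [IsDedekindDomain (WB T)] [IsDedekindDomain (WB T')]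
    [IsDedekindDomain (WB T'')] (g : k →+* E) (h : T.map g = T') (j : E →+* F) (h' : T'.map j = T'')
    (G : k →+* F) (hG : T.map G = T'') (hjg : ∀ a, j (g a) = G a) (D : ClassGroup (WB T)) :
    bcl j h' (bcl g h D) = bcl G hG D := by
  apply clj_clj
  intro b
  refine WB.ext (funext fun i => ?_)
  rw [bmap_co, bmap_co, bmap_co, Polynomial.map_map]
  congr 1
  ext a
  exact (hjg a).symm

theorem bcl_inj' {E F : Type} [Field E] [Field F] [IsAlgClosed F] {d : ℕ} [NeZero d]
    {T' : Tab E d} {T'' : Tab F d} [IsDedekindDomain (WB T')] [IsDedekindDomain (WB T'')]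
    (j : E →+* F) (h' : T'.map j = T'') : Function.Injective (bcl j h') := by
  let _ := j.toAlgebra
  exact TIFP.bcl_inj (A := E) (Ω := F) h'

/-- Laurent series -/
theorem rig_laurent (k : Type) [Field k] [IsAlgClosed k] :
    Rig ((algebraMap (LaurentSeries k) (AlgebraicClosure (LaurentSeries k))).comp
      (HahnSeries.C : k →+* LaurentSeries k)) := by
  obtain ⟨V, g, hR, hres, hg⟩ := exists_V k
  have hgg : ((algebraMap (LaurentSeries k) (AlgebraicClosure (LaurentSeries k))).comp
      (HahnSeries.C : k →+* LaurentSeries k)) = V.subtype.comp g := by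
    ext c
    exact (hg c).symm
  rw [hgg]
  intro d _ T T' h _ _ N hN t ht
  obtain rfl : T' = (T.map g).map V.subtype := by rw [← h, Tab.map_map]
  exact step_red hR g hres hN t ht

/-- Rigidity from an embedding in a rigid extension. -/
theorem rig_of_emb {k E F : Type} [Field k] [IsAlgClosed k] [Field E] [IsAlgClosed E] [Field F]
    [IsAlgClosed F] (g : k →+* E) (j : E →+* F) (G : k →+* F) (hjg : ∀ a, j (g a) = G a)
    (hG : Rig G) : Rig g := by
  intro d _ T T' h _ _ N hN t ht
  have hd : IsDedekindDomain (WB (T'.map j)) := TIFCRV.ded_up T' j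
  have hGT : T.map G = T'.map j := by
    rw [← h, Tab.map_map]
    congr 1
    ext a
    exact (hjg a).symm
  obtain ⟨t₀, ht₀, h1⟩ := hG d T (T'.map j) hGT N hN (bcl j rfl t) (by rw [← map_pow, ht, map_one])
  refine ⟨t₀, ht₀, ?_⟩
  apply bcl_inj' j rfl
  rw [bcl_bcl g h j rfl G hGT hjg, h1]

open scoped IntermediateField in
/-- Transcendence degree one. -/
theorem rig_one {A E : Type} [Field A] [IsAlgClosed A] [Field E] [IsAlgClosed E] [Algebra A E]
    (x : E) (hx : Transcendental A x) (halg : Algebra.IsAlgebraic A⟮x⟯ E) : Rig (algebraMap A E) := by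
  let Ω : Type := AlgebraicClosure (LaurentSeries A)
  let φ : Polynomial A →+* Ω := (algebraMap (LaurentSeries A) Ω).comp
    ((HahnSeries.ofPowerSeries ℤ A).comp Polynomial.coeToPowerSeries.ringHom)
  have hφ : Function.Injective φ := by
    refine (algebraMap (LaurentSeries A) Ω).injective.comp ?_
    refine HahnSeries.ofPowerSeries_injective.comp ?_
    exact Polynomial.coe_injective A
  let θ : RatFunc A →+* Ω := IsFractionRing.lift hφ
  have hθ : ∀ p : Polynomial A, θ (algebraMap (Polynomial A) (RatFunc A) p) = φ p := fun p =>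
    IsFractionRing.lift_algebraMap hφ p
  let u := RatFunc.algEquivOfTranscendental x hx
  let _ : Algebra A⟮x⟯ Ω := (θ.comp (u.symm : A⟮x⟯ →+* RatFunc A)).toAlgebra
  let j : E →ₐ[A⟮x⟯] Ω := IsAlgClosed.lift
  refine rig_of_emb (algebraMap A E) (j : E →+* Ω) _ ?_ (rig_laurent A)
  intro a
  have h1 : algebraMap A E a = algebraMap A⟮x⟯ E (algebraMap A A⟮x⟯ a) := rfl
  have h2 : (j : E →+* Ω) (algebraMap A E a) = θ (u.symm (algebraMap A A⟮x⟯ a)) := by
    rw [h1]
    exact j.commutes _
  rw [h2, u.symm.commutes]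
  have h3 : algebraMap A (RatFunc A) a = algebraMap (Polynomial A) (RatFunc A) (Polynomial.C a) := rfl
  rw [h3, hθ]
  show algebraMap (LaurentSeries A) Ω (HahnSeries.ofPowerSeries ℤ A ((Polynomial.C a : Polynomial A) : PowerSeries A)) = _
  rw [Polynomial.coe_C, HahnSeries.ofPowerSeries_C]
  rfl

end Pool.Agent.TIFS
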