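import Pool.Agent.TIFS.D6
import Pool.Agent.TIFS.W9

/-!
# TIF-D7: rigidity of torsion
-/

set_option autoImplicit false
set_option linter.unusedSectionVars false

namespace Pool.Agent.TIFS

open GT Module IsLocalRing
open SUP (cls)
open scoped IntermediateField

theorem tab_inj {R S : Type} [CommRing R] [CommRing S] {d : ℕ} [NeZero d] {T T' : Tab R d} (g : R →+* S)
    (hg : Function.Injective g) (h : T.map g = T'.map g) : T = T' := by
  refine Tab.ext ?_ ?_
  · have := congrArg Tab.w h
    exact this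
  · funext i j k
    apply Polynomial.map_injective g hg
    have := congrArg (fun U : Tab S d => U.c i j k) h
    exact this

/-- algebraic over a smaller field -/
theorem isAlg_mono {K₁ K₂ F : Type} [Field K₁] [Field K₂] [Field F] [Algebra K₁ F] [Algebra K₂ F]
    (h : ∀ a : K₁, ∃ b : K₂, algebraMap K₂ F b = algebraMap K₁ F a) {y : F} (hy : IsAlgebraic K₁ y) :
    IsAlgebraic K₂ y := by
  choose f hf using h
  let φ : K₁ →+* K₂ :=
    { toFun := f
      map_one' := (algebraMap K₂ F).injective (by rw [hf, map_one, map_one])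
      map_mul' := fun a b => (algebraMap K₂ F).injective (by rw [hf, map_mul, map_mul, hf, hf])
      map_zero' := (algebraMap K₂ F).injective (by rw [hf, map_zero, map_zero])
      map_add' := fun a b => (algebraMap K₂ F).injective (by rw [hf, map_add, map_add, hf, hf]) }
  obtain ⟨p, hp0, hp⟩ := hy
  refine ⟨p.map φ, (Polynomial.map_ne_zero_iff φ.injective).2 hp0, ?_⟩
  rw [Polynomial.aeval_def, Polynomial.eval₂_map]
  have h1 : (algebraMap K₂ F).comp φ = algebraMap K₁ F := by
    ext a
    exact hf a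
  rw [h1]
  exact hp

/-- The closure of `A(x)`. -/
theorem rig_closure {A F : Type} [Field A] [IsAlgClosed A] [Field F] [IsAlgClosed F] [Algebra A F]
    (x : F) (hx : Transcendental A x) : Rig (algebraMap A (algebraicClosure A⟮x⟯ F)) := by
  let Ω : Type := AlgebraicClosure (LaurentSeries A)
  let φ : Polynomial A →+* Ω := (algebraMap (LaurentSeries A) Ω).comp
    ((HahnSeries.ofPowerSeries ℤ A).comp Polynomial.coeToPowerSeries.ringHom)
  have hφ : Function.Injective φ := by
    refine (algebraMap (LaurentSeries A) Ω).injective.comp ?_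
    refine HahnSeries.ofPowerSeries_injective.comp ?_
    exact Polynomial.coe_injective A
  let θ : RatFunc A →+* Ω := IsFractionRing.lift hφ
  have hθ : ∀ p : Polynomial A, θ (algebraMap (Polynomial A) (RatFunc A) p) = φ p := fun p =>
    IsFractionRing.lift_algebraMap hφ p
  let u := RatFunc.algEquivOfTranscendental x hx
  let _ : Algebra A⟮x⟯ Ω := (θ.comp (u.symm : A⟮x⟯ →+* RatFunc A)).toAlgebra
  have hac : IsAlgClosed (algebraicClosure A⟮x⟯ F) := IsAlgClosure.isAlgClosed A⟮x⟯
  let j : algebraicClosure A⟮x⟯ F →ₐ[A⟮x⟯] Ω := IsAlgClosed.lift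
  refine rig_of_emb (algebraMap A (algebraicClosure A⟮x⟯ F)) (j : algebraicClosure A⟮x⟯ F →+* Ω) _ ?_
    (rig_laurent A)
  intro a
  have h1 : algebraMap A (algebraicClosure A⟮x⟯ F) a =
      algebraMap A⟮x⟯ (algebraicClosure A⟮x⟯ F) (algebraMap A A⟮x⟯ a) := rfl
  have h2 : (j : algebraicClosure A⟮x⟯ F →+* Ω) (algebraMap A (algebraicClosure A⟮x⟯ F) a) =
      θ (u.symm (algebraMap A A⟮x⟯ a)) := by
    rw [h1]
    exact j.commutes _
  rw [h2, u.symm.commutes]
  have h3 : algebraMap A (RatFunc A) a = algebraMap (Polynomial A) (RatFunc A) (Polynomial.C a) := rfl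
  rw [h3, hθ]
  show algebraMap (LaurentSeries A) Ω (HahnSeries.ofPowerSeries ℤ A ((Polynomial.C a : Polynomial A) : PowerSeries A)) = _
  rw [Polynomial.coe_C, HahnSeries.ofPowerSeries_C]
  rfl

section

variable {F : Type} [Field F] [IsAlgClosed F] {d : ℕ} [NeZero d] {T : Tab F d} [IsDedekindDomain (WB T)]

/-- the class `t` comes from the subfield `A` -/
def Fr (A : Subfield F) (t : ClassGroup (WB T)) : Prop :=
  ∃ (TA : Tab A d) (h : TA.map A.subtype = T) (_ : IsDedekindDomain (WB TA)) (D : ClassGroup (WB TA)),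
    bcl A.subtype h D = t

theorem Fr.mono {A B : Subfield F} (hAB : A ≤ B) {t : ClassGroup (WB T)} (h : Fr A t) : Fr B t := by
  obtain ⟨TA, hTA, hd, D, rfl⟩ := h
  have h1 : (TA.map (Subfield.inclusion hAB)).map B.subtype = T := by
    rw [Tab.map_map, ← hTA]
    congr 1
  have hd1 : IsDedekindDomain (WB ((TA.map (Subfield.inclusion hAB)).map B.subtype)) := by
    rw [h1]
    infer_instance
  have hd' : IsDedekindDomain (WB (TA.map (Subfield.inclusion hAB))) :=
    TIFCRV.ded_down _ B.subtype
  refine ⟨TA.map (Subfield.inclusion hAB), h1, hd', bcl (Subfield.inclusion hAB) rfl D, ?_⟩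
  exact bcl_bcl _ rfl _ h1 _ hTA (fun a => rfl) D

/-- the closure of a subfield in `F` -/
noncomputable def cS (K : Subfield F) : Subfield F := (algebraicClosure K F).toSubfield

theorem mem_cS {K : Subfield F} {y : F} : y ∈ cS K ↔ IsAlgebraic K y := mem_algebraicClosure_iff

instance instCS (K : Subfield F) : IsAlgClosed (cS K) :=
  (IsAlgClosure.isAlgClosed K : IsAlgClosed (algebraicClosure K F))

theorem le_cS (K : Subfield F) : K ≤ cS K := fun y hy => mem_cS.2 (isAlgebraic_algebraMap (⟨y, hy⟩ : K))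

/-- the step of the induction -/
theorem Fr.step (A : Subfield F) [IsAlgClosed A] (x : F) {TA : Tab A d} (hTA : TA.map A.subtype = T)
    {N : ℕ} (hN : (N : F) ≠ 0) {t : ClassGroup (WB T)} (ht : t ^ N = 1)
    (h : Fr (algebraicClosure A⟮x⟯ F).toSubfield t) : Fr A t := by
  by_cases hx : Transcendental A x
  · obtain ⟨TB, hTB, hd, D, hD⟩ := h
    have hac : IsAlgClosed (algebraicClosure A⟮x⟯ F) := IsAlgClosure.isAlgClosed A⟮x⟯
    have hD1 : D ^ N = 1 := by
      apply bcl_inj' _ hTB
      rw [map_pow, hD, ht, map_one]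
    have hTAB : TA.map (algebraMap A (algebraicClosure A⟮x⟯ F)) = TB := by
      apply tab_inj (algebraicClosure A⟮x⟯ F).toSubfield.subtype (RingHom.injective _)
      rw [hTB, ← hTA, Tab.map_map]
      congr 1
    have hd1 : IsDedekindDomain (WB (TA.map A.subtype)) := by
      rw [hTA]
      infer_instance
    have hd2 : IsDedekindDomain (WB TA) := TIFCRV.ded_down _ A.subtype
    have hNA : (N : A) ≠ 0 := by
      intro h0
      apply hN
      have := congrArg A.subtype h0
      rwa [map_natCast, map_zero] at this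
    obtain ⟨D₀, -, hD₀⟩ := rig_closure (A := A) x hx d TA TB hTAB N hNA D hD1
    refine ⟨TA, hTA, hd2, D₀, ?_⟩
    rw [← hD, ← hD₀]
    exact (bcl_bcl (T := TA) (T' := TB) (T'' := T) (algebraMap A (algebraicClosure A⟮x⟯ F)) hTAB
      (Subfield.subtype _) hTB A.subtype hTA (fun a => rfl) D₀).symm
  · have hx' : IsAlgebraic A x := by
      rw [Transcendental] at hx
      exact not_not.1 hx
    refine h.mono ?_
    intro y hy
    have hy' : IsAlgebraic A⟮x⟯ y := mem_algebraicClosure_iff.1 hy
    have hin : ∀ z : F, IsAlgebraic A z → z ∈ A := by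
      intro z hz
      have h1 := IsAlgClosed.algebraMap_bijective_of_isIntegral (k := A) (K := algebraicClosure A F)
      obtain ⟨a, ha⟩ := h1.2 ⟨z, mem_algebraicClosure_iff.2 hz⟩
      have h2 := congrArg Subtype.val ha
      have h3 : (a : F) = z := h2
      rw [← h3]
      exact a.2
    have hxA := hin x hx'
    apply hin
    refine isAlg_mono ?_ hy'
    have hle : A⟮x⟯ ≤ ⊥ := by
      rw [IntermediateField.adjoin_simple_le_iff, IntermediateField.mem_bot]
      exact ⟨⟨x, hxA⟩, rfl⟩
    intro a
    have h1 := hle a.2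
    rw [IntermediateField.mem_bot] at h1
    exact h1

/-- the field generated by `k` and a finite set -/
def kS (k : Subfield F) (S : Finset F) : Subfield F := Subfield.closure ((k : Set F) ∪ S)

theorem le_kS (k : Subfield F) (S : Finset F) : k ≤ kS k S := fun _ hy =>
  Subfield.subset_closure (Or.inl hy)

theorem Fr.induct (k : Subfield F) [IsAlgClosed k] {Tk : Tab k d} (hTk : Tk.map k.subtype = T)
    {N : ℕ} (hN : (N : F) ≠ 0) {t : ClassGroup (WB T)} (ht : t ^ N = 1) (S : Finset F)
    (h : Fr (cS (kS k S)) t) : Fr k t := by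
  classical
  induction S using Finset.induction_on with
  | empty =>
    refine h.mono ?_
    intro y hy
    rw [mem_cS] at hy
    have h1 : IsAlgebraic k y := by
      refine isAlg_mono ?_ hy
      rintro ⟨a, ha⟩
      have : kS k ∅ ≤ k := by
        rw [kS, Subfield.closure_le]
        simp
      exact ⟨⟨a, this ha⟩, rfl⟩
    have h2 := IsAlgClosed.algebraMap_bijective_of_isIntegral (k := k) (K := algebraicClosure k F)
    obtain ⟨a, ha⟩ := h2.2 ⟨y, mem_algebraicClosure_iff.2 h1⟩
    have h3 : (a : F) = y := congrArg Subtype.val ha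
    rw [← h3]
    exact a.2
  | insert x S hxS ih =>
    apply ih
    have hle : k ≤ cS (kS k S) := (le_kS k S).trans (le_cS _)
    have hTA : (Tk.map (Subfield.inclusion hle)).map (cS (kS k S)).subtype = T := by
      rw [Tab.map_map, ← hTk]
      congr 1
    refine Fr.step (cS (kS k S)) x hTA hN ht (h.mono ?_)
    intro y hy
    rw [mem_cS] at hy
    show y ∈ algebraicClosure (cS (kS k S))⟮x⟯ F
    rw [mem_algebraicClosure_iff]
    refine isAlg_mono ?_ hy
    rintro ⟨a, ha⟩
    have hle2 : kS k (insert x S) ≤ (cS (kS k S))⟮x⟯.toSubfield := by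
      rw [kS, Subfield.closure_le]
      have hin : ∀ z ∈ kS k S, z ∈ (cS (kS k S))⟮x⟯.toSubfield := fun z hz =>
        (cS (kS k S))⟮x⟯.algebraMap_mem ⟨z, le_cS _ hz⟩
      rintro z (hz | hz)
      · exact hin z (le_kS k S hz)
      · rw [Finset.coe_insert] at hz
        rcases hz with hz | hz
        · rw [hz]
          exact IntermediateField.mem_adjoin_simple_self _ x
        · exact hin z (Subfield.subset_closure (Or.inr hz))
    exact ⟨⟨a, hle2 ha⟩, rfl⟩

/-- a point with coordinates in a subfield -/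
theorem exists_pt_sub (K : Subfield F) {TK : Tab K d} (h : TK.map K.subtype = T) (P : Pt T)
    (hx : P (WB.x T) ∈ K) (hf : ∀ j, P (WB.f T j) ∈ K) : ∃ Q : Pt TK, bp K.subtype h Q = P := by
  set φ : WB TK →+* F := (P : WB T →+* F).comp (bmap K.subtype h) with hφ
  have hφr : ∀ r, φ (algebraMap K (WB TK) r) = K.subtype r := by
    intro r
    show P (bmap K.subtype h (algebraMap K (WB TK) r)) = _
    rw [bmap_algebraMap', P.commutes]
    rfl
  have hmem : ∀ b, φ b ∈ K := by
    intro b
    rw [lift_unique φ hφr b, lift_apply]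
    refine K.sum_mem fun j _ => K.mul_mem ?_ ?_
    · rw [Polynomial.eval₂_eq_sum_range]
      refine K.sum_mem fun i _ => K.mul_mem ((b.co j).coeff i).2 (K.pow_mem ?_ i)
      show P (bmap K.subtype h (WB.x TK)) ∈ K
      rw [bmap_x]
      exact hx
    · show P (bmap K.subtype h (WB.f TK j)) ∈ K
      rw [bmap_f]
      exact hf j
  let ψ : WB TK →+* K := φ.codRestrict K hmem
  let Q : Pt TK := { ψ with commutes' := fun r => Subtype.ext (hφr r) }
  refine ⟨Q, ?_⟩
  apply pt_ext K.subtype h
  intro b
  rw [bp_apply]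
  rfl

theorem exists_mul_sub (K : Subfield F) {TK : Tab K d} (h : TK.map K.subtype = T)
    (X : Multiset (Pt T)) (hX : ∀ P ∈ X, P (WB.x T) ∈ K ∧ ∀ j, P (WB.f T j) ∈ K) :
    ∃ Y : Multiset (Pt TK), Y.map (bp K.subtype h) = X := by
  induction X using Multiset.induction_on with
  | empty => exact ⟨0, Multiset.map_zero _⟩
  | cons P X ih =>
    obtain ⟨Y, hY⟩ := ih fun Q hQ => hX Q (Multiset.mem_cons_of_mem hQ)
    obtain ⟨Q, hQ⟩ := exists_pt_sub K h P (hX P (Multiset.mem_cons_self _ _)).1
      (hX P (Multiset.mem_cons_self _ _)).2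
    exact ⟨Q ::ₘ Y, by rw [Multiset.map_cons, hY, hQ]⟩

theorem exists_Fr (k : Subfield F) {Tk : Tab k d} (hTk : Tk.map k.subtype = T)
    (t : ClassGroup (WB T)) : ∃ S : Finset F, Fr (cS (kS k S)) t := by
  classical
  obtain ⟨X, rfl⟩ := exists_rep t
  let S : Finset F := X.toFinset.biUnion fun P =>
    insert (P (WB.x T)) (Finset.univ.image fun j => P (WB.f T j))
  refine ⟨S, ?_⟩
  have hle : k ≤ cS (kS k S) := (le_kS k S).trans (le_cS _)
  have hTA : (Tk.map (Subfield.inclusion hle)).map (cS (kS k S)).subtype = T := by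
    rw [Tab.map_map, ← hTk]
    congr 1
  have hd1 : IsDedekindDomain (WB ((Tk.map (Subfield.inclusion hle)).map (cS (kS k S)).subtype)) := by
    rw [hTA]
    infer_instance
  have hd' : IsDedekindDomain (WB (Tk.map (Subfield.inclusion hle))) :=
    TIFCRV.ded_down _ (cS (kS k S)).subtype
  have hS : ∀ z ∈ S, z ∈ cS (kS k S) := fun z hz => le_cS _ (Subfield.subset_closure (Or.inr hz))
  obtain ⟨Y, hY⟩ := exists_mul_sub (cS (kS k S)) hTA X (by
    intro P hP
    constructor
    · apply hS
      rw [Finset.mem_biUnion]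
      exact ⟨P, Multiset.mem_toFinset.2 hP, Finset.mem_insert_self _ _⟩
    · intro j
      apply hS
      rw [Finset.mem_biUnion]
      exact ⟨P, Multiset.mem_toFinset.2 hP,
        Finset.mem_insert_of_mem (Finset.mem_image_of_mem _ (Finset.mem_univ j))⟩)
  refine ⟨Tk.map (Subfield.inclusion hle), hTA, hd', cls (iX Y), ?_⟩
  rw [bcl_iX, hY]

end

/-- **Rigidity of torsion.** -/
theorem rig {k F : Type} [Field k] [IsAlgClosed k] [Field F] [IsAlgClosed F] (g : k →+* F) : Rig g := by
  intro d _ T T' h _ _ N hN t ht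
  -- the image of `k`
  let k' : Subfield F := g.fieldRange
  let e : k ≃+* k' := RingEquiv.ofBijective g.rangeRestrictField
    ⟨g.rangeRestrictField.injective, fun y => by
      obtain ⟨y, a, ha⟩ := y
      exact ⟨a, Subtype.ext ha⟩⟩
  have he : ∀ a, ((e a : k') : F) = g a := fun a => rfl
  have hac : IsAlgClosed k' := IsAlgClosed.of_ringEquiv k k' e
  have hTk : (T.map (e : k →+* k')).map k'.subtype = T' := by
    rw [Tab.map_map, ← h]
    congr 1
  have hNF : (N : F) ≠ 0 := by
    intro h0
    apply hN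
    apply g.injective
    rw [map_natCast, h0, map_zero]
  obtain ⟨S, hS⟩ := exists_Fr k' hTk t
  obtain ⟨TA, hTA, hd, D, hD⟩ := Fr.induct k' hTk hNF ht S hS
  obtain rfl : T.map (e : k →+* k') = TA := by
    apply tab_inj k'.subtype (RingHom.injective _)
    rw [hTk, hTA]
  have hee : (T.map (e : k →+* k')).map (e.symm : k' →+* k) = T := by
    rw [Tab.map_map]
    have : (e.symm : k' →+* k).comp (e : k →+* k') = RingHom.id k := by
      ext a
      exact e.symm_apply_apply a
    rw [this, Tab.map_id]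
  refine ⟨bcl (e.symm : k' →+* k) hee D, ?_, ?_⟩
  · rw [← map_pow]
    have h1 : D ^ N = 1 := by
      apply bcl_inj' _ hTA
      rw [map_pow, hD, ht, map_one]
    rw [h1, map_one]
  · rw [← hD]
    refine bcl_bcl _ hee g h _ hTA ?_ D
    intro a
    show g (e.symm a) = a
    rw [← he, e.apply_symm_apply]

end Pool.Agent.TIFS
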