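import Mathlib

/-!
# TIF-L1: Lang's lemma for semilinear endomorphisms (one step), counting
-/

set_option autoImplicit false

namespace Pool.Agent.TIFS

/-- `f - 1` is surjective on the subgroup `W` and has exactly `N` zeros there. -/
structure LG {A : Type*} [AddCommGroup A] (f : A →+ A) (W : AddSubgroup A) (N : ℕ) : Prop where
  surj : ∀ w ∈ W, ∃ v ∈ W, f v - v = w
  card : Nat.card {w : A // w ∈ W ∧ f w = w} = N

theorem LG.bot {A : Type*} [AddCommGroup A] (f : A →+ A) : LG f (⊥ : AddSubgroup A) 1 where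
  surj := by
    intro w hw
    rw [AddSubgroup.mem_bot] at hw
    subst hw
    exact ⟨0, zero_mem _, by rw [map_zero, sub_zero]⟩
  card := by
    rw [Nat.card_eq_one_iff_unique]
    refine ⟨⟨?_⟩, ⟨⟨0, by simp, by simp⟩⟩⟩
    rintro ⟨a, ha, -⟩ ⟨b, hb, -⟩
    rw [AddSubgroup.mem_bot] at ha hb
    subst ha hb
    rfl

/-- One step: `W'` is the kernel of `p : W → κ`, and `p` is surjective on `W`. -/
theorem LG.step {A κ : Type*} [AddCommGroup A] [AddCommGroup κ] {f : A →+ A} {W W' : AddSubgroup A}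
    {N Q : ℕ} (h : LG f W' N) (p : A →+ κ) (φ : κ →+ κ) (hp : ∀ a, p (f a) = φ (p a))
    (hf : ∀ a ∈ W, f a ∈ W) (hW : ∀ a, a ∈ W' ↔ a ∈ W ∧ p a = 0)
    (hs : ∀ c : κ, ∃ a ∈ W, p a = c) (hφ : ∀ c : κ, ∃ x, φ x - x = c)
    (hQ : Nat.card {c : κ // φ c = c} = Q) : LG f W (N * Q) where
  surj := by
    intro w hw
    obtain ⟨x, hx⟩ := hφ (p w)
    obtain ⟨a, ha, hax⟩ := hs x
    have h1 : w - (f a - a) ∈ W' := by
      rw [hW]
      refine ⟨W.sub_mem hw (W.sub_mem (hf a ha) ha), ?_⟩
      rw [map_sub, map_sub, hp, hax, hx, sub_self]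
    obtain ⟨v, hv, hv'⟩ := h.surj _ h1
    refine ⟨v + a, W.add_mem ((hW v).1 hv).1 ha, ?_⟩
    rw [map_add]
    have : f v + f a - (v + a) = (f v - v) + (f a - a) := by abel
    rw [this, hv', sub_add_cancel]
  card := by
    -- for every fixed `c` choose a fixed element above it
    have hex : ∀ c : {c : κ // φ c = c}, ∃ a : A, a ∈ W ∧ f a = a ∧ p a = c.1 := by
      rintro ⟨c, hc⟩
      obtain ⟨a, ha, hac⟩ := hs c
      have h1 : f a - a ∈ W' := by
        rw [hW]
        refine ⟨W.sub_mem (hf a ha) ha, ?_⟩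
        rw [map_sub, hp, hac, hc, sub_self]
      obtain ⟨v, hv, hv'⟩ := h.surj _ h1
      refine ⟨a - v, W.sub_mem ha ((hW v).1 hv).1, ?_, ?_⟩
      · rw [map_sub]
        have : f a = (f v - v) + a := by rw [hv']; abel
        rw [this]
        abel
      · rw [map_sub, hac, ((hW v).1 hv).2, sub_zero]
    choose s hs1 hs2 hs3 using hex
    let e : {w : A // w ∈ W ∧ f w = w} ≃ {w : A // w ∈ W' ∧ f w = w} × {c : κ // φ c = c} :=
      { toFun := fun w =>
          ⟨⟨w.1 - s ⟨p w.1, by rw [← hp, w.2.2]⟩, by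
            rw [hW, map_sub, hs3]
            exact ⟨W.sub_mem w.2.1 (hs1 _), sub_self _⟩, by
              rw [map_sub, hs2]
              congr 1
              exact w.2.2⟩,
            ⟨p w.1, by rw [← hp, w.2.2]⟩⟩
        invFun := fun x => ⟨x.1.1 + s x.2, W.add_mem ((hW _).1 x.1.2.1).1 (hs1 _), by
          rw [map_add, x.1.2.2, hs2]⟩
        left_inv := fun w => Subtype.ext (by simp)
        right_inv := by
          rintro ⟨⟨v, hv, hv'⟩, ⟨c, hc⟩⟩
          have h1 : p (v + s ⟨c, hc⟩) = c := by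
            rw [map_add, ((hW v).1 hv).2, zero_add, hs3]
          have h2 : ∀ (y : κ) (hy : φ y = y), y = c → s ⟨y, hy⟩ = s ⟨c, hc⟩ := by
            rintro y hy rfl
            rfl
          refine Prod.ext (Subtype.ext ?_) (Subtype.ext ?_)
          · show v + s ⟨c, hc⟩ - s _ = v
            rw [h2 _ _ h1, add_sub_cancel_right]
          · exact h1 }
    rw [Nat.card_congr e, Nat.card_prod, h.card, hQ]

theorem LG.congr {A : Type*} [AddCommGroup A] {f : A →+ A} {W W' : AddSubgroup A} {N N' : ℕ}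
    (h : LG f W N) (hW : W = W') (hN : N = N') : LG f W' N' := by
  subst hW hN
  exact h

/-- the fixed points of a Frobenius map -/
theorem frob_card {κ : Type*} [Field κ] [IsAlgClosed κ] (p : ℕ) [CharP κ p] [Fact p.Prime] (e : ℕ) (he : 0 < e) :
    Nat.card {c : κ // c ^ p ^ e = c} = p ^ e := by
  classical
  have hp : 1 < p := (Fact.out : p.Prime).one_lt
  have hQ : 1 < p ^ e := Nat.one_lt_pow he.ne' hp
  have hne : (Polynomial.X ^ (p ^ e) - Polynomial.X : Polynomial κ) ≠ 0 :=
    FiniteField.X_pow_card_sub_X_ne_zero κ hQ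
  have hsep : (Polynomial.X ^ (p ^ e) - Polynomial.X : Polynomial κ).Separable := by
    have h0 : ((p ^ e : ℕ) : κ) = 0 := by
      rw [Nat.cast_pow, CharP.cast_eq_zero, zero_pow he.ne']
    have := galois_poly_separable (K := κ) p (p ^ e) (dvd_pow_self p he.ne')
    exact this
  have hdeg : (Polynomial.X ^ (p ^ e) - Polynomial.X : Polynomial κ).natDegree = p ^ e :=
    FiniteField.X_pow_card_sub_X_natDegree_eq κ hQ
  have hspl : (Polynomial.X ^ (p ^ e) - Polynomial.X : Polynomial κ).Splits :=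
    IsAlgClosed.splits _
  have h1 : (Polynomial.X ^ (p ^ e) - Polynomial.X : Polynomial κ).roots.toFinset.card = p ^ e := by
    rw [Multiset.toFinset_card_of_nodup (Polynomial.nodup_roots hsep)]
    rw [← hspl.natDegree_eq_card_roots, hdeg]
  have h2 : Nat.card {c : κ // c ^ p ^ e = c} =
      Nat.card {c : κ // c ∈ (Polynomial.X ^ (p ^ e) - Polynomial.X : Polynomial κ).roots.toFinset} := by
    refine Nat.card_congr (Equiv.subtypeEquivRight fun c => ?_)
    rw [Multiset.mem_toFinset, Polynomial.mem_roots hne, Polynomial.IsRoot.def,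
      Polynomial.eval_sub, Polynomial.eval_pow, Polynomial.eval_X, sub_eq_zero]
  rw [h2, Nat.card_eq_fintype_card, Fintype.card_coe, h1]

theorem frob_surj {κ : Type*} [Field κ] [IsAlgClosed κ] (Q : ℕ) (hQ : 2 ≤ Q) (c : κ) :
    ∃ x : κ, x ^ Q - x = c := by
  have hdeg : (Polynomial.X ^ Q - Polynomial.X - Polynomial.C c : Polynomial κ).degree ≠ 0 := by
    have h1 : (Polynomial.X ^ Q - Polynomial.X : Polynomial κ).natDegree = Q :=
      FiniteField.X_pow_card_sub_X_natDegree_eq κ (by omega)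
    have h2 : (Polynomial.X ^ Q - Polynomial.X - Polynomial.C c : Polynomial κ).natDegree = Q := by
      rw [Polynomial.natDegree_sub_C, h1]
    intro h3
    have h4 : (Polynomial.X ^ Q - Polynomial.X - Polynomial.C c : Polynomial κ).natDegree = 0 :=
      Polynomial.natDegree_eq_of_degree_eq_some h3
    omega
  obtain ⟨x, hx⟩ := IsAlgClosed.exists_root _ hdeg
  refine ⟨x, ?_⟩
  rw [Polynomial.IsRoot.def, Polynomial.eval_sub, Polynomial.eval_sub, Polynomial.eval_pow,
    Polynomial.eval_X, Polynomial.eval_C, sub_eq_zero] at hx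
  exact hx

end Pool.Agent.TIFS
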