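import Pool.Agent.TIFS.L1
import Pool.Agent.MP_c1dca2_ag.GT.A10
import Pool.Agent.MP_c1dca2_ag.GT.F1
import Pool.Agent.MP_c1dca2_ag.GT.A3b

/-!
# TIF-L2: invariant elements of `IB I m`
-/

set_option autoImplicit false
set_option linter.unusedSectionVars false

namespace Pool.Agent.TIFS

open GT
open SUP (len cls clm)

variable {d : ℕ} [NeZero d] {κ : Type} [Field κ]

/-- `φ` is the `Q`-power map, `Q` is a power of the characteristic, and the table `T` is defined over
the field with `Q` elements. -/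
structure Frob (T : Tab κ d) (φ : κ ≃+* κ) (Q : ℕ) : Prop where
  pp : ∃ p e : ℕ, p.Prime ∧ 0 < e ∧ CharP κ p ∧ Q = p ^ e
  pow : ∀ z, φ z = z ^ Q
  tab : T.map (φ : κ →+* κ) = T

theorem Frob.two {T : Tab κ d} {φ : κ ≃+* κ} {Q : ℕ} (h : Frob T φ Q) : 2 ≤ Q := by
  obtain ⟨p, e, hp, he, -, rfl⟩ := h.pp
  exact Nat.one_lt_pow he.ne' hp.one_lt

theorem Frob.card [IsAlgClosed κ] {T : Tab κ d} {φ : κ ≃+* κ} {Q : ℕ} (h : Frob T φ Q) :
    Nat.card {c : κ // φ c = c} = Q := by
  obtain ⟨p, e, hp, he, hc, rfl⟩ := h.pp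
  have := Fact.mk hp
  rw [← frob_card (κ := κ) p e he]
  exact Nat.card_congr (Equiv.subtypeEquivRight fun c => by rw [h.pow])

/-- powers -/
theorem Frob.npow {T : Tab κ d} {φ : κ ≃+* κ} {Q : ℕ} (h : Frob T φ Q) {n : ℕ} (hn : 0 < n) :
    Frob T ((φ : RingAut κ) ^ n : RingAut κ) (Q ^ n) where
  pp := by
    obtain ⟨p, e, hp, he, hc, rfl⟩ := h.pp
    exact ⟨p, e * n, hp, Nat.mul_pos he hn, hc, by rw [pow_mul]⟩
  pow := by
    intro z
    clear hn
    induction n with
    | zero => simp
    | succ n ih =>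
      rw [pow_succ', RingAut.mul_apply, ih, h.pow, ← pow_mul, ← pow_succ]
  tab := by
    clear hn
    induction n with
    | zero =>
      rw [pow_zero]
      exact Tab.map_id T
    | succ n ih =>
      have h1 : (((φ : RingAut κ) ^ (n + 1) : RingAut κ) : κ →+* κ) =
          (φ : κ →+* κ).comp (((φ : RingAut κ) ^ n : RingAut κ) : κ →+* κ) := by
        ext z
        rw [pow_succ']
        rfl
      rw [h1, ← Tab.map_map, ih, h.tab]

/-- the step for submodules -/
theorem LG.sub {A : Type*} [AddCommGroup A] [Module κ A] {f : A →+ A} {φ : κ ≃+* κ} {Q : ℕ}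
    (hsj : ∀ c : κ, ∃ x, φ x - x = c) (hQ : Nat.card {c : κ // φ c = c} = Q)
    {W W' : Submodule κ A} [FiniteDimensional κ W] (p : A →ₗ[κ] κ)
    (hp : ∀ a, p (f a) = φ (p a)) (hf : ∀ a ∈ W, f a ∈ W) (hW : ∀ a, a ∈ W' ↔ a ∈ W ∧ p a = 0)
    (h : LG f W'.toAddSubgroup (Q ^ Module.finrank κ W')) :
    LG f W.toAddSubgroup (Q ^ Module.finrank κ W) := by
  by_cases hz : ∀ a ∈ W, p a = 0
  · have hWW : W' = W := by
      ext a
      rw [hW]
      exact ⟨fun h => h.1, fun h => ⟨h, hz a h⟩⟩
    subst hWW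
    exact h
  · push Not at hz
    obtain ⟨a0, ha0, hne⟩ := hz
    have hfr : Module.finrank κ W = Module.finrank κ W' + 1 := by
      have h1 := LinearMap.finrank_range_add_finrank_ker (p.domRestrict W)
      have h2 : LinearMap.range (p.domRestrict W) = ⊤ := by
        rw [LinearMap.range_eq_top]
        intro c
        refine ⟨(c / p a0) • ⟨a0, ha0⟩, ?_⟩
        rw [map_smul, LinearMap.domRestrict_apply, smul_eq_mul, div_mul_cancel₀ _ hne]
      have h3 : LinearMap.ker (p.domRestrict W) = W'.comap W.subtype := by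
        ext ⟨a, ha⟩
        rw [LinearMap.mem_ker, LinearMap.domRestrict_apply, Submodule.mem_comap,
          Submodule.subtype_apply, hW]
        exact ⟨fun h => ⟨ha, h⟩, fun h => h.2⟩
      have hle : W' ≤ W := fun a ha => ((hW a).1 ha).1
      rw [h2, finrank_top, Module.finrank_self, h3,
        (Submodule.comapSubtypeEquivOfLe hle).finrank_eq] at h1
      omega
    rw [hfr, pow_succ]
    refine LG.step h p.toAddMonoidHom (φ : κ →+* κ).toAddMonoidHom hp hf hW ?_ hsj hQ
    intro c
    refine ⟨(c / p a0) • a0, W.smul_mem _ ha0, ?_⟩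
    show p ((c / p a0) • a0) = c
    rw [map_smul, smul_eq_mul, div_mul_cancel₀ _ hne]

section

variable {T : Tab κ d} {φ : κ ≃+* κ} {Q : ℕ}

/-- the action on `WB T` -/
noncomputable abbrev Frob.E (h : Frob T φ Q) : WB T ≃+* WB T := bE φ h.tab

theorem Frob.E_npow (h : Frob T φ Q) {n : ℕ} (hn : 0 < n) (b : WB T) :
    (h.npow hn).E b = ((h.E : RingAut (WB T)) ^ n) b := by
  have key : ∀ (n : ℕ) (ht : T.map (((φ : RingAut κ) ^ n : RingAut κ) : κ →+* κ) = T),
      bE ((φ : RingAut κ) ^ n : RingAut κ) ht b = ((h.E : RingAut (WB T)) ^ n) b := by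
    intro n
    induction n with
    | zero =>
      intro ht
      refine WB.ext (funext fun j => ?_)
      rw [bE_co, pow_zero, pow_zero]
      exact Polynomial.map_id
    | succ n ih =>
      intro ht
      rcases Nat.eq_zero_or_pos n with rfl | hn
      · refine WB.ext (funext fun j => ?_)
        rw [bE_co, zero_add, pow_one, pow_one]
        show _ = (bE φ h.tab b).co j
        rw [bE_co]
      · have ht' : T.map (((φ : RingAut κ) ^ n : RingAut κ) : κ →+* κ) = T := (h.npow hn).tab
        have h1 : ((h.E : RingAut (WB T)) ^ (n + 1)) b = h.E (((h.E : RingAut (WB T)) ^ n) b) := by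
          rw [pow_succ', RingAut.mul_apply]
        rw [h1, ← ih ht']
        refine WB.ext (funext fun j => ?_)
        rw [bE_co, bE_co, bE_co, Polynomial.map_map]
        refine Polynomial.ext fun i => ?_
        rw [Polynomial.coeff_map, Polynomial.coeff_map]
        show ((φ : RingAut κ) ^ (n + 1)) _ = φ (((φ : RingAut κ) ^ n) _)
        rw [pow_succ']
        rfl
  exact key n _

end

variable [IsAlgClosed κ] {T : Tab κ d} [IsDedekindDomain (WB T)] {φ : κ ≃+* κ} {Q : ℕ}

theorem Frob.surj (h : Frob T φ Q) (c : κ) : ∃ x, φ x - x = c := by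
  obtain ⟨x, hx⟩ := frob_surj Q h.two c
  exact ⟨x, by rw [h.pow, hx]⟩

theorem Frob.E_mem (h : Frob T φ Q) {I : Ideal (WB T)} (hI : I.map h.E = I) {b : WB T}
    (hb : b ∈ I) : h.E b ∈ I := by
  rw [← hI]
  exact Ideal.mem_map_of_mem _ hb

theorem Frob.IB_stable (h : Frob T φ Q) {I : Ideal (WB T)} (hI : I.map h.E = I) (m : ℕ) :
    ∀ b ∈ IB I m, h.E b ∈ IB I m := by
  intro b hb
  rw [mem_IB] at hb ⊢
  refine ⟨h.E_mem hI hb.1, ?_⟩
  rw [pord_bE]
  exact hb.2

theorem Frob.lcf_E (h : Frob T φ Q) (m : ℕ) (b : WB T) : lcf T m (h.E b) = φ (lcf T m b) := by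
  rw [bE_apply, lcf_bmap]
  rfl

/-- Lang's lemma for `IB I m`. -/
theorem Frob.lang (h : Frob T φ Q) {I : Ideal (WB T)} (hI : I.map h.E = I) (m : ℕ) :
    LG ((h.E : WB T →+* WB T).toAddMonoidHom) (IB I m).toAddSubgroup
      (Q ^ Module.finrank κ (IB I m)) := by
  induction m with
  | zero =>
    refine LG.sub (W' := ⊥) h.surj h.card (lcf T 0) (h.lcf_E 0) (h.IB_stable hI 0) ?_ ?_
    · intro a
      rw [Submodule.mem_bot]
      constructor
      · rintro rfl
        exact ⟨zero_mem _, map_zero _⟩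
      · rintro ⟨h1, h2⟩
        refine Ble_zero ?_ h2
        rw [mem_Ble_iff]
        exact (mem_IB.1 h1).2
    · rw [finrank_bot, pow_zero]
      exact (LG.bot _).congr (by ext; simp) rfl
  | succ m ih =>
    refine LG.sub (W' := IB I m) h.surj h.card (lcf T (m + 1)) (h.lcf_E (m + 1))
      (h.IB_stable hI (m + 1)) ?_ ih
    intro a
    rw [mem_IB, mem_IB]
    constructor
    · rintro ⟨h1, h2⟩
      refine ⟨⟨h1, by omega⟩, ?_⟩
      by_contra hne
      have h3 := pord_eq_of (m := m + 1) (b := a) ((mem_Ble_iff _ _).2 (by omega)) hne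
      omega
    · rintro ⟨⟨h1, h2⟩, h3⟩
      exact ⟨h1, (mem_Ble_iff _ _).1 (Ble_pred ((mem_Ble_iff _ _).2 h2) h3)⟩

/-- The number of invariant elements with leading coefficient `1`. -/
theorem Frob.count (h : Frob T φ Q) {I : Ideal (WB T)} (hI : I.map h.E = I) (m : ℕ) :
    (Q - 1) * Nat.card {b : WB T // b ∈ I ∧ pord b ≤ m ∧ h.E b = b ∧ lc b = 1} + 1 =
      Q ^ Module.finrank κ (IB I m) := by
  have h1 := (h.lang hI m).card
  have hfin : Finite {w : WB T // w ∈ (IB I m).toAddSubgroup ∧ h.E w = w} := by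
    apply Nat.finite_of_card_ne_zero
    have h2 : Nat.card {w : WB T // w ∈ (IB I m).toAddSubgroup ∧ h.E w = w} =
      Q ^ Module.finrank κ (IB I m) := h1
    rw [h2]
    have := h.two
    positivity
  have hfinκ : Finite {c : κ // φ c = c} := by
    apply Nat.finite_of_card_ne_zero
    rw [h.card]
    have := h.two
    omega
  -- nonzero invariant elements
  let e : Option ({c : κ // φ c = c ∧ c ≠ 0} ×
      {b : WB T // b ∈ I ∧ pord b ≤ m ∧ h.E b = b ∧ lc b = 1}) ≃
      {w : WB T // w ∈ (IB I m).toAddSubgroup ∧ h.E w = w} :=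
    Equiv.ofBijective (fun x => match x with
      | none => ⟨0, zero_mem _, map_zero _⟩
      | some (c, b) => ⟨c.1 • b.1, (IB I m).smul_mem _ (mem_IB.2 ⟨b.2.1, b.2.2.1⟩), by
          rw [bE_apply, bmap_smul', ← bE_apply]
          show φ c.1 • h.E b.1 = _
          rw [b.2.2.2.1, c.2.1]⟩) (by
      constructor
      · rintro (_ | ⟨⟨c, hc, hc0⟩, ⟨b, hb, hbm, hbE, hb1⟩⟩) (_ | ⟨⟨c', hc', hc0'⟩, ⟨b', hb', hbm', hbE', hb1'⟩⟩) hxy
        · rfl
        · exfalso
          have h2 := congrArg (fun w : {w : WB T // w ∈ (IB I m).toAddSubgroup ∧ h.E w = w} => lc w.1) hxy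
          simp only at h2
          rw [lc_smul, hb1', mul_one] at h2
          rw [(lc_eq_zero_iff _).2 rfl] at h2
          exact hc0' h2.symm
        · exfalso
          have h2 := congrArg (fun w : {w : WB T // w ∈ (IB I m).toAddSubgroup ∧ h.E w = w} => lc w.1) hxy
          simp only at h2
          rw [lc_smul, hb1, mul_one] at h2
          rw [(lc_eq_zero_iff _).2 rfl] at h2
          exact hc0 h2
        · have h2 := congrArg (fun w : {w : WB T // w ∈ (IB I m).toAddSubgroup ∧ h.E w = w} => lc w.1) hxy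
          simp only at h2
          rw [lc_smul, hb1, mul_one, lc_smul, hb1', mul_one] at h2
          subst h2
          have h3 := congrArg (fun w : {w : WB T // w ∈ (IB I m).toAddSubgroup ∧ h.E w = w} => w.1) hxy
          simp only at h3
          have h4 : b = b' := by
            have h5 := congrArg (fun w => c⁻¹ • w) h3
            simp only [smul_smul, inv_mul_cancel₀ hc0, one_smul] at h5
            exact h5
          subst h4
          rfl
      · rintro ⟨w, hw, hwE⟩
        by_cases hw0 : w = 0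
        · exact ⟨none, Subtype.ext hw0.symm⟩
        · have hl : lc w ≠ 0 := lc_ne hw0
          have hφ : φ (lc w) = lc w := by
            rw [← lc_bE φ h.tab, hwE]
          have hw' := mem_IB.1 hw
          refine ⟨some (⟨lc w, hφ, hl⟩, ⟨(lc w)⁻¹ • w, ?_, ?_, ?_, ?_⟩), ?_⟩
          · have h3 := (IB I m).smul_mem (lc w)⁻¹ hw
            exact (mem_IB.1 h3).1
          · exact (pord_smul_le _ _).trans hw'.2
          · rw [bE_apply, bmap_smul', ← bE_apply]
            show φ (lc w)⁻¹ • h.E w = _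
            rw [hwE, map_inv₀, hφ]
          · rw [lc_smul, inv_mul_cancel₀ hl]
          · apply Subtype.ext
            show lc w • ((lc w)⁻¹ • w) = w
            rw [smul_smul, mul_inv_cancel₀ hl, one_smul])
  have hinj : Finite ({c : κ // φ c = c ∧ c ≠ 0} ×
      {b : WB T // b ∈ I ∧ pord b ≤ m ∧ h.E b = b ∧ lc b = 1}) :=
    Finite.of_injective (fun x => e (some x)) (e.injective.comp (Option.some_injective _))
  have h2 := Nat.card_congr e
  rw [Finite.card_option, Nat.card_prod] at h2
  have h3 : Nat.card {c : κ // φ c = c ∧ c ≠ 0} = Q - 1 := by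
    classical
    let e' : Option {c : κ // φ c = c ∧ c ≠ 0} ≃ {c : κ // φ c = c} :=
      Equiv.ofBijective (fun x => match x with
        | none => ⟨0, map_zero _⟩
        | some c => ⟨c.1, c.2.1⟩) (by
        constructor
        · rintro (_ | ⟨c, hc, hc0⟩) (_ | ⟨c', hc', hc0'⟩) hxy
          · rfl
          · exact absurd (congrArg Subtype.val hxy).symm hc0'
          · exact absurd (congrArg Subtype.val hxy) hc0
          · have := congrArg Subtype.val hxy
            simp only at this
            subst this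
            rfl
        · rintro ⟨c, hc⟩
          by_cases hc0 : c = 0
          · exact ⟨none, Subtype.ext hc0.symm⟩
          · exact ⟨some ⟨c, hc, hc0⟩, rfl⟩)
    have h4 : Finite {c : κ // φ c = c ∧ c ≠ 0} :=
      Finite.of_injective (fun x => e' (some x)) (e'.injective.comp (Option.some_injective _))
    have h5 := Nat.card_congr e'
    rw [Finite.card_option, h.card] at h5
    omega
  rw [h3] at h2
  rw [h2]
  exact h1

end Pool.Agent.TIFS
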