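import Pool.Agent.TIFS.L2

/-!
# TIF-L3: the number of invariant ideals of bounded length
-/

set_option autoImplicit false
set_option linter.unusedSectionVars false

namespace Pool.Agent.TIFS

open GT
open SUP (len cls clm cls_mul exists_cls cls_span cls_eq_one_iff map_ne_bot clm_cls map_span_singleton
  len_mul len_top)

variable {d : ℕ} [NeZero d] {κ : Type} [Field κ]
variable [IsAlgClosed κ] {T : Tab κ d} [IsDedekindDomain (WB T)] {φ : κ ≃+* κ} {Q : ℕ}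

theorem Frob.rdc_stable (h : Frob T φ Q) {D : ClassGroup (WB T)} (hD : clm h.E D = D) :
    (rdc D).map h.E = rdc D := by
  rw [rdc_map, hD]

theorem Frob.finite_classes (h : Frob T φ Q) : Finite {D : ClassGroup (WB T) // clm h.E D = D} := by
  have h1 := finite_fixed_ideals φ Q h.two h.pow h.tab (gp T)
  have h2 : Finite {I : Ideal (WB T) | I ≠ ⊥ ∧ len I ≤ gp T ∧ I.map (bE φ h.tab) = I} := h1
  refine Finite.of_injective (β := {I : Ideal (WB T) | I ≠ ⊥ ∧ len I ≤ gp T ∧ I.map (bE φ h.tab) = I})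
    (fun D => ⟨rdc D.1, rdc_ne _, len_rdc _, h.rdc_stable D.2⟩) ?_
  intro D D' hDD
  have h3 : rdc D.1 = rdc D'.1 := congrArg Subtype.val hDD
  apply Subtype.ext
  rw [← cls_rdc D.1, h3, cls_rdc]

/-- the number of invariant classes -/
noncomputable def Frob.hh (h : Frob T φ Q) : ℕ := Nat.card {D : ClassGroup (WB T) // clm h.E D = D}

theorem Frob.hh_pos (h : Frob T φ Q) : 0 < h.hh := by
  have := h.finite_classes
  rw [Frob.hh, Nat.card_pos_iff]
  exact ⟨⟨⟨1, map_one _⟩⟩, this⟩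

theorem mul_left_cancel_ideal {B : Type} [CommRing B] [IsDedekindDomain B] {I J K : Ideal B}
    (hI : I ≠ ⊥) (h : I * J = I * K) : J = K := mul_left_cancel₀ hI h

/-- The invariant ideals in a class. -/
theorem Frob.card_class (h : Frob T φ Q) {D : ClassGroup (WB T)} (hD : clm h.E D = D) (m : ℕ) :
    Nat.card {I : Ideal (WB T) // I ≠ ⊥ ∧ I.map h.E = I ∧ len I ≤ m ∧ cls I = D} =
      Nat.card {b : WB T // b ∈ rdc D⁻¹ ∧ pord b ≤ m + len (rdc D⁻¹) ∧ h.E b = b ∧ lc b = 1} := by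
  set I₀ := rdc D⁻¹ with hI₀
  have h0 : I₀ ≠ ⊥ := rdc_ne _
  have hst : I₀.map h.E = I₀ := h.rdc_stable (by rw [map_inv, hD])
  have hcl : cls I₀ = D⁻¹ := cls_rdc _
  have hex : ∀ b : {b : WB T // b ∈ I₀ ∧ pord b ≤ m + len I₀ ∧ h.E b = b ∧ lc b = 1},
      ∃ I : Ideal (WB T), Ideal.span {b.1} = I₀ * I := by
    rintro ⟨b, hb, -⟩
    exact Ideal.dvd_iff_le.2 ((Ideal.span_singleton_le_iff_mem _).2 hb)
  choose f hf using hex
  have hb0 : ∀ b : {b : WB T // b ∈ I₀ ∧ pord b ≤ m + len I₀ ∧ h.E b = b ∧ lc b = 1}, b.1 ≠ 0 := by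
    rintro ⟨b, -, -, -, h1⟩ (h2 : b = 0)
    subst h2
    rw [(lc_eq_zero_iff _).2 rfl] at h1
    exact zero_ne_one h1
  have hf0 : ∀ b, f b ≠ ⊥ := by
    intro b h1
    have h2 := hf b
    rw [h1, Ideal.mul_bot, Ideal.span_singleton_eq_bot] at h2
    exact hb0 b h2
  have hfl : ∀ b, len I₀ + len (f b) = pord b.1 := by
    intro b
    rw [← len_mul h0 (hf0 b), ← hf b, len_span (hb0 b)]
  symm
  refine Nat.card_congr (Equiv.ofBijective (fun b => ⟨f b, hf0 b, ?_, ?_, ?_⟩) ⟨?_, ?_⟩)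
  · apply mul_left_cancel_ideal h0
    rw [← hf b]
    conv_lhs => rw [← hst]
    rw [← Ideal.map_mul, ← hf b, map_span_singleton, b.2.2.2.1]
  · have h1 := hfl b
    have h2 := b.2.2.1
    omega
  · have h1 : cls I₀ * cls (f b) = 1 := by
      rw [← cls_mul h0 (hf0 b), ← hf b, cls_span (hb0 b)]
    rw [hcl] at h1
    exact (eq_of_inv_mul_eq_one h1).symm
  · intro b b' hbb
    have h1 : f b = f b' := congrArg Subtype.val hbb
    apply Subtype.ext
    refine eq_of_span_eq (hb0 b) ?_ ?_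
    · rw [hf b, hf b', h1]
    · rw [b.2.2.2.2, b'.2.2.2.2]
  · rintro ⟨I, hI0, hIst, hIm, hIc⟩
    have h1 : cls (I₀ * I) = 1 := by
      rw [cls_mul h0 hI0, hcl, hIc, inv_mul_cancel]
    obtain ⟨b₀, hb₀⟩ := (cls_eq_one_iff (mul_ne_zero h0 hI0)).1 h1
    have hb₀0 : b₀ ≠ 0 := by
      rintro rfl
      have h2 : I₀ * I = ⊥ := by rw [hb₀]; simp
      exact mul_ne_zero h0 hI0 h2
    have hl : lc b₀ ≠ 0 := lc_ne hb₀0
    have hsp : Ideal.span {(lc b₀)⁻¹ • b₀} = Ideal.span {b₀} :=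
      (span_eq_iff.2 ⟨(lc b₀)⁻¹, inv_ne_zero hl, rfl⟩).symm
    have hb0' : (lc b₀)⁻¹ • b₀ ≠ 0 := smul_ne_zero (inv_ne_zero hl) hb₀0
    have hlc : lc ((lc b₀)⁻¹ • b₀) = 1 := by rw [lc_smul, inv_mul_cancel₀ hl]
    have hmem : (lc b₀)⁻¹ • b₀ ∈ I₀ := by
      have h2 : Ideal.span {(lc b₀)⁻¹ • b₀} ≤ I₀ := by
        rw [hsp, ← hb₀]
        exact Ideal.mul_le_left (I := I₀) (J := I)
      exact (Ideal.span_singleton_le_iff_mem _).1 h2
    have hpo : pord ((lc b₀)⁻¹ • b₀) = len I₀ + len I := by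
      rw [← len_mul h0 hI0, hb₀, ← hsp, len_span hb0']
    have hE : h.E ((lc b₀)⁻¹ • b₀) = (lc b₀)⁻¹ • b₀ := by
      refine eq_of_span_eq ((map_ne_zero_iff h.E h.E.injective).2 hb0') ?_ ?_
      · rw [← map_span_singleton, hsp, ← hb₀, Ideal.map_mul, hst, hIst]
      · rw [lc_bE, hlc, map_one]
    refine ⟨⟨(lc b₀)⁻¹ • b₀, hmem, by omega, hE, hlc⟩, Subtype.ext ?_⟩
    apply mul_left_cancel_ideal h0
    rw [← hf, hb₀]
    exact hsp

/-- the number of invariant ideals of length at most `m` -/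
noncomputable def Frob.AL (h : Frob T φ Q) (m : ℕ) : ℕ :=
  Nat.card {I : Ideal (WB T) // I ≠ ⊥ ∧ I.map h.E = I ∧ len I ≤ m}

theorem Frob.AL_eq (h : Frob T φ Q) :
    ∃ m₀, ∀ m, m₀ ≤ m → gp T ≤ m ∧ (Q - 1) * h.AL m + h.hh = h.hh * Q ^ (m + 1 - gp T) := by
  classical
  have hfin := h.finite_classes
  have hft : Fintype {D : ClassGroup (WB T) // clm h.E D = D} := Fintype.ofFinite _
  have hM : ∀ D : {D : ClassGroup (WB T) // clm h.E D = D}, ∃ m₀, ∀ m, m₀ ≤ m →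
      Module.finrank κ (IB (rdc D.1⁻¹) m) + gp T + len (rdc D.1⁻¹) = m + 1 :=
    fun D => finrank_IB_eq _ (rdc_ne _)
  choose M hM using hM
  refine ⟨gp T + ∑ D, M D, fun m hm => ⟨by omega, ?_⟩⟩
  have hsum : h.AL m = ∑ D : {D : ClassGroup (WB T) // clm h.E D = D},
      Nat.card {I : Ideal (WB T) // I ≠ ⊥ ∧ I.map h.E = I ∧ len I ≤ m ∧ cls I = D.1} := by
    have hfi : ∀ D : {D : ClassGroup (WB T) // clm h.E D = D},
        Finite {I : Ideal (WB T) // I ≠ ⊥ ∧ I.map h.E = I ∧ len I ≤ m ∧ cls I = D.1} := by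
      intro D
      have h1 := finite_fixed_ideals φ Q h.two h.pow h.tab m
      exact (h1.subset (fun I hI => ⟨hI.1, hI.2.2.1, hI.2.1⟩) :
        {I : Ideal (WB T) | I ≠ ⊥ ∧ I.map h.E = I ∧ len I ≤ m ∧ cls I = D.1}.Finite)
    rw [Frob.AL, ← Nat.card_sigma]
    refine Nat.card_congr
      { toFun := fun I => ⟨⟨cls I.1, by rw [clm_cls _ I.2.1, I.2.2.1]⟩, ⟨I.1, I.2.1, I.2.2.1, I.2.2.2, rfl⟩⟩
        invFun := fun x => ⟨x.2.1, x.2.2.1, x.2.2.2.1, x.2.2.2.2.1⟩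
        left_inv := fun I => rfl
        right_inv := ?_ }
    rintro ⟨⟨D, hD⟩, ⟨I, hI⟩⟩
    obtain rfl : cls I = D := hI.2.2.2
    rfl
  have hD : ∀ D : {D : ClassGroup (WB T) // clm h.E D = D}, (Q - 1) *
      Nat.card {I : Ideal (WB T) // I ≠ ⊥ ∧ I.map h.E = I ∧ len I ≤ m ∧ cls I = D.1} + 1 =
        Q ^ (m + 1 - gp T) := by
    intro D
    have hst : (rdc D.1⁻¹).map h.E = rdc D.1⁻¹ := h.rdc_stable (by rw [map_inv, D.2])
    rw [h.card_class D.2, h.count hst]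
    congr 1
    have hle : M D ≤ ∑ D, M D := Finset.single_le_sum (f := M) (fun _ _ => Nat.zero_le _) (Finset.mem_univ D)
    have := hM D (m + len (rdc D.1⁻¹)) (by omega)
    omega
  have hcard : h.hh = Fintype.card {D : ClassGroup (WB T) // clm h.E D = D} := by
    rw [Frob.hh, Nat.card_eq_fintype_card]
  rw [hsum, Finset.mul_sum, hcard, Fintype.card, Finset.card_eq_sum_ones, ← Finset.sum_add_distrib,
    Finset.sum_mul]
  refine Finset.sum_congr rfl fun D _ => ?_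
  rw [hD D, one_mul]

end Pool.Agent.TIFS
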