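import Pool.Agent.TIFS.S1b

/-!
# TIF-S1c: from one Frobenius to its powers

If the generating function `B` of the numbers `bb σ m` satisfies `(1 - q X) B = ∏ (1 - α i X)` then
`NN σ j = q ^ j - ∑ α i ^ j` and the generating function `B_n` for `σ ^ n` satisfies
`(1 - q ^ n X) B_n = ∏ (1 - α i ^ n X)`.
-/

set_option autoImplicit false

open Function PowerSeries

namespace Pool.Agent.TIFS

variable {X : Type*}

theorem bb_zero (σ : Equiv.Perm X) : bb σ 0 = 1 := by
  rw [bb, Nat.card_eq_one_iff_unique]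
  refine ⟨⟨?_⟩, ⟨⟨0, by simp, by simp⟩⟩⟩
  rintro ⟨D, hD, hc⟩ ⟨D', hD', hc'⟩
  apply Subtype.ext
  rw [Multiset.card_eq_zero] at hc hc'
  simp only
  rw [hc, hc']

theorem finFix_pow {σ : Equiv.Perm X} (hσ : FinFix σ) {n : ℕ} (hn : 0 < n) : FinFix (σ ^ n) := by
  intro j hj
  rw [← pow_mul]
  exact hσ _ (Nat.mul_pos hn hj)

theorem NN_pow (σ : Equiv.Perm X) (n j : ℕ) : NN (σ ^ n) j = NN σ (n * j) := by
  rw [NN, NN, ← pow_mul]

section series

variable {K : Type*} [Field K]

/-- the operator `X d/dX` -/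
noncomputable def th (F : K⟦X⟧) : K⟦X⟧ := PowerSeries.mk fun m => (m : K) * coeff m F

theorem coeff_th (F : K⟦X⟧) (m : ℕ) : coeff m (th F) = (m : K) * coeff m F := by
  rw [th, coeff_mk]

theorem th_mul (F G : K⟦X⟧) : th (F * G) = th F * G + F * th G := by
  ext m
  rw [coeff_th, map_add, coeff_mul, coeff_mul, coeff_mul, ← Finset.sum_add_distrib, Finset.mul_sum]
  refine Finset.sum_congr rfl fun p hp => ?_
  rw [Finset.HasAntidiagonal.mem_antidiagonal] at hp
  rw [coeff_th, coeff_th, ← hp]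
  push_cast
  ring

/-- `∑_{j ≥ 1} a ^ j X ^ j` -/
noncomputable def geo (a : K) : K⟦X⟧ := PowerSeries.mk fun j => if j = 0 then 0 else a ^ j

theorem th_lin (a : K) : th (1 - C a * (PowerSeries.X : K⟦X⟧)) =
    -geo a * (1 - C a * (PowerSeries.X : K⟦X⟧)) := by
  ext m
  rw [coeff_th, mul_sub, mul_one, map_sub, map_sub, ← mul_assoc, mul_comm (-geo a) (C a), mul_assoc]
  rcases m with _ | m
  · simp [geo]
  · rw [coeff_C_mul, coeff_C_mul, coeff_succ_mul_X, map_neg, map_neg, coeff_one]
    rcases m with _ | m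
    · simp [geo]
    · rw [coeff_X]
      simp only [geo, coeff_mk]
      simp
      ring

theorem th_one : th (1 : K⟦X⟧) = 0 := by
  ext m
  rw [coeff_th, coeff_one]
  split_ifs with h
  · rw [h]; simp
  · simp

theorem th_prod {ι : Type*} (s : Finset ι) (α : ι → K) :
    th (∏ i ∈ s, (1 - C (α i) * (PowerSeries.X : K⟦X⟧))) =
      -(∑ i ∈ s, geo (α i)) * ∏ i ∈ s, (1 - C (α i) * (PowerSeries.X : K⟦X⟧)) := by
  classical
  induction s using Finset.induction_on with
  | empty => simp [th_one]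
  | insert a s ha ih =>
    rw [Finset.prod_insert ha, th_mul, ih, th_lin, Finset.sum_insert ha]
    ring

/-- Uniqueness of the solution of `X F' = N F`. -/
theorem th_unique [CharZero K] {F G N : K⟦X⟧} (hN : coeff 0 N = 0) (hF : th F = N * F)
    (hG : th G = N * G) (h0 : coeff 0 F = coeff 0 G) : F = G := by
  ext m
  induction m using Nat.strong_induction_on with
  | _ m ih =>
    rcases Nat.eq_zero_or_pos m with rfl | hm
    · exact h0
    · have h1 := congrArg (coeff m) hF
      have h2 := congrArg (coeff m) hG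
      rw [coeff_th, coeff_mul] at h1 h2
      have h3 : ∑ p ∈ Finset.HasAntidiagonal.antidiagonal m, coeff p.1 N * coeff p.2 F =
          ∑ p ∈ Finset.HasAntidiagonal.antidiagonal m, coeff p.1 N * coeff p.2 G := by
        refine Finset.sum_congr rfl fun p hp => ?_
        rw [Finset.HasAntidiagonal.mem_antidiagonal] at hp
        rcases Nat.eq_zero_or_pos p.1 with h | h
        · rw [h, hN, zero_mul, zero_mul]
        · rw [ih p.2 (by omega)]
      rw [h3, ← h2] at h1
      have hm' : (m : K) ≠ 0 := Nat.cast_ne_zero.2 hm.ne'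
      exact mul_left_cancel₀ hm' h1

end series

section main

variable (K : Type*) [Field K]

/-- the generating function of the numbers `bb σ m` -/
noncomputable def BB (σ : Equiv.Perm X) : K⟦X⟧ := PowerSeries.mk fun m => (bb σ m : K)

/-- the generating function of the numbers `NN σ j`, `j ≥ 1` -/
noncomputable def NS (σ : Equiv.Perm X) : K⟦X⟧ :=
  PowerSeries.mk fun j => if j = 0 then 0 else (NN σ j : K)

theorem th_BB (σ : Equiv.Perm X) (hσ : FinFix σ) : th (BB K σ) = NS K σ * BB K σ := by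
  ext m
  rw [coeff_th, coeff_mul]
  have h1 : ∀ m, coeff m (BB K σ) = (bb σ m : K) := fun m => by rw [BB, coeff_mk]
  have h2 : ∀ j, coeff j (NS K σ) = if j = 0 then 0 else (NN σ j : K) := fun j => by
    rw [NS, coeff_mk]
  simp only [h1, h2]
  rw [← Nat.cast_mul, recursion σ hσ m,
    Finset.Nat.sum_antidiagonal_eq_sum_range_succ_mk, Finset.sum_range_succ']
  simp only [if_true, zero_mul, add_zero]
  rw [Nat.cast_sum]
  rw [Finset.range_eq_Ico, Finset.sum_Ico_add' (fun j => (if j = 0 then 0 else (NN σ j : K)) *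
    (bb σ (m - j) : K)) 0 m 1]
  refine Finset.sum_congr ?_ fun j hj => ?_
  · ext j
    rw [Finset.mem_Icc, Finset.mem_Ico]
    omega
  · rw [Finset.mem_Ico] at hj
    rw [if_neg (by omega)]
    push_cast
    rfl

theorem coeff_zero_NS (σ : Equiv.Perm X) : coeff 0 (NS K σ) = 0 := by
  rw [NS, coeff_mk, if_pos rfl]

theorem coeff_zero_BB (σ : Equiv.Perm X) : coeff 0 (BB K σ) = 1 := by
  rw [BB, coeff_mk, bb_zero, Nat.cast_one]

/-- The number of fixed points in terms of the zeros of the zeta function. -/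
theorem NS_eq {σ : Equiv.Perm X} (hσ : FinFix σ) {ι : Type*} (s : Finset ι) (α : ι → K) (q : K)
    (h : (1 - C q * (PowerSeries.X : K⟦X⟧)) * BB K σ =
      ∏ i ∈ s, (1 - C (α i) * (PowerSeries.X : K⟦X⟧))) :
    NS K σ = geo q - ∑ i ∈ s, geo (α i) := by
  have h1 := congrArg th h
  rw [th_mul, th_lin, th_BB K σ hσ, th_prod, ← h] at h1
  have hB : (1 - C q * (PowerSeries.X : K⟦X⟧)) * BB K σ ≠ 0 := by
    intro h0
    have h2 := congrArg (coeff 0) h0
    rw [map_zero, coeff_zero_eq_constantCoeff_apply, map_mul, map_sub, map_one, map_mul,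
      constantCoeff_X, mul_zero, sub_zero, one_mul, ← coeff_zero_eq_constantCoeff_apply,
      coeff_zero_BB] at h2
    exact one_ne_zero h2
  have h3 : (NS K σ - (geo q - ∑ i ∈ s, geo (α i))) *
      ((1 - C q * (PowerSeries.X : K⟦X⟧)) * BB K σ) = 0 := by
    linear_combination h1
  rcases mul_eq_zero.1 h3 with h4 | h4
  · exact sub_eq_zero.1 h4
  · exact absurd h4 hB

theorem NN_eq {σ : Equiv.Perm X} (hσ : FinFix σ) {ι : Type*} (s : Finset ι) (α : ι → K) (q : K)
    (h : (1 - C q * (PowerSeries.X : K⟦X⟧)) * BB K σ =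
      ∏ i ∈ s, (1 - C (α i) * (PowerSeries.X : K⟦X⟧))) (j : ℕ) (hj : 0 < j) :
    (NN σ j : K) = q ^ j - ∑ i ∈ s, α i ^ j := by
  have h1 := congrArg (coeff j) (NS_eq K hσ s α q h)
  rw [map_sub, map_sum] at h1
  simp only [NS, geo, coeff_mk, if_neg hj.ne'] at h1
  exact h1

variable [CharZero K]

/-- The generating function for the powers of `σ`. -/
theorem BB_pow {σ : Equiv.Perm X} (hσ : FinFix σ) {ι : Type*} (s : Finset ι) (α : ι → K) (q : K)
    (h : (1 - C q * (PowerSeries.X : K⟦X⟧)) * BB K σ =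
      ∏ i ∈ s, (1 - C (α i) * (PowerSeries.X : K⟦X⟧))) (n : ℕ) (hn : 0 < n) :
    (1 - C (q ^ n) * (PowerSeries.X : K⟦X⟧)) * BB K (σ ^ n) =
      ∏ i ∈ s, (1 - C (α i ^ n) * (PowerSeries.X : K⟦X⟧)) := by
  have hN : NS K (σ ^ n) = geo (q ^ n) - ∑ i ∈ s, geo (α i ^ n) := by
    ext j
    rw [map_sub, map_sum]
    simp only [NS, geo, coeff_mk]
    rcases Nat.eq_zero_or_pos j with rfl | hj
    · simp
    · simp only [if_neg hj.ne']
      rw [NN_pow, NN_eq K hσ s α q h (n * j) (Nat.mul_pos hn hj), pow_mul]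
      simp only [pow_mul]
  refine th_unique (N := -∑ i ∈ s, geo (α i ^ n)) ?_ ?_ (th_prod s fun i => α i ^ n) ?_
  · rw [map_neg, map_sum, neg_eq_zero]
    refine Finset.sum_eq_zero fun i _ => ?_
    simp [geo]
  · rw [th_mul, th_lin, th_BB K (σ ^ n) (finFix_pow hσ hn), hN]
    ring
  · rw [coeff_zero_eq_constantCoeff_apply, coeff_zero_eq_constantCoeff_apply, map_mul, map_prod]
    simp only [map_sub, map_one, map_mul, constantCoeff_X, mul_zero, sub_zero, one_mul,
      Finset.prod_const_one]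
    rw [← coeff_zero_eq_constantCoeff_apply, coeff_zero_BB]

end main

end Pool.Agent.TIFS
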