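import Pool.Agent.TIFS.L3
import Pool.Agent.TIFS.S1c

/-!
# TIF-L4: the permutation of the maximal ideals; the zeta function is rational
-/

set_option autoImplicit false
set_option linter.unusedSectionVars false

namespace Pool.Agent.TIFS

open GT
open SUP (len cls clm cls_mul exists_cls cls_span cls_eq_one_iff map_ne_bot clm_cls map_span_singleton
  len_mul len_top)
open UniqueFactorizationMonoid

section dedekind

variable {B : Type} [CommRing B] [IsDedekindDomain B]

variable (B) in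
/-- the nonzero maximal ideals -/
abbrev MX : Type := {P : Ideal B // P.IsMaximal ∧ P ≠ ⊥}

theorem map_mul_ideal (σ τ : RingAut B) (I : Ideal B) :
    I.map ((σ * τ : RingAut B) : B ≃+* B) = (I.map (τ : B ≃+* B)).map (σ : B ≃+* B) :=
  (SUP.map_map_equiv τ σ (σ * τ : RingAut B) (fun _ => rfl) I).symm

theorem map_one_ideal (I : Ideal B) : I.map ((1 : RingAut B) : B ≃+* B) = I := by
  have h : (((1 : RingAut B) : B ≃+* B) : B →+* B) = RingHom.id B := rfl
  change I.map (((1 : RingAut B) : B ≃+* B) : B →+* B) = I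
  rw [h, Ideal.map_id]

/-- the action on the maximal ideals -/
noncomputable def pX : RingAut B →* Equiv.Perm (MX B) where
  toFun σ :=
    { toFun := fun P => ⟨P.1.map (σ : B ≃+* B), by
        have := P.2.1
        exact ⟨Ideal.map_isMaximal_of_equiv (σ : B ≃+* B), map_ne_bot _ P.2.2⟩⟩
      invFun := fun P => ⟨P.1.map ((σ⁻¹ : RingAut B) : B ≃+* B), by
        have := P.2.1
        exact ⟨Ideal.map_isMaximal_of_equiv _, map_ne_bot _ P.2.2⟩⟩
      left_inv := fun P => Subtype.ext (by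
        show (P.1.map (σ : B ≃+* B)).map ((σ⁻¹ : RingAut B) : B ≃+* B) = P.1
        rw [← map_mul_ideal, inv_mul_cancel, map_one_ideal])
      right_inv := fun P => Subtype.ext (by
        show (P.1.map ((σ⁻¹ : RingAut B) : B ≃+* B)).map (σ : B ≃+* B) = P.1
        rw [← map_mul_ideal, mul_inv_cancel, map_one_ideal]) }
  map_one' := Equiv.ext fun P => Subtype.ext (map_one_ideal P.1)
  map_mul' σ τ := Equiv.ext fun P => Subtype.ext (map_mul_ideal σ τ P.1)

theorem pX_apply (σ : RingAut B) (P : MX B) : (pX σ P).1 = P.1.map (σ : B ≃+* B) := rfl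

/-- the ideal of a divisor -/
noncomputable def dI (D : Multiset (MX B)) : Ideal B := (D.map Subtype.val).prod

theorem nf_dI (D : Multiset (MX B)) : normalizedFactors (dI D) = D.map Subtype.val := by
  rw [dI]
  apply normalizedFactors_prod_of_prime
  intro P hP
  rw [Multiset.mem_map] at hP
  obtain ⟨Q, -, rfl⟩ := hP
  have := Q.2.1
  exact Ideal.prime_of_isPrime Q.2.2 Q.2.1.isPrime

theorem dI_inj : Function.Injective (dI (B := B)) := by
  intro D D' h
  have h1 := congrArg normalizedFactors h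
  rw [nf_dI, nf_dI] at h1
  exact Multiset.map_injective Subtype.val_injective h1

theorem dI_ne (D : Multiset (MX B)) : dI D ≠ ⊥ := by
  rw [dI]
  intro h
  have h1 : (0 : Ideal B) ∈ D.map Subtype.val := Multiset.prod_eq_zero_iff.1 h
  rw [Multiset.mem_map] at h1
  obtain ⟨P, -, hP⟩ := h1
  exact P.2.2 hP

theorem len_dI (D : Multiset (MX B)) : len (dI D) = D.card := by
  rw [len]
  have h := nf_dI D
  rw [h, Multiset.card_map]

theorem dI_surj {I : Ideal B} (hI : I ≠ ⊥) : ∃ D : Multiset (MX B), dI D = I := by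
  have h1 : ∀ P ∈ normalizedFactors I, P.IsMaximal ∧ P ≠ ⊥ := by
    intro P hP
    have h2 := prime_of_normalized_factor P hP
    have h3 := Ideal.isPrime_of_prime h2
    exact ⟨h3.isMaximal h2.ne_zero, h2.ne_zero⟩
  refine ⟨(normalizedFactors I).pmap (fun P h => ⟨P, h⟩) h1, ?_⟩
  rw [dI, Multiset.map_pmap]
  have h2 : Multiset.pmap (fun P h => ((⟨P, h⟩ : MX B) : Ideal B)) (normalizedFactors I) h1 =
      normalizedFactors I := by
    rw [Multiset.pmap_eq_map, Multiset.map_id']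
  rw [h2]
  have h3 := prod_normalizedFactors_eq (a := I) hI
  rw [h3]
  simp

theorem dI_map (σ : RingAut B) (D : Multiset (MX B)) :
    dI (D.map (pX σ)) = (dI D).map (σ : B ≃+* B) := by
  rw [dI, dI, Multiset.map_map]
  have h1 := Multiset.prod_hom (D.map Subtype.val) (Ideal.mapHom (σ : B ≃+* B))
  rw [Multiset.map_map] at h1
  exact h1

/-- The number of the invariant ideals of length `m`. -/
theorem bb_eq (σ : RingAut B) (m : ℕ) :
    bb (pX σ) m = Nat.card {I : Ideal B // I ≠ ⊥ ∧ I.map (σ : B ≃+* B) = I ∧ len I = m} := by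
  refine Nat.card_congr (Equiv.ofBijective (fun D => ⟨dI D.1, dI_ne _, ?_, ?_⟩) ⟨?_, ?_⟩)
  · rw [← dI_map, D.2.1]
  · rw [len_dI, D.2.2]
  · intro D D' h
    exact Subtype.ext (dI_inj (congrArg Subtype.val h))
  · rintro ⟨I, hI, hs, hl⟩
    obtain ⟨D, rfl⟩ := dI_surj hI
    refine ⟨⟨D, ?_, ?_⟩, rfl⟩
    · apply dI_inj
      rw [dI_map, hs]
    · rw [← len_dI, hl]

end dedekind

variable {d : ℕ} [NeZero d] {κ : Type} [Field κ]
variable [IsAlgClosed κ] {T : Tab κ d} [IsDedekindDomain (WB T)] {φ : κ ≃+* κ} {Q : ℕ}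

/-- Frobenius on the points -/
noncomputable def Frob.perm (h : Frob T φ Q) : Equiv.Perm (MX (WB T)) := pX (h.E : RingAut (WB T))

theorem Frob.perm_npow (h : Frob T φ Q) {n : ℕ} (hn : 0 < n) : (h.npow hn).perm = h.perm ^ n := by
  rw [Frob.perm, Frob.perm, ← map_pow]
  congr 1
  exact RingEquiv.ext fun b => h.E_npow hn b

theorem Frob.finFix (h : Frob T φ Q) : FinFix h.perm := by
  intro j hj
  rw [← h.perm_npow hj]
  have hh := h.npow hj
  have h1 := finite_fixed_ideals _ _ hh.two hh.pow hh.tab 1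
  have h2 : Finite {I : Ideal (WB T) | I ≠ ⊥ ∧ len I ≤ 1 ∧ I.map (bE _ hh.tab) = I} := h1
  refine Finite.of_injective (β := {I : Ideal (WB T) | I ≠ ⊥ ∧ len I ≤ 1 ∧ I.map (bE _ hh.tab) = I})
    (fun P => ⟨P.1.1, P.1.2.2, (SUP.len_maximal P.1.2.1 P.1.2.2).le, congrArg Subtype.val P.2⟩) ?_
  intro P P' hPP
  have h3 : P.1.1 = P'.1.1 := congrArg
    (fun x : {I : Ideal (WB T) | I ≠ ⊥ ∧ len I ≤ 1 ∧ I.map (bE _ hh.tab) = I} => x.1) hPP
  exact Subtype.ext (Subtype.ext h3)

theorem Frob.AL_sum (h : Frob T φ Q) (m : ℕ) : h.AL m = ∑ i ∈ Finset.range (m + 1), bb h.perm i := by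
  classical
  have hfi : ∀ i : Fin (m + 1), Finite (Inv h.perm i) := fun i => finite_inv h.perm h.finFix i
  have h1 : ∀ i : Fin (m + 1),
      Finite {I : Ideal (WB T) // I ≠ ⊥ ∧ I.map h.E = I ∧ len I = (i : ℕ)} := by
    intro i
    have h1 := finite_fixed_ideals φ Q h.two h.pow h.tab i
    exact (h1.subset (fun I hI => ⟨hI.1, hI.2.2.le, hI.2.1⟩) :
      {I : Ideal (WB T) | I ≠ ⊥ ∧ I.map h.E = I ∧ len I = (i : ℕ)}.Finite)
  rw [Finset.sum_range, Frob.AL]
  have h2 : ∀ i : Fin (m + 1), bb h.perm i =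
      Nat.card {I : Ideal (WB T) // I ≠ ⊥ ∧ I.map h.E = I ∧ len I = (i : ℕ)} := fun i => bb_eq _ _
  rw [Finset.sum_congr rfl fun i _ => h2 i, ← Nat.card_sigma]
  refine Nat.card_congr
    { toFun := fun I => ⟨⟨len I.1, by have := I.2.2.2; omega⟩, ⟨I.1, I.2.1, I.2.2.1, rfl⟩⟩
      invFun := fun x => ⟨x.2.1, x.2.2.1, x.2.2.2.1, by have := x.1.2; have := x.2.2.2.2; omega⟩
      left_inv := fun I => rfl
      right_inv := ?_ }
  rintro ⟨⟨i, hi⟩, ⟨I, hI⟩⟩
  obtain rfl : len I = i := hI.2.2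
  rfl

/-- The number of points for large degree. -/
theorem Frob.bb_sum (h : Frob T φ Q) : ∃ m₀, ∀ m, m₀ ≤ m → gp T ≤ m ∧
    (Q - 1) * (∑ i ∈ Finset.range (m + 1), bb h.perm i) + h.hh = h.hh * Q ^ (m + 1 - gp T) := by
  obtain ⟨m₀, hm₀⟩ := h.AL_eq
  refine ⟨m₀, fun m hm => ?_⟩
  rw [← h.AL_sum]
  exact hm₀ m hm

end Pool.Agent.TIFS
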