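import Pool.Agent.TIFS.L4

/-!
# TIF-L5: the zeros of the zeta function
-/

set_option autoImplicit false
set_option linter.unusedSectionVars false

namespace Pool.Agent.TIFS

open GT Polynomial

section eval

variable {K : Type*} [Field K]

/-- coefficients of `(1 - q X) B` -/
theorem coeff_lin_mul (q : K) (B : PowerSeries K) (m : ℕ) :
    PowerSeries.coeff (m + 1) ((1 - PowerSeries.C q * PowerSeries.X) * B) =
      PowerSeries.coeff (m + 1) B - q * PowerSeries.coeff m B := by
  rw [sub_mul, one_mul, map_sub, mul_assoc, PowerSeries.coeff_C_mul, mul_comm PowerSeries.X B,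
    PowerSeries.coeff_succ_mul_X]

theorem coeff_lin_mul_zero (q : K) (B : PowerSeries K) :
    PowerSeries.coeff 0 ((1 - PowerSeries.C q * PowerSeries.X) * B) = PowerSeries.coeff 0 B := by
  rw [sub_mul, one_mul, map_sub, mul_assoc, PowerSeries.coeff_C_mul, PowerSeries.coeff_zero_X_mul,
    mul_zero, sub_zero]

variable [CharZero K]

/-- The values of `(1 - q X) B` at `1` and `1 / q`. -/
theorem eval_zeta (q h g : ℕ) (hq : 2 ≤ q) (b : ℕ → ℕ) (m₀ : ℕ)
    (hb : ∀ m, m₀ ≤ m → g ≤ m ∧ (q - 1) * (∑ i ∈ Finset.range (m + 1), b i) + h =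
      h * q ^ (m + 1 - g)) (P : K[X])
    (hP : (P : PowerSeries K) = (1 - PowerSeries.C (q : K) * PowerSeries.X) *
      PowerSeries.mk fun m => (b m : K)) :
    P.eval 1 = h ∧ (q : K) ^ g * P.eval ((q : K)⁻¹) = h := by
  have hq0 : (q : K) ≠ 0 := Nat.cast_ne_zero.2 (by omega)
  have hq1 : ((q : K) - 1) ≠ 0 := by
    rw [sub_ne_zero]
    intro h1
    have : q = 1 := by exact_mod_cast h1
    omega
  have hc : ∀ m, P.coeff (m + 1) = (b (m + 1) : K) - q * b m := by
    intro m
    rw [← Polynomial.coeff_coe, hP, coeff_lin_mul, PowerSeries.coeff_mk, PowerSeries.coeff_mk]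
  have hc0 : P.coeff 0 = (b 0 : K) := by
    rw [← Polynomial.coeff_coe, hP, coeff_lin_mul_zero, PowerSeries.coeff_mk]
  have hsum : ∀ m, m₀ ≤ m → ((q : K) - 1) * (∑ i ∈ Finset.range (m + 1), (b i : K)) + h =
      h * (q : K) ^ (m + 1 - g) := by
    intro m hm
    have h1 := (hb m hm).2
    have h2 : ((((q - 1) * (∑ i ∈ Finset.range (m + 1), b i) + h : ℕ)) : K) =
        ((h * q ^ (m + 1 - g) : ℕ) : K) := by rw [h1]
    push_cast [Nat.cast_sub (show 1 ≤ q by omega)] at h2
    exact h2
  obtain ⟨M, hM1, hM2⟩ : ∃ M, m₀ ≤ M ∧ P.natDegree ≤ M := ⟨m₀ + P.natDegree, by omega, by omega⟩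
  have hg := (hb M hM1).1
  have hev : ∀ x : K, P.eval x = P.coeff 0 + ∑ i ∈ Finset.range (M + 1), P.coeff (i + 1) * x ^ (i + 1) := by
    intro x
    rw [Polynomial.eval_eq_sum_range' (n := M + 2) (by omega), Finset.sum_range_succ', add_comm]
    simp
  have hMM := hsum M hM1
  have hMM1 := hsum (M + 1) (by omega)
  have hpow : (q : K) ^ (M + 1 + 1 - g) = q * q ^ (M + 1 - g) := by
    rw [← pow_succ']
    congr 1
    omega
  constructor
  · rw [hev, hc0]
    simp only [hc, one_pow, mul_one]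
    rw [Finset.sum_sub_distrib, ← Finset.mul_sum]
    have h3 : ∑ i ∈ Finset.range (M + 1), (b (i + 1) : K) =
        ∑ i ∈ Finset.range (M + 1 + 1), (b i : K) - b 0 := by
      rw [Finset.sum_range_succ' _ (M + 1)]
      ring
    rw [h3]
    apply mul_left_cancel₀ hq1
    rw [hpow] at hMM1
    linear_combination hMM1 - (q : K) * hMM
  · rw [hev, hc0]
    simp only [hc]
    have h4 : ∀ n : ℕ, (b 0 : K) + ∑ i ∈ Finset.range n, ((b (i + 1) : K) - q * b i) * (q : K)⁻¹ ^ (i + 1) =
        b n * (q : K)⁻¹ ^ n := by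
      intro n
      induction n with
      | zero => simp
      | succ n ih =>
        rw [Finset.sum_range_succ, ← add_assoc, ih]
        have h5 : (q : K) * (q : K)⁻¹ ^ (n + 1) = (q : K)⁻¹ ^ n := by
          rw [pow_succ', ← mul_assoc, mul_inv_cancel₀ hq0, one_mul]
        rw [sub_mul, mul_assoc, mul_comm (b n : K) ((q : K)⁻¹ ^ (n + 1)), ← mul_assoc, h5]
        ring
    rw [h4]
    have h6 : (b (M + 1) : K) * ((q : K) - 1) = h * ((q : K) - 1) * (q : K) ^ (M + 1 - g) := by
      rw [Finset.sum_range_succ] at hMM1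
      rw [hpow] at hMM1
      linear_combination hMM1 - hMM
    have h7 : (b (M + 1) : K) = h * (q : K) ^ (M + 1 - g) := by
      apply mul_right_cancel₀ hq1
      rw [h6]
      ring
    rw [h7]
    have h8 : (q : K) ^ g * (q : K) ^ (M + 1 - g) = (q : K) ^ (M + 1) := by
      rw [← pow_add]
      congr 1
      omega
    calc (q : K) ^ g * (h * (q : K) ^ (M + 1 - g) * (q : K)⁻¹ ^ (M + 1))
        = h * (((q : K) ^ g * (q : K) ^ (M + 1 - g)) * (q : K)⁻¹ ^ (M + 1)) := by ring
      _ = h := by rw [h8, ← mul_pow, mul_inv_cancel₀ hq0, one_pow, mul_one]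

end eval

/-- factorisation of a polynomial with constant coefficient `1` -/
theorem exists_factor_one {K : Type*} [Field K] [IsAlgClosed K] [CharZero K] (P : ℤ[X]) (h0 : P.coeff 0 = 1) :
    ∃ (r : ℕ) (α : Fin r → K), (∀ i, IsIntegral ℤ (α i)) ∧ (∀ i, α i ≠ 0) ∧
      P.map (Int.castRingHom K) = ∏ i, (1 - C (α i) * X) := by
  set Q := P.map (Int.castRingHom K) with hQ
  have hQ0 : Q.coeff 0 = 1 := by rw [hQ, coeff_map, h0, map_one]
  have hQne : Q ≠ 0 := by
    intro h
    rw [h, coeff_zero] at hQ0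
    exact zero_ne_one hQ0
  have hs : Q.Splits := IsAlgClosed.splits Q
  have hprod := hs.eq_prod_roots
  have hroot0 : ∀ β ∈ Q.roots, β ≠ 0 := by
    rintro β hβ rfl
    rw [mem_roots hQne, IsRoot.def, ← coeff_zero_eq_eval_zero, hQ0] at hβ
    exact one_ne_zero hβ
  have hint : ∀ β ∈ Q.roots, IsIntegral ℤ β⁻¹ := by
    intro β hβ
    have hβ0 := hroot0 β hβ
    have hlc : P.reverse.leadingCoeff = 1 := by
      rw [reverse_leadingCoeff, trailingCoeff, natTrailingDegree_eq_zero.2 (Or.inr (by rw [h0]; exact one_ne_zero)), h0]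
    refine ⟨P.reverse, hlc, ?_⟩
    let _ : Invertible β := invertibleOfNonzero hβ0
    have h1 := (eval₂_reverse_eq_zero_iff (algebraMap ℤ K) β P).2 (by
      rw [mem_roots hQne, IsRoot.def, hQ, eval_map] at hβ
      exact hβ)
    rw [invOf_eq_inv] at h1
    exact h1
  -- list of the roots
  obtain ⟨l, hl⟩ := Quot.exists_rep Q.roots
  have hl' : (l : Multiset K) = Q.roots := hl
  refine ⟨l.length, fun i => (l.get i)⁻¹, ?_, ?_, ?_⟩
  · intro i
    apply hint
    rw [← hl', Multiset.mem_coe]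
    exact List.get_mem l i
  · intro i
    apply inv_ne_zero
    apply hroot0
    rw [← hl', Multiset.mem_coe]
    exact List.get_mem l i
  · have h1 : Q = C Q.leadingCoeff * ∏ i : Fin l.length, (X - C (l.get i)) := by
      conv_lhs => rw [hprod]
      congr 1
      rw [← hl', Multiset.map_coe, Multiset.prod_coe]
      rw [← List.prod_ofFn]
      congr 1
      rw [List.ofFn_comp' (f := fun i => l.get i) (g := fun a => X - C a)] 
      rw [List.ofFn_get]
    have h2 : ∀ i : Fin l.length, (X - C (l.get i)) = C (-(l.get i)) * (1 - C (l.get i)⁻¹ * X) := by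
      intro i
      have h3 : l.get i ≠ 0 := by
        apply hroot0
        rw [← hl', Multiset.mem_coe]
        exact List.get_mem l i
      rw [mul_sub, mul_one, ← mul_assoc, ← C_mul, neg_mul, mul_inv_cancel₀ h3]
      simp only [map_neg, C_1]
      ring
    rw [Finset.prod_congr rfl fun i _ => h2 i, Finset.prod_mul_distrib, ← map_prod, ← mul_assoc, ← C_mul] at h1
    have h4 : Q.leadingCoeff * ∏ i : Fin l.length, -(l.get i) = 1 := by
      have h5 := congrArg (fun q => q.eval 0) h1
      simp only [eval_mul, eval_C, eval_prod, eval_sub, eval_one, eval_X, mul_zero, sub_zero,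
        Finset.prod_const_one, mul_one] at h5
      rw [← h5, ← coeff_zero_eq_eval_zero, hQ0]
    rw [h4, C_1, one_mul] at h1
    exact h1

variable {d : ℕ} [NeZero d] {κ : Type} [Field κ]
variable [IsAlgClosed κ] {T : Tab κ d} [IsDedekindDomain (WB T)] {φ : κ ≃+* κ} {Q : ℕ}

/-- The zeros of the zeta function. -/
theorem Frob.zeta (h : Frob T φ Q) (K : Type*) [Field K] [IsAlgClosed K] [CharZero K] :
    ∃ (r : ℕ) (α : Fin r → K), (∀ i, IsIntegral ℤ (α i)) ∧ (∀ i, α i ≠ 0) ∧
      (∀ n (hn : 0 < n), ((h.npow hn).hh : K) = ∏ i, (1 - α i ^ n)) ∧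
      ∀ n (hn : 0 < n), ((h.npow hn).hh : K) = (Q : K) ^ (gp T * n) * ∏ i, (1 - (α i / Q) ^ n) := by
  classical
  obtain ⟨m₀, hm₀⟩ := h.bb_sum
  have hQ := h.two
  -- the coefficients vanish
  have hvan : ∀ m, m₀ ≤ m → bb h.perm (m + 2) = Q * bb h.perm (m + 1) := by
    intro m hm
    have h0 := (hm₀ m hm)
    have h1 := (hm₀ (m + 1) (by omega)).2
    have h2 := (hm₀ (m + 2) (by omega)).2
    have hg := h0.1
    rw [Finset.sum_range_succ] at h2
    have h3 := h0.2
    rw [Finset.sum_range_succ] at h1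
    have e1 : Q ^ (m + 1 + 1 - gp T) = Q * Q ^ (m + 1 - gp T) := by
      rw [← pow_succ']; congr 1; omega
    have e2 : Q ^ (m + 2 + 1 - gp T) = Q * (Q * Q ^ (m + 1 - gp T)) := by
      rw [← pow_succ', ← pow_succ']; congr 1; omega
    rw [e1] at h1
    rw [e2] at h2
    obtain ⟨q, rfl⟩ : ∃ q, Q = q + 1 := ⟨Q - 1, by omega⟩
    have hq : 0 < q := by omega
    rw [Nat.add_sub_cancel] at h1 h2 h3
    rw [Finset.sum_range_succ] at h2
    set S := ∑ i ∈ Finset.range (m + 1), bb h.perm i with hS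
    set A := h.hh * (q + 1) ^ (m + 1 - gp T) with hA
    have h1' : q * (S + bb h.perm (m + 1)) + h.hh = (q + 1) * A := by
      rw [h1, hA]; ring
    have h2' : q * (S + bb h.perm (m + 1) + bb h.perm (m + 2)) + h.hh = (q + 1) * ((q + 1) * A) := by
      rw [h2, hA]; ring
    have h4 : q * bb h.perm (m + 1) = q * A := by nlinarith
    have h5 : bb h.perm (m + 1) = A := Nat.eq_of_mul_eq_mul_left hq h4
    have h6 : q * bb h.perm (m + 2) = q * ((q + 1) * A) := by nlinarith
    rw [Nat.eq_of_mul_eq_mul_left hq h6, h5]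
  -- the polynomial
  set P : ℤ[X] := ∑ m ∈ Finset.range (m₀ + 2),
    monomial m (if m = 0 then 1 else (bb h.perm m : ℤ) - Q * bb h.perm (m - 1)) with hPdef
  have hPc : ∀ m, P.coeff m = if m < m₀ + 2 then
      (if m = 0 then 1 else (bb h.perm m : ℤ) - Q * bb h.perm (m - 1)) else 0 := by
    intro m
    rw [hPdef, finsetSum_coeff]
    simp only [coeff_monomial]
    rw [Finset.sum_ite_eq' (Finset.range (m₀ + 2)) m]
    simp only [Finset.mem_range]
  have hP0 : P.coeff 0 = 1 := by
    rw [hPc, if_pos (by omega), if_pos rfl]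
  obtain ⟨r, α, hα1, hα2, hα3⟩ := exists_factor_one (K := K) P hP0
  have hser : ((P.map (Int.castRingHom K) : K[X]) : PowerSeries K) =
      (1 - PowerSeries.C (Q : K) * PowerSeries.X) * BB K h.perm := by
    ext m
    rw [Polynomial.coeff_coe, coeff_map, hPc]
    rcases m with _ | m
    · rw [coeff_lin_mul_zero, coeff_zero_BB, if_pos (by omega), if_pos rfl, map_one]
    · rw [coeff_lin_mul, BB, PowerSeries.coeff_mk, PowerSeries.coeff_mk]
      rw [if_neg (Nat.succ_ne_zero m)]
      by_cases h1 : m + 1 < m₀ + 2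
      · rw [if_pos h1]
        simp
      · rw [if_neg h1]
        obtain ⟨m', rfl⟩ : ∃ m', m = m' + 1 := ⟨m - 1, by omega⟩
        have := hvan m' (by omega)
        rw [show m' + 1 + 1 = m' + 2 from rfl, this]
        simp
  have hmain : (1 - PowerSeries.C (Q : K) * PowerSeries.X) * BB K h.perm =
      ∏ i ∈ Finset.univ, (1 - PowerSeries.C (α i) * (PowerSeries.X : PowerSeries K)) := by
    rw [← hser, hα3]
    have : ∀ s : Finset (Fin r), ((∏ i ∈ s, (1 - C (α i) * X) : K[X]) : PowerSeries K) =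
        ∏ i ∈ s, (1 - PowerSeries.C (α i) * (PowerSeries.X : PowerSeries K)) := by
      intro s
      induction s using Finset.induction_on with
      | empty => simp
      | insert a s ha ih =>
        rw [Finset.prod_insert ha, Finset.prod_insert ha, Polynomial.coe_mul, ih]
        simp
    exact this _
  -- the values
  have hval : ∀ n (hn : 0 < n), (∏ i, (1 - C (α i ^ n) * X) : K[X]).eval 1 = (h.npow hn).hh ∧
      ((Q ^ n : ℕ) : K) ^ gp T * (∏ i, (1 - C (α i ^ n) * X) : K[X]).eval (((Q ^ n : ℕ) : K)⁻¹) =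
        (h.npow hn).hh := by
    intro n hn
    obtain ⟨m₁, hm₁⟩ := (h.npow hn).bb_sum
    refine eval_zeta (Q ^ n) (h.npow hn).hh (gp T) (h.npow hn).two (fun m => bb (h.npow hn).perm m) m₁
      hm₁ _ ?_
    have h1 := BB_pow K h.finFix Finset.univ α (Q : K) hmain n hn
    rw [← h.perm_npow hn] at h1
    have h2 : ((∏ i, (1 - C (α i ^ n) * X) : K[X]) : PowerSeries K) =
        ∏ i ∈ Finset.univ, (1 - PowerSeries.C (α i ^ n) * (PowerSeries.X : PowerSeries K)) := by
      have : ∀ s : Finset (Fin r), ((∏ i ∈ s, (1 - C (α i ^ n) * X) : K[X]) : PowerSeries K) =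
          ∏ i ∈ s, (1 - PowerSeries.C (α i ^ n) * (PowerSeries.X : PowerSeries K)) := by
        intro s
        induction s using Finset.induction_on with
        | empty => simp
        | insert a s ha ih =>
          rw [Finset.prod_insert ha, Finset.prod_insert ha, Polynomial.coe_mul, ih]
          simp
      exact this _
    rw [h2, ← h1, Nat.cast_pow]
    rfl
  have hev : ∀ n (x : K), (∏ i, (1 - C (α i ^ n) * X) : K[X]).eval x = ∏ i, (1 - α i ^ n * x) := by
    intro n x
    rw [eval_prod]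
    simp
  refine ⟨r, α, hα1, hα2, fun n hn => ?_, fun n hn => ?_⟩
  · rw [← (hval n hn).1, hev]
    simp
  · rw [← (hval n hn).2, hev, Nat.cast_pow, ← pow_mul, mul_comm n]
    congr 1
    refine Finset.prod_congr rfl fun i _ => ?_
    rw [div_pow, div_eq_mul_inv]

end Pool.Agent.TIFS
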