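import Mathlib

/-!
# TIF-L6: the number of the zeros which are units is `2 g`
-/

set_option autoImplicit false
set_option linter.unusedSectionVars false

namespace Pool.Agent.TIFS

open Polynomial Filter Topology

variable {K : Type*} [NormedField K] [IsUltrametricDist K] [CharZero K]

theorem norm_intCast_le (n : ℤ) : ‖(n : K)‖ ≤ 1 := IsUltrametricDist.norm_intCast_le_one K n

theorem norm_sum_le' {ι : Type*} (s : Finset ι) (f : ι → K) (h : ∀ i ∈ s, ‖f i‖ ≤ 1) :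
    ‖∑ i ∈ s, f i‖ ≤ 1 := IsUltrametricDist.norm_sum_le_of_forall_le_of_nonneg zero_le_one h

/-- values of integral polynomials at elements of norm at most one -/
theorem norm_aeval_le (P : ℤ[X]) {x : K} (hx : ‖x‖ ≤ 1) : ‖aeval x P‖ ≤ 1 := by
  rw [aeval_eq_sum_range]
  apply norm_sum_le'
  intro i _
  rw [zsmul_eq_mul, norm_mul, norm_pow]
  exact mul_le_one₀ (norm_intCast_le _) (by positivity) (pow_le_one₀ (norm_nonneg _) hx)

theorem norm_le_of_integral {x : K} (hx : IsIntegral ℤ x) : ‖x‖ ≤ 1 := by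
  obtain ⟨P, hP, hPx⟩ := hx
  by_contra hlt
  push Not at hlt
  have h0 : P.natDegree ≠ 0 := by
    intro h
    rw [hP.natDegree_eq_zero.1 h, eval₂_one] at hPx
    exact one_ne_zero hPx
  have h1 : x ^ P.natDegree = -∑ i ∈ Finset.range P.natDegree, (P.coeff i : K) * x ^ i := by
    rw [eval₂_eq_sum_range, Finset.sum_range_succ, hP.coeff_natDegree, map_one, one_mul] at hPx
    have : ∀ i, (algebraMap ℤ K) (P.coeff i) = (P.coeff i : K) := fun i => rfl
    simp only [this] at hPx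
    linear_combination hPx
  have h2 : ‖x ^ P.natDegree‖ ≤ ‖x‖ ^ (P.natDegree - 1) := by
    rw [h1, norm_neg]
    apply IsUltrametricDist.norm_sum_le_of_forall_le_of_nonneg (by positivity)
    intro i hi
    rw [Finset.mem_range] at hi
    rw [norm_mul, norm_pow]
    calc ‖(P.coeff i : K)‖ * ‖x‖ ^ i ≤ 1 * ‖x‖ ^ (P.natDegree - 1) :=
          mul_le_mul (norm_intCast_le _) (pow_le_pow_right₀ hlt.le (by omega)) (by positivity) zero_le_one
      _ = _ := one_mul _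
  rw [norm_pow] at h2
  have h3 := pow_lt_pow_right₀ hlt (show P.natDegree - 1 < P.natDegree by omega)
  exact absurd h2 (not_le.2 h3)

/-- an integral element of norm one is a root of unity up to a small error -/
theorem exists_pow_near {ℓ : ℕ} (hℓ : 0 < ℓ) {x : K} (hx : IsIntegral ℤ x)
    (hx1 : ‖x‖ = 1) : ∃ N : ℕ, 0 < N ∧ ‖x ^ N - 1‖ ≤ ‖(ℓ : K)‖ := by
  obtain ⟨P, hP, hPx⟩ := hx
  have hPx' : aeval x P = 0 := hPx
  -- the coefficients of `X ^ i` modulo `P`, modulo `ℓ`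
  let f : ℕ → (Fin P.natDegree → ZMod ℓ) := fun i j => (((X ^ i : ℤ[X]) %ₘ P).coeff j : ZMod ℓ)
  have : NeZero ℓ := ⟨hℓ.ne'⟩
  obtain ⟨i, j, hij, hf⟩ := Finite.exists_ne_map_eq_of_infinite f
  wlog hlt : i < j generalizing i j with H
  · exact H j i hij.symm hf.symm (by omega)
  have hred : ∀ i, aeval x ((X ^ i : ℤ[X]) %ₘ P) = x ^ i := by
    intro i
    have h1 := modByMonic_add_div (X ^ i : ℤ[X]) P
    have h2 := congrArg (aeval x) h1
    rw [map_add, map_mul, hPx', zero_mul, add_zero, map_pow, aeval_X] at h2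
    exact h2
  -- the difference is divisible by `ℓ`
  have hdvd : ∀ m, (ℓ : ℤ) ∣ ((X ^ j : ℤ[X]) %ₘ P - (X ^ i : ℤ[X]) %ₘ P).coeff m := by
    intro m
    by_cases hm : m < P.natDegree
    · have h1 := congrFun hf ⟨m, hm⟩
      simp only [f] at h1
      rw [coeff_sub]
      exact (ZMod.intCast_eq_intCast_iff_dvd_sub _ _ _).1 h1
    · have hP1 : ∀ i : ℕ, ((X ^ i : ℤ[X]) %ₘ P).coeff m = 0 := by
        intro i
        apply coeff_eq_zero_of_degree_lt
        calc ((X ^ i : ℤ[X]) %ₘ P).degree < P.degree := degree_modByMonic_lt _ hP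
          _ = (P.natDegree : WithBot ℕ) := degree_eq_natDegree hP.ne_zero
          _ ≤ m := by exact_mod_cast not_lt.1 hm
      rw [coeff_sub, hP1, hP1, sub_zero]
      exact dvd_zero _
  obtain ⟨G, hG⟩ : ∃ G : ℤ[X], (X ^ j : ℤ[X]) %ₘ P - (X ^ i : ℤ[X]) %ₘ P = C (ℓ : ℤ) * G :=
    C_dvd_iff_dvd_coeff _ _ |>.2 hdvd
  have h1 := congrArg (aeval x) hG
  rw [map_sub, hred, hred, map_mul, aeval_C] at h1
  have h2 : ‖x ^ j - x ^ i‖ ≤ ‖(ℓ : K)‖ := by
    rw [h1, norm_mul]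
    have h3 : (algebraMap ℤ K) (ℓ : ℤ) = (ℓ : K) := by simp
    rw [h3]
    exact mul_le_of_le_one_right (norm_nonneg _) (norm_aeval_le G hx1.le)
  refine ⟨j - i, by omega, ?_⟩
  have h3 : x ^ j - x ^ i = x ^ i * (x ^ (j - i) - 1) := by
    rw [mul_sub, mul_one, ← pow_add]
    congr 2
    omega
  rw [h3, norm_mul, norm_pow, hx1, one_pow, one_mul] at h2
  exact h2

/-- `‖x ^ n - 1‖ ≤ ‖x - 1‖` for `‖x‖ ≤ 1` -/
theorem norm_pow_sub_one_le {x : K} (hx : ‖x‖ ≤ 1) (n : ℕ) : ‖x ^ n - 1‖ ≤ ‖x - 1‖ := by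
  rw [← geom_sum_mul, norm_mul]
  refine mul_le_of_le_one_left (norm_nonneg _) ?_
  apply norm_sum_le'
  intro i _
  rw [norm_pow]
  exact pow_le_one₀ (norm_nonneg _) hx

/-- the geometric sum is near to `n` -/
theorem geom_near {x : K} (hx : ‖x‖ ≤ 1) (n : ℕ) :
    ‖(∑ i ∈ Finset.range n, x ^ i) - n‖ ≤ ‖x - 1‖ := by
  have h1 : (∑ i ∈ Finset.range n, x ^ i) - n = ∑ i ∈ Finset.range n, (x ^ i - 1) := by
    rw [Finset.sum_sub_distrib]
    simp
  rw [h1]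
  apply IsUltrametricDist.norm_sum_le_of_forall_le_of_nonneg (norm_nonneg _)
  intro i _
  exact norm_pow_sub_one_le hx i

/-- the powers with exponent `ℓ ^ s` tend to `1` -/
theorem tendsto_pow_pow {ℓ : ℕ} (hℓ1 : ‖(ℓ : K)‖ < 1) {x : K} (hx : ‖x‖ ≤ 1) (hx1 : ‖x - 1‖ < 1) :
    Tendsto (fun s : ℕ => x ^ ℓ ^ s) atTop (𝓝 1) := by
  set c := max ‖(ℓ : K)‖ ‖x - 1‖ with hc
  have hc1 : c < 1 := max_lt hℓ1 hx1
  have hc0 : 0 ≤ c := le_max_of_le_left (norm_nonneg _)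
  have h1 : ∀ s : ℕ, ‖x ^ ℓ ^ s - 1‖ ≤ c ^ s := by
    intro s
    induction s with
    | zero =>
      rw [pow_zero, pow_one, pow_zero]
      exact hx1.le
    | succ s ih =>
      set y := x ^ ℓ ^ s with hy
      have hy1 : ‖y‖ ≤ 1 := by
        rw [hy, norm_pow]
        exact pow_le_one₀ (norm_nonneg _) hx
      have h2 : x ^ ℓ ^ (s + 1) - 1 = (∑ i ∈ Finset.range ℓ, y ^ i) * (y - 1) := by
        rw [geom_sum_mul, hy, ← pow_mul, ← pow_succ]
      have h3 : ‖∑ i ∈ Finset.range ℓ, y ^ i‖ ≤ c := by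
        have h4 : (∑ i ∈ Finset.range ℓ, y ^ i) = ((∑ i ∈ Finset.range ℓ, y ^ i) - ℓ) + ℓ := by ring
        rw [h4]
        refine (IsUltrametricDist.norm_add_le_max _ _).trans (max_le ?_ (le_max_left _ _))
        refine (geom_near hy1 ℓ).trans ?_
        exact (norm_pow_sub_one_le hx _).trans (le_max_right _ _)
      rw [h2, norm_mul, pow_succ']
      exact mul_le_mul h3 ih (norm_nonneg _) hc0
  rw [tendsto_iff_norm_sub_tendsto_zero]
  exact squeeze_zero (fun _ => norm_nonneg _) h1 (tendsto_pow_atTop_nhds_zero_of_lt_one hc0 hc1)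

/-- the exact growth -/
theorem norm_pow_sub_one_eq {ℓ : ℕ} {x : K} (hx : ‖x‖ ≤ 1) (hx1 : ‖x - 1‖ < ‖(ℓ : K)‖) :
    ‖x ^ ℓ - 1‖ = ‖(ℓ : K)‖ * ‖x - 1‖ := by
  rw [← geom_sum_mul, norm_mul]
  congr 1
  have h4 : (∑ i ∈ Finset.range ℓ, x ^ i) = ((∑ i ∈ Finset.range ℓ, x ^ i) - ℓ) + ℓ := by ring
  rw [h4]
  have h5 : ‖(∑ i ∈ Finset.range ℓ, x ^ i) - ℓ‖ < ‖(ℓ : K)‖ := (geom_near hx ℓ).trans_lt hx1
  rw [IsUltrametricDist.norm_add_eq_max_of_norm_ne_norm h5.ne, max_eq_right h5.le]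

end Pool.Agent.TIFS
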