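import Pool.Agent.TIFS.L6

/-!
# TIF-L7: the number of the zeros which are units is `2 g`; growth of the product
-/

set_option autoImplicit false
set_option linter.unusedSectionVars false

namespace Pool.Agent.TIFS

open Polynomial Filter Topology

variable {K : Type*} [NormedField K] [IsUltrametricDist K] [CharZero K]

theorem tendsto_succ_pow {ℓ N : ℕ} (hℓ1 : ‖(ℓ : K)‖ < 1) {x : K} (hx : ‖x‖ = 1)
    (hN : ‖x ^ N - 1‖ < 1) : Tendsto (fun s : ℕ => x ^ (N * ℓ ^ s + 1)) atTop (𝓝 x) := by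
  have h1 := tendsto_pow_pow (x := x ^ N) hℓ1 (by rw [norm_pow, hx, one_pow]) hN
  have h2 := h1.mul_const x
  rw [one_mul] at h2
  refine h2.congr fun s => ?_
  rw [pow_succ, pow_mul]

theorem tendsto_pred_pow {ℓ N : ℕ} (hℓ : 0 < ℓ) (hN0 : 0 < N) (hℓ1 : ‖(ℓ : K)‖ < 1) {x : K} (hx : ‖x‖ = 1)
    (hN : ‖x ^ N - 1‖ < 1) : Tendsto (fun s : ℕ => x ^ (N * ℓ ^ s - 1)) atTop (𝓝 x⁻¹) := by
  have hx0 : x ≠ 0 := by
    intro h
    rw [h, norm_zero] at hx
    exact zero_ne_one hx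
  have h1 := tendsto_pow_pow (x := x ^ N) hℓ1 (by rw [norm_pow, hx, one_pow]) hN
  have h2 := h1.mul_const x⁻¹
  rw [one_mul] at h2
  refine h2.congr fun s => ?_
  have h3 : 0 < N * ℓ ^ s := by positivity
  obtain ⟨m, hm⟩ : ∃ m, N * ℓ ^ s = m + 1 := ⟨N * ℓ ^ s - 1, by omega⟩
  rw [← pow_mul, hm, Nat.add_sub_cancel, pow_succ, mul_assoc, mul_inv_cancel₀ hx0, mul_one]

theorem isIntegral_algebraMap_nat (q : ℕ) : IsIntegral ℤ (q : K) := by
  have h := isIntegral_algebraMap (R := ℤ) (A := K) (x := (q : ℤ))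
  simpa using h

/-- The number of the zeros which are units is `2 g`. -/
theorem count_units {ℓ : ℕ} (hℓ : 0 < ℓ) (hℓ1 : ‖(ℓ : K)‖ < 1) {r : ℕ} (α : Fin r → K)
    (hint : ∀ i, IsIntegral ℤ (α i)) (h0 : ∀ i, α i ≠ 0) (q : ℕ) (hq2 : 2 ≤ q)
    (hq : ‖(q : K)‖ = 1) (g : ℕ) (hne : ∏ i, (1 - α i) ≠ 0)
    (heq : ∀ n, 0 < n → ∏ i, (1 - α i ^ n) = (q : K) ^ (g * n) * ∏ i, (1 - (α i / q) ^ n)) :
    (Finset.univ.filter (fun i => ‖α i‖ = 1)).card = 2 * g := by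
  classical
  set U := Finset.univ.filter (fun i => ‖α i‖ = 1) with hU
  have hℓ2 : 2 ≤ ℓ := by
    by_contra hlt
    have : ℓ = 1 := by omega
    rw [this, Nat.cast_one, norm_one] at hℓ1
    exact lt_irrefl _ hℓ1
  have hq0 : (q : K) ≠ 0 := by
    intro h
    rw [h, norm_zero] at hq
    exact zero_ne_one hq
  -- a common exponent
  obtain ⟨N, hN0, hN⟩ : ∃ N : ℕ, 0 < N ∧ ∀ i, ‖α i‖ = 1 → ‖α i ^ N - 1‖ < 1 ∧ ‖(q : K) ^ N - 1‖ < 1 := by
    have h1 : ∀ i, ∃ N : ℕ, 0 < N ∧ (‖α i‖ = 1 → ‖α i ^ N - 1‖ < 1) := by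
      intro i
      by_cases hi : ‖α i‖ = 1
      · obtain ⟨N, hN, hN'⟩ := exists_pow_near hℓ (hint i) hi
        exact ⟨N, hN, fun _ => hN'.trans_lt hℓ1⟩
      · exact ⟨1, one_pos, fun h => absurd h hi⟩
    choose n hn hn' using h1
    obtain ⟨m, hm, hm'⟩ := exists_pow_near (K := K) hℓ (isIntegral_algebraMap_nat q) hq
    refine ⟨m * ∏ i, n i, Nat.mul_pos hm (Finset.prod_pos fun i _ => hn i), fun i hi => ⟨?_, ?_⟩⟩
    · obtain ⟨c, hc⟩ : n i ∣ m * ∏ i, n i := Dvd.dvd.mul_left (Finset.dvd_prod_of_mem n (Finset.mem_univ i)) m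
      rw [hc, pow_mul]
      exact (norm_pow_sub_one_le (by rw [norm_pow, hi, one_pow]) c).trans_lt (hn' i hi)
    · rw [pow_mul]
      exact (norm_pow_sub_one_le (by rw [norm_pow, hq, one_pow]) _).trans_lt (hm'.trans_lt hℓ1)
  -- also for `q` alone
  obtain ⟨N, hN0, hN, hNq⟩ : ∃ N : ℕ, 0 < N ∧ (∀ i, ‖α i‖ = 1 → ‖α i ^ N - 1‖ < 1) ∧ ‖(q : K) ^ N - 1‖ < 1 := by
    obtain ⟨m, hm, hm'⟩ := exists_pow_near (K := K) hℓ (isIntegral_algebraMap_nat q) hq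
    refine ⟨N * m, Nat.mul_pos hN0 hm, fun i hi => ?_, ?_⟩
    · rw [pow_mul]
      exact (norm_pow_sub_one_le (by rw [norm_pow, hi, one_pow]) _).trans_lt (hN i hi).1
    · rw [mul_comm, pow_mul]
      exact (norm_pow_sub_one_le (by rw [norm_pow, hq, one_pow]) _).trans_lt (hm'.trans_lt hℓ1)
  have hnorm : ∀ i, ‖α i‖ ≤ 1 := fun i => norm_le_of_integral (hint i)
  have hdiv : ∀ i, ‖α i / q‖ = ‖α i‖ := fun i => by rw [norm_div, hq, div_one]
  have hNdiv : ∀ i, ‖α i‖ = 1 → ‖(α i / q) ^ N - 1‖ < 1 := by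
    intro i hi
    have h1 : (α i / q) ^ N - 1 = ((α i ^ N - 1) - ((q : K) ^ N - 1)) / (q : K) ^ N := by
      rw [div_pow]
      field_simp
      ring
    rw [h1, norm_div, norm_pow, hq, one_pow, div_one]
    rw [sub_eq_add_neg]
    refine (IsUltrametricDist.norm_add_le_max _ _).trans_lt (max_lt (hN i hi) ?_)
    rw [norm_neg]
    exact hNq
  have hqg : ‖(q : K) ^ g‖ = 1 := by rw [norm_pow, hq, one_pow]
  have hNqg : ‖((q : K) ^ g) ^ N - 1‖ < 1 := by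
    rw [← pow_mul, mul_comm, pow_mul]
    exact (norm_pow_sub_one_le (by rw [norm_pow, hq, one_pow]) _).trans_lt hNq
  have hinf : Tendsto (fun s : ℕ => N * ℓ ^ s) atTop atTop :=
    Tendsto.const_mul_atTop' hN0 (tendsto_pow_atTop_atTop_of_one_lt (by omega))
  have hinf1 : Tendsto (fun s : ℕ => N * ℓ ^ s + 1) atTop atTop := by
    rw [tendsto_atTop] at hinf ⊢
    intro b
    filter_upwards [hinf b] with s hs
    omega
  have hinf2 : Tendsto (fun s : ℕ => N * ℓ ^ s - 1) atTop atTop := by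
    rw [tendsto_atTop] at hinf ⊢
    intro b
    filter_upwards [hinf (b + 1)] with s hs
    omega
  -- the limits for `+ 1`
  have hA : ∏ i ∈ U, (1 - α i) = (q : K) ^ g * ∏ i ∈ U, (1 - α i / q) := by
    have hlim : ∀ (β : Fin r → K) (_ : ∀ i, ‖β i‖ = ‖α i‖) (_ : ∀ i, ‖α i‖ = 1 → ‖β i ^ N - 1‖ < 1),
        Tendsto (fun s : ℕ => ∏ i, (1 - β i ^ (N * ℓ ^ s + 1))) atTop (𝓝 (∏ i ∈ U, (1 - β i))) := by
      intro β hβ hβN
      have h1 : ∏ i ∈ U, (1 - β i) = ∏ i, (1 - if ‖α i‖ = 1 then β i else 0) := by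
        rw [hU, Finset.prod_filter]
        refine Finset.prod_congr rfl fun i _ => ?_
        split_ifs <;> simp
      rw [h1]
      refine tendsto_finsetProd _ fun i _ => ?_
      refine tendsto_const_nhds.sub ?_
      split_ifs with hi
      · exact tendsto_succ_pow hℓ1 (by rw [hβ, hi]) (hβN i hi)
      · have hlt : ‖β i‖ < 1 := by rw [hβ]; exact lt_of_le_of_ne (hnorm i) hi
        exact (tendsto_pow_atTop_nhds_zero_of_norm_lt_one hlt).comp hinf1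
    have h1 := hlim α (fun _ => rfl) hN
    have h2 := hlim (fun i => α i / q) hdiv hNdiv
    have h3 := (tendsto_succ_pow (ℓ := ℓ) hℓ1 hqg hNqg).mul h2
    refine tendsto_nhds_unique h1 (h3.congr fun s => ?_)
    rw [heq (N * ℓ ^ s + 1) (by omega), pow_mul]
  have hB : ∏ i ∈ U, (1 - (α i)⁻¹) = ((q : K) ^ g)⁻¹ * ∏ i ∈ U, (1 - (α i / q)⁻¹) := by
    have hlim : ∀ (β : Fin r → K) (_ : ∀ i, ‖β i‖ = ‖α i‖) (_ : ∀ i, ‖α i‖ = 1 → ‖β i ^ N - 1‖ < 1),
        Tendsto (fun s : ℕ => ∏ i, (1 - β i ^ (N * ℓ ^ s - 1))) atTop (𝓝 (∏ i ∈ U, (1 - (β i)⁻¹))) := by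
      intro β hβ hβN
      have h1 : ∏ i ∈ U, (1 - (β i)⁻¹) = ∏ i, (1 - if ‖α i‖ = 1 then (β i)⁻¹ else 0) := by
        rw [hU, Finset.prod_filter]
        refine Finset.prod_congr rfl fun i _ => ?_
        split_ifs <;> simp
      rw [h1]
      refine tendsto_finsetProd _ fun i _ => ?_
      refine tendsto_const_nhds.sub ?_
      split_ifs with hi
      · exact tendsto_pred_pow hℓ hN0 hℓ1 (by rw [hβ, hi]) (hβN i hi)
      · have hlt : ‖β i‖ < 1 := by rw [hβ]; exact lt_of_le_of_ne (hnorm i) hi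
        exact (tendsto_pow_atTop_nhds_zero_of_norm_lt_one hlt).comp hinf2
    have h1 := hlim α (fun _ => rfl) hN
    have h2 := hlim (fun i => α i / q) hdiv hNdiv
    have h3 := (tendsto_pred_pow (ℓ := ℓ) hℓ hN0 hℓ1 hqg hNqg).mul h2
    refine tendsto_nhds_unique h1 (h3.congr' ?_)
    rw [tendsto_atTop] at hinf2
    filter_upwards [hinf2 1] with s hs
    rw [heq (N * ℓ ^ s - 1) (by omega), pow_mul]
  -- algebra
  set P := ∏ i ∈ U, α i with hP
  have hP0 : P ≠ 0 := Finset.prod_ne_zero_iff.2 fun i _ => h0 i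
  have hA0 : ∏ i ∈ U, (1 - α i) ≠ 0 := by
    rw [Finset.prod_ne_zero_iff] at hne ⊢
    exact fun i _ => hne i (Finset.mem_univ i)
  have e1 : ∏ i ∈ U, (1 - (α i)⁻¹) = (-1) ^ U.card * (∏ i ∈ U, (1 - α i)) / P := by
    rw [← Finset.prod_const, ← Finset.prod_mul_distrib, hP, ← Finset.prod_div_distrib]
    refine Finset.prod_congr rfl fun i _ => ?_
    have := h0 i
    field_simp
    ring
  have e2 : ∏ i ∈ U, (1 - (α i / q)⁻¹) = (-1) ^ U.card * ((q : K) ^ U.card * ∏ i ∈ U, (1 - α i / q)) / P := by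
    rw [← Finset.prod_const, ← Finset.prod_const, ← Finset.prod_mul_distrib,
      ← Finset.prod_mul_distrib, hP, ← Finset.prod_div_distrib]
    refine Finset.prod_congr rfl fun i _ => ?_
    have := h0 i
    field_simp
    ring
  set A := ∏ i ∈ U, (1 - α i) with hAd
  set B := ∏ i ∈ U, (1 - α i / q) with hBd
  have hB0 : B ≠ 0 := by
    intro h
    rw [h, mul_zero] at hA
    exact hA0 hA
  rw [e1, e2] at hB
  have hs : ((-1 : K)) ^ U.card ≠ 0 := pow_ne_zero _ (by norm_num)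
  have hqg0 : (q : K) ^ g ≠ 0 := pow_ne_zero _ hq0
  have h5 : (q : K) ^ g * A = (q : K) ^ U.card * B := by
    field_simp at hB
    linear_combination hB
  rw [hA] at h5
  have h6 : (q : K) ^ (2 * g) = (q : K) ^ U.card := by
    apply mul_right_cancel₀ hB0
    rw [← h5]
    ring
  have h7 : q ^ (2 * g) = q ^ U.card := by
    have : ((q ^ (2 * g) : ℕ) : K) = ((q ^ U.card : ℕ) : K) := by
      push_cast
      exact h6
    exact_mod_cast this
  exact (Nat.pow_right_injective hq2 h7).symm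

/-- Growth of the product. -/
theorem growth {ℓ : ℕ} (hℓ : 0 < ℓ) (hℓ1 : ‖(ℓ : K)‖ < 1) {r : ℕ} (α : Fin r → K)
    (hint : ∀ i, IsIntegral ℤ (α i)) :
    ∃ N₀ : ℕ, 0 < N₀ ∧ ∀ N : ℕ, 0 < N → N₀ ∣ N → ‖∏ i, (1 - α i ^ (ℓ * N))‖ =
      ‖(ℓ : K)‖ ^ (Finset.univ.filter (fun i => ‖α i‖ = 1)).card * ‖∏ i, (1 - α i ^ N)‖ := by
  classical
  have hℓ0 : (ℓ : K) ≠ 0 := Nat.cast_ne_zero.2 hℓ.ne'
  have hℓn : 0 < ‖(ℓ : K)‖ := norm_pos_iff.2 hℓ0
  have hnorm : ∀ i, ‖α i‖ ≤ 1 := fun i => norm_le_of_integral (hint i)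
  have h1 : ∀ i, ∃ N : ℕ, 0 < N ∧ (‖α i‖ = 1 → ‖α i ^ N - 1‖ < ‖(ℓ : K)‖) := by
    intro i
    by_cases hi : ‖α i‖ = 1
    · obtain ⟨N, hN, hN'⟩ := exists_pow_near hℓ (hint i) hi
      have h2 := tendsto_pow_pow (x := α i ^ N) hℓ1 (by rw [norm_pow, hi, one_pow]) (hN'.trans_lt hℓ1)
      rw [Metric.tendsto_atTop] at h2
      obtain ⟨s, hs⟩ := h2 _ hℓn
      refine ⟨N * ℓ ^ s, by positivity, fun _ => ?_⟩
      have h3 := hs s le_rfl
      rw [dist_eq_norm, ← pow_mul] at h3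
      exact h3
    · exact ⟨1, one_pos, fun h => absurd h hi⟩
  choose n hn hn' using h1
  refine ⟨∏ i, n i, Finset.prod_pos fun i _ => hn i, fun N hN hdvd => ?_⟩
  rw [norm_prod, norm_prod, Finset.card_eq_sum_ones, Finset.sum_filter, ← Finset.prod_pow_eq_pow_sum,
    ← Finset.prod_mul_distrib]
  refine Finset.prod_congr rfl fun i _ => ?_
  split_ifs with hi
  · obtain ⟨c, hc⟩ : n i ∣ N := (Finset.dvd_prod_of_mem n (Finset.mem_univ i)).trans hdvd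
    have h2 : ‖α i ^ N - 1‖ < ‖(ℓ : K)‖ := by
      rw [hc, pow_mul]
      exact (norm_pow_sub_one_le (by rw [norm_pow, hi, one_pow]) c).trans_lt (hn' i hi)
    have h3 := norm_pow_sub_one_eq (x := α i ^ N) (by rw [norm_pow, hi, one_pow]) h2
    rw [norm_sub_rev 1, norm_sub_rev 1, pow_one, mul_comm ℓ N, pow_mul, h3]
  · have hlt : ‖α i‖ < 1 := lt_of_le_of_ne (hnorm i) hi
    have hone : ∀ m, 0 < m → ‖1 - α i ^ m‖ = 1 := by
      intro m hm
      have h4 : ‖α i ^ m‖ < 1 := by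
        rw [norm_pow]
        exact pow_lt_one₀ (norm_nonneg _) hlt hm.ne'
      have h5 : ‖(1 : K)‖ = 1 := norm_one
      rw [sub_eq_add_neg, IsUltrametricDist.norm_add_eq_max_of_norm_ne_norm (by rw [norm_neg, h5]; exact h4.ne'),
        norm_neg, h5, max_eq_left h4.le]
    rw [hone _ (Nat.mul_pos hℓ hN), hone _ hN, pow_zero, mul_one]

end Pool.Agent.TIFS
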