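import Pool.Agent.TIFS.L5
import Pool.Agent.TIFS.L7

/-!
# TIF-L8: the `ℓ`-part of the number of the fixed classes
-/

set_option autoImplicit false
set_option linter.unusedSectionVars false

namespace Pool.Agent.TIFS

open GT

theorem norm_nat_padic (ℓ : ℕ) [hℓ : Fact ℓ.Prime] {n : ℕ} (hn : n ≠ 0) :
    ‖(n : PadicAlgCl ℓ)‖ = ((ℓ : ℝ)⁻¹) ^ padicValNat ℓ n := by
  have h1 : ((n : ℚ_[ℓ]) : PadicAlgCl ℓ) = (n : PadicAlgCl ℓ) := by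
    exact map_natCast (algebraMap ℚ_[ℓ] (PadicAlgCl ℓ)) n
  rw [← h1, PadicAlgCl.norm_extends]
  have h2 : (n : ℚ_[ℓ]) = ((n : ℚ) : ℚ_[ℓ]) := by simp
  rw [h2, Padic.eq_padicNorm]
  rw [padicNorm.eq_zpow_of_nonzero (by exact_mod_cast hn)]
  simp

variable {d : ℕ} [NeZero d] {κ : Type} [Field κ]
variable [IsAlgClosed κ] {T : Tab κ d} [IsDedekindDomain (WB T)] {φ : κ ≃+* κ} {Q : ℕ}

/-- Growth of the `ℓ`-part of the number of the fixed classes. -/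
theorem Frob.val_growth (h : Frob T φ Q) (ℓ : ℕ) [hℓ : Fact ℓ.Prime] (hQ : ¬ ℓ ∣ Q) :
    ∃ N₀ : ℕ, 0 < N₀ ∧ ∀ (N : ℕ) (hN : 0 < N) (_ : N₀ ∣ N),
      padicValNat ℓ (h.npow (Nat.mul_pos hℓ.out.pos hN)).hh =
        2 * gp T + padicValNat ℓ (h.npow hN).hh := by
  obtain ⟨r, α, h1, h2, h3, h4⟩ := h.zeta (PadicAlgCl ℓ)
  have hℓ1 : ‖(ℓ : PadicAlgCl ℓ)‖ = (ℓ : ℝ)⁻¹ := by
    rw [norm_nat_padic ℓ hℓ.out.ne_zero, padicValNat_self, pow_one]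
  have hℓ2 : (1 : ℝ) < ℓ := by exact_mod_cast hℓ.out.one_lt
  have hℓ3 : ‖(ℓ : PadicAlgCl ℓ)‖ < 1 := by
    rw [hℓ1]
    exact inv_lt_one_of_one_lt₀ hℓ2
  have hQ0 : Q ≠ 0 := by have := h.two; omega
  have hQ1 : ‖(Q : PadicAlgCl ℓ)‖ = 1 := by
    rw [norm_nat_padic ℓ hQ0, padicValNat.eq_zero_of_not_dvd hQ, pow_zero]
  have hone : ∏ i, (1 - α i) ≠ 0 := by
    have h5 := h3 1 one_pos
    simp only [pow_one] at h5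
    rw [← h5]
    exact Nat.cast_ne_zero.2 (h.npow one_pos).hh_pos.ne'
  have hU := count_units hℓ.out.pos hℓ3 α h1 h2 Q h.two hQ1 (gp T) hone (fun n hn => by
    rw [← h3 n hn, ← h4 n hn])
  obtain ⟨N₀, hN₀, hgr⟩ := growth hℓ.out.pos hℓ3 α h1
  refine ⟨N₀, hN₀, fun N hN hdvd => ?_⟩
  have h5 := hgr N hN hdvd
  rw [hU, ← h3 _ (Nat.mul_pos hℓ.out.pos hN), ← h3 _ hN,
    norm_nat_padic ℓ (h.npow (Nat.mul_pos hℓ.out.pos hN)).hh_pos.ne',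
    norm_nat_padic ℓ (h.npow hN).hh_pos.ne', hℓ1, ← pow_add] at h5
  have h6 : (0 : ℝ) < (ℓ : ℝ)⁻¹ := by positivity
  have h7 : (ℓ : ℝ)⁻¹ ≠ 1 := by
    rw [Ne, inv_eq_one]
    exact hℓ2.ne'
  exact (pow_right_injective₀ h6 h7) h5

end Pool.Agent.TIFS
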