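import Mathlib

/-!
# TIF-S1a: counting invariant divisors

`σ` is a permutation of `X` such that all powers `σ ^ j`, `j > 0`, have finitely many fixed points.
`bb σ m` is the number of `σ`-invariant effective divisors (multisets) of degree `m` on `X`,
`NN σ j` the number of fixed points of `σ ^ j`. Then `m bb m = ∑_{1 ≤ j ≤ m} NN j * bb (m - j)`.
-/

set_option autoImplicit false

open Function

namespace Pool.Agent.TIFS

variable {X : Type*}

/-- number of fixed points of `σ ^ j` -/
noncomputable def NN (σ : Equiv.Perm X) (j : ℕ) : ℕ := Nat.card {x : X // (σ ^ j) x = x}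

/-- the invariant effective divisors of degree `m` -/
abbrev Inv (σ : Equiv.Perm X) (m : ℕ) : Type _ := {D : Multiset X // D.map σ = D ∧ D.card = m}

/-- their number -/
noncomputable def bb (σ : Equiv.Perm X) (m : ℕ) : ℕ := Nat.card (Inv σ m)

/-- all powers of `σ` have finitely many fixed points -/
def FinFix (σ : Equiv.Perm X) : Prop := ∀ j, 0 < j → Finite {x : X // (σ ^ j) x = x}

/-- the orbit of `x` as a multiset -/
noncomputable def orb (σ : Equiv.Perm X) (x : X) : Multiset X :=
  (Multiset.range (minimalPeriod σ x)).map fun i => (σ ^ i) x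

theorem card_orb (σ : Equiv.Perm X) (x : X) : (orb σ x).card = minimalPeriod σ x := by
  rw [orb, Multiset.card_map, Multiset.card_range]

theorem map_orb (σ : Equiv.Perm X) (x : X) : (orb σ x).map σ = orb σ x := by
  set o := minimalPeriod σ x with ho
  rcases Nat.eq_zero_or_pos o with h0 | hpos
  · have : orb σ x = 0 := by
      rw [orb, ← ho, h0]
      rfl
    rw [this]
    rfl
  · have hper : (σ ^ o) x = x := by
      have := isPeriodicPt_minimalPeriod σ x
      rw [← ho] at this
      rw [Equiv.Perm.coe_pow]
      exact this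
    obtain ⟨p, hp⟩ : ∃ p, o = p + 1 := ⟨o - 1, by omega⟩
    rw [orb, ← ho, hp, Multiset.map_map]
    have e1 : Multiset.map (σ ∘ fun i => (σ ^ i) x) (Multiset.range (p + 1)) =
        (Multiset.range (p + 1)).map fun i => (σ ^ (i + 1)) x := by
      refine Multiset.map_congr rfl fun i _ => ?_
      simp only [Function.comp]
      rw [pow_succ', Equiv.Perm.mul_apply]
    rw [e1]
    have e2 : (Multiset.range (p + 1)).map (fun i => (σ ^ (i + 1)) x) =
        (σ ^ (p + 1)) x ::ₘ (Multiset.range p).map (fun i => (σ ^ (i + 1)) x) := by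
      rw [Multiset.range_succ, Multiset.map_cons]
    have e3 : (Multiset.range (p + 1)).map (fun i => (σ ^ i) x) =
        (σ ^ 0) x ::ₘ (Multiset.range p).map (fun i => (σ ^ (i + 1)) x) := by
      rw [show p + 1 = 1 + p from by omega]
      have : Multiset.range (1 + p) = Multiset.range 1 + (Multiset.range p).map (1 + ·) :=
        Multiset.range_add 1 p
      rw [this, Multiset.map_add, Multiset.map_map]
      have h4 : Multiset.map (fun i => (σ ^ i) x) (Multiset.range 1) = {(σ ^ 0) x} := rfl
      rw [h4, Multiset.singleton_add]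
      congr 1
      refine Multiset.map_congr rfl fun i _ => ?_
      simp only [Function.comp]
      rw [add_comm 1 i]
    rw [e2, e3, ← hp, hper, pow_zero]
    rfl

theorem nodup_orb (σ : Equiv.Perm X) (x : X) : (orb σ x).Nodup := by
  rw [orb]
  refine (Multiset.nodup_map_iff_inj_on (Multiset.nodup_range _)).2 ?_
  intro i hi j hj hij
  rw [Multiset.mem_range] at hi hj
  rw [Equiv.Perm.coe_pow, Equiv.Perm.coe_pow] at hij
  have := (Function.iterate_eq_iterate_iff_of_lt_minimalPeriod hi hj).1 hij
  exact this

open Classical in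
theorem count_map (σ : Equiv.Perm X) {D : Multiset X} (h : D.map σ = D) (x : X) :
    D.count (σ x) = D.count x := by
  conv_lhs => rw [← h]
  exact Multiset.count_map_eq_count' σ D σ.injective x

open Classical in
theorem count_pow (σ : Equiv.Perm X) {D : Multiset X} (h : D.map σ = D) (x : X) (i : ℕ) :
    D.count ((σ ^ i) x) = D.count x := by
  induction i with
  | zero => rfl
  | succ i ih => rw [pow_succ', Equiv.Perm.mul_apply, count_map σ h, ih]

open Classical in
theorem smul_orb_le (σ : Equiv.Perm X) {D : Multiset X} (h : D.map σ = D) {x : X} {t : ℕ}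
    (ht : t ≤ D.count x) : t • orb σ x ≤ D := by
  rw [Multiset.le_iff_count]
  intro y
  rw [Multiset.count_nsmul]
  by_cases hy : y ∈ orb σ x
  · rw [Multiset.count_eq_one_of_mem (nodup_orb σ x) hy, mul_one]
    rw [orb, Multiset.mem_map] at hy
    obtain ⟨i, _, rfl⟩ := hy
    rwa [count_pow σ h]
  · rw [Multiset.count_eq_zero_of_notMem hy, mul_zero]
    exact Nat.zero_le _

theorem mem_orb (σ : Equiv.Perm X) {x : X} (h : 0 < minimalPeriod σ x) : x ∈ orb σ x := by
  rw [orb, Multiset.mem_map]
  exact ⟨0, Multiset.mem_range.2 h, by rw [pow_zero]; rfl⟩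

/-- The period of a point of an invariant divisor is at most the degree. -/
theorem period_le (σ : Equiv.Perm X) {D : Multiset X} (h : D.map σ = D) {x : X} (hx : x ∈ D) :
    minimalPeriod σ x ≤ D.card := by
  classical
  have h1 : 1 ≤ D.count x := Multiset.one_le_count_iff_mem.2 hx
  have h2 := Multiset.card_le_card (smul_orb_le σ h h1)
  rwa [one_smul, card_orb] at h2

theorem period_pos (σ : Equiv.Perm X) {D : Multiset X} (h : D.map σ = D) {x : X} (hx : x ∈ D) :
    0 < minimalPeriod σ x := by
  classical
  rw [minimalPeriod_pos_iff_mem_periodicPts]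
  by_contra hno
  -- all `σ ^ i x` are different and in `D`
  have hinj : Function.Injective fun i : ℕ => (σ ^ i) x := by
    intro i j hij
    simp only [Equiv.Perm.coe_pow] at hij
    by_contra hne
    rcases Nat.lt_or_gt_of_ne hne with hlt | hlt
    · apply hno
      refine ⟨j - i, by omega, ?_⟩
      have h1 : σ^[i] (σ^[j - i] x) = σ^[i] x := by
        rw [← Function.iterate_add_apply]
        rw [show i + (j - i) = j from by omega]
        exact hij.symm
      exact (σ.injective.iterate i) h1
    · apply hno
      refine ⟨i - j, by omega, ?_⟩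
      have h1 : σ^[j] (σ^[i - j] x) = σ^[j] x := by
        rw [← Function.iterate_add_apply]
        rw [show j + (i - j) = i from by omega]
        exact hij
      exact (σ.injective.iterate j) h1
  have hmem : ∀ i : ℕ, (σ ^ i) x ∈ D := by
    intro i
    rw [← Multiset.one_le_count_iff_mem, count_pow σ h, Multiset.one_le_count_iff_mem]
    exact hx
  have hfin : (Set.range fun i : ℕ => (σ ^ i) x).Finite := by
    refine (D.toFinset.finite_toSet).subset ?_
    rintro _ ⟨i, rfl⟩
    rw [Finset.mem_coe, Multiset.mem_toFinset]
    exact hmem i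
  exact Set.infinite_range_of_injective hinj hfin

/-- The invariant divisors of degree `m` are finitely many. -/
theorem finite_inv (σ : Equiv.Perm X) (hσ : FinFix σ) (m : ℕ) : Finite (Inv σ m) := by
  classical
  have hF : Finite {x : X // (σ ^ m.factorial) x = x} := hσ _ (Nat.factorial_pos m)
  have : Fintype {x : X // (σ ^ m.factorial) x = x} := Fintype.ofFinite _
  -- every invariant divisor is a multiset on the finite set of fixed points of `σ ^ m!`
  have hfix : ∀ D : Inv σ m, ∀ x ∈ D.1, (σ ^ m.factorial) x = x := by
    rintro ⟨D, hD, rfl⟩ x hx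
    have hper : minimalPeriod σ x ∣ D.card.factorial :=
      Nat.dvd_factorial (period_pos σ hD hx) (period_le σ hD hx)
    rw [Equiv.Perm.coe_pow]
    exact (isPeriodicPt_iff_minimalPeriod_dvd.2 hper)
  let f : Inv σ m → Sym {x : X // (σ ^ m.factorial) x = x} m := fun D =>
    ⟨D.1.attach.map fun x => ⟨x.1, hfix D x.1 x.2⟩, by
      rw [Multiset.card_map, Multiset.card_attach, D.2.2]⟩
  refine Finite.of_injective f ?_
  intro D D' h
  have h1 := congrArg (fun s => (s.1).map Subtype.val) h
  simp only [f, Multiset.map_map, Function.comp_def] at h1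
  have h2 : ∀ E : Multiset X, Multiset.map (fun x : {x // x ∈ E} => (x : X)) E.attach = E :=
    fun E => Multiset.attach_map_val E
  rw [h2, h2] at h1
  exact Subtype.ext h1

end Pool.Agent.TIFS
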