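import Pool.Agent.TIFS.S1a

/-!
# TIF-S1b: the recursion `m bb m = ∑_{1 ≤ j ≤ m} NN j * bb (m - j)`
-/

set_option autoImplicit false

open Function

namespace Pool.Agent.TIFS

variable {X : Type*}

/-- `(D, x, t)` with `1 ≤ t ≤ count x D` -/
private structure Lt (σ : Equiv.Perm X) (m : ℕ) where
  D : Multiset X
  inv : D.map σ = D
  card : D.card = m
  x : X
  t : ℕ
  pos : 1 ≤ t
  le : t • orb σ x ≤ D
  mem : x ∈ D

/-- `(j, x, D')` with `σ ^ j x = x` -/
private structure Rt (σ : Equiv.Perm X) (m : ℕ) where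
  j : ℕ
  pos : 1 ≤ j
  le : j ≤ m
  x : X
  fix : (σ ^ j) x = x
  D : Multiset X
  inv : D.map σ = D
  card : D.card = m - j

private theorem per_dvd (σ : Equiv.Perm X) {j : ℕ} {x : X} (h : (σ ^ j) x = x) :
    minimalPeriod σ x ∣ j := by
  rw [← isPeriodicPt_iff_minimalPeriod_dvd]
  rw [Equiv.Perm.coe_pow] at h
  exact h

private theorem per_pos (σ : Equiv.Perm X) {j : ℕ} (hj : 1 ≤ j) {x : X} (h : (σ ^ j) x = x) :
    0 < minimalPeriod σ x := Nat.pos_of_dvd_of_pos (per_dvd σ h) hj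

private theorem fix_of_dvd (σ : Equiv.Perm X) {j : ℕ} {x : X} (h : minimalPeriod σ x ∣ j) :
    (σ ^ j) x = x := by
  rw [Equiv.Perm.coe_pow]
  exact isPeriodicPt_iff_minimalPeriod_dvd.2 h

private theorem map_nsmul_orb (σ : Equiv.Perm X) (x : X) (t : ℕ) :
    (t • orb σ x).map σ = t • orb σ x := by
  rw [Multiset.map_nsmul, map_orb]

private theorem card_nsmul_orb (σ : Equiv.Perm X) (x : X) (t : ℕ) :
    (t • orb σ x).card = t * minimalPeriod σ x := by
  rw [Multiset.card_nsmul, card_orb]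

private noncomputable def fwd (σ : Equiv.Perm X) (m : ℕ) (r : Rt σ m) : Lt σ m where
  D := r.D + (r.j / minimalPeriod σ r.x) • orb σ r.x
  inv := by rw [Multiset.map_add, r.inv, map_nsmul_orb]
  card := by
    rw [Multiset.card_add, r.card, card_nsmul_orb, Nat.div_mul_cancel (per_dvd σ r.fix)]
    have := r.le
    omega
  x := r.x
  t := r.j / minimalPeriod σ r.x
  pos := Nat.div_pos (Nat.le_of_dvd r.pos (per_dvd σ r.fix)) (per_pos σ r.pos r.fix)
  le := Multiset.le_add_left _ _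
  mem := by
    have h1 : 1 ≤ r.j / minimalPeriod σ r.x :=
      Nat.div_pos (Nat.le_of_dvd r.pos (per_dvd σ r.fix)) (per_pos σ r.pos r.fix)
    rw [Multiset.mem_add]
    right
    rw [Multiset.mem_nsmul]
    exact ⟨by omega, mem_orb σ (per_pos σ r.pos r.fix)⟩

private noncomputable def bwd [DecidableEq X] (σ : Equiv.Perm X) (m : ℕ) (l : Lt σ m) : Rt σ m where
  j := l.t * minimalPeriod σ l.x
  pos := Nat.mul_pos l.pos (period_pos σ l.inv l.mem)
  le := by
    have h := Multiset.card_le_card l.le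
    rwa [card_nsmul_orb, l.card] at h
  x := l.x
  fix := fix_of_dvd σ (Dvd.intro_left _ rfl)
  D := l.D - l.t • orb σ l.x
  inv := by
    obtain ⟨E, hE⟩ := Multiset.le_iff_exists_add.1 l.le
    have h1 : l.D - l.t • orb σ l.x = E := by rw [hE, add_tsub_cancel_left]
    rw [h1]
    have h2 := l.inv
    rw [hE, Multiset.map_add, map_nsmul_orb] at h2
    exact add_left_cancel h2
  card := by
    rw [Multiset.card_sub l.le, l.card, card_nsmul_orb]

private theorem bwd_fwd [DecidableEq X] (σ : Equiv.Perm X) (m : ℕ) (r : Rt σ m) :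
    bwd σ m (fwd σ m r) = r := by
  obtain ⟨j, hj, hle, x, hx, D, hD, hc⟩ := r
  unfold bwd fwd
  simp only [Rt.mk.injEq]
  exact ⟨Nat.div_mul_cancel (per_dvd σ hx), trivial, by rw [add_tsub_cancel_right]⟩

private theorem fwd_bwd [DecidableEq X] (σ : Equiv.Perm X) (m : ℕ) (l : Lt σ m) :
    fwd σ m (bwd σ m l) = l := by
  have hp := period_pos σ l.inv l.mem
  obtain ⟨D, hD, hc, x, t, ht, hle, hm⟩ := l
  unfold bwd fwd
  simp only [Lt.mk.injEq]
  have h1 : t * minimalPeriod σ x / minimalPeriod σ x = t := Nat.mul_div_cancel _ hp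
  refine ⟨?_, trivial, h1⟩
  rw [h1, tsub_add_cancel_of_le hle]

/-- The recursion. -/
theorem recursion (σ : Equiv.Perm X) (hσ : FinFix σ) (m : ℕ) :
    m * bb σ m = ∑ j ∈ Finset.Icc 1 m, NN σ j * bb σ (m - j) := by
  classical
  have hfi := fun m => finite_inv σ hσ m
  have : Fintype (Inv σ m) := Fintype.ofFinite _
  -- left side
  let eL : Lt σ m ≃ Σ D : Inv σ m, Σ x : {x // x ∈ D.1.toFinset}, Fin (D.1.count x.1) :=
    { toFun := fun l => ⟨⟨l.D, l.inv, l.card⟩, ⟨l.x, Multiset.mem_toFinset.2 l.mem⟩,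
        ⟨l.t - 1, by
          have h1 := Multiset.count_le_of_le l.x l.le
          rw [Multiset.count_nsmul, Multiset.count_eq_one_of_mem (nodup_orb σ l.x)
            (mem_orb σ (period_pos σ l.inv l.mem)), mul_one] at h1
          have h2 := l.pos
          show l.t - 1 < l.D.count l.x
          omega⟩⟩
      invFun := fun s => ⟨s.1.1, s.1.2.1, s.1.2.2, s.2.1.1, s.2.2.1 + 1, by omega,
        smul_orb_le σ s.1.2.1 (by have := s.2.2.2; omega), Multiset.mem_toFinset.1 s.2.1.2⟩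
      left_inv := by
        rintro ⟨D, hD, hc, x, t, ht, hle, hm⟩
        simp only [Lt.mk.injEq, true_and]
        omega
      right_inv := by
        rintro ⟨⟨D, hD, hc⟩, ⟨x, hx⟩, ⟨t, ht⟩⟩
        rfl }
  have hL : Nat.card (Lt σ m) = m * bb σ m := by
    rw [Nat.card_congr eL, Nat.card_sigma]
    have h1 : ∀ D : Inv σ m, Nat.card (Σ x : {x // x ∈ D.1.toFinset}, Fin (D.1.count x.1)) = m := by
      rintro ⟨D, hD, hc⟩
      rw [Nat.card_sigma]
      simp only [Nat.card_eq_fintype_card, Fintype.card_fin]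
      rw [Finset.sum_coe_sort D.toFinset (fun x => D.count x), Multiset.toFinset_sum_count_eq, hc]
    rw [Finset.sum_congr rfl fun D _ => h1 D, Finset.sum_const, Finset.card_univ, smul_eq_mul,
      bb, Nat.card_eq_fintype_card, mul_comm]
  -- right side
  let eR : Rt σ m ≃ Σ j : {j // j ∈ Finset.Icc 1 m}, {x : X // (σ ^ j.1) x = x} × Inv σ (m - j.1) :=
    { toFun := fun r => ⟨⟨r.j, Finset.mem_Icc.2 ⟨r.pos, r.le⟩⟩, ⟨r.x, r.fix⟩, ⟨r.D, r.inv, r.card⟩⟩
      invFun := fun s => ⟨s.1.1, (Finset.mem_Icc.1 s.1.2).1, (Finset.mem_Icc.1 s.1.2).2, s.2.1.1,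
        s.2.1.2, s.2.2.1, s.2.2.2.1, s.2.2.2.2⟩
      left_inv := fun r => rfl
      right_inv := fun s => rfl }
  have hR : Nat.card (Rt σ m) = ∑ j ∈ Finset.Icc 1 m, NN σ j * bb σ (m - j) := by
    have hfin : ∀ j : {j // j ∈ Finset.Icc 1 m},
        Finite ({x : X // (σ ^ j.1) x = x} × Inv σ (m - j.1)) := by
      rintro ⟨j, hj⟩
      have h1 := hσ j (Finset.mem_Icc.1 hj).1
      have h2 := hfi (m - j)
      exact Finite.instProd
    rw [Nat.card_congr eR, Nat.card_sigma]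
    rw [Finset.sum_congr rfl fun j _ => Nat.card_prod _ _]
    exact Finset.sum_coe_sort (Finset.Icc 1 m) fun j => NN σ j * bb σ (m - j)
  rw [← hL, ← hR]
  exact Nat.card_congr ⟨bwd σ m, fwd σ m, fwd_bwd σ m, bwd_fwd σ m⟩

end Pool.Agent.TIFS
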