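import Mathlib

/-!
# TIF-W1: determinants on the quotient by a product of maximal ideals (from TBM/Weil.lean)
-/

set_option autoImplicit false

namespace Pool.Agent.TIFS.W

open Module

variable {Ω S : Type*} [Field Ω] [CommRing S] [IsDedekindDomain S] [Algebra Ω S]

/-- The step: `I / I m` is one-dimensional. -/
theorem step (I : Ideal S) (hI : I ≠ ⊥) (ev : S →ₐ[Ω] Ω) [Module.Finite Ω (S ⧸ I)]
    (J : Ideal S) (hJ : J = I * RingHom.ker ev) :
    Module.Finite Ω (S ⧸ J) ∧ finrank Ω (S ⧸ J) = finrank Ω (S ⧸ I) + 1 ∧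
      ∀ u : S, LinearMap.det (LinearMap.mulLeft Ω (Ideal.Quotient.mk J u)) =
        ev u * LinearMap.det (LinearMap.mulLeft Ω (Ideal.Quotient.mk I u)) := by
  set m : Ideal S := RingHom.ker ev with hm
  have hmax : m.IsMaximal := by
    apply RingHom.ker_isMaximal_of_surjective
    intro z
    exact ⟨algebraMap Ω S z, by simp⟩
  have hJI : J ≤ I := hJ ▸ Ideal.mul_le_left
  let g : (S ⧸ J) →ₐ[Ω] (S ⧸ I) := Ideal.Quotient.factorₐ Ω hJI
  have hg : ∀ x : S, g (Ideal.Quotient.mk J x) = Ideal.Quotient.mk I x := fun x => rfl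
  have hgs : Function.Surjective g.toLinearMap := by
    intro z
    obtain ⟨x, rfl⟩ := Ideal.Quotient.mk_surjective z
    exact ⟨Ideal.Quotient.mk J x, rfl⟩
  set W : Submodule Ω (S ⧸ J) := LinearMap.ker g.toLinearMap with hW
  have hWmem : ∀ x : S, Ideal.Quotient.mk J x ∈ W ↔ x ∈ I := by
    intro x
    rw [hW, LinearMap.mem_ker]
    change Ideal.Quotient.mk I x = 0 ↔ _
    exact Ideal.Quotient.eq_zero_iff_mem
  -- scalars act through `ev`
  have hsc : ∀ s x : S, x ∈ I → Ideal.Quotient.mk J (s * x) = ev s • Ideal.Quotient.mk J x := by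
    intro s x hx
    have h0 : algebraMap Ω (S ⧸ J) (ev s) = Ideal.Quotient.mk J (algebraMap Ω S (ev s)) := rfl
    rw [Algebra.smul_def, h0, ← map_mul, Ideal.Quotient.eq, ← sub_mul, hJ,
      mul_comm (s - algebraMap Ω S (ev s)) x]
    exact Ideal.mul_mem_mul hx (by rw [hm, RingHom.mem_ker]; simp)
  -- an element of `I` outside `I m`
  have hne : J ≠ I := by
    intro h
    have h1 : I * m = I * ⊤ := by rw [← hJ, h, Ideal.mul_top]
    exact hmax.ne_top (mul_left_cancel₀ hI h1)
  obtain ⟨x0, hx0I, hx0J⟩ : ∃ x ∈ I, x ∉ J := by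
    by_contra hcon
    push Not at hcon
    exact hne (le_antisymm hJI hcon)
  have hspan : Ideal.span {x0} ⊔ J = I := by
    have h1 : Ideal.span {x0} ⊔ J ≤ I :=
      sup_le ((Ideal.span_singleton_le_iff_mem I).2 hx0I) hJI
    obtain ⟨K, hK⟩ := Ideal.dvd_iff_le.2 h1
    have h2 : m ≤ K := by
      have h3 : I * m ≤ I * K := by
        rw [← hK, ← hJ]
        exact le_sup_right
      exact Ideal.dvd_iff_le.1 ((mul_dvd_mul_iff_left hI).1 (Ideal.dvd_iff_le.2 h3))
    rcases eq_or_ne K ⊤ with h3 | h3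
    · rw [hK, h3, Ideal.mul_top]
    · exfalso
      apply hx0J
      have h4 : Ideal.span {x0} ⊔ J = J := by rw [hK, ← hmax.eq_of_le h3 h2, hJ]
      rw [← h4]
      exact Ideal.mem_sup_left (Ideal.mem_span_singleton_self x0)
  have hone : finrank Ω W = 1 := by
    refine finrank_eq_one (⟨Ideal.Quotient.mk J x0, (hWmem x0).2 hx0I⟩ : W) ?_ ?_
    · intro h
      have h1 := congrArg Subtype.val h
      exact hx0J (Ideal.Quotient.eq_zero_iff_mem.1 h1)
    · rintro ⟨w, hw⟩
      obtain ⟨x, rfl⟩ := Ideal.Quotient.mk_surjective w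
      have hx := (hWmem x).1 hw
      rw [← hspan, Ideal.mem_span_singleton_sup] at hx
      obtain ⟨s, b, hb, hsb⟩ := hx
      refine ⟨ev s, Subtype.ext ?_⟩
      change ev s • Ideal.Quotient.mk J x0 = Ideal.Quotient.mk J x
      rw [← hsc s x0 hx0I, ← hsb, map_add, Ideal.Quotient.eq_zero_iff_mem.2 hb, add_zero]
  have : Module.Finite Ω W := Module.finite_of_finrank_eq_succ (n := 0) hone
  let E : ((S ⧸ J) ⧸ W) ≃ₗ[Ω] (S ⧸ I) := LinearMap.quotKerEquivOfSurjective g.toLinearMap hgs
  have : Module.Finite Ω ((S ⧸ J) ⧸ W) := Module.Finite.equiv E.symm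
  have hfin : Module.Finite Ω (S ⧸ J) := Module.Finite.of_submodule_quotient W
  refine ⟨hfin, ?_, fun u => ?_⟩
  · have h1 := Submodule.finrank_quotient_add_finrank W
    rw [hone, E.finrank_eq] at h1
    exact h1.symm
  · set e : (S ⧸ J) →ₗ[Ω] (S ⧸ J) := LinearMap.mulLeft Ω (Ideal.Quotient.mk J u) with he
    have hle : W ≤ W.comap e := by
      intro w hw
      obtain ⟨x, rfl⟩ := Ideal.Quotient.mk_surjective w
      rw [Submodule.mem_comap, he, LinearMap.mulLeft_apply, ← map_mul, hWmem]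
      exact I.mul_mem_left u ((hWmem x).1 hw)
    rw [LinearMap.det_eq_det_mul_det W e hle]
    congr 1
    · have h1 : LinearMap.restrict e (p := W) (q := W) hle = ev u • LinearMap.id := by
        ext ⟨w, hw⟩
        obtain ⟨x, rfl⟩ := Ideal.Quotient.mk_surjective w
        change Ideal.Quotient.mk J u * Ideal.Quotient.mk J x = ev u • Ideal.Quotient.mk J x
        rw [← map_mul, hsc u x ((hWmem x).1 hw)]
      rw [h1, LinearMap.det_smul, hone, LinearMap.det_id, pow_one, mul_one]
    · have hE : ∀ v : S ⧸ J, E (Submodule.Quotient.mk v) = g v := fun v => rfl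
      rw [← LinearMap.det_conj (W.mapQ W e hle) E]
      congr 1
      refine LinearMap.ext fun z => ?_
      obtain ⟨w, rfl⟩ := E.surjective z
      obtain ⟨v, rfl⟩ := Submodule.Quotient.mk_surjective W w
      rw [LinearMap.comp_apply, LinearMap.comp_apply, LinearEquiv.coe_coe, LinearEquiv.coe_coe,
        LinearEquiv.symm_apply_apply, Submodule.mapQ_apply, hE, hE, he, LinearMap.mulLeft_apply,
        LinearMap.mulLeft_apply, map_mul, hg]

/-- Determinants on the quotient by a product of maximal ideals of degree one. -/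
theorem filt {ι : Type*} (m : ι → Ideal S) (ev : ι → S →ₐ[Ω] Ω) (hne : ∀ i, m i ≠ ⊥)
    (Z : Multiset ι) (hm : ∀ i ∈ Z, m i = RingHom.ker (ev i)) :
    Module.Finite Ω (S ⧸ (Z.map m).prod) ∧ finrank Ω (S ⧸ (Z.map m).prod) = Z.card ∧
      ∀ u : S, LinearMap.det (LinearMap.mulLeft Ω (Ideal.Quotient.mk (Z.map m).prod u)) =
        (Z.map fun i => ev i u).prod := by
  classical
  induction Z using Multiset.induction with
  | empty =>
    have h : ((0 : Multiset ι).map m).prod = ⊤ := by simp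
    have hs : Subsingleton (S ⧸ ((0 : Multiset ι).map m).prod) := by
      rw [h]
      exact Ideal.Quotient.subsingleton_iff.2 rfl
    refine ⟨inferInstance, ?_, fun u => ?_⟩
    · rw [finrank_zero_of_subsingleton, Multiset.card_zero]
    · rw [LinearMap.det_eq_one_of_subsingleton, Multiset.map_zero, Multiset.prod_zero]
  | cons a Z ih =>
    obtain ⟨h1, h2, h3⟩ := ih fun i hi => hm i (Multiset.mem_cons_of_mem hi)
    have := h1
    have hne' : (Z.map m).prod ≠ ⊥ := by
      rw [Ne, ← Submodule.zero_eq_bot, Multiset.prod_eq_zero_iff, Multiset.mem_map]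
      rintro ⟨i, _, hi⟩
      exact hne i (by rw [hi]; rfl)
    have hJ : ((a ::ₘ Z).map m).prod = (Z.map m).prod * RingHom.ker (ev a) := by
      rw [Multiset.map_cons, Multiset.prod_cons, hm a (Multiset.mem_cons_self a Z), mul_comm]
    obtain ⟨k1, k2, k3⟩ := step (Z.map m).prod hne' (ev a) _ hJ
    refine ⟨k1, ?_, fun u => ?_⟩
    · rw [k2, h2, Multiset.card_cons]
    · rw [k3 u, h3 u, Multiset.map_cons, Multiset.prod_cons]

end Pool.Agent.TIFS.W
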