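import Pool.Agent.TIFS.W2

/-!
# TIF-W3: determinants of bases of monic elements
-/

set_option autoImplicit false
set_option linter.unusedSectionVars false

namespace Pool.Agent.TIFS

open GT Module

/-- The determinant of a family with a triangular shape. -/
theorem det_monic {κ V ι : Type} [Field κ] [AddCommGroup V] [Module κ V] [Fintype ι] [DecidableEq ι]
    (B : Basis ι κ V) (b' : ι → V) (o : ι → ℕ) (ho : Function.Injective o) (π : Equiv.Perm ι)
    (h1 : ∀ i, B.repr (b' i) (π i) = 1) (h2 : ∀ i j, o (π i) < o j → B.repr (b' i) j = 0) :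
    B.det b' = ((Equiv.Perm.sign π : ℤ) : κ) := by
  classical
  set N := B.toMatrix b' with hN
  have hdet : (N.submatrix id π.symm).det = 1 := by
    have htri : (N.submatrix id π.symm).BlockTriangular o := by
      intro i j hij
      rw [Matrix.submatrix_apply, hN, Basis.toMatrix_apply]
      apply h2
      rw [Equiv.apply_symm_apply]
      exact hij
    rw [htri.det]
    apply Finset.prod_eq_one
    intro a ha
    obtain ⟨i, -, rfl⟩ := Finset.mem_image.1 ha
    have hs : Subsingleton {j // o j = o i} := ⟨fun x y => Subtype.ext (ho (x.2.trans y.2.symm))⟩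
    rw [Matrix.det_eq_elem_of_subsingleton _ ⟨i, rfl⟩]
    show N i (π.symm i) = 1
    rw [hN, Basis.toMatrix_apply]
    have h3 := h1 (π.symm i)
    rwa [Equiv.apply_symm_apply] at h3
  rw [Matrix.det_permute'] at hdet
  rw [Basis.det_apply, ← hN]
  have hs : ((Equiv.Perm.sign π.symm : ℤ) : κ) = ((Equiv.Perm.sign π : ℤ) : κ) := by
    rw [Equiv.Perm.sign_symm]
  have hsq : ((Equiv.Perm.sign π : ℤ) : κ) * ((Equiv.Perm.sign π : ℤ) : κ) = 1 := by
    rcases Int.units_eq_one_or (Equiv.Perm.sign π) with h | h <;> simp [h]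
  have hd' : ((Equiv.Perm.sign π : ℤ) : κ) * N.det = 1 := by
    rw [← hs]
    exact_mod_cast hdet
  calc N.det = ((Equiv.Perm.sign π : ℤ) : κ) * ((Equiv.Perm.sign π : ℤ) : κ) * N.det := by
        rw [hsq, one_mul]
    _ = ((Equiv.Perm.sign π : ℤ) : κ) := by rw [mul_assoc, hd', mul_one]

variable {d : ℕ} [NeZero d] {κ : Type} [Field κ] {T : Tab κ d}

/-- pole orders -/
def SO (T : Tab κ d) : Set ℕ := {s | ∃ r : WB T, r ≠ 0 ∧ pord r = s}

/-- A family of monic elements with distinct pole orders. -/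
structure Mon (T : Tab κ d) (M : ℕ) {ι : Type} (b : ι → WB T) (o : ι → ℕ) : Prop where
  lco : ∀ i, lc (b i) = 1
  ord : ∀ i, pord (b i) = o i
  inj : Function.Injective o
  le : ∀ i, o i ≤ M
  all : ∀ s ∈ SO T, s ≤ M → ∃ i, o i = s

theorem Mon.ne {M : ℕ} {ι : Type} {b : ι → WB T} {o : ι → ℕ} (h : Mon T M b o) (i : ι) : b i ≠ 0 := by
  intro h0
  have h1 := h.lco i
  rw [h0, (lc_eq_zero_iff _).2 rfl] at h1
  exact zero_ne_one h1

/-- The order and the leading coefficient of a linear combination. -/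
theorem Mon.sum {M : ℕ} {ι : Type} [Fintype ι] {b : ι → WB T} {o : ι → ℕ} (h : Mon T M b o)
    (c : ι → κ) (hc : c ≠ 0) : ∃ i, c i ≠ 0 ∧ (∀ j, o i < o j → c j = 0) ∧
      pord (∑ j, c j • b j) = o i ∧ GT.lc (∑ j, c j • b j) = c i := by
  classical
  have hne : (Finset.univ.filter fun i => c i ≠ 0).Nonempty := by
    by_contra h0
    apply hc
    funext i
    by_contra hi
    exact h0 ⟨i, Finset.mem_filter.2 ⟨Finset.mem_univ i, hi⟩⟩
  obtain ⟨i, hi, hmax⟩ := Finset.exists_max_image _ o hne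
  have hci := (Finset.mem_filter.1 hi).2
  have hz : ∀ j, o i < o j → c j = 0 := by
    intro j hj
    by_contra hcj
    have := hmax j (Finset.mem_filter.2 ⟨Finset.mem_univ j, hcj⟩)
    omega
  have hlcf : ∀ j, lcf T (o i) (c j • b j) = if j = i then c i else 0 := by
    intro j
    rw [map_smul, smul_eq_mul]
    split_ifs with hji
    · subst hji
      have h1 := h.lco j
      unfold GT.lc at h1
      rw [h.ord j] at h1
      rw [h1, mul_one]
    · by_cases hcj : c j = 0
      · rw [hcj, zero_mul]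
      · have h1 : o j < o i := by
          have h2 := hmax j (Finset.mem_filter.2 ⟨Finset.mem_univ j, hcj⟩)
          have h3 : o j ≠ o i := fun h4 => hji (h.inj h4)
          omega
        have h2 : lcf T (o i) (b j) = 0 := by
          by_contra hne'
          have h3 := pord_eq_of (m := o i) (b := b j) ((mem_Ble_iff _ _).2 (by rw [h.ord]; omega)) hne'
          rw [h.ord] at h3
          omega
        rw [h2, mul_zero]
  have hsum : lcf T (o i) (∑ j, c j • b j) = c i := by
    rw [map_sum, Finset.sum_congr rfl fun j _ => hlcf j, Finset.sum_ite_eq' Finset.univ i]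
    simp
  have hmem : (∑ j, c j • b j) ∈ Ble T (o i) := by
    apply Submodule.sum_mem
    intro j _
    by_cases hcj : c j = 0
    · rw [hcj, zero_smul]
      exact zero_mem _
    · apply Submodule.smul_mem
      rw [mem_Ble_iff, h.ord]
      exact hmax j (Finset.mem_filter.2 ⟨Finset.mem_univ j, hcj⟩)
  have hp : pord (∑ j, c j • b j) = o i := pord_eq_of hmem (by rw [hsum]; exact hci)
  refine ⟨i, hci, hz, hp, ?_⟩
  unfold GT.lc
  rw [hp, hsum]

theorem Mon.mem {M : ℕ} {ι : Type} {b : ι → WB T} {o : ι → ℕ} (h : Mon T M b o) (i : ι) :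
    b i ∈ Ble T M := by
  rw [mem_Ble_iff, h.ord]
  exact h.le i

theorem Mon.span_le {M : ℕ} {ι : Type} {b : ι → WB T} {o : ι → ℕ} (h : Mon T M b o) (m : ℕ) :
    ∀ x : WB T, x ∈ Ble T M → pord x ≤ m → x ∈ Submodule.span κ (Set.range b) := by
  induction m using Nat.strong_induction_on with
  | _ m ih =>
    intro x hx hm
    by_cases hx0 : x = 0
    · rw [hx0]
      exact zero_mem _
    · obtain ⟨i, hi⟩ := h.all (pord x) ⟨x, hx0, rfl⟩ ((mem_Ble_iff _ _).1 hx)
      have hl := lc_ne hx0
      by_cases hxe : x = lc x • b i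
      · rw [hxe]
        exact Submodule.smul_mem _ _ (Submodule.subset_span ⟨i, rfl⟩)
      · have h1 : pord (lc x • b i) = pord x := by
          rw [pord_smul hl, h.ord, hi]
        have h2 := pord_sub_lt h1.symm (by rw [lc_smul, h.lco, mul_one]) hxe
        have h3 : x - lc x • b i ∈ Submodule.span κ (Set.range b) := by
          refine ih (pord (x - lc x • b i)) (by omega) _ ?_ le_rfl
          exact sub_mem hx (Submodule.smul_mem _ _ (h.mem i))
        have h4 := add_mem h3 (Submodule.smul_mem _ (lc x) (Submodule.subset_span ⟨i, rfl⟩) :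
          lc x • b i ∈ Submodule.span κ (Set.range b))
        rwa [sub_add_cancel] at h4

/-- The basis of `Ble T M`. -/
theorem Mon.exists_basis {M : ℕ} {ι : Type} [Fintype ι] {b : ι → WB T} {o : ι → ℕ} (h : Mon T M b o) :
    ∃ B : Basis ι κ (Ble T M), ∀ i, (B i : WB T) = b i := by
  have hli : LinearIndependent κ (fun i => (⟨b i, h.mem i⟩ : Ble T M)) := by
    rw [Fintype.linearIndependent_iff]
    intro c hc
    by_contra hne
    push Not at hne
    obtain ⟨i₀, hi₀⟩ := hne
    obtain ⟨i, hci, -, -, hl⟩ := h.sum c (fun h0 => hi₀ (congrFun h0 i₀))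
    have h1 : ∑ j, c j • b j = 0 := by
      have h2 := congrArg Subtype.val hc
      rw [AddSubmonoidClass.coe_finsetSum] at h2
      exact h2
    rw [h1, (lc_eq_zero_iff _).2 rfl] at hl
    exact hci hl.symm
  have hsp : ⊤ ≤ Submodule.span κ (Set.range fun i => (⟨b i, h.mem i⟩ : Ble T M)) := by
    rintro ⟨x, hx⟩ -
    have h1 := h.span_le (pord x) x hx le_rfl
    rw [Submodule.mem_span_range_iff_exists_fun] at h1 ⊢
    obtain ⟨c, hc⟩ := h1
    refine ⟨c, Subtype.ext ?_⟩
    rw [AddSubmonoidClass.coe_finsetSum]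
    exact hc
  refine ⟨Basis.mk hli hsp, fun i => ?_⟩
  rw [Basis.mk_apply]

/-- the coordinates of an element -/
theorem Mon.repr {M : ℕ} {ι : Type} [Fintype ι] {b : ι → WB T} {o : ι → ℕ} (h : Mon T M b o)
    (B : Basis ι κ (Ble T M)) (hB : ∀ i, (B i : WB T) = b i) (x : Ble T M) (i : ι)
    (h1 : pord (x : WB T) = o i) (h2 : (x : WB T) ≠ 0) :
    B.repr x i = lc (x : WB T) ∧ ∀ j, o i < o j → B.repr x j = 0 := by
  have hx : ∑ j, B.repr x j • b j = (x : WB T) := by
    have h3 := congrArg Subtype.val (B.sum_repr x)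
    rw [AddSubmonoidClass.coe_finsetSum] at h3
    rw [← h3]
    refine Finset.sum_congr rfl fun j _ => ?_
    rw [← hB]
    rfl
  have hc : (fun j => B.repr x j) ≠ 0 := by
    intro h0
    apply h2
    rw [← hx]
    refine Finset.sum_eq_zero fun j _ => ?_
    rw [congrFun h0 j]
    exact zero_smul _ _
  obtain ⟨i', -, hz, hp, hl⟩ := h.sum (fun j => B.repr x j) hc
  rw [hx] at hp hl
  obtain rfl : i' = i := h.inj (hp.symm.trans h1)
  exact ⟨hl.symm, hz⟩

/-- The determinant of one monic basis with respect to another depends only on the orders. -/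
theorem Mon.det {M : ℕ} {ι : Type} [Fintype ι] [DecidableEq ι] {b b' : ι → WB T} {o o' : ι → ℕ}
    (h : Mon T M b o) (h' : Mon T M b' o') (B B' : Basis ι κ (Ble T M))
    (hB : ∀ i, (B i : WB T) = b i) (hB' : ∀ i, (B' i : WB T) = b' i) (π : Equiv.Perm ι)
    (hπ : ∀ i, o' i = o (π i)) : B.det B' = ((Equiv.Perm.sign π : ℤ) : κ) := by
  have hne : ∀ i, ((B' i : Ble T M) : WB T) ≠ 0 := fun i => by rw [hB']; exact h'.ne i
  have hord : ∀ i, pord ((B' i : Ble T M) : WB T) = o (π i) := fun i => by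
    rw [hB', h'.ord, hπ]
  refine det_monic B B' o h.inj π (fun i => ?_) (fun i j hij => ?_)
  · rw [(h.repr B hB (B' i) (π i) (hord i) (hne i)).1, hB', h'.lco]
  · exact (h.repr B hB (B' i) (π i) (hord i) (hne i)).2 j hij

/-- the permutation -/
theorem Mon.exists_perm {M : ℕ} {ι : Type} {b b' : ι → WB T} {o o' : ι → ℕ}
    (h : Mon T M b o) (h' : Mon T M b' o') : ∃ π : Equiv.Perm ι, ∀ i, o' i = o (π i) := by
  have h1 : ∀ i, ∃ j, o j = o' i := fun i => h.all _ ⟨b' i, h'.ne i, h'.ord i⟩ (h'.le i)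
  have h2 : ∀ j, ∃ i, o' i = o j := fun j => h'.all _ ⟨b j, h.ne j, h.ord j⟩ (h.le j)
  choose f hf using h1
  choose g hg using h2
  refine ⟨⟨f, g, fun i => h'.inj ?_, fun j => h.inj ?_⟩, fun i => (hf i).symm⟩
  · rw [hg, hf]
  · rw [hf, hg]

end Pool.Agent.TIFS
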