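import Pool.Agent.TIFS.W3

/-!
# TIF-W4: Weil reciprocity up to a sign which depends only on the pole orders
-/

set_option autoImplicit false
set_option linter.unusedSectionVars false

namespace Pool.Agent.TIFS

open GT Module

variable {d : ℕ} [NeZero d] {κ : Type} [Field κ] {T : Tab κ d}

theorem SO_add {a b : ℕ} (ha : a ∈ SO T) (hb : b ∈ SO T) : a + b ∈ SO T := by
  obtain ⟨r, hr, rfl⟩ := ha
  obtain ⟨s, hs, rfl⟩ := hb
  exact ⟨r * s, mul_ne hr hs, pord_mul hr hs⟩

theorem exists_c₀ (T : Tab κ d) : ∃ c₀ : ℕ, ∀ s, c₀ ≤ s → s ∈ SO T := GT.exists_pord T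

theorem exists_e (T : Tab κ d) : ∃ e : ℕ → WB T, ∀ s ∈ SO T, pord (e s) = s ∧ lc (e s) = 1 := by
  have h : ∀ s, ∃ x : WB T, s ∈ SO T → pord x = s ∧ lc x = 1 := by
    intro s
    by_cases hs : s ∈ SO T
    · obtain ⟨r, hr, hrs⟩ := hs
      have hl := lc_ne hr
      exact ⟨(lc r)⁻¹ • r, fun _ => ⟨by rw [pord_smul (inv_ne_zero hl), hrs],
        by rw [lc_smul, inv_mul_cancel₀ hl]⟩⟩
    · exact ⟨0, fun h => absurd h hs⟩
  choose e he using h
  exact ⟨e, he⟩

/-- the gaps of `b + S` in `S` (below `b + c₀`) -/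
noncomputable def Gp (T : Tab κ d) (c₀ b : ℕ) : Finset ℕ :=
  open Classical in (Finset.range (b + c₀)).filter fun s => s ∈ SO T ∧ ∀ t ∈ SO T, s ≠ b + t

theorem mem_Gp {c₀ b s : ℕ} : s ∈ Gp T c₀ b ↔ s < b + c₀ ∧ s ∈ SO T ∧ ∀ t ∈ SO T, s ≠ b + t := by
  classical
  rw [Gp, Finset.mem_filter, Finset.mem_range]

/-- the small pole orders -/
noncomputable def Sm (T : Tab κ d) (c₀ : ℕ) : Finset ℕ :=
  open Classical in (Finset.range (c₀ + 1)).filter fun s => s ∈ SO T

theorem mem_Sm {c₀ s : ℕ} : s ∈ Sm T c₀ ↔ s ≤ c₀ ∧ s ∈ SO T := by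
  classical
  rw [Sm, Finset.mem_filter, Finset.mem_range, Nat.lt_succ_iff]

/-- the index set -/
abbrev Ix (T : Tab κ d) (c₀ a b : ℕ) : Type :=
  {s // s ∈ Gp T c₀ b} ⊕ ({s // s ∈ Gp T c₀ a} ⊕ {s // s ∈ Sm T c₀})

/-- the orders of the first family -/
noncomputable def o1 (T : Tab κ d) (c₀ a b : ℕ) : Ix T c₀ a b → ℕ :=
  Sum.elim (fun s => s.1) (Sum.elim (fun s => b + s.1) (fun s => a + b + s.1))

/-- the first family -/
noncomputable def b1 (T : Tab κ d) (c₀ a b : ℕ) (e : ℕ → WB T) (u v : WB T) : Ix T c₀ a b → WB T :=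
  Sum.elim (fun s => e s.1) (Sum.elim (fun s => v * e s.1) (fun s => u * v * e s.1))

/-- the orders of the second family -/
noncomputable def o2 (T : Tab κ d) (c₀ a b : ℕ) : Ix T c₀ a b → ℕ :=
  Sum.elim (fun s => a + s.1) (Sum.elim (fun s => s.1) (fun s => a + b + s.1))

/-- the second family -/
noncomputable def b2 (T : Tab κ d) (c₀ a b : ℕ) (e : ℕ → WB T) (u v : WB T) : Ix T c₀ a b → WB T :=
  Sum.elim (fun s => u * e s.1) (Sum.elim (fun s => e s.1) (fun s => u * v * e s.1))

/-- the third family -/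
noncomputable def b3 (T : Tab κ d) (c₀ a b : ℕ) (e : ℕ → WB T) (u v : WB T) : Ix T c₀ a b → WB T :=
  Sum.elim (fun s => u * e s.1) (Sum.elim (fun s => v * e s.1) (fun s => u * v * e s.1))

theorem mon1 {c₀ a b : ℕ} (hc₀ : ∀ s, c₀ ≤ s → s ∈ SO T) {e : ℕ → WB T}
    (he : ∀ s ∈ SO T, pord (e s) = s ∧ lc (e s) = 1) {u v : WB T} (hu : pord u = a) (hv : pord v = b)
    (hu1 : lc u = 1) (hv1 : lc v = 1) : Mon T (a + b + c₀) (b1 T c₀ a b e u v) (o1 T c₀ a b) := by
  have hu0 : u ≠ 0 := by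
    rintro rfl
    rw [(lc_eq_zero_iff _).2 rfl] at hu1
    exact zero_ne_one hu1
  have hv0 : v ≠ 0 := by
    rintro rfl
    rw [(lc_eq_zero_iff _).2 rfl] at hv1
    exact zero_ne_one hv1
  have he0 : ∀ s ∈ SO T, e s ≠ 0 := by
    intro s hs h0
    have h1 := (he s hs).2
    rw [h0, (lc_eq_zero_iff _).2 rfl] at h1
    exact zero_ne_one h1
  have ha : a ∈ SO T := ⟨u, hu0, hu⟩
  have hb : b ∈ SO T := ⟨v, hv0, hv⟩
  refine ⟨?_, ?_, ?_, ?_, ?_⟩
  · rintro (⟨s, hs⟩ | ⟨s, hs⟩ | ⟨s, hs⟩)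
    · exact (he s (mem_Gp.1 hs).2.1).2
    · show lc (v * e s) = 1
      rw [lc_mul, hv1, (he s (mem_Gp.1 hs).2.1).2, one_mul]
    · show lc (u * v * e s) = 1
      rw [lc_mul, lc_mul, hu1, hv1, (he s (mem_Sm.1 hs).2).2, one_mul, one_mul]
  · rintro (⟨s, hs⟩ | ⟨s, hs⟩ | ⟨s, hs⟩)
    · exact (he s (mem_Gp.1 hs).2.1).1
    · show pord (v * e s) = b + s
      rw [pord_mul hv0 (he0 s (mem_Gp.1 hs).2.1), hv, (he s (mem_Gp.1 hs).2.1).1]
    · show pord (u * v * e s) = a + b + s
      rw [pord_mul (mul_ne hu0 hv0) (he0 s (mem_Sm.1 hs).2), pord_mul hu0 hv0, hu, hv,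
        (he s (mem_Sm.1 hs).2).1]
  · rintro (⟨s, hs⟩ | ⟨s, hs⟩ | ⟨s, hs⟩) (⟨t, ht⟩ | ⟨t, ht⟩ | ⟨t, ht⟩) hst
    · have h1 : s = t := hst
      subst h1; rfl
    · exact absurd hst ((mem_Gp.1 hs).2.2 t (mem_Gp.1 ht).2.1)
    · have h1 : s = a + b + t := hst
      exact absurd (h1.trans (by ring)) ((mem_Gp.1 hs).2.2 (a + t) (SO_add ha (mem_Sm.1 ht).2))
    · exact absurd hst.symm ((mem_Gp.1 ht).2.2 s (mem_Gp.1 hs).2.1)
    · have h1 : b + s = b + t := hst
      obtain rfl : s = t := by omega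
      rfl
    · have h1 : b + s = a + b + t := hst
      exact absurd (show s = a + t by omega) ((mem_Gp.1 hs).2.2 t (mem_Sm.1 ht).2)
    · have h1 : a + b + s = t := hst
      exact absurd (h1.symm.trans (by ring)) ((mem_Gp.1 ht).2.2 (a + s) (SO_add ha (mem_Sm.1 hs).2))
    · have h1 : a + b + s = b + t := hst
      exact absurd (show t = a + s by omega) ((mem_Gp.1 ht).2.2 s (mem_Sm.1 hs).2)
    · have h1 : a + b + s = a + b + t := hst
      obtain rfl : s = t := by omega
      rfl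
  · rintro (⟨s, hs⟩ | ⟨s, hs⟩ | ⟨s, hs⟩)
    · have := (mem_Gp.1 hs).1
      show s ≤ _
      omega
    · have := (mem_Gp.1 hs).1
      show b + s ≤ _
      omega
    · have := (mem_Sm.1 hs).1
      show a + b + s ≤ _
      omega
  · intro s hs hsM
    by_cases h1 : ∀ t ∈ SO T, s ≠ b + t
    · refine ⟨Sum.inl ⟨s, mem_Gp.2 ⟨?_, hs, h1⟩⟩, rfl⟩
      by_contra h2
      exact h1 (s - b) (hc₀ _ (by omega)) (by omega)
    · push Not at h1
      obtain ⟨t, ht, rfl⟩ := h1
      by_cases h2 : ∀ r ∈ SO T, t ≠ a + r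
      · refine ⟨Sum.inr (Sum.inl ⟨t, mem_Gp.2 ⟨?_, ht, h2⟩⟩), rfl⟩
        by_contra h3
        exact h2 (t - a) (hc₀ _ (by omega)) (by omega)
      · push Not at h2
        obtain ⟨r, hr, rfl⟩ := h2
        refine ⟨Sum.inr (Sum.inr ⟨r, mem_Sm.2 ⟨by omega, hr⟩⟩), ?_⟩
        show a + b + r = b + (a + r)
        ring

theorem Mon.comp {M : ℕ} {ι ι' : Type} {b : ι → WB T} {o : ι → ℕ} (h : Mon T M b o) (f : ι' ≃ ι) :
    Mon T M (fun i => b (f i)) (fun i => o (f i)) where
  lco i := h.lco _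
  ord i := h.ord _
  inj := h.inj.comp f.injective
  le i := h.le _
  all s hs hM := by
    obtain ⟨i, hi⟩ := h.all s hs hM
    exact ⟨f.symm i, by rw [Equiv.apply_symm_apply, hi]⟩

/-- exchange of the two first parts -/
def swp (T : Tab κ d) (c₀ a b : ℕ) : Ix T c₀ a b ≃ Ix T c₀ b a :=
  (Equiv.sumAssoc _ _ _).symm.trans
    ((Equiv.sumCongr (Equiv.sumComm _ _) (Equiv.refl _)).trans (Equiv.sumAssoc _ _ _))

theorem mon2 {c₀ a b : ℕ} (hc₀ : ∀ s, c₀ ≤ s → s ∈ SO T) {e : ℕ → WB T}
    (he : ∀ s ∈ SO T, pord (e s) = s ∧ lc (e s) = 1) {u v : WB T} (hu : pord u = a) (hv : pord v = b)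
    (hu1 : lc u = 1) (hv1 : lc v = 1) : Mon T (a + b + c₀) (b2 T c₀ a b e u v) (o2 T c₀ a b) := by
  have h := (mon1 hc₀ he hv hu hv1 hu1).comp (swp T c₀ a b)
  have e1 : (fun i => b1 T c₀ b a e v u (swp T c₀ a b i)) = b2 T c₀ a b e u v := by
    funext i
    rcases i with s | s | s
    · rfl
    · rfl
    · show v * u * e s.1 = u * v * e s.1
      rw [mul_comm v u]
  have e2 : (fun i => o1 T c₀ b a (swp T c₀ a b i)) = o2 T c₀ a b := by
    funext i
    rcases i with s | s | s
    · rfl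
    · rfl
    · show b + a + s.1 = a + b + s.1
      rw [add_comm b a]
  rw [e1, e2, add_comm b a] at h
  exact h

variable [IsDedekindDomain (WB T)]

/-- The determinant of the multiplication with `u` modulo `v`. -/
theorem det_first {c₀ a b : ℕ} (hc₀ : ∀ s, c₀ ≤ s → s ∈ SO T) {e : ℕ → WB T}
    (he : ∀ s ∈ SO T, pord (e s) = s ∧ lc (e s) = 1) {u v : WB T} (hu : pord u = a) (hv : pord v = b)
    (hu1 : lc u = 1) (hv1 : lc v = 1) (B : Basis (Ix T c₀ a b) κ (Ble T (a + b + c₀)))
    (hB : ∀ i, (B i : WB T) = b1 T c₀ a b e u v i) (F : Ix T c₀ a b → Ble T (a + b + c₀))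
    (hF : ∀ i, (F i : WB T) = b3 T c₀ a b e u v i) [Module.Finite κ (WB T ⧸ Ideal.span {v})] :
    B.det F = LinearMap.det (LinearMap.mulLeft κ (Ideal.Quotient.mk (Ideal.span {v}) u)) := by
  classical
  have hmon := mon1 (a := a) (b := b) hc₀ he hu hv hu1 hv1
  have hv0 : v ≠ 0 := by
    rintro rfl
    rw [(lc_eq_zero_iff _).2 rfl] at hv1
    exact zero_ne_one hv1
  set L : Ble T (a + b + c₀) →ₗ[κ] Ble T (a + b + c₀) := B.constr κ F with hL
  have hLB : ∀ i, L (B i) = F i := fun i => B.constr_basis κ F i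
  have h1 : B.det F = LinearMap.det L := by
    have h2 := B.det_comp L B
    rw [B.det_self, mul_one] at h2
    rw [← h2]
    congr 1
    funext i
    exact (hLB i).symm
  rw [h1]
  -- the projection
  let g : Ble T (a + b + c₀) →ₗ[κ] (WB T ⧸ Ideal.span {v}) :=
    (Ideal.Quotient.mkₐ κ (Ideal.span {v})).toLinearMap.comp (Ble T (a + b + c₀)).subtype
  have hg : ∀ x : Ble T (a + b + c₀), g x = Ideal.Quotient.mk (Ideal.span {v}) (x : WB T) := fun x => rfl
  have hgs : Function.Surjective g := by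
    have key : ∀ m : ℕ, ∀ y : WB T, pord y ≤ m → ∃ x : Ble T (a + b + c₀), y - x ∈ (Ideal.span {v} : Ideal (WB T)) := by
      intro m
      induction m using Nat.strong_induction_on with
      | _ m ih =>
        intro y hy
        by_cases hy0 : y = 0
        · exact ⟨0, by rw [hy0]; simp⟩
        · by_cases h3 : ∀ t ∈ SO T, pord y ≠ b + t
          · refine ⟨⟨y, ?_⟩, by simp⟩
            rw [mem_Ble_iff]
            by_contra h4
            exact h3 (pord y - b) (hc₀ _ (by omega)) (by omega)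
          · push Not at h3
            obtain ⟨t, ht, hyt⟩ := h3
            have he0 : e t ≠ 0 := by
              intro h0
              have h5 := (he t ht).2
              rw [h0, (lc_eq_zero_iff _).2 rfl] at h5
              exact zero_ne_one h5
            have hmem : lc y • (v * e t) ∈ (Ideal.span {v} : Ideal (WB T)) := by
              rw [Algebra.smul_def]
              exact Ideal.mul_mem_left _ _ (Ideal.mul_mem_right _ _ (Ideal.mem_span_singleton_self v))
            by_cases hye : y = lc y • (v * e t)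
            · refine ⟨0, ?_⟩
              rw [hye]
              simpa using hmem
            · have h6 : pord (lc y • (v * e t)) = pord y := by
                rw [pord_smul (lc_ne hy0), pord_mul hv0 he0, hv, (he t ht).1, hyt]
              have h7 := pord_sub_lt h6.symm (by rw [lc_smul, lc_mul, hv1, (he t ht).2, mul_one, mul_one]) hye
              obtain ⟨x, hx⟩ := ih (pord (y - lc y • (v * e t))) (by omega) _ le_rfl
              refine ⟨x, ?_⟩
              have h8 := add_mem hx hmem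
              have h9 : y - lc y • (v * e t) - (x : WB T) + lc y • (v * e t) = y - x := by ring
              rwa [h9] at h8
    intro z
    obtain ⟨y, rfl⟩ := Ideal.Quotient.mk_surjective z
    obtain ⟨x, hx⟩ := key (pord y) y le_rfl
    refine ⟨x, ?_⟩
    rw [hg]
    exact (Ideal.Quotient.eq.2 hx).symm
  set W : Submodule κ (Ble T (a + b + c₀)) := LinearMap.ker g with hW
  have hWmem : ∀ x : Ble T (a + b + c₀), x ∈ W ↔ (x : WB T) ∈ (Ideal.span {v} : Ideal (WB T)) := by
    intro x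
    rw [hW, LinearMap.mem_ker, hg]
    exact Ideal.Quotient.eq_zero_iff_mem
  -- coordinates of the elements of `W`
  have hcoord : ∀ x ∈ W, ∀ s, B.repr x (Sum.inl s) = 0 := by
    intro x hx s₀
    by_contra hne
    set c : Ix T c₀ a b → κ := Sum.elim (fun s => B.repr x (Sum.inl s)) (fun _ => 0) with hc
    have hc0 : c ≠ 0 := fun h0 => hne (congrFun h0 (Sum.inl s₀))
    obtain ⟨i, hi, -, hp, -⟩ := hmon.sum c hc0
    have hmem : (∑ j, c j • b1 T c₀ a b e u v j) ∈ (Ideal.span {v} : Ideal (WB T)) := by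
      have h3 : (x : WB T) = ∑ j, B.repr x j • b1 T c₀ a b e u v j := by
        have h4 := congrArg Subtype.val (B.sum_repr x)
        rw [AddSubmonoidClass.coe_finsetSum] at h4
        rw [← h4]
        refine Finset.sum_congr rfl fun j _ => ?_
        rw [← hB]
        rfl
      have h5 : (∑ j, c j • b1 T c₀ a b e u v j) = (x : WB T) -
          ∑ j, (B.repr x j - c j) • b1 T c₀ a b e u v j := by
        rw [h3, ← Finset.sum_sub_distrib]
        refine Finset.sum_congr rfl fun j _ => ?_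
        rw [← sub_smul]
        congr 1
        ring
      rw [h5]
      refine sub_mem ((hWmem x).1 hx) (sum_mem fun j _ => ?_)
      rcases j with s | s | s
      · rw [hc]
        simp
      · rw [Algebra.smul_def]
        exact Ideal.mul_mem_left _ _ (Ideal.mul_mem_right _ _ (Ideal.mem_span_singleton_self v))
      · rw [Algebra.smul_def]
        refine Ideal.mul_mem_left _ _ ?_
        show u * v * e s.1 ∈ _
        exact Ideal.mul_mem_right _ _ (Ideal.mul_mem_left _ _ (Ideal.mem_span_singleton_self v))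
    rcases i with s | s
    · rw [Ideal.mem_span_singleton] at hmem
      obtain ⟨z, hz⟩ := hmem
      have hz0 : z ≠ 0 := by
        rintro rfl
        rw [mul_zero] at hz
        obtain ⟨i', hi', -, -, hl⟩ := hmon.sum c hc0
        rw [hz, (lc_eq_zero_iff _).2 rfl] at hl
        exact hi' hl.symm
      rw [hz, pord_mul hv0 hz0, hv] at hp
      exact (mem_Gp.1 s.2).2.2 (pord z) ⟨z, hz0, rfl⟩ hp.symm
    · exact hi rfl
  have hid : ∀ x ∈ W, L x = x := by
    intro x hx
    conv_lhs => rw [← B.sum_repr x]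
    conv_rhs => rw [← B.sum_repr x]
    rw [map_sum]
    refine Finset.sum_congr rfl fun j _ => ?_
    rw [map_smul, hLB]
    rcases j with s | s | s
    · rw [hcoord x hx s, zero_smul, zero_smul]
    · congr 1
      apply Subtype.ext
      rw [hF, hB]
      rfl
    · congr 1
      apply Subtype.ext
      rw [hF, hB]
      rfl
  have hle : W ≤ W.comap L := by
    intro x hx
    rw [Submodule.mem_comap, hid x hx]
    exact hx
  rw [LinearMap.det_eq_det_mul_det W L hle]
  have hr : LinearMap.restrict L (p := W) (q := W) hle = LinearMap.id := by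
    refine LinearMap.ext fun x => Subtype.ext ?_
    exact hid x.1 x.2
  rw [hr, LinearMap.det_id, one_mul]
  -- the quotient
  have hcomm : ∀ x : Ble T (a + b + c₀), g (L x) = Ideal.Quotient.mk (Ideal.span {v}) u * g x := by
    have h3 : g.comp L = (LinearMap.mulLeft κ (Ideal.Quotient.mk (Ideal.span {v}) u)).comp g := by
      refine B.ext fun i => ?_
      show g (L (B i)) = Ideal.Quotient.mk (Ideal.span {v}) u * g (B i)
      rw [hLB, hg, hg, hF, hB, ← map_mul]
      rcases i with s | s | s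
      · rfl
      · rw [Ideal.Quotient.eq]
        show v * e s.1 - u * (v * e s.1) ∈ _
        have h4 : v * e s.1 - u * (v * e s.1) = v * (e s.1 - u * e s.1) := by ring
        rw [h4]
        exact Ideal.mul_mem_right _ _ (Ideal.mem_span_singleton_self v)
      · rw [Ideal.Quotient.eq]
        show u * v * e s.1 - u * (u * v * e s.1) ∈ _
        have h4 : u * v * e s.1 - u * (u * v * e s.1) = v * (u * e s.1 - u * u * e s.1) := by ring
        rw [h4]
        exact Ideal.mul_mem_right _ _ (Ideal.mem_span_singleton_self v)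
    intro x
    exact congrArg (fun f => f x) h3
  let E : (Ble T (a + b + c₀) ⧸ W) ≃ₗ[κ] (WB T ⧸ Ideal.span {v}) := LinearMap.quotKerEquivOfSurjective g hgs
  have hE : ∀ x : Ble T (a + b + c₀), E (Submodule.Quotient.mk x) = g x := fun x => rfl
  rw [← LinearMap.det_conj (W.mapQ W L hle) E]
  congr 1
  refine LinearMap.ext fun z => ?_
  obtain ⟨w, rfl⟩ := E.surjective z
  obtain ⟨x, rfl⟩ := Submodule.Quotient.mk_surjective W w
  rw [LinearMap.comp_apply, LinearMap.comp_apply, LinearEquiv.coe_coe, LinearEquiv.coe_coe,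
    LinearEquiv.symm_apply_apply, Submodule.mapQ_apply, hE, hE, LinearMap.mulLeft_apply, hcomm]

end Pool.Agent.TIFS
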