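import Pool.Agent.TIFS.W7

/-!
# TIF-W8: the Kummer pairing and the Weil pairing
-/

set_option autoImplicit false
set_option linter.unusedSectionVars false

namespace Pool.Agent.TIFS

open GT Module
open SUP (len cls clm cls_mul exists_cls cls_span cls_eq_iff cls_eq_one_iff map_ne_bot clm_cls
  map_span_singleton len_mul len_top)

variable {d : ℕ} [NeZero d] {κ : Type} [Field κ] {T : Tab κ d}

/-- The data for the value of `f(P)^(1/N)`: `N • X` is the divisor of `f`, `Y` represents `y` with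
`y ^ N = P`. -/
structure KD [IsDedekindDomain (WB T)] (N : ℕ) (X : Multiset (Pt T)) (f : WB T) (P : Pt T)
    (y : ClassGroup (WB T)) (Y Z : Multiset (Pt T)) (u v : WB T) : Prop where
  lf : lc f = 1
  hf : iX (N • X) = Ideal.span {f}
  cY : cls (iX Y) = y
  lu : lc u = 1
  lv : lc v = 1
  hu : iX (N • Y + Z) = Ideal.span {u}
  hv : iX (P ::ₘ Z) = Ideal.span {v}
  dY : ∀ Q ∈ X, Q ∉ Y
  dZ : ∀ Q ∈ X, Q ∉ Z

/-- the value of `f(P)^(1/N)` -/
noncomputable def kv (N : ℕ) (X : Multiset (Pt T)) (f : WB T) (Y : Multiset (Pt T)) (u v : WB T) : κ :=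
  (-1) ^ (X.card * (N * Y.card + 1)) * ev f Y * ev v X / ev u X

section

variable [IsDedekindDomain (WB T)] [IsAlgClosed κ] {N : ℕ}

theorem KD.exists {X : Multiset (Pt T)} {f : WB T} (lf : lc f = 1) (hf : iX (N • X) = Ideal.span {f})
    (P : Pt T) {y : ClassGroup (WB T)} (hy : y ^ N = cls (RingHom.ker P)) :
    ∃ (Y Z : Multiset (Pt T)) (u v : WB T), KD N X f P y Y Z u v := by
  obtain ⟨Y, hY, hdis⟩ := exists_rep' y X
  obtain ⟨Z, u, hu, hYZ, hZ⟩ := avoid (iX_ne (N • Y)) X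
  rw [← iX_add] at hYZ
  have h1 : cls (iX (P ::ₘ Z)) = 1 := by
    rw [iX_cons, cls_mul (ker_ne_bot' P) (iX_ne Z), ← hy, ← hY, ← cls_iX_nsmul, ← cls_iX_add, hYZ,
      cls_span (ne_of_lc hu)]
  obtain ⟨v, hv, hPv⟩ := exists_gen (iX_ne (P ::ₘ Z)) h1
  exact ⟨Y, Z, u, v, lf, hf, hY, hu, hv, hYZ, hPv, fun Q hQ hQ' => hdis Q hQ' hQ,
    fun Q hQ hQ' => hZ Q hQ' hQ⟩

variable {X : Multiset (Pt T)} {f : WB T} {P : Pt T} {y : ClassGroup (WB T)}
  {Y Z : Multiset (Pt T)} {u v : WB T}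

theorem pord_of_iX {X : Multiset (Pt T)} {u : WB T} (hu : lc u = 1) (h : iX X = Ideal.span {u}) :
    pord u = X.card := (card_dv (ne_of_lc hu) h).symm

theorem KD.nu (h : KD N X f P y Y Z u v) : ev u X ≠ 0 := by
  intro h0
  obtain ⟨Q, hQ, h1⟩ := ev_eq_zero.1 h0
  rw [← mem_dv h.hu, Multiset.mem_add] at h1
  rcases h1 with h1 | h1
  · exact h.dY Q hQ (Multiset.mem_of_mem_nsmul h1)
  · exact h.dZ Q hQ h1

theorem KD.nfY (h : KD N X f P y Y Z u v) : ev f Y ≠ 0 := ev_ne_of h.hf h.dY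

theorem KD.nfZ (h : KD N X f P y Y Z u v) : ev f Z ≠ 0 := ev_ne_of h.hf h.dZ

theorem KD.pow (h : KD N X f P y Y Z u v) : kv N X f Y u v ^ N = P f := by
  have w1 := weil h.lf h.lu h.hf h.hu
  have w2 := weil h.lf h.lv h.hf h.hv
  rw [ev_nsmul, ev_add, ev_nsmul, pord_of_iX h.lf h.hf, pord_of_iX h.lu h.hu, Multiset.card_add,
    Multiset.card_nsmul, Multiset.card_nsmul] at w1
  rw [ev_nsmul, ev_cons, pord_of_iX h.lf h.hf, pord_of_iX h.lv h.hv, Multiset.card_cons,
    Multiset.card_nsmul] at w2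
  have n1 := h.nu
  have n2 := h.nfZ
  rw [kv, div_pow, mul_pow, mul_pow, div_eq_iff (pow_ne_zero N n1)]
  apply mul_right_cancel₀ n2
  have e1 : ((-1 : κ)) ^ (N * X.card * (N * Y.card + Z.card)) =
      ((-1) ^ (X.card * (N * Y.card + Z.card))) ^ N := by
    rw [← pow_mul]
    congr 1
    ring
  have e2 : ((-1 : κ)) ^ (N * X.card * (Z.card + 1)) = ((-1) ^ (X.card * (Z.card + 1))) ^ N := by
    rw [← pow_mul]
    congr 1
    ring
  rw [e1] at w1
  rw [e2] at w2
  -- `f(Y)^N f(Z) = s₁^N u(X)^N`, `f(P) f(Z) = s₂^N v(X)^N`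
  have q : ((-1 : κ)) ^ (X.card * (N * Y.card + 1)) * (-1) ^ (X.card * (N * Y.card + Z.card)) =
      (-1) ^ (X.card * (Z.card + 1)) := by
    rw [← pow_add]
    have e3 : X.card * (N * Y.card + 1) + X.card * (N * Y.card + Z.card) =
        2 * (X.card * N * Y.card) + X.card * (Z.card + 1) := by ring
    rw [e3, pow_add, pow_mul]
    simp
  calc ((-1) ^ (X.card * (N * Y.card + 1))) ^ N * ev f Y ^ N * ev v X ^ N * ev f Z
      = ((-1) ^ (X.card * (N * Y.card + 1))) ^ N * (ev f Y ^ N * ev f Z) * ev v X ^ N := by ring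
    _ = ((-1) ^ (X.card * (N * Y.card + 1)) * (-1) ^ (X.card * (N * Y.card + Z.card))) ^ N *
        ev u X ^ N * ev v X ^ N := by rw [w1, mul_pow]; ring
    _ = ((-1) ^ (X.card * (Z.card + 1))) ^ N * ev v X ^ N * ev u X ^ N := by rw [q]; ring
    _ = P f * ev f Z * ev u X ^ N := by rw [← w2]
    _ = P f * ev u X ^ N * ev f Z := by ring

/-- **The Kummer pairing is the Weil pairing.** -/
theorem KD.ratio (h : KD N X f P y Y Z u v) {y' : ClassGroup (WB T)} {Y' Z' : Multiset (Pt T)}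
    {u' v' : WB T} (h' : KD N X f P y' Y' Z' u' v') {t : ClassGroup (WB T)} (ht : y' = t * y)
    (htN : t ^ N = 1) : kv N X f Y' u' v' = e N (cls (iX X)) t * kv N X f Y u v := by
  obtain ⟨R, hR, hRX⟩ := exists_rep' t X
  obtain ⟨r, hr, hRr⟩ := exists_gen (iX_ne (N • R)) (by rw [cls_iX_nsmul, hR, htN])
  obtain ⟨Z₂, q, hq, hYq, hZ₂⟩ := avoid (iX_ne Y') X
  rw [← iX_add] at hYq
  have h1 : cls (iX (Y + R + Z₂)) = 1 := by
    rw [cls_iX_add, cls_iX_add, h.cY, hR, mul_comm y t, ← ht, ← h'.cY, ← cls_iX_add, hYq,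
      cls_span (ne_of_lc hq)]
  obtain ⟨p, hp, hYp⟩ := exists_gen (iX_ne (Y + R + Z₂)) h1
  -- the identity of functions
  have hid : q ^ N * r * u * v' = p ^ N * u' * v := by
    have a1 := pow_ne_zero N (ne_of_lc hq)
    apply eq_of_span_eq (mul_ne (mul_ne (mul_ne a1 (ne_of_lc hr)) (ne_of_lc h.lu)) (ne_of_lc h'.lv))
    · simp only [← Ideal.span_singleton_mul_span_singleton, ← Ideal.span_singleton_pow]
      rw [← hYq, ← hRr, ← h.hu, ← h'.hv, ← hYp, ← h'.hu, ← h.hv, ← iX_nsmul, ← iX_nsmul, ← iX_add,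
        ← iX_add, ← iX_add, ← iX_add, ← iX_add]
      congr 1
      rw [nsmul_add, nsmul_add, nsmul_add, ← Multiset.singleton_add, ← Multiset.singleton_add]
      abel
    · rw [lc_mul, lc_mul, lc_mul, lc_mul, lc_mul, lc_pow, lc_pow, hq, hp, hr, h.lu, h.lv, h'.lu,
        h'.lv]
      simp
  have hev := congrArg (fun w => ev w X) hid
  simp only [ev_mul, ev_pow] at hev
  -- reciprocity
  have w1 := weil h.lf hq h.hf hYq
  have w2 := weil h.lf hp h.hf hYp
  rw [ev_add, ev_nsmul, pord_of_iX h.lf h.hf, pord_of_iX hq hYq, Multiset.card_add,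
    Multiset.card_nsmul] at w1
  rw [ev_add, ev_add, ev_nsmul, pord_of_iX h.lf h.hf, pord_of_iX hp hYp, Multiset.card_add,
    Multiset.card_add, Multiset.card_nsmul] at w2
  have hD : Dat N (cls (iX X)) t X R f r := ⟨rfl, hR, h.lf, hr, h.hf, hRr,
    fun Q hQ hQ' => hRX Q hQ' hQ⟩
  rw [e_eq' hD, val]
  have n1 := h.nu
  have n2 := h'.nu
  have n3 := h.nfY
  have n4 := h'.nfY
  have n5 := hD.ne1
  have n6 := hD.ne2
  have n7 : ev f Z₂ ≠ 0 := ev_ne_of h.hf fun Q hQ hQ' => hZ₂ Q hQ' hQ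
  have n8 : ev q X ≠ 0 := by
    intro h0
    obtain ⟨Q, hQ, h2⟩ := ev_eq_zero.1 h0
    rw [← mem_dv hYq, Multiset.mem_add] at h2
    rcases h2 with h2 | h2
    · exact h'.dY Q hQ h2
    · exact hZ₂ Q h2 hQ
  have n9 : ev p X ≠ 0 := by
    intro h0
    obtain ⟨Q, hQ, h2⟩ := ev_eq_zero.1 h0
    rw [← mem_dv hYp, Multiset.mem_add, Multiset.mem_add] at h2
    rcases h2 with (h2 | h2) | h2
    · exact h.dY Q hQ h2
    · exact hRX Q h2 hQ
    · exact hZ₂ Q h2 hQ
  rw [kv, kv]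
  -- signs
  have s1 : ((-1 : κ)) ^ (N * X.card * (Y'.card + Z₂.card)) =
      (-1) ^ (N * X.card * Y'.card) * (-1) ^ (N * X.card * Z₂.card) := by
    rw [← pow_add]
    congr 1
    ring
  have s2 : ((-1 : κ)) ^ (N * X.card * (Y.card + R.card + Z₂.card)) =
      (-1) ^ (N * X.card * Y.card) * (-1) ^ (N * X.card * R.card) *
        (-1) ^ (N * X.card * Z₂.card) := by
    rw [← pow_add, ← pow_add]
    congr 1
    ring
  have s3 : ((-1 : κ)) ^ (X.card * (N * Y.card + 1)) =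
      (-1) ^ (N * X.card * Y.card) * (-1) ^ X.card := by
    rw [← pow_add]
    congr 1
    ring
  have s4 : ((-1 : κ)) ^ (X.card * (N * Y'.card + 1)) =
      (-1) ^ (N * X.card * Y'.card) * (-1) ^ X.card := by
    rw [← pow_add]
    congr 1
    ring
  rw [s1] at w1
  rw [s2] at w2
  rw [s3, s4]
  have k1 := neg_one_pow_mul_self' (κ := κ) (N * X.card * Y.card)
  have k2 := neg_one_pow_mul_self' (κ := κ) (N * X.card * Y'.card)
  have k3 := neg_one_pow_mul_self' (κ := κ) (N * X.card * R.card)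
  have k4 := neg_one_pow_mul_self' (κ := κ) (N * X.card * Z₂.card)
  generalize (-1 : κ) ^ (N * X.card * Y.card) = sY at *
  generalize (-1 : κ) ^ (N * X.card * Y'.card) = sY' at *
  generalize (-1 : κ) ^ (N * X.card * R.card) = sR at *
  generalize (-1 : κ) ^ (N * X.card * Z₂.card) = sZ at *
  generalize (-1 : κ) ^ X.card = sX at *
  generalize ev f Z₂ = fZ at *
  generalize ev f Y = fY at *
  generalize ev f Y' = fY' at *
  generalize ev f R = fR at *
  generalize ev r X = rX at *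
  generalize ev u X = uX at *
  generalize ev u' X = uX' at *
  generalize ev v X = vX at *
  generalize ev v' X = vX' at *
  generalize hqN : ev q X ^ N = qN at *
  generalize hpN : ev p X ^ N = pN at *
  have m1 : qN ≠ 0 := by rw [← hqN]; exact pow_ne_zero N n8
  have m2 : pN ≠ 0 := by rw [← hpN]; exact pow_ne_zero N n9
  rw [div_mul_div_comm, div_eq_div_iff n2 (mul_ne_zero n6 n1)]
  -- w1 : fY' * fZ = sY' * sZ * qN, w2 : fY * fR * fZ = sY * sR * sZ * pN
  -- hev : qN * rX * uX * vX' = pN * uX' * vX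
  apply mul_left_cancel₀ (mul_ne_zero n7 (mul_ne_zero m1 m2))
  have e1 : fZ * (qN * pN) * (sY' * sX * fY' * vX' * (rX * uX)) =
      sY' * sX * (fY' * fZ) * pN * (qN * rX * uX * vX') := by ring
  have e2 : fZ * (qN * pN) * (sR * fR * (sY * sX * fY * vX) * uX') =
      sR * sY * sX * (fY * fR * fZ) * qN * (pN * uX' * vX) := by ring
  rw [e1, e2, w1, w2, hev]
  have e3 : sY' * sX * (sY' * sZ * qN) * pN * (pN * uX' * vX) =
      (sY' * sY') * (sX * sZ * qN * pN * (pN * uX' * vX)) := by ring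
  have e4 : sR * sY * sX * (sY * sR * sZ * pN) * qN * (pN * uX' * vX) =
      (sY * sY) * (sR * sR) * (sX * sZ * qN * pN * (pN * uX' * vX)) := by ring
  rw [e3, e4, k1, k2, k3]
  ring

end

section

variable {κ' : Type} [Field κ'] {T' : Tab κ' d} [IsDedekindDomain (WB T)] [IsDedekindDomain (WB T')]

theorem KD.map (g : κ →+* κ') (hg : T.map g = T') {N : ℕ} {X : Multiset (Pt T)} {f : WB T} {P : Pt T}
    {y : ClassGroup (WB T)} {Y Z : Multiset (Pt T)} {u v : WB T} (h : KD N X f P y Y Z u v) :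
    KD N (X.map (bp g hg)) (bmap g hg f) (bp g hg P) (bcl g hg y) (Y.map (bp g hg))
      (Z.map (bp g hg)) (bmap g hg u) (bmap g hg v) where
  lf := by rw [lc_bmap g hg g.injective, h.lf, map_one]
  hf := by rw [← Multiset.map_nsmul, iX_map, h.hf, Ideal.map_span, Set.image_singleton]
  cY := by rw [← bcl_iX, h.cY]
  lu := by rw [lc_bmap g hg g.injective, h.lu, map_one]
  lv := by rw [lc_bmap g hg g.injective, h.lv, map_one]
  hu := by rw [← Multiset.map_nsmul, ← Multiset.map_add, iX_map, h.hu, Ideal.map_span,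
    Set.image_singleton]
  hv := by rw [← Multiset.map_cons, iX_map, h.hv, Ideal.map_span, Set.image_singleton]
  dY := by
    intro P hP hP'
    rw [Multiset.mem_map] at hP hP'
    obtain ⟨Q, hQ, rfl⟩ := hP
    obtain ⟨Q', hQ', h1⟩ := hP'
    rw [bp_inj g hg h1] at hQ'
    exact h.dY Q hQ hQ'
  dZ := by
    intro P hP hP'
    rw [Multiset.mem_map] at hP hP'
    obtain ⟨Q, hQ, rfl⟩ := hP
    obtain ⟨Q', hQ', h1⟩ := hP'
    rw [bp_inj g hg h1] at hQ'
    exact h.dZ Q hQ hQ'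

theorem kv_map (g : κ →+* κ') (hg : T.map g = T') (N : ℕ) (X : Multiset (Pt T)) (f : WB T)
    (Y : Multiset (Pt T)) (u v : WB T) :
    kv N (X.map (bp g hg)) (bmap g hg f) (Y.map (bp g hg)) (bmap g hg u) (bmap g hg v) =
      g (kv N X f Y u v) := by
  rw [kv, kv, ev_map, ev_map, ev_map, Multiset.card_map, Multiset.card_map, map_div₀, map_mul, map_mul,
    map_pow, map_neg, map_one]

end

end Pool.Agent.TIFS
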